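import Pool.Agent.MaxFn.Defs

/-! MODULE C.  Localisation of the centred ball maximal function to radii in [R,(n+1)R]
(greedy Vitali type selection, largest scale first). -/

set_option autoImplicit false

open MeasureTheory
open scoped ENNReal

namespace Pool.MaxFn

section Basic

variable {n : ℕ}

lemma bigSet_mono {f : EuclideanSpace ℝ (Fin n) → ℝ≥0∞} {D D' : Set ℝ} {s : ℝ≥0∞}
    (h : D ⊆ D') : bigSet n f D s ⊆ bigSet n f D' s :=
  fun _ ⟨r, hr, hx⟩ => ⟨r, h hr, hx⟩

lemma bigSet_iUnion {ι : Sort*} {f : EuclideanSpace ℝ (Fin n) → ℝ≥0∞} {D : ι → Set ℝ}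
    {s : ℝ≥0∞} : bigSet n f (⋃ i, D i) s = ⋃ i, bigSet n f (D i) s := by
  ext x
  simp only [bigSet, Set.mem_ofPred_eq, Set.mem_iUnion]
  constructor
  · rintro ⟨r, ⟨i, hi⟩, hx⟩
    exact ⟨i, r, hi, hx⟩
  · rintro ⟨i, r, hi, hx⟩
    exact ⟨r, ⟨i, hi⟩, hx⟩

lemma bigSet_union {f : EuclideanSpace ℝ (Fin n) → ℝ≥0∞} {D D' : Set ℝ}
    {s : ℝ≥0∞} : bigSet n f (D ∪ D') s = bigSet n f D s ∪ bigSet n f D' s := by
  ext x
  simp only [bigSet, Set.mem_ofPred_eq, Set.mem_union]
  constructor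
  · rintro ⟨r, hr | hr, hx⟩
    · exact Or.inl ⟨r, hr, hx⟩
    · exact Or.inr ⟨r, hr, hx⟩
  · rintro (⟨r, hr, hx⟩ | ⟨r, hr, hx⟩)
    · exact ⟨r, Or.inl hr, hx⟩
    · exact ⟨r, Or.inr hr, hx⟩

lemma bigSet_empty {f : EuclideanSpace ℝ (Fin n) → ℝ≥0∞} {s : ℝ≥0∞} :
    bigSet n f ∅ s = ∅ := by
  ext x; simp [bigSet]

/-- the union of the balls of a finite family -/
def balls (F : Finset (EuclideanSpace ℝ (Fin n) × ℝ)) : Set (EuclideanSpace ℝ (Fin n)) :=
  ⋃ p ∈ F, Metric.ball p.1 p.2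

lemma measurableSet_balls (F : Finset (EuclideanSpace ℝ (Fin n) × ℝ)) :
    MeasurableSet (balls F) :=
  Finset.measurableSet_biUnion F fun _ _ => measurableSet_ball

/-- greedy selection: a maximal admissible family -/
lemma exists_family (f : EuclideanSpace ℝ (Fin n) → ℝ≥0∞)
    (hfi : ∫⁻ x, f x ≠ ∞) (s : ℝ≥0∞) (hs : s ≠ 0) (hs' : s ≠ ∞) (R : ℝ) (hR : 0 < R) (W : Set ℝ)
    (hW : ∀ r ∈ W, R ≤ r) :
    ∃ F : Finset (EuclideanSpace ℝ (Fin n) × ℝ), (∀ p ∈ F, p.2 ∈ W) ∧
      ∑ p ∈ F, volume (Metric.ball p.1 p.2) ≤ 2 / s * ∫⁻ x in balls F, f x ∧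
      ∀ x, ∀ r ∈ W, ∫⁻ y in Metric.ball x r \ balls F, f y <
        s / 2 * volume (Metric.ball x r) := by
  classical
  let adm : Finset (EuclideanSpace ℝ (Fin n) × ℝ) → Prop := fun F =>
    (∀ p ∈ F, p.2 ∈ W) ∧ ∑ p ∈ F, volume (Metric.ball p.1 p.2) ≤ 2 / s * ∫⁻ x in balls F, f x
  let T : Set ℕ := {k | ∃ F, adm F ∧ F.card = k}
  have hT0 : T.Nonempty := ⟨0, ∅, ⟨by simp, by simp⟩, by simp⟩
  set v0 : ℝ≥0∞ := volume (Metric.ball (0 : EuclideanSpace ℝ (Fin n)) R) with hv0
  have hv0pos : v0 ≠ 0 := (Metric.measure_ball_pos volume _ hR).ne'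
  have hv0fin : v0 ≠ ∞ := measure_ball_lt_top.ne
  have hB : 2 / s * ∫⁻ x, f x ≠ ∞ :=
    ENNReal.mul_ne_top (ENNReal.div_ne_top (by norm_num) hs) hfi
  obtain ⟨K, hK⟩ := ENNReal.exists_nat_gt (ENNReal.div_ne_top hB hv0pos)
  have hTb : BddAbove T := by
    refine ⟨K, ?_⟩
    rintro k ⟨F, hF, rfl⟩
    have h1 : (F.card : ℝ≥0∞) * v0 ≤ 2 / s * ∫⁻ x, f x := by
      calc (F.card : ℝ≥0∞) * v0 = ∑ _p ∈ F, v0 := by simp
        _ ≤ ∑ p ∈ F, volume (Metric.ball p.1 p.2) := by
            refine Finset.sum_le_sum fun p hp => ?_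
            rw [hv0, ← Measure.addHaar_ball_center volume p.1]
            exact measure_mono (Metric.ball_subset_ball (hW _ (hF.1 p hp)))
        _ ≤ 2 / s * ∫⁻ x in balls F, f x := hF.2
        _ ≤ _ := by gcongr; exact Measure.restrict_le_self
    have h2 : (F.card : ℝ≥0∞) ≤ (2 / s * ∫⁻ x, f x) / v0 := by
      rw [ENNReal.le_div_iff_mul_le (Or.inl hv0pos) (Or.inl hv0fin)]
      exact h1
    have h3 : (F.card : ℝ≥0∞) < (K : ℝ≥0∞) := lt_of_le_of_lt h2 hK
    exact_mod_cast h3.le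
  obtain ⟨F, hF, hFc⟩ := Nat.sSup_mem hT0 hTb
  refine ⟨F, hF.1, hF.2, ?_⟩
  intro x r hr
  by_contra hcon
  rw [not_lt] at hcon
  have hrpos : 0 < r := lt_of_lt_of_le hR (hW r hr)
  have hvpos : volume (Metric.ball x r) ≠ 0 := (Metric.measure_ball_pos volume _ hrpos).ne'
  have hs2 : s / 2 ≠ 0 := by
    rw [Ne, ENNReal.div_eq_zero_iff]; push Not; exact ⟨hs, by norm_num⟩
  by_cases hmem : (x, r) ∈ F
  · have h1 : Metric.ball x r \ balls F = ∅ := by
      rw [Set.sdiff_eq_empty]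
      intro y hy
      simp only [balls, Set.mem_iUnion]
      exact ⟨(x, r), hmem, hy⟩
    rw [h1] at hcon
    simp only [Measure.restrict_empty, lintegral_zero_measure, nonpos_iff_eq_zero,
      mul_eq_zero] at hcon
    rcases hcon with h | h
    · exact hs2 h
    · exact hvpos h
  · have hadm : adm (insert (x, r) F) := by
      refine ⟨?_, ?_⟩
      · intro p hp
        rcases Finset.mem_insert.1 hp with rfl | hp
        · exact hr
        · exact hF.1 p hp
      · rw [Finset.sum_insert hmem]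
        have hU : balls (insert (x, r) F) = balls F ∪ (Metric.ball x r \ balls F) := by
          simp only [balls, Finset.set_biUnion_insert]
          rw [Set.union_sdiff_self, Set.union_comm]
        rw [hU, lintegral_union (measurableSet_ball.diff (measurableSet_balls F))
          Set.disjoint_sdiff_right, mul_add, add_comm]
        refine add_le_add hF.2 ?_
        calc volume (Metric.ball x r) = 2 / s * (s / 2 * volume (Metric.ball x r)) := by
              rw [← mul_assoc]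
              have : 2 / s * (s / 2) = 1 := by
                rw [ENNReal.div_eq_inv_mul, ENNReal.div_eq_inv_mul]
                rw [show s⁻¹ * 2 * (2⁻¹ * s) = (s⁻¹ * s) * (2 * 2⁻¹) by ring]
                rw [ENNReal.inv_mul_cancel hs hs', ENNReal.mul_inv_cancel (by norm_num)
                  (by norm_num), one_mul]
              rw [this, one_mul]
          _ ≤ _ := by gcongr
    have h1 : (insert (x, r) F).card ∈ T := ⟨_, hadm, rfl⟩
    have h2 := le_csSup hTb h1
    rw [Finset.card_insert_of_notMem hmem, ← hFc] at h2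
    omega

end Basic

/-- the windows -/
def win (n : ℕ) (i : ℤ) : Set ℝ := Set.Ico (((n : ℝ) + 1) ^ i) (((n : ℝ) + 1) ^ (i + 1))

lemma pow_le_three (n : ℕ) : (1 + 1 / ((n : ℝ) + 1)) ^ n ≤ 3 := by
  have h1 : 1 + 1 / ((n : ℝ) + 1) ≤ Real.exp (1 / ((n : ℝ) + 1)) := by
    have := Real.add_one_le_exp (1 / ((n : ℝ) + 1))
    linarith
  calc (1 + 1 / ((n : ℝ) + 1)) ^ n ≤ Real.exp (1 / ((n : ℝ) + 1)) ^ n :=
        pow_le_pow_left₀ (by positivity) h1 n
    _ = Real.exp (n * (1 / ((n : ℝ) + 1))) := by rw [← Real.exp_nat_mul]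
    _ ≤ Real.exp 1 := by
        apply Real.exp_le_exp.2
        rw [mul_one_div, div_le_one (by positivity)]
        linarith
    _ ≤ 3 := by
        have := Real.exp_one_lt_d9
        linarith

lemma windows (n : ℕ) (hn : 1 ≤ n) (G : ℝ≥0∞)
    (hloc : ∀ R : ℝ, 0 < R → ∀ f : EuclideanSpace ℝ (Fin n) → ℝ≥0∞, Measurable f →
      ∫⁻ x, f x ≠ ∞ → ∀ s : ℝ≥0∞, s ≠ 0 → s ≠ ∞ →
        volume (bigSet n f (Set.Icc R ((n + 1) * R)) s) ≤ G / s * ∫⁻ x, f x)
    (s : ℝ≥0∞) (hs : s ≠ 0) (hs' : s ≠ ∞) (I : Finset ℤ) :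
    (∀ i ∈ I, ∀ j ∈ I, i < j → i + 2 ≤ j) →
    ∀ f : EuclideanSpace ℝ (Fin n) → ℝ≥0∞, Measurable f → ∫⁻ x, f x ≠ ∞ →
    volume (bigSet n f (⋃ i ∈ I, win n i) s) ≤ (2 * (3 + G)) / s * ∫⁻ x, f x := by
  classical
  have hN1 : (1 : ℝ) < (n : ℝ) + 1 := by
    have : (1 : ℝ) ≤ n := by exact_mod_cast hn
    linarith
  have hN0 : (0 : ℝ) < (n : ℝ) + 1 := by linarith
  induction I using Finset.induction_on_max with
  | empty =>
    intro _ f _ _
    simp [bigSet_empty]
  | insert a I hmax ih =>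
    intro hsep f hf hfi
    have hsepI : ∀ i ∈ I, ∀ j ∈ I, i < j → i + 2 ≤ j := fun i hi j hj =>
      hsep i (Finset.mem_insert_of_mem hi) j (Finset.mem_insert_of_mem hj)
    set R : ℝ := ((n : ℝ) + 1) ^ a with hR
    have hRpos : 0 < R := zpow_pos hN0 a
    obtain ⟨F, hFW, hFs, hFx⟩ := exists_family f hfi s hs hs' R hRpos (win n a)
      (fun r hr => hr.1)
    set U := balls F with hU
    have hUm : MeasurableSet U := measurableSet_balls F
    -- the covering
    have hcov : bigSet n f (⋃ i ∈ insert a I, win n i) s ⊆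
        bigSet n (U.indicator f) (Set.Icc R ((n + 1) * R)) (s / 2) ∪
        (bigSet n (Uᶜ.indicator f) (⋃ i ∈ I, win n i) s ∪
          ⋃ p ∈ F, Metric.ball p.1 ((1 + 1 / ((n : ℝ) + 1)) * p.2)) := by
      rintro x ⟨r, hr, hx⟩
      rw [Finset.set_biUnion_insert] at hr
      rcases hr with hr | hr
      · left
        refine ⟨r, ⟨hr.1, ?_⟩, ?_⟩
        · have := hr.2.le
          rw [zpow_add_one₀ hN0.ne'] at this
          rw [mul_comm]; exact this
        · by_contra hcon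
          rw [not_lt, setLIntegral_indicator hUm, Set.inter_comm] at hcon
          have h1 := hFx x r hr
          have h2 : ∫⁻ y in Metric.ball x r, f y =
              (∫⁻ y in Metric.ball x r ∩ U, f y) + ∫⁻ y in Metric.ball x r \ U, f y :=
            (lintegral_inter_add_sdiff f _ hUm).symm
          have hvfin : volume (Metric.ball x r) ≠ ∞ := measure_ball_lt_top.ne
          have h3 : ∫⁻ y in Metric.ball x r, f y ≤
              s / 2 * volume (Metric.ball x r) + s / 2 * volume (Metric.ball x r) := by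
            rw [h2]; exact add_le_add hcon h1.le
          rw [← add_mul, ENNReal.add_halves] at h3
          exact absurd hx (not_lt.2 h3)
      · right
        simp only [Set.mem_iUnion] at hr
        obtain ⟨i, hi, hri⟩ := hr
        by_cases hmeet : ∃ p ∈ F, (Metric.ball x r ∩ Metric.ball p.1 p.2).Nonempty
        · right
          obtain ⟨p, hp, y, hy1, hy2⟩ := hmeet
          simp only [Set.mem_iUnion]
          refine ⟨p, hp, ?_⟩
          rw [Metric.mem_ball] at hy1 hy2 ⊢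
          have h1 : dist x p.1 < r + p.2 := by
            calc dist x p.1 ≤ dist x y + dist y p.1 := dist_triangle _ _ _
              _ < r + p.2 := by
                  rw [dist_comm x y]; linarith
          have h2 : p.2 ∈ win n a := hFW p hp
          have h3 : i + 2 ≤ a :=
            hsep i (Finset.mem_insert_of_mem hi) a (Finset.mem_insert_self _ _) (hmax i hi)
          have h4 : r * ((n : ℝ) + 1) ≤ p.2 := by
            calc r * ((n : ℝ) + 1) ≤ ((n : ℝ) + 1) ^ (i + 1) * ((n : ℝ) + 1) := by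
                  gcongr; exact hri.2.le
              _ = ((n : ℝ) + 1) ^ (i + 2) := by
                  rw [show i + 2 = (i + 1) + 1 by ring, zpow_add_one₀ hN0.ne' (i + 1)]
              _ ≤ ((n : ℝ) + 1) ^ a := zpow_le_zpow_right₀ hN1.le h3
              _ ≤ p.2 := h2.1
          have h5 : r ≤ p.2 / ((n : ℝ) + 1) := by
            rw [le_div_iff₀ hN0]; exact h4
          calc dist x p.1 < r + p.2 := h1
            _ ≤ p.2 / ((n : ℝ) + 1) + p.2 := by linarith
            _ = (1 + 1 / ((n : ℝ) + 1)) * p.2 := by ring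
        · left
          refine ⟨r, ?_, ?_⟩
          · simp only [Set.mem_iUnion]; exact ⟨i, hi, hri⟩
          · have hdisj : Metric.ball x r ⊆ Uᶜ := by
              intro y hy hyU
              rw [hU] at hyU
              simp only [balls, Set.mem_iUnion] at hyU
              obtain ⟨p, hp, hyp⟩ := hyU
              exact hmeet ⟨p, hp, y, hy, hyp⟩
            rw [setLIntegral_indicator hUm.compl, Set.inter_eq_right.2 hdisj]
            exact hx
    have hfiU : ∫⁻ x, U.indicator f x ≠ ∞ := by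
      rw [lintegral_indicator hUm]
      exact ne_top_of_le_ne_top hfi (setLIntegral_le_lintegral _ _)
    have hfiUc : ∫⁻ x, Uᶜ.indicator f x ≠ ∞ := by
      rw [lintegral_indicator hUm.compl]
      exact ne_top_of_le_ne_top hfi (setLIntegral_le_lintegral _ _)
    have hs2 : s / 2 ≠ 0 := by
      rw [Ne, ENNReal.div_eq_zero_iff]; push Not; exact ⟨hs, by norm_num⟩
    have hs2' : s / 2 ≠ ∞ := ENNReal.div_ne_top hs' (by norm_num)
    have hA := hloc R hRpos (U.indicator f) (hf.indicator hUm) hfiU (s / 2) hs2 hs2'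
    have hB := ih hsepI (Uᶜ.indicator f) (hf.indicator hUm.compl) hfiUc
    rw [lintegral_indicator hUm] at hA
    rw [lintegral_indicator hUm.compl] at hB
    have hC : volume (⋃ p ∈ F, Metric.ball p.1 ((1 + 1 / ((n : ℝ) + 1)) * p.2)) ≤
        3 * (2 / s * ∫⁻ x in U, f x) := by
      calc _ ≤ ∑ p ∈ F, volume (Metric.ball p.1 ((1 + 1 / ((n : ℝ) + 1)) * p.2)) :=
            measure_biUnion_finset_le _ _
        _ ≤ ∑ p ∈ F, 3 * volume (Metric.ball p.1 p.2) := by
            refine Finset.sum_le_sum fun p hp => ?_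
            rw [Measure.addHaar_ball_mul_of_pos volume p.1
              (by positivity : (0 : ℝ) < 1 + 1 / ((n : ℝ) + 1)) p.2, finrank_euclideanSpace_fin,
              ← Measure.addHaar_ball_center volume p.1 p.2]
            gcongr
            calc ENNReal.ofReal ((1 + 1 / ((n : ℝ) + 1)) ^ n) ≤ ENNReal.ofReal 3 :=
                  ENNReal.ofReal_le_ofReal (pow_le_three n)
              _ = 3 := by norm_num
        _ = 3 * ∑ p ∈ F, volume (Metric.ball p.1 p.2) := by rw [Finset.mul_sum]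
        _ ≤ _ := by gcongr
    have hsplit : ∫⁻ x, f x = (∫⁻ x in U, f x) + ∫⁻ x in Uᶜ, f x :=
      (lintegral_add_compl f hUm).symm
    have h2s : G / (s / 2) = 2 * G / s := by
      rw [ENNReal.div_eq_inv_mul, ENNReal.div_eq_inv_mul, ENNReal.div_eq_inv_mul,
        ENNReal.mul_inv (Or.inr hs') (Or.inr hs), inv_inv]
      ring
    calc volume (bigSet n f (⋃ i ∈ insert a I, win n i) s)
        ≤ volume (bigSet n (U.indicator f) (Set.Icc R ((n + 1) * R)) (s / 2)) +
          (volume (bigSet n (Uᶜ.indicator f) (⋃ i ∈ I, win n i) s) +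
            volume (⋃ p ∈ F, Metric.ball p.1 ((1 + 1 / ((n : ℝ) + 1)) * p.2))) := by
          refine (measure_mono hcov).trans ((measure_union_le _ _).trans ?_)
          gcongr
          exact measure_union_le _ _
      _ ≤ G / (s / 2) * (∫⁻ x in U, f x) + ((2 * (3 + G)) / s * (∫⁻ x in Uᶜ, f x) +
            3 * (2 / s * ∫⁻ x in U, f x)) := by gcongr
      _ = (2 * (3 + G)) / s * (∫⁻ x, f x) := by
          rw [hsplit, h2s]
          simp only [ENNReal.div_eq_inv_mul]
          ring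

theorem localize (n : ℕ) (hn : 1 ≤ n) (G : ℝ≥0∞)
    (hloc : ∀ R : ℝ, 0 < R → ∀ f : EuclideanSpace ℝ (Fin n) → ℝ≥0∞, Measurable f →
      ∫⁻ x, f x ≠ ∞ → ∀ s : ℝ≥0∞, s ≠ 0 → s ≠ ∞ →
        volume (bigSet n f (Set.Icc R ((n + 1) * R)) s) ≤ G / s * ∫⁻ x, f x)
    (f : EuclideanSpace ℝ (Fin n) → ℝ≥0∞) (hf : Measurable f) (hfi : ∫⁻ x, f x ≠ ∞)
    (s : ℝ≥0∞) (hs : s ≠ 0) (hs' : s ≠ ∞) :
    volume (bigSet n f (Set.Ioi 0) s) ≤ (4 * (3 + G)) / s * ∫⁻ x, f x := by
  classical
  have hN1 : (1 : ℝ) < (n : ℝ) + 1 := by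
    have : (1 : ℝ) ≤ n := by exact_mod_cast hn
    linarith
  -- windows of one parity
  let I : ℤ → ℕ → Finset ℤ := fun b k => (Finset.Icc (-(k : ℤ)) k).filter (fun i => i % 2 = b)
  have hpar : ∀ b : ℤ, volume (⋃ k : ℕ, bigSet n f (⋃ i ∈ I b k, win n i) s) ≤
      (2 * (3 + G)) / s * ∫⁻ x, f x := by
    intro b
    have hmono : Monotone fun k : ℕ => bigSet n f (⋃ i ∈ I b k, win n i) s := by
      intro k k' hkk'
      refine bigSet_mono ?_
      refine Set.biUnion_subset_biUnion_left ?_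
      intro i hi
      simp only [I, Finset.coe_filter, Finset.mem_Icc, Set.mem_ofPred_eq] at hi ⊢
      have : (k : ℤ) ≤ k' := by exact_mod_cast hkk'
      exact ⟨⟨by linarith [hi.1.1], by linarith [hi.1.2]⟩, hi.2⟩
    rw [hmono.measure_iUnion]
    refine iSup_le fun k => ?_
    refine windows n hn G hloc s hs hs' (I b k) ?_ f hf hfi
    intro i hi j hj hij
    simp only [I, Finset.mem_filter] at hi hj
    omega
  have hcov : bigSet n f (Set.Ioi 0) s ⊆
      (⋃ k : ℕ, bigSet n f (⋃ i ∈ I 0 k, win n i) s) ∪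
      (⋃ k : ℕ, bigSet n f (⋃ i ∈ I 1 k, win n i) s) := by
    rintro x ⟨r, hr, hx⟩
    obtain ⟨i, hi⟩ := exists_mem_Ico_zpow (show (0 : ℝ) < r from hr) hN1
    have key : ∀ b : ℤ, i % 2 = b → x ∈ ⋃ k : ℕ, bigSet n f (⋃ i ∈ I b k, win n i) s := by
      intro b hb
      simp only [Set.mem_iUnion]
      refine ⟨i.natAbs, r, ?_, hx⟩
      simp only [Set.mem_iUnion]
      refine ⟨i, ?_, hi⟩
      simp only [I, Finset.mem_filter, Finset.mem_Icc]
      exact ⟨⟨by omega, by omega⟩, hb⟩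
    rcases Int.emod_two_eq_zero_or_one i with h | h
    · exact Or.inl (key 0 h)
    · exact Or.inr (key 1 h)
  calc volume (bigSet n f (Set.Ioi 0) s) ≤ _ := measure_mono hcov
    _ ≤ _ := measure_union_le _ _
    _ ≤ (2 * (3 + G)) / s * (∫⁻ x, f x) + (2 * (3 + G)) / s * (∫⁻ x, f x) :=
        add_le_add (hpar 0) (hpar 1)
    _ = (4 * (3 + G)) / s * (∫⁻ x, f x) := by
        simp only [ENNReal.div_eq_inv_mul]
        ring

end Pool.MaxFn
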