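import Pool.Agent.MaxFn.Level

/-!
The polylogarithmic bound (MP_a6dc0c_an).
-/

set_option autoImplicit false

open MeasureTheory Metric
open scoped ENNReal

namespace Pool.MaxFn

section

variable (n : ℕ) (R : ℝ) (f : EuclideanSpace ℝ (Fin n) → ℝ≥0∞) (s : ℝ≥0∞) (p : ℕ)

/-- the superlevel set of the maximum over the radii `rad j`, `j <= n` -/
def mx : Set (EuclideanSpace ℝ (Fin n)) := {x | ∃ j ≤ n, s * vb n R j < mb n R f x j}

theorem mx_sub (hR : 0 < R) (hfi : ∫⁻ x, f x ≠ ∞) (hs : s ≠ 0) :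
    mx n R f s ⊆ ⋃ i : ℕ, lev n R f (2 ^ i * s) := by
  rintro x ⟨j0, hj0, hx⟩
  have hex : ∃ i : ℕ, ∀ j ≤ n, mb n R f x j ≤ 2 * (2 ^ i * s) * vb n R j := by
    have h1 : ∀ j, ∃ i : ℕ, mb n R f x j ≤ 2 * (2 ^ i * s) * vb n R j := by
      intro j
      have hne : s * vb n R j ≠ 0 := mul_ne_zero hs (vb_ne_zero n R hR j)
      have hmt : mb n R f x j / (s * vb n R j) ≠ ∞ :=
        ENNReal.div_ne_top (ne_top_of_le_ne_top hfi (setLIntegral_le_lintegral _ _)) hne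
      obtain ⟨k, hk⟩ := ENNReal.exists_nat_gt hmt
      refine ⟨k, ?_⟩
      by_cases hst : s * vb n R j = ∞
      · have : 2 * (2 ^ k * s) * vb n R j = 2 * 2 ^ k * (s * vb n R j) := by ring
        rw [this, hst, ENNReal.mul_top (by positivity)]
        exact le_top
      · have h2 : mb n R f x j < k * (s * vb n R j) :=
          (ENNReal.div_lt_iff (Or.inl hne) (Or.inl hst)).1 hk
        refine h2.le.trans ?_
        have h3 : (k : ℝ≥0∞) ≤ 2 * 2 ^ k := by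
          have : k ≤ 2 * 2 ^ k := by
            have := Nat.lt_two_pow_self (n := k)
            omega
          exact_mod_cast this
        calc (k : ℝ≥0∞) * (s * vb n R j) ≤ (2 * 2 ^ k) * (s * vb n R j) := by gcongr
          _ = _ := by ring
    choose g hg using h1
    refine ⟨∑ j ∈ Finset.range (n + 1), g j, fun j hj => (hg j).trans ?_⟩
    gcongr
    · norm_num
    · exact Finset.single_le_sum (f := g) (fun _ _ => Nat.zero_le _)
        (Finset.mem_range.2 (by omega))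
  classical
  obtain ⟨i, hi, hmin⟩ : ∃ i : ℕ, (∀ j ≤ n, mb n R f x j ≤ 2 * (2 ^ i * s) * vb n R j) ∧
      ∀ k < i, ¬ ∀ j ≤ n, mb n R f x j ≤ 2 * (2 ^ k * s) * vb n R j :=
    ⟨Nat.find hex, Nat.find_spec hex, fun k hk => Nat.find_min hex hk⟩
  refine Set.mem_iUnion.2 ⟨i, ?_, hi⟩
  cases i with
  | zero => exact ⟨j0, hj0, by simpa using hx⟩
  | succ k =>
    have h1 := hmin k (by omega)
    push Not at h1
    obtain ⟨j, hj, h2⟩ := h1
    refine ⟨j, hj, ?_⟩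
    calc 2 ^ (k + 1) * s * vb n R j = 2 * (2 ^ k * s) * vb n R j := by rw [pow_succ]; ring
      _ < _ := h2

theorem mx_bound (hn : 4 ≤ n) (hR : 0 < R) (hf : Measurable f) (hfi : ∫⁻ x, f x ≠ ∞)
    (hs : s ≠ 0) (hs' : s ≠ ∞) (hp : 1 ≤ p) (hpn : 16 * n ^ 2 ≤ 2 ^ p) (h4 : 4 * p ≤ n) :
    volume (mx n R f s) ≤ 2 * (700000000000000 * (p : ℝ≥0∞) ^ 3 * (∫⁻ x, f x)) / s := by
  set C := 700000000000000 * (p : ℝ≥0∞) ^ 3 * (∫⁻ x, f x) with hC
  have h1 : ∀ i : ℕ, volume (lev n R f (2 ^ i * s)) ≤ C / s * (2⁻¹) ^ i := by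
    intro i
    have hne : (2 : ℝ≥0∞) ^ i * s ≠ 0 := mul_ne_zero (by positivity) hs
    have hnt : (2 : ℝ≥0∞) ^ i * s ≠ ∞ := ENNReal.mul_ne_top (by simp) hs'
    have h2 := level_bound n R f (2 ^ i * s) p hn hR hf hfi hne hnt hp hpn h4
    rw [← hC] at h2
    have h3 : volume (lev n R f (2 ^ i * s)) ≤ C / (2 ^ i * s) := by
      rw [ENNReal.le_div_iff_mul_le (Or.inl hne) (Or.inl hnt), mul_comm]
      exact h2
    refine h3.trans (le_of_eq ?_)
    rw [ENNReal.div_eq_inv_mul, ENNReal.div_eq_inv_mul, ENNReal.mul_inv (Or.inl (by positivity))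
      (Or.inl (by simp)), ENNReal.inv_pow]
    ring
  calc _ ≤ volume (⋃ i : ℕ, lev n R f (2 ^ i * s)) := measure_mono (mx_sub n R f s hR hfi hs)
    _ ≤ ∑' i : ℕ, volume (lev n R f (2 ^ i * s)) := measure_iUnion_le _
    _ ≤ ∑' i : ℕ, C / s * (2⁻¹) ^ i := ENNReal.tsum_le_tsum h1
    _ = C / s * 2 := by
        rw [ENNReal.tsum_mul_left, ENNReal.tsum_geometric, ENNReal.one_sub_inv_two, inv_inv]
    _ = _ := by
        rw [ENNReal.div_eq_inv_mul, ENNReal.div_eq_inv_mul]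
        ring

theorem octave_sub (hn : 4 ≤ n) (hR : 0 < R) (hs' : s ≠ ∞) :
    bigSet n f (Set.Icc R (Real.sqrt 2 * R)) s ⊆ mx n R f (s / 2) := by
  have hn0 : (0 : ℝ) < n := by exact_mod_cast (by omega : 0 < n)
  rintro x ⟨r, ⟨hr1, hr2⟩, hx⟩
  have hr0 : 0 < r := hR.trans_le hr1
  -- index j with rad j <= r <= rad (j+1)
  obtain ⟨j, hj, hj1, hj2⟩ : ∃ j, j + 1 ≤ n ∧ rad n R j ≤ r ∧ r ≤ rad n R (j + 1) := by
    have hr2' : r ^ 2 ≤ 2 * R ^ 2 := by
      have h := pow_le_pow_left₀ hr0.le hr2 2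
      rw [mul_pow, Real.sq_sqrt (by norm_num)] at h
      exact h
    have hr1' : R ^ 2 ≤ r ^ 2 := pow_le_pow_left₀ hR.le hr1 2
    set a : ℝ := n * (r ^ 2 / R ^ 2 - 1) with ha
    have ha0 : 0 ≤ a := by
      have : 1 ≤ r ^ 2 / R ^ 2 := by rw [one_le_div (by positivity)]; exact hr1'
      have : 0 ≤ r ^ 2 / R ^ 2 - 1 := by linarith
      positivity
    have han : a ≤ n := by
      have : r ^ 2 / R ^ 2 ≤ 2 := by rw [div_le_iff₀ (by positivity)]; exact hr2'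
      nlinarith
    have hra : r ^ 2 = R ^ 2 * (1 + a / n) := by
      rw [ha]
      field_simp
      ring
    by_cases hfl : ⌊a⌋₊ + 1 ≤ n
    · refine ⟨⌊a⌋₊, hfl, ?_, ?_⟩
      · apply (sq_le_sq₀ (rad_pos n R hR _).le hr0.le).1
        rw [rad_sq n (by omega), hra]
        have := Nat.floor_le ha0
        gcongr
      · apply (sq_le_sq₀ hr0.le (rad_pos n R hR _).le).1
        rw [rad_sq n (by omega), hra]
        have := (Nat.lt_floor_add_one a).le
        push_cast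
        gcongr
    · have han' : a = n := by
        apply le_antisymm han
        have h1 : n ≤ ⌊a⌋₊ := by omega
        have h2 : (n : ℝ) ≤ ⌊a⌋₊ := by exact_mod_cast h1
        exact h2.trans (Nat.floor_le ha0)
      have hc : ((n - 1 : ℕ) : ℝ) ≤ n := by exact_mod_cast Nat.sub_le n 1
      refine ⟨n - 1, by omega, ?_, ?_⟩
      · apply (sq_le_sq₀ (rad_pos n R hR _).le hr0.le).1
        rw [rad_sq n (by omega), hra, han']
        gcongr
      · apply (sq_le_sq₀ hr0.le (rad_pos n R hR _).le).1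
        rw [rad_sq n (by omega), hra, han', Nat.sub_add_cancel (by omega)]
  refine ⟨j + 1, hj, ?_⟩
  have h1 : vb n R j ≤ volume (ball x r) := by
    rw [vb, ← Measure.addHaar_ball_center volume x]
    exact measure_mono (ball_subset_ball hj1)
  have h2 : ∫⁻ y in ball x r, f y ≤ mb n R f x (j + 1) :=
    lintegral_mono_set (ball_subset_ball hj2)
  have h3 := vb_succ_le n (by omega) R hR j
  have h4 : ENNReal.ofReal (Real.exp (1 / 2)) ≤ 2 := by
    rw [show (2 : ℝ≥0∞) = ENNReal.ofReal 2 by simp]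
    apply ENNReal.ofReal_le_ofReal
    have h10 : Real.exp (1 / 2) ^ 2 = Real.exp 1 := by
      rw [← Real.exp_nat_mul]
      norm_num
    have h11 := Real.exp_one_lt_d9
    nlinarith [Real.exp_pos (1 / 2 : ℝ)]
  calc s / 2 * vb n R (j + 1) ≤ s / 2 * (2 * vb n R j) := by
        gcongr
        exact h3.trans (by gcongr)
    _ = s * vb n R j := by
        rw [← mul_assoc, ENNReal.div_mul_cancel (by norm_num) (by norm_num)]
    _ ≤ s * volume (ball x r) := by gcongr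
    _ < _ := hx
    _ ≤ _ := h2

theorem octave_bound (hn : 4 ≤ n) (hR : 0 < R) (hf : Measurable f) (hfi : ∫⁻ x, f x ≠ ∞)
    (hs : s ≠ 0) (hs' : s ≠ ∞) (hp : 1 ≤ p) (hpn : 16 * n ^ 2 ≤ 2 ^ p) (h4 : 4 * p ≤ n) :
    volume (bigSet n f (Set.Icc R (Real.sqrt 2 * R)) s) ≤
      2800000000000000 * (p : ℝ≥0∞) ^ 3 / s * ∫⁻ x, f x := by
  have h2 : s / 2 ≠ 0 := (ENNReal.half_pos hs).ne'
  have h3 : s / 2 ≠ ∞ := ENNReal.div_ne_top hs' (by norm_num)
  refine (measure_mono (octave_sub n R f s hn hR hs')).trans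
    ((mx_bound n R f (s / 2) p hn hR hf hfi h2 h3 hp hpn h4).trans (le_of_eq ?_))
  have e : (s / 2)⁻¹ = 2 * s⁻¹ := by
    rw [ENNReal.inv_div (Or.inl (by norm_num)) (Or.inl (by norm_num)), div_eq_mul_inv]
  rw [div_eq_mul_inv, e, div_eq_mul_inv]
  ring

theorem cover_bound (hn : 4 ≤ n) (hR : 0 < R) (hf : Measurable f) (hfi : ∫⁻ x, f x ≠ ∞)
    (hs : s ≠ 0) (hs' : s ≠ ∞) (hp : 1 ≤ p) (hpn : 16 * n ^ 2 ≤ 2 ^ p) (h4 : 4 * p ≤ n) :
    volume (bigSet n f (Set.Icc R ((n + 1) * R)) s) ≤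
      (2800000000000000 * (p : ℝ≥0∞) ^ 4) / s * ∫⁻ x, f x := by
  have hs2 : 0 < Real.sqrt 2 := by positivity
  have hs21 : 1 < Real.sqrt 2 := by
    rw [Real.lt_sqrt (by norm_num)]
    norm_num
  have hsub : bigSet n f (Set.Icc R ((n + 1) * R)) s ⊆ ⋃ i ∈ Finset.range p,
      bigSet n f (Set.Icc (Real.sqrt 2 ^ i * R) (Real.sqrt 2 * (Real.sqrt 2 ^ i * R))) s := by
    rintro x ⟨r, ⟨hr1, hr2⟩, hx⟩
    have hq : 1 ≤ r / R := by rw [one_le_div hR]; exact hr1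
    obtain ⟨i, hi1, hi2⟩ := exists_nat_pow_near hq hs21
    rw [le_div_iff₀ hR] at hi1
    rw [div_lt_iff₀ hR] at hi2
    have hip : i < p := by
      have h1 : Real.sqrt 2 ^ i * R ≤ (n + 1) * R := hi1.trans hr2
      have h2 : Real.sqrt 2 ^ i ≤ n + 1 := le_of_mul_le_mul_right h1 hR
      have h3 : (2 : ℝ) ^ i ≤ (n + 1) ^ 2 := by
        have := pow_le_pow_left₀ (by positivity) h2 2
        rwa [← pow_mul, mul_comm, pow_mul, Real.sq_sqrt (by norm_num)] at this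
      have h5 : (2 : ℝ) ^ i < 2 ^ p := by
        have h6 : (16 : ℝ) * n ^ 2 ≤ 2 ^ p := by exact_mod_cast hpn
        have h7 : (4 : ℝ) ≤ n := by exact_mod_cast hn
        nlinarith
      exact (pow_lt_pow_iff_right₀ (by norm_num)).1 h5
    simp only [Set.mem_iUnion]
    refine ⟨i, Finset.mem_range.2 hip, r, ⟨hi1, ?_⟩, hx⟩
    rw [pow_succ] at hi2
    have e : Real.sqrt 2 * (Real.sqrt 2 ^ i * R) = Real.sqrt 2 ^ i * Real.sqrt 2 * R := by ring
    rw [e]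
    exact hi2.le
  calc _ ≤ volume (⋃ i ∈ Finset.range p,
      bigSet n f (Set.Icc (Real.sqrt 2 ^ i * R) (Real.sqrt 2 * (Real.sqrt 2 ^ i * R))) s) :=
        measure_mono hsub
    _ ≤ ∑ i ∈ Finset.range p, volume (bigSet n f (Set.Icc (Real.sqrt 2 ^ i * R)
        (Real.sqrt 2 * (Real.sqrt 2 ^ i * R))) s) := measure_biUnion_finset_le _ _
    _ ≤ ∑ i ∈ Finset.range p, 2800000000000000 * (p : ℝ≥0∞) ^ 3 / s * ∫⁻ x, f x :=
        Finset.sum_le_sum fun i _ => octave_bound n _ f s p hn (by positivity) hf hfi hs hs' hp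
          hpn h4
    _ = _ := by
        rw [Finset.sum_const, Finset.card_range, nsmul_eq_mul, ENNReal.div_eq_inv_mul,
          ENNReal.div_eq_inv_mul]
        ring

end

/-- the parameter `p` -/
def pp (n : ℕ) : ℕ := 6 + 2 * Nat.log 2 n

theorem pp_spec (n : ℕ) (hn : 1 ≤ n) : 16 * n ^ 2 ≤ 2 ^ pp n := by
  have h4 : n < 2 ^ (Nat.log 2 n + 1) := Nat.lt_pow_succ_log_self (by norm_num) n
  set q := 2 ^ Nat.log 2 n with hq
  have h5 : 2 ^ pp n = 64 * q ^ 2 := by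
    rw [pp, pow_add, hq, ← pow_mul]
    norm_num
    ring
  rw [pow_succ, ← hq] at h4
  rw [h5]
  nlinarith

theorem pp_le (n : ℕ) : (pp n : ℝ) ≤ 6 * (1 + Real.log n) := by
  have h1 : (Nat.log 2 n : ℝ) ≤ Real.log n / Real.log 2 := by
    have := Real.natLog_le_logb n 2
    simpa [Real.logb] using this
  have h2 : (0.6931471803 : ℝ) < Real.log 2 := Real.log_two_gt_d9
  have h3 : 0 ≤ Real.log n := Real.log_natCast_nonneg n
  have h4 : Real.log n / Real.log 2 ≤ 1.5 * Real.log n := by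
    rw [div_le_iff₀ (by linarith)]
    nlinarith
  rw [pp]
  push_cast
  linarith

theorem polylog_large (n : ℕ) (hn : 4 * pp n ≤ n)
    (f : EuclideanSpace ℝ (Fin n) → ℝ≥0∞) (hf : Measurable f) (hfi : ∫⁻ x, f x ≠ ∞)
    (s : ℝ) (hs : 0 < s) :
    volume (bigSet n f (Set.Ioi 0) (ENNReal.ofReal s)) ≤
      ENNReal.ofReal (10 ^ 20 * (1 + Real.log n) ^ 4 / s) * ∫⁻ x, f x := by
  have hp6 : 6 ≤ pp n := by
    rw [pp]
    omega
  have hn4 : 4 ≤ n := by omega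
  have h := localize n (by omega) (2800000000000000 * (pp n : ℝ≥0∞) ^ 4)
    (fun R hR f hf hfi s hs hs' => cover_bound n R f s (pp n) hn4 hR hf hfi hs hs' (by omega)
      (pp_spec n (by omega)) hn)
    f hf hfi (ENNReal.ofReal s) (by simpa using hs) ENNReal.ofReal_ne_top
  refine h.trans ?_
  gcongr
  have h1 := pp_le n
  have h3 : 0 ≤ Real.log n := Real.log_natCast_nonneg n
  have e1 : (4 : ℝ≥0∞) * (3 + 2800000000000000 * (pp n : ℝ≥0∞) ^ 4) =
      ENNReal.ofReal (4 * (3 + 2800000000000000 * (pp n : ℝ) ^ 4)) := by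
    rw [ENNReal.ofReal_mul (by norm_num), ENNReal.ofReal_add (by norm_num) (by positivity),
      ENNReal.ofReal_mul (by norm_num), ENNReal.ofReal_pow (by positivity),
      ENNReal.ofReal_natCast]
    simp
  rw [e1, ← ENNReal.ofReal_div_of_pos hs]
  apply ENNReal.ofReal_le_ofReal
  apply div_le_div_of_nonneg_right _ hs.le
  have h5 : (pp n : ℝ) ^ 4 ≤ (6 * (1 + Real.log n)) ^ 4 := by gcongr
  have h6 : (1 : ℝ) ≤ (1 + Real.log n) ^ 4 := one_le_pow₀ (by linarith)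
  nlinarith

theorem polylog_small (n : ℕ) (hn1 : 1 ≤ n) (hn : n < 4 * pp n)
    (f : EuclideanSpace ℝ (Fin n) → ℝ≥0∞) (hf : Measurable f) (hfi : ∫⁻ x, f x ≠ ∞)
    (s : ℝ) (hs : 0 < s) :
    volume (bigSet n f (Set.Ioi 0) (ENNReal.ofReal s)) ≤
      ENNReal.ofReal (10 ^ 20 * (1 + Real.log n) ^ 4 / s) * ∫⁻ x, f x := by
  refine (global_bound n hn1 f hf hfi s hs).trans ?_
  refine mul_le_mul_left (ENNReal.ofReal_le_ofReal (div_le_div_of_nonneg_right ?_ hs.le)) _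
  have h1 := pp_le n
  have h3 : 0 ≤ Real.log n := Real.log_natCast_nonneg n
  have hn' : (n : ℝ) < 4 * pp n := by exact_mod_cast hn
  have hn1' : (1 : ℝ) ≤ n := by exact_mod_cast hn1
  have hsq : Real.sqrt n ≤ n := by
    apply Real.sqrt_le_iff.2
    constructor
    · linarith
    · nlinarith
  set L := 1 + Real.log n with hL
  have hL1 : 1 ≤ L := by linarith
  have h4 : Real.sqrt n ≤ 24 * L := by linarith
  have h5 : L ^ 2 ≤ L ^ 4 := pow_le_pow_right₀ hL1 (by norm_num)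
  have h6 : Real.sqrt n * L ≤ 24 * L * L := by gcongr
  have h7 : 0 ≤ L ^ 4 := by positivity
  nlinarith

theorem polylog : ∃ C : ℝ, 0 < C ∧ ∀ n : ℕ, 1 ≤ n →
    ∀ f : EuclideanSpace ℝ (Fin n) → ℝ, Integrable f →
      ∀ s : ℝ, 0 < s →
        volume {x : EuclideanSpace ℝ (Fin n) |
            ENNReal.ofReal s <
              ⨆ r : ℝ, ⨆ (_ : 0 < r),
                (volume (Metric.ball x r))⁻¹ * ∫⁻ y in Metric.ball x r, ‖f y‖ₑ}
          ≤ ENNReal.ofReal (C * (1 + Real.log n) ^ 4 / s) * ∫⁻ y, ‖f y‖ₑ := by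
  refine ⟨10 ^ 20, by norm_num, fun n hn f hf s hs => ?_⟩
  set g : EuclideanSpace ℝ (Fin n) → ℝ := hf.1.mk f with hg
  have hfg : f =ᵐ[volume] g := hf.1.ae_eq_mk
  have hgm : Measurable (fun x => ‖g x‖ₑ) := hf.1.stronglyMeasurable_mk.measurable.enorm
  have hfg' : (fun x => ‖f x‖ₑ) =ᵐ[volume] fun x => ‖g x‖ₑ := hfg.mono fun x hx => by simp [hx]
  have hI : ∫⁻ x, ‖f x‖ₑ = ∫⁻ x, ‖g x‖ₑ := lintegral_congr_ae hfg'
  have hIt : ∫⁻ x, ‖g x‖ₑ ≠ ∞ := by
    rw [← hI]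
    exact hf.2.ne
  have h : volume (bigSet n (fun x => ‖g x‖ₑ) (Set.Ioi 0) (ENNReal.ofReal s)) ≤
      ENNReal.ofReal (10 ^ 20 * (1 + Real.log n) ^ 4 / s) * ∫⁻ x, ‖g x‖ₑ := by
    by_cases hc : 4 * pp n ≤ n
    · exact polylog_large n hc _ hgm hIt s hs
    · exact polylog_small n hn (not_le.1 hc) _ hgm hIt s hs
  rw [hI]
  refine (measure_mono ?_).trans h
  intro x hx
  simp only [Set.mem_ofPred_eq] at hx
  obtain ⟨r, hr⟩ := lt_iSup_iff.1 hx
  obtain ⟨hr0, hr1⟩ := lt_iSup_iff.1 hr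
  refine ⟨r, hr0, ?_⟩
  have hv0 : volume (Metric.ball x r) ≠ 0 := (Metric.measure_ball_pos _ _ hr0).ne'
  have hvt : volume (Metric.ball x r) ≠ ∞ := measure_ball_lt_top.ne
  have e : ∫⁻ y in Metric.ball x r, ‖f y‖ₑ = ∫⁻ y in Metric.ball x r, ‖g y‖ₑ :=
    lintegral_congr_ae (ae_restrict_of_ae hfg')
  rw [e] at hr1
  by_contra hcon
  push Not at hcon
  apply absurd hr1
  rw [not_lt, mul_comm, ← ENNReal.div_eq_inv_mul.trans (mul_comm _ _)]
  exact ENNReal.div_le_of_le_mul hcon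

end Pool.MaxFn
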