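import Pool.Agent.MaxFn.Defs

/-! Heat semigroup on Euclidean space (module B of MP_a6dc0c_an). -/

set_option autoImplicit false

open MeasureTheory
open scoped ENNReal

namespace Pool.MaxFn

/-! ### The kernel -/

lemma heatK_nonneg (n : ℕ) {t : ℝ} (ht : 0 < t) (x : EuclideanSpace ℝ (Fin n)) :
    0 ≤ heatK n t x := by
  unfold heatK
  have : 0 < 4 * Real.pi * t := by positivity
  positivity

lemma heatK_continuous (n : ℕ) (t : ℝ) : Continuous (heatK n t) := by
  unfold heatK
  fun_prop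

lemma heatK_neg (n : ℕ) (t : ℝ) (x : EuclideanSpace ℝ (Fin n)) : heatK n t (-x) = heatK n t x := by
  simp [heatK]

lemma heatK_comm (n : ℕ) (t : ℝ) (x y : EuclideanSpace ℝ (Fin n)) :
    heatK n t (x - y) = heatK n t (y - x) := by
  rw [← heatK_neg, neg_sub]

/-- Gaussian integral in `ENNReal` form. -/
lemma lintegral_gauss (n : ℕ) {a : ℝ} (ha : 0 < a) (w : EuclideanSpace ℝ (Fin n)) :
    ∫⁻ y, ENNReal.ofReal (Real.exp (-(a * ‖y - w‖ ^ 2))) =
      ENNReal.ofReal ((Real.pi / a) ^ ((n : ℝ) / 2)) := by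
  have h0 : ∫ v : EuclideanSpace ℝ (Fin n), Real.exp (-a * ‖v‖ ^ 2) =
      (Real.pi / a) ^ ((n : ℝ) / 2) := by
    have := GaussianFourier.integral_rexp_neg_mul_sq_norm (V := EuclideanSpace ℝ (Fin n)) ha
    simpa using this
  have hint : Integrable (fun v : EuclideanSpace ℝ (Fin n) => Real.exp (-a * ‖v‖ ^ 2)) := by
    apply Integrable.of_integral_ne_zero
    rw [h0]
    have : 0 < Real.pi / a := by positivity
    positivity
  have h1 : ∫⁻ v : EuclideanSpace ℝ (Fin n), ENNReal.ofReal (Real.exp (-a * ‖v‖ ^ 2)) =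
      ENNReal.ofReal ((Real.pi / a) ^ ((n : ℝ) / 2)) := by
    rw [← h0, ofReal_integral_eq_lintegral_ofReal hint
      (Filter.Eventually.of_forall fun v => (Real.exp_pos _).le)]
  rw [← h1, ← lintegral_sub_right_eq_self
    (fun v : EuclideanSpace ℝ (Fin n) => ENNReal.ofReal (Real.exp (-a * ‖v‖ ^ 2))) w]
  simp only [neg_mul]

lemma lintegral_heatK (n : ℕ) {t : ℝ} (ht : 0 < t) (x : EuclideanSpace ℝ (Fin n)) :
    ∫⁻ y, ENNReal.ofReal (heatK n t (x - y)) = 1 := by
  have hpos : 0 < 4 * Real.pi * t := by positivity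
  have h1 : ∀ y : EuclideanSpace ℝ (Fin n), ENNReal.ofReal (heatK n t (x - y)) =
      ENNReal.ofReal ((4 * Real.pi * t) ^ (-((n : ℝ) / 2))) *
        ENNReal.ofReal (Real.exp (-((1 / (4 * t)) * ‖y - x‖ ^ 2))) := by
    intro y
    rw [heatK_comm, ← ENNReal.ofReal_mul (by positivity)]
    congr 1
    unfold heatK
    congr 2
    ring
  simp only [h1]
  rw [lintegral_const_mul' _ _ ENNReal.ofReal_ne_top, lintegral_gauss n (by positivity),
    ← ENNReal.ofReal_mul (by positivity)]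
  have h2 : Real.pi / (1 / (4 * t)) = 4 * Real.pi * t := by field_simp
  rw [h2, ← Real.rpow_add hpos]
  simp

lemma measurable_kernel (n : ℕ) (t : ℝ) :
    Measurable (fun p : EuclideanSpace ℝ (Fin n) × EuclideanSpace ℝ (Fin n) =>
      ENNReal.ofReal (heatK n t (p.1 - p.2))) := by
  have : Continuous (fun p : EuclideanSpace ℝ (Fin n) × EuclideanSpace ℝ (Fin n) =>
      heatK n t (p.1 - p.2)) := (heatK_continuous n t).comp (continuous_fst.sub continuous_snd)
  exact this.measurable.ennreal_ofReal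

lemma measurable_kernel_left (n : ℕ) (t : ℝ) (x : EuclideanSpace ℝ (Fin n)) :
    Measurable (fun y : EuclideanSpace ℝ (Fin n) => ENNReal.ofReal (heatK n t (x - y))) := by
  have : Continuous (fun y : EuclideanSpace ℝ (Fin n) => heatK n t (x - y)) :=
    (heatK_continuous n t).comp (continuous_const.sub continuous_id)
  exact this.measurable.ennreal_ofReal

lemma heatP_measurable (n : ℕ) (t : ℝ) (g : EuclideanSpace ℝ (Fin n) → ℝ≥0∞)
    (hg : Measurable g) : Measurable (heatP n t g) := by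
  unfold heatP
  exact Measurable.lintegral_prod_right'
    (f := fun p : EuclideanSpace ℝ (Fin n) × EuclideanSpace ℝ (Fin n) =>
      ENNReal.ofReal (heatK n t (p.1 - p.2)) * g p.2)
    ((measurable_kernel n t).mul (hg.comp measurable_snd))

lemma heatP_sq (n : ℕ) {t : ℝ} (ht : 0 < t) (g : EuclideanSpace ℝ (Fin n) → ℝ≥0∞)
    (hg : Measurable g) (x : EuclideanSpace ℝ (Fin n)) :
    heatP n t g x ^ 2 ≤ heatP n t (fun y => g y ^ 2) x := by
  set k : EuclideanSpace ℝ (Fin n) → ℝ≥0∞ := fun y => ENNReal.ofReal (heatK n t (x - y)) with hk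
  have hkm : Measurable k := measurable_kernel_left n t x
  set μ : Measure (EuclideanSpace ℝ (Fin n)) := volume.withDensity k with hμ
  have h1 : ∀ h : EuclideanSpace ℝ (Fin n) → ℝ≥0∞, Measurable h →
      heatP n t h x = ∫⁻ y, h y ∂μ := by
    intro h hh
    rw [hμ, lintegral_withDensity_eq_lintegral_mul _ hkm hh]
    rfl
  have hμ1 : ∫⁻ _, (1 : ℝ≥0∞) ∂μ = 1 := by
    rw [← h1 (fun _ => 1) measurable_const]
    unfold heatP
    simp only [mul_one]
    exact lintegral_heatK n ht x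
  rw [h1 g hg, h1 _ (hg.pow_const 2)]
  have hcs := ENNReal.lintegral_mul_le_Lp_mul_Lq μ (p := 2) (q := 2)
    (Real.HolderConjugate.two_two) (f := fun _ => (1 : ℝ≥0∞)) (g := g)
    aemeasurable_const hg.aemeasurable
  have h2 : ∫⁻ y, g y ∂μ ≤ (∫⁻ y, g y ^ 2 ∂μ) ^ ((1 : ℝ) / 2) := by
    have e1 : ∫⁻ y, ((fun _ : EuclideanSpace ℝ (Fin n) => (1 : ℝ≥0∞)) * g) y ∂μ =
        ∫⁻ y, g y ∂μ := lintegral_congr fun y => by rw [Pi.mul_apply, one_mul]
    have e2 : (∫⁻ _ : EuclideanSpace ℝ (Fin n), (1 : ℝ≥0∞) ^ (2 : ℝ) ∂μ) = 1 := by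
      simp only [ENNReal.one_rpow]
      exact hμ1
    have e3 : ∫⁻ y, g y ^ (2 : ℝ) ∂μ = ∫⁻ y, g y ^ 2 ∂μ := by
      refine lintegral_congr fun y => ?_
      rw [← ENNReal.rpow_natCast]
      norm_num
    rw [e1, e2, e3, ENNReal.one_rpow, one_mul] at hcs
    exact hcs
  calc (∫⁻ y, g y ∂μ) ^ 2 ≤ ((∫⁻ y, g y ^ 2 ∂μ) ^ ((1 : ℝ) / 2)) ^ 2 := by gcongr
    _ = ∫⁻ y, g y ^ 2 ∂μ := by
        rw [← ENNReal.rpow_natCast, ← ENNReal.rpow_mul]
        norm_num

noncomputable def heatOp (n : ℕ) (t : ℝ) (ht : 0 < t) :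
    SymMarkov (volume : Measure (EuclideanSpace ℝ (Fin n))) where
  op := heatP n t
  meas := heatP_measurable n t
  add := by
    intro f g hf hg
    funext x
    unfold heatP
    simp only [mul_add]
    exact lintegral_add_left ((measurable_kernel_left n t x).mul hf) _
  zero := by
    funext x
    simp [heatP]
  one := by
    funext x
    unfold heatP
    simp only [mul_one]
    exact lintegral_heatK n ht x
  mono := by
    intro f g h x
    unfold heatP
    exact lintegral_mono fun y => mul_le_mul_right (h y) _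
  symm := by
    intro f g hf hg
    unfold heatP
    have h1 : ∀ x, f x * ∫⁻ y, ENNReal.ofReal (heatK n t (x - y)) * g y =
        ∫⁻ y, f x * (ENNReal.ofReal (heatK n t (x - y)) * g y) := by
      intro x
      exact (lintegral_const_mul _ ((measurable_kernel_left n t x).mul hg)).symm
    have h2 : ∀ x, (∫⁻ y, ENNReal.ofReal (heatK n t (x - y)) * f y) * g x =
        ∫⁻ y, (ENNReal.ofReal (heatK n t (x - y)) * f y) * g x := by
      intro x
      exact (lintegral_mul_const _ ((measurable_kernel_left n t x).mul hf)).symm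
    simp only [h1, h2]
    rw [lintegral_lintegral_swap]
    · refine lintegral_congr fun x => lintegral_congr fun y => ?_
      rw [heatK_comm]
      ring
    · exact ((hf.comp measurable_fst).mul
        ((measurable_kernel n t).mul (hg.comp measurable_snd))).aemeasurable
  sq := fun g hg x => heatP_sq n ht g hg x

/-! ### The semigroup law -/

lemma heatK_mul_heatK (n : ℕ) {s t : ℝ} (hs : 0 < s) (ht : 0 < t)
    (x y z : EuclideanSpace ℝ (Fin n)) :
    heatK n s (x - y) * heatK n t (y - z) =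
      heatK n (s + t) (x - z) * (4 * Real.pi * s * t / (s + t)) ^ (-((n : ℝ) / 2)) *
        Real.exp (-((s + t) / (4 * s * t) *
          ‖y - ((t / (s + t)) • x + (s / (s + t)) • z)‖ ^ 2)) := by
  have hst : 0 < s + t := by positivity
  have hpi := Real.pi_pos
  set w : EuclideanSpace ℝ (Fin n) := (t / (s + t)) • x + (s / (s + t)) • z with hw
  have hsum : t / (s + t) + s / (s + t) = 1 := by field_simp; ring
  have h1 : x - y = (s / (s + t)) • (x - z) - (y - w) := by
    have : x = (t / (s + t) + s / (s + t)) • x := by rw [hsum, one_smul]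
    rw [hw]
    nth_rewrite 1 [this]
    module
  have h2 : y - z = (y - w) + (t / (s + t)) • (x - z) := by
    have : z = (t / (s + t) + s / (s + t)) • z := by rw [hsum, one_smul]
    rw [hw]
    nth_rewrite 1 [this]
    module
  have hexp : ‖x - y‖ ^ 2 / (4 * s) + ‖y - z‖ ^ 2 / (4 * t) =
      ‖x - z‖ ^ 2 / (4 * (s + t)) + (s + t) / (4 * s * t) * ‖y - w‖ ^ 2 := by
    rw [h1, h2, norm_sub_sq_real, norm_add_sq_real, norm_smul, norm_smul, inner_smul_left,
      inner_smul_right, real_inner_comm (x - z) (y - w)]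
    simp only [Real.norm_eq_abs, mul_pow, sq_abs, conj_trivial]
    field_simp
    ring
  unfold heatK
  have hc : (4 * Real.pi * s) ^ (-((n : ℝ) / 2)) * (4 * Real.pi * t) ^ (-((n : ℝ) / 2)) =
      (4 * Real.pi * (s + t)) ^ (-((n : ℝ) / 2)) *
        (4 * Real.pi * s * t / (s + t)) ^ (-((n : ℝ) / 2)) := by
    rw [← Real.mul_rpow (by positivity) (by positivity),
      ← Real.mul_rpow (by positivity) (by positivity)]
    congr 1
    field_simp
  have he : Real.exp (-(‖x - y‖ ^ 2 / (4 * s))) * Real.exp (-(‖y - z‖ ^ 2 / (4 * t))) =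
      Real.exp (-(‖x - z‖ ^ 2 / (4 * (s + t)))) *
        Real.exp (-((s + t) / (4 * s * t) * ‖y - w‖ ^ 2)) := by
    rw [← Real.exp_add, ← Real.exp_add]
    congr 1
    linarith
  calc _ = ((4 * Real.pi * s) ^ (-((n : ℝ) / 2)) * (4 * Real.pi * t) ^ (-((n : ℝ) / 2))) *
        (Real.exp (-(‖x - y‖ ^ 2 / (4 * s))) * Real.exp (-(‖y - z‖ ^ 2 / (4 * t)))) := by ring
    _ = _ := by rw [hc, he]; ring

lemma lintegral_heatK_mul (n : ℕ) {s t : ℝ} (hs : 0 < s) (ht : 0 < t)
    (x z : EuclideanSpace ℝ (Fin n)) :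
    ∫⁻ y, ENNReal.ofReal (heatK n s (x - y)) * ENNReal.ofReal (heatK n t (y - z)) =
      ENNReal.ofReal (heatK n (s + t) (x - z)) := by
  have hst : 0 < s + t := by positivity
  have hpi := Real.pi_pos
  have h1 : ∀ y : EuclideanSpace ℝ (Fin n),
      ENNReal.ofReal (heatK n s (x - y)) * ENNReal.ofReal (heatK n t (y - z)) =
      ENNReal.ofReal (heatK n (s + t) (x - z) *
        (4 * Real.pi * s * t / (s + t)) ^ (-((n : ℝ) / 2))) *
        ENNReal.ofReal (Real.exp (-((s + t) / (4 * s * t) *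
          ‖y - ((t / (s + t)) • x + (s / (s + t)) • z)‖ ^ 2))) := by
    intro y
    rw [← ENNReal.ofReal_mul (heatK_nonneg n hs _), heatK_mul_heatK n hs ht,
      ENNReal.ofReal_mul (mul_nonneg (heatK_nonneg n hst _) (by positivity))]
  simp only [h1]
  rw [lintegral_const_mul' _ _ ENNReal.ofReal_ne_top, lintegral_gauss n (by positivity),
    ← ENNReal.ofReal_mul (mul_nonneg (heatK_nonneg n hst _) (by positivity))]
  congr 1
  have h2 : Real.pi / ((s + t) / (4 * s * t)) = 4 * Real.pi * s * t / (s + t) := by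
    field_simp
  rw [h2, mul_assoc, ← Real.rpow_add (by positivity)]
  simp

theorem heatP_heatP (n : ℕ) (s t : ℝ) (hs : 0 < s) (ht : 0 < t)
    (g : EuclideanSpace ℝ (Fin n) → ℝ≥0∞) (hg : Measurable g) :
    heatP n s (heatP n t g) = heatP n (s + t) g := by
  funext x
  unfold heatP
  have h1 : ∀ y, ENNReal.ofReal (heatK n s (x - y)) *
      ∫⁻ z, ENNReal.ofReal (heatK n t (y - z)) * g z =
      ∫⁻ z, ENNReal.ofReal (heatK n s (x - y)) * (ENNReal.ofReal (heatK n t (y - z)) * g z) := by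
    intro y
    exact (lintegral_const_mul _ ((measurable_kernel_left n t y).mul hg)).symm
  simp only [h1]
  rw [lintegral_lintegral_swap]
  · refine lintegral_congr fun z => ?_
    calc ∫⁻ y, ENNReal.ofReal (heatK n s (x - y)) * (ENNReal.ofReal (heatK n t (y - z)) * g z)
        = ∫⁻ y, (ENNReal.ofReal (heatK n s (x - y)) * ENNReal.ofReal (heatK n t (y - z))) * g z :=
          lintegral_congr fun y => by ring
      _ = (∫⁻ y, ENNReal.ofReal (heatK n s (x - y)) * ENNReal.ofReal (heatK n t (y - z))) * g z := by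
          refine lintegral_mul_const _ ((measurable_kernel_left n s x).mul ?_)
          have : Continuous (fun y : EuclideanSpace ℝ (Fin n) => heatK n t (y - z)) :=
            (heatK_continuous n t).comp (continuous_id.sub continuous_const)
          exact this.measurable.ennreal_ofReal
      _ = _ := by rw [lintegral_heatK_mul n hs ht]
  · refine Measurable.aemeasurable ?_
    exact (((measurable_kernel_left n s x).comp measurable_fst)).mul
      ((measurable_kernel n t).mul (hg.comp measurable_snd))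

/-! ### Stirling bound for the volume of the ball -/

lemma factorial_le_stirling (k : ℕ) (hk : 1 ≤ k) :
    (k.factorial : ℝ) ≤ Real.exp 1 * Real.sqrt k * ((k : ℝ) ^ k * Real.exp (-(k : ℝ))) := by
  obtain ⟨j, rfl⟩ : ∃ j, k = j + 1 := ⟨k - 1, by omega⟩
  have h := Stirling.stirlingSeq'_antitone (Nat.zero_le j)
  simp only [Function.comp, Nat.succ_eq_add_one, zero_add] at h
  rw [Stirling.stirlingSeq_one] at h
  unfold Stirling.stirlingSeq at h
  have hk0 : (0 : ℝ) < ((j + 1 : ℕ) : ℝ) := by positivity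
  have hden : 0 < Real.sqrt (2 * ((j + 1 : ℕ) : ℝ)) * (((j + 1 : ℕ) : ℝ) / Real.exp 1) ^ (j + 1) := by
    positivity
  rw [div_le_iff₀ hden] at h
  refine h.trans (le_of_eq ?_)
  rw [Real.sqrt_mul (by norm_num : (0 : ℝ) ≤ 2), div_pow, ← Real.exp_nat_mul, mul_one,
    Real.exp_neg]
  have h2 : Real.sqrt 2 ≠ 0 := by positivity
  field_simp

lemma gamma_le (n : ℕ) (hn : 1 ≤ n) :
    Real.Gamma ((n : ℝ) / 2 + 1) ≤
      60 * Real.sqrt n * (((n : ℝ) / 2) ^ ((n : ℝ) / 2) * Real.exp (-((n : ℝ) / 2))) := by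
  have he1 : Real.exp 1 < 2.7182818286 := Real.exp_one_lt_d9
  rcases Nat.even_or_odd' n with ⟨k, hk | hk⟩
  · subst hk
    have hk1 : 1 ≤ k := by omega
    have hq : ((2 * k : ℕ) : ℝ) / 2 = (k : ℝ) := by push_cast; ring
    rw [hq, Real.Gamma_nat_eq_factorial, Real.rpow_natCast]
    refine (factorial_le_stirling k hk1).trans ?_
    refine mul_le_mul_of_nonneg_right ?_ (by positivity)
    have h1 : Real.sqrt k ≤ Real.sqrt ((2 * k : ℕ) : ℝ) := by
      apply Real.sqrt_le_sqrt
      push_cast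
      have : (0 : ℝ) ≤ k := Nat.cast_nonneg k
      linarith
    have h2 : 0 ≤ Real.sqrt k := Real.sqrt_nonneg _
    nlinarith
  · subst hk
    have hq : ((2 * k + 1 : ℕ) : ℝ) / 2 = (k : ℝ) + 1 / 2 := by push_cast; ring
    rw [hq]
    have hmid : (k : ℝ) + 1 / 2 + 1 = 1 / 2 * ((k : ℝ) + 1) + 1 / 2 * ((k : ℝ) + 1 + 1) := by ring
    have hG : Real.Gamma ((k : ℝ) + 1 / 2 + 1) ≤ (k.factorial : ℝ) * Real.sqrt ((k : ℝ) + 1) := by
      rw [hmid]
      refine (Real.Gamma_mul_add_mul_le_rpow_Gamma_mul_rpow_Gamma (by positivity) (by positivity)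
        (by norm_num) (by norm_num) (by norm_num)).trans (le_of_eq ?_)
      have h2 : Real.Gamma ((k : ℝ) + 1 + 1) = ((k : ℝ) + 1) * (k.factorial : ℝ) := by
        rw [Real.Gamma_add_one (by positivity), Real.Gamma_nat_eq_factorial]
      rw [h2, Real.Gamma_nat_eq_factorial, Real.mul_rpow (by positivity) (by positivity),
        Real.sqrt_eq_rpow]
      have h3 : (k.factorial : ℝ) ^ (1 / 2 : ℝ) * (k.factorial : ℝ) ^ (1 / 2 : ℝ) =
          (k.factorial : ℝ) := by
        rw [← Real.rpow_add (by positivity)]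
        norm_num
      calc _ = ((k.factorial : ℝ) ^ (1 / 2 : ℝ) * (k.factorial : ℝ) ^ (1 / 2 : ℝ)) *
            ((k : ℝ) + 1) ^ (1 / 2 : ℝ) := by ring
        _ = _ := by rw [h3]
    refine hG.trans ?_
    rcases Nat.eq_zero_or_pos k with hk0 | hk0
    · subst hk0
      have h1 : Real.exp (-(1 / 2 : ℝ)) ≥ 1 / 2 := by
        have := Real.add_one_le_exp (-(1 / 2 : ℝ))
        linarith
      have h2 : ((1 / 2 : ℝ)) ^ (1 / 2 : ℝ) ≥ 1 / 2 := by
        calc ((1 / 2 : ℝ)) ^ (1 / 2 : ℝ) ≥ ((1 / 2 : ℝ)) ^ (1 : ℝ) :=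
              Real.rpow_le_rpow_of_exponent_ge (by norm_num) (by norm_num) (by norm_num)
          _ = 1 / 2 := Real.rpow_one _
      simp only [Nat.factorial_zero, Nat.cast_one, Nat.cast_zero, zero_add, Real.sqrt_one,
        mul_zero, mul_one]
      nlinarith
    · have hk1 : (1 : ℝ) ≤ k := by exact_mod_cast hk0
      have hfac := factorial_le_stirling k hk0
      have e1 : ((k : ℝ) + 1 / 2) ^ ((k : ℝ) + 1 / 2) ≥ (k : ℝ) ^ k * Real.sqrt k := by
        calc ((k : ℝ) + 1 / 2) ^ ((k : ℝ) + 1 / 2) ≥ (k : ℝ) ^ ((k : ℝ) + 1 / 2) :=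
              Real.rpow_le_rpow (by positivity) (by linarith) (by positivity)
          _ = (k : ℝ) ^ k * Real.sqrt k := by
              rw [Real.rpow_add (by positivity), Real.rpow_natCast, Real.sqrt_eq_rpow]
      have e2 : Real.exp (-((k : ℝ) + 1 / 2)) = Real.exp (-(k : ℝ)) * Real.exp (-(1 / 2 : ℝ)) := by
        rw [← Real.exp_add]; congr 1; ring
      have h1 : Real.exp (-(1 / 2 : ℝ)) ≥ 1 / 2 := by
        have := Real.add_one_le_exp (-(1 / 2 : ℝ))
        linarith
      have h2 : Real.sqrt ((k : ℝ) + 1) ≤ Real.sqrt ((2 * k + 1 : ℕ) : ℝ) := by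
        apply Real.sqrt_le_sqrt
        push_cast
        linarith
      have hA : 0 < (k : ℝ) ^ k * Real.exp (-(k : ℝ)) * Real.sqrt k := by positivity
      calc (k.factorial : ℝ) * Real.sqrt ((k : ℝ) + 1)
          ≤ (Real.exp 1 * Real.sqrt k * ((k : ℝ) ^ k * Real.exp (-(k : ℝ)))) *
            Real.sqrt ((2 * k + 1 : ℕ) : ℝ) := by gcongr
        _ = Real.exp 1 * Real.sqrt ((2 * k + 1 : ℕ) : ℝ) *
            ((k : ℝ) ^ k * Real.exp (-(k : ℝ)) * Real.sqrt k) := by ring
        _ ≤ 30 * Real.sqrt ((2 * k + 1 : ℕ) : ℝ) *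
            ((k : ℝ) ^ k * Real.exp (-(k : ℝ)) * Real.sqrt k) := by
            have : 0 ≤ Real.sqrt ((2 * k + 1 : ℕ) : ℝ) := Real.sqrt_nonneg _
            gcongr
            linarith
        _ = 60 * Real.sqrt ((2 * k + 1 : ℕ) : ℝ) *
            (((k : ℝ) ^ k * Real.sqrt k) * (Real.exp (-(k : ℝ)) * (1 / 2))) := by ring
        _ ≤ 60 * Real.sqrt ((2 * k + 1 : ℕ) : ℝ) *
            (((k : ℝ) + 1 / 2) ^ ((k : ℝ) + 1 / 2) * Real.exp (-((k : ℝ) + 1 / 2))) := by
            rw [e2]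
            gcongr

/-- pointwise lower bound of the kernel on the ball -/
lemma one_le_kernel (n : ℕ) (hn : 1 ≤ n) (r t : ℝ) (hr : 0 < r)
    (h1 : r ^ 2 / (2 * n) ≤ t) (h2 : t ≤ r ^ 2 / (2 * n) * (1 + 1 / n))
    (v : EuclideanSpace ℝ (Fin n)) (hv : ‖v‖ < r) :
    1 ≤ (100 * Real.sqrt n) *
      (r ^ n * (Real.sqrt Real.pi ^ n / Real.Gamma ((n : ℝ) / 2 + 1))) * heatK n t v := by
  have hn0 : (0 : ℝ) < n := by exact_mod_cast hn
  have hpi := Real.pi_pos
  have ht : 0 < t := lt_of_lt_of_le (by positivity) h1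
  set q : ℝ := (n : ℝ) / 2 with hq
  have hq0 : 0 < q := by positivity
  have hG : 0 < Real.Gamma (q + 1) := Real.Gamma_pos_of_pos (by positivity)
  -- the exponential factor
  have hexp : Real.exp (-q) ≤ Real.exp (-(‖v‖ ^ 2 / (4 * t))) := by
    apply Real.exp_le_exp.2
    apply neg_le_neg
    rw [div_le_iff₀ (by positivity)]
    rw [div_le_iff₀ (by positivity)] at h1
    have hv2 : ‖v‖ ^ 2 ≤ r ^ 2 := by
      have := norm_nonneg v
      nlinarith
    rw [hq]
    nlinarith
  -- the power factor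
  have hbase : 4 * Real.pi * t ≤ (Real.pi * r ^ 2 / q) * Real.exp (1 / n) := by
    have e1 : 1 + 1 / (n : ℝ) ≤ Real.exp (1 / n) := by
      have := Real.add_one_le_exp (1 / (n : ℝ))
      linarith
    calc 4 * Real.pi * t ≤ 4 * Real.pi * (r ^ 2 / (2 * n) * (1 + 1 / n)) := by gcongr
      _ ≤ 4 * Real.pi * (r ^ 2 / (2 * n) * Real.exp (1 / n)) := by gcongr
      _ = (Real.pi * r ^ 2 / q) * Real.exp (1 / n) := by
          rw [hq]; field_simp; ring
  have hpow : ((Real.pi * r ^ 2 / q) * Real.exp (1 / n)) ^ (-q) ≤ (4 * Real.pi * t) ^ (-q) :=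
    Real.rpow_le_rpow_of_nonpos (by positivity) hbase (by linarith)
  have hpow2 : ((Real.pi * r ^ 2 / q) * Real.exp (1 / n)) ^ (-q) =
      (Real.pi * r ^ 2 / q) ^ (-q) * Real.exp (-(1 / 2 : ℝ)) := by
    rw [Real.mul_rpow (by positivity) (by positivity), ← Real.exp_mul]
    congr 2
    rw [hq]; field_simp
  have hvol : r ^ n * Real.sqrt Real.pi ^ n = (Real.pi * r ^ 2) ^ q := by
    have e1 : r ^ n = (r ^ 2) ^ q := by
      rw [← Real.rpow_natCast r n, ← Real.rpow_natCast r 2, ← Real.rpow_mul hr.le]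
      congr 1
      rw [hq]; push_cast; ring
    have e2 : Real.sqrt Real.pi ^ n = Real.pi ^ q := by
      rw [Real.sqrt_eq_rpow, ← Real.rpow_natCast (Real.pi ^ (1 / 2 : ℝ)) n,
        ← Real.rpow_mul hpi.le]
      congr 1
      rw [hq]; ring
    rw [e1, e2, ← Real.mul_rpow (by positivity) (by positivity), mul_comm (r ^ 2)]
  have hcomb : (Real.pi * r ^ 2) ^ q * (Real.pi * r ^ 2 / q) ^ (-q) = q ^ q := by
    have e0 : Real.pi * r ^ 2 = (Real.pi * r ^ 2 / q) * q := by field_simp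
    nth_rewrite 1 [e0]
    rw [Real.mul_rpow (by positivity) (by positivity), mul_assoc, mul_comm (q ^ q), ← mul_assoc,
      ← Real.rpow_add (by positivity)]
    simp
  have hgam := gamma_le n hn
  rw [← hq] at hgam
  have he : Real.exp (1 / 2 : ℝ) ≤ 5 / 3 := by
    have h := Real.exp_one_lt_d9
    have h3 : Real.exp (1 / 2 : ℝ) ^ 2 = Real.exp 1 := by
      rw [← Real.exp_nat_mul]; norm_num
    have h4 := Real.exp_pos (1 / 2 : ℝ)
    nlinarith
  have he' : Real.exp (-(1 / 2 : ℝ)) ≥ 3 / 5 := by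
    rw [Real.exp_neg]
    have h4 := Real.exp_pos (1 / 2 : ℝ)
    rw [ge_iff_le, le_inv_comm₀ (by norm_num) h4]
    linarith
  have hX : 0 < q ^ q * Real.exp (-q) := by positivity
  have hsq : 0 < Real.sqrt n := by positivity
  calc (1 : ℝ) = Real.Gamma (q + 1) / Real.Gamma (q + 1) := (div_self hG.ne').symm
    _ ≤ (60 * Real.sqrt n * (q ^ q * Real.exp (-q))) / Real.Gamma (q + 1) := by gcongr
    _ = (100 * Real.sqrt n) * (q ^ q * Real.exp (-q)) * (3 / 5) / Real.Gamma (q + 1) := by ring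
    _ ≤ (100 * Real.sqrt n) * (q ^ q * Real.exp (-q)) * Real.exp (-(1 / 2 : ℝ)) /
        Real.Gamma (q + 1) := by gcongr
    _ = (100 * Real.sqrt n) * ((Real.pi * r ^ 2) ^ q / Real.Gamma (q + 1)) *
        (((Real.pi * r ^ 2 / q) ^ (-q) * Real.exp (-(1 / 2 : ℝ))) * Real.exp (-q)) := by
        rw [← hcomb]; ring
    _ = (100 * Real.sqrt n) * (r ^ n * (Real.sqrt Real.pi ^ n / Real.Gamma (q + 1))) *
        ((((Real.pi * r ^ 2 / q) * Real.exp (1 / n)) ^ (-q)) * Real.exp (-q)) := by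
        rw [hpow2, ← hvol]; ring
    _ ≤ (100 * Real.sqrt n) * (r ^ n * (Real.sqrt Real.pi ^ n / Real.Gamma (q + 1))) *
        heatK n t v := by
        unfold heatK
        gcongr

theorem ball_le_heat (n : ℕ) (hn : 1 ≤ n) (r t : ℝ) (hr : 0 < r)
    (h1 : r ^ 2 / (2 * n) ≤ t) (h2 : t ≤ r ^ 2 / (2 * n) * (1 + 1 / n))
    (g : EuclideanSpace ℝ (Fin n) → ℝ≥0∞) (hg : Measurable g) (x : EuclideanSpace ℝ (Fin n)) :
    ∫⁻ y in Metric.ball x r, g y ≤
      ENNReal.ofReal (100 * Real.sqrt n) * volume (Metric.ball x r) * heatP n t g x := by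
  have hn0 : (0 : ℝ) < n := by exact_mod_cast hn
  have hpi := Real.pi_pos
  have : Nonempty (Fin n) := ⟨⟨0, hn⟩⟩
  have ht : 0 < t := lt_of_lt_of_le (by positivity) h1
  have hG : 0 < Real.Gamma ((n : ℝ) / 2 + 1) := Real.Gamma_pos_of_pos (by positivity)
  set V : ℝ := r ^ n * (Real.sqrt Real.pi ^ n / Real.Gamma ((n : ℝ) / 2 + 1)) with hV
  have hV0 : 0 ≤ V := by positivity
  have hvol : volume (Metric.ball x r) = ENNReal.ofReal V := by
    rw [EuclideanSpace.volume_ball, hV, ENNReal.ofReal_mul (by positivity),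
      ENNReal.ofReal_pow hr.le]
    simp
  have hc0 : 0 ≤ 100 * Real.sqrt n := by positivity
  calc ∫⁻ y in Metric.ball x r, g y
      ≤ ∫⁻ y in Metric.ball x r, ENNReal.ofReal ((100 * Real.sqrt n) * V) *
          (ENNReal.ofReal (heatK n t (x - y)) * g y) := by
        refine setLIntegral_mono' Metric.isOpen_ball.measurableSet fun y hy => ?_
        have hv : ‖x - y‖ < r := by
          rw [Metric.mem_ball, dist_comm, dist_eq_norm] at hy
          exact hy
        have hk := one_le_kernel n hn r t hr h1 h2 (x - y) hv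
        rw [← mul_assoc, ← ENNReal.ofReal_mul (by positivity)]
        calc g y = 1 * g y := (one_mul _).symm
          _ ≤ _ := by
              gcongr
              rw [ENNReal.one_le_ofReal]
              exact hk
    _ ≤ ∫⁻ y, ENNReal.ofReal ((100 * Real.sqrt n) * V) *
          (ENNReal.ofReal (heatK n t (x - y)) * g y) := setLIntegral_le_lintegral _ _
    _ = ENNReal.ofReal ((100 * Real.sqrt n) * V) * heatP n t g x := by
        rw [lintegral_const_mul' _ _ ENNReal.ofReal_ne_top]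
        rfl
    _ = _ := by rw [hvol, ENNReal.ofReal_mul hc0]

end Pool.MaxFn
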