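import Pool.Agent.MaxFn.Defs

/-!
Weak type (1,1) bound for the maximal function of finitely many iterates of a symmetric Markov
operator which is a square: the constant is at most 4(1+4p) for 2^p iterates.
-/

set_option autoImplicit false

open MeasureTheory
open scoped ENNReal

namespace Pool.MaxFn

variable {X : Type*} [MeasurableSpace X] {m : Measure X}

namespace SymMarkov

variable (T : SymMarkov m)

/-- iterates -/
noncomputable def it (T : SymMarkov m) (j : ℕ) (g : X → ℝ≥0∞) : X → ℝ≥0∞ := (T.op)^[j] g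

theorem it_zero (g : X → ℝ≥0∞) : T.it 0 g = g := rfl

theorem it_succ (j : ℕ) (g : X → ℝ≥0∞) : T.it (j + 1) g = T.it j (T.op g) := rfl

theorem it_succ' (j : ℕ) (g : X → ℝ≥0∞) : T.it (j + 1) g = T.op (T.it j g) :=
  Function.iterate_succ_apply' _ _ _

theorem it_add (i j : ℕ) (g : X → ℝ≥0∞) : T.it (i + j) g = T.it i (T.it j g) :=
  Function.iterate_add_apply _ _ _ _

theorem it_meas (j : ℕ) {g : X → ℝ≥0∞} (hg : Measurable g) : Measurable (T.it j g) := by
  induction j with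
  | zero => exact hg
  | succ j ih => rw [it_succ']; exact T.meas _ ih

theorem it_mono (j : ℕ) {f g : X → ℝ≥0∞} (h : ∀ x, f x ≤ g x) : ∀ x, T.it j f x ≤ T.it j g x := by
  induction j with
  | zero => exact h
  | succ j ih => intro x; rw [it_succ', it_succ']; exact T.mono _ _ ih x

theorem it_symm (j : ℕ) {f g : X → ℝ≥0∞} (hf : Measurable f) (hg : Measurable g) :
    ∫⁻ x, f x * T.it j g x ∂m = ∫⁻ x, T.it j f x * g x ∂m := by
  induction j generalizing f g with
  | zero => rfl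
  | succ j ih =>
    rw [it_succ', it_succ, T.symm _ _ hf (T.it_meas j hg), ih (T.meas _ hf) hg]

theorem it_one (j : ℕ) : T.it j (fun _ => 1) = fun _ => 1 := by
  induction j with
  | zero => rfl
  | succ j ih => rw [it_succ', ih, T.one]

theorem lint_op {g : X → ℝ≥0∞} (hg : Measurable g) : ∫⁻ x, T.op g x ∂m = ∫⁻ x, g x ∂m := by
  have := T.symm (fun _ => 1) g measurable_const hg
  simpa [T.one] using this

theorem lint_it (j : ℕ) {g : X → ℝ≥0∞} (hg : Measurable g) :
    ∫⁻ x, T.it j g x ∂m = ∫⁻ x, g x ∂m := by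
  induction j with
  | zero => rfl
  | succ j ih => rw [it_succ', T.lint_op (T.it_meas j hg), ih]

theorem op_sum {ι : Type*} (s : Finset ι) (g : ι → X → ℝ≥0∞) (hg : ∀ i, Measurable (g i)) :
    T.op (fun x => ∑ i ∈ s, g i x) = fun x => ∑ i ∈ s, T.op (g i) x := by
  classical
  induction s using Finset.induction_on with
  | empty => simpa using T.zero
  | insert i s hi ih =>
    have h1 : (fun x => ∑ j ∈ insert i s, g j x) = fun x => g i x + (∑ j ∈ s, g j x) := by
      funext x; rw [Finset.sum_insert hi]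
    rw [h1, T.add _ _ (hg i) (Finset.measurable_sum _ fun j _ => hg j), ih]
    funext x
    rw [Finset.sum_insert hi]

theorem it_sum {ι : Type*} (j : ℕ) (s : Finset ι) (g : ι → X → ℝ≥0∞) (hg : ∀ i, Measurable (g i)) :
    T.it j (fun x => ∑ i ∈ s, g i x) = fun x => ∑ i ∈ s, T.it j (g i) x := by
  induction j with
  | zero => rfl
  | succ j ih =>
    rw [it_succ', ih, T.op_sum s _ (fun i => T.it_meas j (hg i))]
    funext x
    simp only [it_succ']

/-- The composition of `T` with itself. -/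
def sqr : SymMarkov m where
  op g := T.op (T.op g)
  meas g hg := T.meas _ (T.meas _ hg)
  add f g hf hg := by rw [T.add f g hf hg, T.add _ _ (T.meas _ hf) (T.meas _ hg)]
  zero := by rw [T.zero, T.zero]
  one := by rw [T.one, T.one]
  mono f g h x := T.mono _ _ (T.mono _ _ h) x
  symm f g hf hg := by rw [T.symm _ _ hf (T.meas _ hg), T.symm _ _ (T.meas _ hf) hg]
  sq g hg x := (T.sq _ (T.meas _ hg) x).trans (T.mono _ _ (T.sq g hg) x)

theorem sqr_it (j : ℕ) (g : X → ℝ≥0∞) : T.sqr.it j g = T.it (2 * j) g := by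
  induction j generalizing g with
  | zero => rfl
  | succ j ih =>
    rw [it_succ, ih]
    show T.it (2 * j) (T.op (T.op g)) = _
    rw [← it_succ, ← it_succ]
    rfl

end SymMarkov

open SymMarkov

variable (T : SymMarkov m)

/-- `Y N ψ = ∑_{j<N} T^j ψ_j`, defined recursively. -/
noncomputable def Y (T : SymMarkov m) : ℕ → (ℕ → X → ℝ≥0∞) → X → ℝ≥0∞
  | 0, _ => fun _ => 0
  | N + 1, ψ => fun x => ψ 0 x + T.op (Y T N (fun i => ψ (i + 1))) x

theorem Y_meas (N : ℕ) (ψ : ℕ → X → ℝ≥0∞) (hψ : ∀ i, Measurable (ψ i)) :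
    Measurable (Y T N ψ) := by
  induction N generalizing ψ with
  | zero => exact measurable_const
  | succ N ih => exact (hψ 0).add (T.meas _ (ih _ fun i => hψ (i + 1)))

theorem Y_eq (N : ℕ) (ψ : ℕ → X → ℝ≥0∞) (hψ : ∀ i, Measurable (ψ i)) :
    Y T N ψ = fun x => ∑ j ∈ Finset.range N, T.it j (ψ j) x := by
  induction N generalizing ψ with
  | zero => simp [Y]
  | succ N ih =>
    have h := ih (fun i => ψ (i + 1)) (fun i => hψ (i + 1))
    funext x
    rw [Finset.sum_range_succ']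
    show ψ 0 x + T.op (Y T N (fun i => ψ (i + 1))) x = _
    rw [h, T.op_sum _ _ (fun i => T.it_meas i (hψ (i + 1)))]
    simp only [it_succ', it_zero]
    rw [add_comm]

/-- The Jensen recursion: second moments of path sums. -/
theorem lint_Y_sq (N : ℕ) (f : X → ℝ≥0∞) (hf : Measurable f) (ψ : ℕ → X → ℝ≥0∞)
    (hψ : ∀ i, Measurable (ψ i)) :
    ∫⁻ x, f x * (Y T N ψ x) ^ 2 ∂m ≤
      ∑ i ∈ Finset.range N, (∫⁻ x, T.it i f x * (ψ i x) ^ 2 ∂m) +
      2 * ∑ i ∈ Finset.range N, ∑ j ∈ Finset.range i,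
        ∫⁻ x, T.it j f x * (ψ j x * T.it (i - j) (ψ i) x) ∂m := by
  induction N generalizing f ψ with
  | zero => simp [Y]
  | succ N ih =>
    have hψ' : ∀ i, Measurable (fun x => ψ (i + 1) x) := fun i => hψ (i + 1)
    set Y' := Y T N (fun i => ψ (i + 1)) with hY'
    have hY'm : Measurable Y' := Y_meas T N _ hψ'
    have hTY'm : Measurable (T.op Y') := T.meas _ hY'm
    have hTY' : T.op Y' = fun x => ∑ i ∈ Finset.range N, T.it (i + 1) (ψ (i + 1)) x := by
      rw [hY', Y_eq T N _ hψ', T.op_sum _ _ (fun i => T.it_meas i (hψ' i))]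
      funext x
      simp only [it_succ']
    have h1 : ∀ x, f x * (Y T (N + 1) ψ x) ^ 2 ≤
        f x * (ψ 0 x) ^ 2 + 2 * (f x * (ψ 0 x * T.op Y' x)) + f x * T.op (fun y => Y' y ^ 2) x := by
      intro x
      have e : (Y T (N + 1) ψ x) = ψ 0 x + T.op Y' x := rfl
      rw [e]
      calc f x * (ψ 0 x + T.op Y' x) ^ 2
          = f x * (ψ 0 x) ^ 2 + 2 * (f x * (ψ 0 x * T.op Y' x)) + f x * (T.op Y' x) ^ 2 := by ring
        _ ≤ _ := by gcongr; exact T.sq _ hY'm x
    have h2 : ∫⁻ x, f x * T.op (fun y => Y' y ^ 2) x ∂m ≤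
        ∑ i ∈ Finset.range N, (∫⁻ x, T.it i (T.op f) x * (ψ (i + 1) x) ^ 2 ∂m) +
        2 * ∑ i ∈ Finset.range N, ∑ j ∈ Finset.range i,
        ∫⁻ x, T.it j (T.op f) x * (ψ (j + 1) x * T.it (i - j) (ψ (i + 1)) x) ∂m := by
      rw [T.symm _ _ hf (hY'm.pow_const 2)]
      exact ih (T.op f) (T.meas _ hf) _ hψ'
    have h3 : ∫⁻ x, f x * (ψ 0 x * T.op Y' x) ∂m =
        ∑ i ∈ Finset.range N, ∫⁻ x, f x * (ψ 0 x * T.it (i + 1) (ψ (i + 1)) x) ∂m := by
      rw [← lintegral_finsetSum (Finset.range N)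
        (f := fun i x => f x * (ψ 0 x * T.it (i + 1) (ψ (i + 1)) x)) (fun i _ =>
        (hf.mul ((hψ 0).mul (T.it_meas (i + 1) (hψ (i + 1))))))]
      congr 1
      funext x
      rw [hTY']
      simp only [Finset.mul_sum]
    calc ∫⁻ x, f x * (Y T (N + 1) ψ x) ^ 2 ∂m
        ≤ ∫⁻ x, (f x * (ψ 0 x) ^ 2 + 2 * (f x * (ψ 0 x * T.op Y' x)) +
            f x * T.op (fun y => Y' y ^ 2) x) ∂m := lintegral_mono h1
      _ = ∫⁻ x, f x * (ψ 0 x) ^ 2 ∂m + 2 * ∫⁻ x, f x * (ψ 0 x * T.op Y' x) ∂m +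
            ∫⁻ x, f x * T.op (fun y => Y' y ^ 2) x ∂m := by
          rw [lintegral_add_left, lintegral_add_left, lintegral_const_mul]
          · exact hf.mul ((hψ 0).mul hTY'm)
          · exact hf.mul ((hψ 0).pow_const 2)
          · exact (hf.mul ((hψ 0).pow_const 2)).add ((hf.mul ((hψ 0).mul hTY'm)).const_mul 2)
      _ ≤ _ := by
          rw [Finset.sum_range_succ', Finset.sum_range_succ']
          simp only [Finset.range_zero, Finset.sum_empty, add_zero, it_zero]
          have h4 : ∀ i, (∑ j ∈ Finset.range (i + 1),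
              ∫⁻ x, T.it j f x * (ψ j x * T.it (i + 1 - j) (ψ (i + 1)) x) ∂m) =
              (∑ j ∈ Finset.range i,
              ∫⁻ x, T.it j (T.op f) x * (ψ (j + 1) x * T.it (i - j) (ψ (i + 1)) x) ∂m) +
              ∫⁻ x, f x * (ψ 0 x * T.it (i + 1) (ψ (i + 1)) x) ∂m := by
            intro i
            rw [Finset.sum_range_succ']
            simp only [it_zero, Nat.sub_zero, Nat.add_sub_add_right, it_succ]
          simp only [h4, Finset.sum_add_distrib, it_succ]
          simp only [it_succ] at h3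
          rw [h3]
          calc _ ≤ ∫⁻ x, f x * (ψ 0 x) ^ 2 ∂m +
                2 * (∑ i ∈ Finset.range N, ∫⁻ x, f x * (ψ 0 x * T.it i (T.op (ψ (i + 1))) x) ∂m) +
                (∑ i ∈ Finset.range N, (∫⁻ x, T.it i (T.op f) x * (ψ (i + 1) x) ^ 2 ∂m) +
        2 * ∑ i ∈ Finset.range N, ∑ j ∈ Finset.range i,
        ∫⁻ x, T.it j (T.op f) x * (ψ (j + 1) x * T.it (i - j) (ψ (i + 1)) x) ∂m) := by
                gcongr
            _ ≤ _ := by
                apply le_of_eq
                ring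

/-- AM-GM in the extended nonnegative reals. -/
theorem two_mul_le (a b : ℝ≥0∞) : 2 * (a * b) ≤ 2 * a ^ 2 + b ^ 2 / 2 := by
  rcases eq_or_ne a ∞ with ha | ha
  · subst ha; simp
  rcases eq_or_ne b ∞ with hb | hb
  · subst hb
    simp [ENNReal.top_div]
  lift a to NNReal using ha
  lift b to NNReal using hb
  have h : 2 * (a * b) ≤ 2 * a ^ 2 + b ^ 2 / 2 := by
    rw [← NNReal.coe_le_coe]
    push_cast
    nlinarith [sq_nonneg (2 * (a : ℝ) - b)]
  have h2 : ((2 * (a * b) : NNReal) : ℝ≥0∞) ≤ ((2 * a ^ 2 + b ^ 2 / 2 : NNReal) : ℝ≥0∞) := by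
    exact_mod_cast h
  push_cast at h2
  exact h2

theorem mul_le_half (a b : ℝ≥0∞) : a * b ≤ a ^ 2 / 2 + b ^ 2 / 2 := by
  rcases eq_or_ne a ∞ with ha | ha
  · subst ha; simp [ENNReal.top_div]
  rcases eq_or_ne b ∞ with hb | hb
  · subst hb
    simp [ENNReal.top_div]
  lift a to NNReal using ha
  lift b to NNReal using hb
  have h : (a * b) ≤ a ^ 2 / 2 + b ^ 2 / 2 := by
    rw [← NNReal.coe_le_coe]
    push_cast
    nlinarith [sq_nonneg ((a : ℝ) - b)]
  have h2 : (((a * b) : NNReal) : ℝ≥0∞) ≤ ((a ^ 2 / 2 + b ^ 2 / 2 : NNReal) : ℝ≥0∞) := by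
    exact_mod_cast h
  push_cast at h2
  exact h2

theorem sq_add_le (a b : ℝ≥0∞) : (a + b) ^ 2 ≤ 2 * a ^ 2 + 2 * b ^ 2 := by
  have h := mul_le_half a b
  calc (a + b) ^ 2 = a ^ 2 + 2 * (a * b) + b ^ 2 := by ring
    _ ≤ a ^ 2 + 2 * (a ^ 2 / 2 + b ^ 2 / 2) + b ^ 2 := by gcongr
    _ = a ^ 2 + (a ^ 2 + b ^ 2) + b ^ 2 := by
        rw [mul_add, ENNReal.mul_div_cancel (by norm_num) (by norm_num),
          ENNReal.mul_div_cancel (by norm_num) (by norm_num)]
    _ = _ := by ring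

theorem absorb {A B : ℝ≥0∞} (hA : A ≠ ∞) (h : A ≤ B + A / 2) : A ≤ 2 * B := by
  have h2 : A / 2 ≤ B := by
    have h3 : A / 2 + A / 2 ≤ B + A / 2 := by rwa [ENNReal.add_halves]
    exact ENNReal.le_of_add_le_add_right (by simp [ENNReal.div_eq_top, hA]) h3
  calc A = A / 2 + A / 2 := (ENNReal.add_halves A).symm
    _ ≤ B + B := add_le_add h2 h2
    _ = 2 * B := by ring

theorem lint_it_sq (S : SymMarkov m) (j : ℕ) {g : X → ℝ≥0∞} (hg : Measurable g) :
    ∫⁻ x, (S.it j g x) ^ 2 ∂m ≤ ∫⁻ x, g x ^ 2 ∂m := by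
  induction j with
  | zero => exact le_rfl
  | succ j ih =>
    calc ∫⁻ x, (S.it (j + 1) g x) ^ 2 ∂m ≤ ∫⁻ x, S.op (fun y => S.it j g y ^ 2) x ∂m := by
          apply lintegral_mono
          intro x
          rw [it_succ']
          exact S.sq _ (S.it_meas j hg) x
      _ = ∫⁻ x, S.it j g x ^ 2 ∂m := S.lint_op ((S.it_meas j hg).pow_const 2)
      _ ≤ _ := ih

theorem lint_sum_sq_ne_top (N : ℕ) (g : ℕ → X → ℝ≥0∞) (hg : ∀ i, Measurable (g i))
    (h : ∀ i < N, ∫⁻ x, g i x ^ 2 ∂m ≠ ∞) :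
    ∫⁻ x, (∑ i ∈ Finset.range N, g i x) ^ 2 ∂m ≠ ∞ := by
  induction N with
  | zero => simp
  | succ N ih =>
    have ih' := ih (fun i hi => h i (by omega))
    have h1 : ∫⁻ x, (∑ i ∈ Finset.range (N + 1), g i x) ^ 2 ∂m ≤
        2 * ∫⁻ x, (∑ i ∈ Finset.range N, g i x) ^ 2 ∂m + 2 * ∫⁻ x, g N x ^ 2 ∂m := by
      rw [← lintegral_const_mul _ ((Finset.measurable_sum _ fun i _ => hg i).pow_const 2),
        ← lintegral_const_mul _ ((hg N).pow_const 2),
        ← lintegral_add_left (((Finset.measurable_sum _ fun i _ => hg i).pow_const 2).const_mul 2)]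
      apply lintegral_mono
      intro x
      simp only [Finset.sum_range_succ]
      exact sq_add_le _ _
    refine ne_top_of_le_ne_top ?_ h1
    exact ENNReal.add_ne_top.2 ⟨ENNReal.mul_ne_top (by norm_num) ih',
      ENNReal.mul_ne_top (by norm_num) (h N (by omega))⟩

/-- The L2 bound (dual maximal inequality). -/
theorem lint_V_sq (S : SymMarkov m) (N : ℕ) (φ : ℕ → X → ℝ≥0∞) (hφ : ∀ i, Measurable (φ i))
    (h1 : ∀ x, ∑ i ∈ Finset.range N, φ i x ≤ 1)
    (hfin : ∫⁻ x, ∑ i ∈ Finset.range N, φ i x ∂m ≠ ∞) :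
    ∫⁻ x, (∑ i ∈ Finset.range N, S.it (2 * i) (φ i) x) ^ 2 ∂m ≤
      4 * ∫⁻ x, ∑ i ∈ Finset.range N, φ i x ∂m := by
  set Φ : X → ℝ≥0∞ := fun x => ∑ i ∈ Finset.range N, φ i x with hΦ
  have hΦm : Measurable Φ := Finset.measurable_sum _ fun i _ => hφ i
  set V : X → ℝ≥0∞ := fun x => ∑ i ∈ Finset.range N, S.it (2 * i) (φ i) x with hV
  have hVm : Measurable V := Finset.measurable_sum _ fun i _ => S.it_meas _ (hφ i)
  have hψ : ∀ i, Measurable (S.it i (φ i)) := fun i => S.it_meas i (hφ i)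
  have hYV : Y S N (fun i => S.it i (φ i)) = V := by
    rw [Y_eq S N _ hψ]
    funext x
    simp only [hV]
    apply Finset.sum_congr rfl
    intro i _
    rw [← it_add, two_mul]
  have hA : ∫⁻ x, V x ^ 2 ∂m ≠ ∞ := by
    apply lint_sum_sq_ne_top N _ (fun i => S.it_meas _ (hφ i))
    intro i hi
    refine ne_top_of_le_ne_top hfin ((lint_it_sq S _ (hφ i)).trans (lintegral_mono fun x => ?_))
    have h2 : φ i x ≤ Φ x := Finset.single_le_sum (f := fun i => φ i x) (fun _ _ => zero_le)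
      (Finset.mem_range.2 hi)
    have h3 : φ i x ≤ 1 := h2.trans (h1 x)
    calc φ i x ^ 2 = φ i x * φ i x := by ring
      _ ≤ φ i x * 1 := by gcongr
      _ ≤ _ := by rw [mul_one]; exact h2
  have h := lint_Y_sq S N (fun _ => 1) measurable_const (fun i => S.it i (φ i)) hψ
  rw [hYV] at h
  simp only [S.it_one, one_mul] at h
  have e1 : ∀ i, ∫⁻ x, (S.it i (φ i) x) ^ 2 ∂m = ∫⁻ x, φ i x * S.it (2 * i) (φ i) x ∂m := by
    intro i
    have := S.it_symm i (hφ i) (S.it_meas i (hφ i))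
    rw [two_mul, it_add, this]
    congr 1
    funext x
    ring
  have e2 : ∀ i j, j ≤ i → ∫⁻ x, S.it j (φ j) x * S.it (i - j) (S.it i (φ i)) x ∂m =
      ∫⁻ x, φ j x * S.it (2 * i) (φ i) x ∂m := by
    intro i j hij
    have := S.it_symm j (hφ j) (S.it_meas (i - j) (S.it_meas i (hφ i)))
    rw [← this]
    congr 1
    funext x
    rw [← it_add, ← it_add]
    congr 2
    omega
  have h2 : ∫⁻ x, V x ^ 2 ∂m ≤ 2 * ∫⁻ x, Φ x * V x ∂m := by
    refine h.trans ?_
    have e3 : ∫⁻ x, Φ x * V x ∂m = ∑ i ∈ Finset.range N, ∫⁻ x, Φ x * S.it (2 * i) (φ i) x ∂m := by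
      rw [← lintegral_finsetSum (Finset.range N)
        (f := fun i x => Φ x * S.it (2 * i) (φ i) x) (fun i _ => hΦm.mul (S.it_meas _ (hφ i)))]
      congr 1
      funext x
      simp only [hV, Finset.mul_sum]
    rw [e3, Finset.mul_sum, Finset.mul_sum, ← Finset.sum_add_distrib]
    apply Finset.sum_le_sum
    intro i hi
    have e4 : ∑ j ∈ Finset.range i, ∫⁻ x, S.it j (φ j) x * S.it (i - j) (S.it i (φ i)) x ∂m =
        ∑ j ∈ Finset.range i, ∫⁻ x, φ j x * S.it (2 * i) (φ i) x ∂m := by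
      apply Finset.sum_congr rfl
      intro j hj
      exact e2 i j (Finset.mem_range.1 hj).le
    rw [e4, e1]
    have e5 : ∫⁻ x, φ i x * S.it (2 * i) (φ i) x ∂m +
        ∑ j ∈ Finset.range i, ∫⁻ x, φ j x * S.it (2 * i) (φ i) x ∂m ≤
        ∫⁻ x, Φ x * S.it (2 * i) (φ i) x ∂m := by
      rw [add_comm, ← Finset.sum_range_succ (fun j => ∫⁻ x, φ j x * S.it (2 * i) (φ i) x ∂m),
        ← lintegral_finsetSum (Finset.range (i + 1))
        (f := fun j x => φ j x * S.it (2 * i) (φ i) x) (fun j _ => (hφ j).mul (S.it_meas _ (hφ i)))]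
      apply lintegral_mono
      intro x
      simp only
      rw [← Finset.sum_mul]
      gcongr
      apply Finset.sum_le_sum_of_subset
      intro j hj
      simp only [Finset.mem_range] at hi hj ⊢
      omega
    calc ∫⁻ x, φ i x * S.it (2 * i) (φ i) x ∂m +
        2 * ∑ j ∈ Finset.range i, ∫⁻ x, φ j x * S.it (2 * i) (φ i) x ∂m
        ≤ 2 * (∫⁻ x, φ i x * S.it (2 * i) (φ i) x ∂m +
        ∑ j ∈ Finset.range i, ∫⁻ x, φ j x * S.it (2 * i) (φ i) x ∂m) := by
          rw [mul_add]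
          gcongr
          exact le_mul_of_one_le_left zero_le (by norm_num)
      _ ≤ _ := by gcongr
  have h3 : 2 * ∫⁻ x, Φ x * V x ∂m ≤ 2 * ∫⁻ x, Φ x ∂m + (∫⁻ x, V x ^ 2 ∂m) / 2 := by
    rw [ENNReal.div_eq_inv_mul, ← lintegral_const_mul 2 (f := fun x => Φ x * V x) (hΦm.mul hVm),
      ← lintegral_const_mul _ hΦm,
      ← lintegral_const_mul _ (hVm.pow_const 2), ← lintegral_add_left (hΦm.const_mul 2)]
    apply lintegral_mono
    intro x
    have h4 := two_mul_le (Φ x) (V x)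
    rw [ENNReal.div_eq_inv_mul] at h4
    have h6 : Φ x ^ 2 ≤ Φ x := by
      calc Φ x ^ 2 = Φ x * Φ x := by ring
        _ ≤ Φ x * 1 := by gcongr; exact h1 x
        _ = Φ x := mul_one _
    calc 2 * (Φ x * V x) ≤ 2 * Φ x ^ 2 + 2⁻¹ * V x ^ 2 := h4
      _ ≤ 2 * Φ x + 2⁻¹ * V x ^ 2 := by gcongr
  have h5 := absorb hA (h2.trans h3)
  calc ∫⁻ x, V x ^ 2 ∂m ≤ 2 * (2 * ∫⁻ x, Φ x ∂m) := h5
    _ = 4 * ∫⁻ x, Φ x ∂m := by ring

/-- The dyadic splitting: the sum over pairs is at most `2p` times the total measure. -/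
theorem pair_sum (S : SymMarkov m) (ψ : ℕ → X → ℝ≥0∞) (hψ : ∀ i, Measurable (ψ i))
    (h1 : ∀ N x, ∑ i ∈ Finset.range N, ψ i x ≤ 1) (hfin : ∀ i, ∫⁻ x, ψ i x ∂m ≠ ∞) (p a : ℕ) :
    ∑ i ∈ Finset.range (2 ^ p), ∑ j ∈ Finset.range i,
      ∫⁻ x, ψ (a + j) x * S.sqr.it (i - j) (ψ (a + i)) x ∂m ≤
    2 * p * ∑ i ∈ Finset.range (2 ^ p), ∫⁻ x, ψ (a + i) x ∂m := by
  induction p generalizing a with
  | zero => simp
  | succ p ih =>
    set L := 2 ^ p with hL
    have hLL : 2 ^ (p + 1) = L + L := by rw [pow_succ]; omega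
    have hblock : ∀ b x, ∑ i ∈ Finset.range L, ψ (b + i) x ≤ 1 := by
      intro b x
      refine le_trans ?_ (h1 (b + L) x)
      rw [Finset.sum_range_add]
      exact le_add_self
    have hblockfin : ∀ b, ∫⁻ x, ∑ i ∈ Finset.range L, ψ (b + i) x ∂m ≠ ∞ := by
      intro b
      rw [lintegral_finsetSum _ (fun i _ => hψ (b + i))]
      exact ENNReal.sum_ne_top.2 fun i _ => hfin (b + i)
    -- the two half sums
    set VR : X → ℝ≥0∞ := fun x => ∑ i ∈ Finset.range L, S.sqr.it i (ψ (a + L + i)) x with hVR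
    set VL : X → ℝ≥0∞ := fun x => ∑ j ∈ Finset.range L, S.sqr.it (L - j) (ψ (a + j)) x with hVL
    have hVRm : Measurable VR := Finset.measurable_sum _ fun i _ => S.sqr.it_meas _ (hψ _)
    have hVLm : Measurable VL := Finset.measurable_sum _ fun i _ => S.sqr.it_meas _ (hψ _)
    have hR : ∫⁻ x, VR x ^ 2 ∂m ≤ 4 * ∑ i ∈ Finset.range L, ∫⁻ x, ψ (a + L + i) x ∂m := by
      have := lint_V_sq S L (fun i => ψ (a + L + i)) (fun i => hψ _) (hblock (a + L))
        (hblockfin (a + L))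
      rw [lintegral_finsetSum _ (fun i _ => hψ (a + L + i))] at this
      refine le_trans (le_of_eq ?_) this
      congr 1
      funext x
      simp only [hVR, sqr_it]
    have hLft : ∫⁻ x, VL x ^ 2 ∂m ≤ 4 * ∑ i ∈ Finset.range L, ∫⁻ x, ψ (a + i) x ∂m := by
      set W : X → ℝ≥0∞ := fun x => ∑ k ∈ Finset.range L, S.sqr.it k (ψ (a + (L - 1 - k))) x with hW
      have hWm : Measurable W := Finset.measurable_sum _ fun i _ => S.sqr.it_meas _ (hψ _)
      have e : VL = S.sqr.op W := by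
        rw [hW, S.sqr.op_sum _ _ (fun k => S.sqr.it_meas k (hψ _))]
        funext x
        simp only [hVL]
        rw [← Finset.sum_range_reflect]
        apply Finset.sum_congr rfl
        intro k hk
        have hk' := Finset.mem_range.1 hk
        rw [← it_succ']
        congr 2
        omega
      have e2 : ∫⁻ x, VL x ^ 2 ∂m ≤ ∫⁻ x, W x ^ 2 ∂m := by
        rw [e]
        calc ∫⁻ x, (S.sqr.op W x) ^ 2 ∂m ≤ ∫⁻ x, S.sqr.op (fun y => W y ^ 2) x ∂m :=
              lintegral_mono (S.sqr.sq _ hWm)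
          _ = _ := S.sqr.lint_op (hWm.pow_const 2)
      have hrefl : ∀ x, ∑ i ∈ Finset.range L, ψ (a + (L - 1 - i)) x =
          ∑ i ∈ Finset.range L, ψ (a + i) x := fun x =>
        Finset.sum_range_reflect (fun i => ψ (a + i) x) L
      have := lint_V_sq S L (fun k => ψ (a + (L - 1 - k))) (fun i => hψ _)
        (fun x => by rw [hrefl x]; exact hblock a x) (by simp only [hrefl]; exact hblockfin a)
      simp only [hrefl] at this
      rw [lintegral_finsetSum _ (fun i _ => hψ (a + i))] at this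
      refine e2.trans (le_trans (le_of_eq ?_) this)
      congr 1
      funext x
      simp only [hW, sqr_it]
    have hcross : ∑ i ∈ Finset.range L, ∑ j ∈ Finset.range L,
        ∫⁻ x, ψ (a + j) x * S.sqr.it (L + i - j) (ψ (a + (L + i))) x ∂m = ∫⁻ x, VL x * VR x ∂m := by
      have e1 : ∀ x, VL x * VR x = ∑ i ∈ Finset.range L, ∑ j ∈ Finset.range L,
          S.sqr.it (L - j) (ψ (a + j)) x * S.sqr.it i (ψ (a + L + i)) x := by
        intro x
        simp only [hVL, hVR]
        rw [Finset.sum_mul_sum, Finset.sum_comm]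
      simp only [e1]
      rw [lintegral_finsetSum _ (f := fun i x => ∑ j ∈ Finset.range L,
          S.sqr.it (L - j) (ψ (a + j)) x * S.sqr.it i (ψ (a + L + i)) x)
        (fun i _ => Finset.measurable_sum _ fun j _ =>
        (S.sqr.it_meas _ (hψ _)).mul (S.sqr.it_meas _ (hψ _)))]
      apply Finset.sum_congr rfl
      intro i _
      rw [lintegral_finsetSum _ (f := fun j x =>
          S.sqr.it (L - j) (ψ (a + j)) x * S.sqr.it i (ψ (a + L + i)) x) (fun j _ =>
        (S.sqr.it_meas _ (hψ _)).mul (S.sqr.it_meas _ (hψ _)))]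
      apply Finset.sum_congr rfl
      intro j hj
      have hj' := Finset.mem_range.1 hj
      rw [← S.sqr.it_symm (L - j) (hψ (a + j)) (S.sqr.it_meas i (hψ (a + L + i))), ← it_add]
      congr 1
      funext x
      rw [add_assoc a L i]
      congr 3
      omega
    rw [hLL, Finset.sum_range_add, Finset.sum_range_add]
    have hsplit : ∀ i, ∑ j ∈ Finset.range (L + i),
        ∫⁻ x, ψ (a + j) x * S.sqr.it (L + i - j) (ψ (a + (L + i))) x ∂m =
        (∑ j ∈ Finset.range L,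
        ∫⁻ x, ψ (a + j) x * S.sqr.it (L + i - j) (ψ (a + (L + i))) x ∂m) +
        ∑ j ∈ Finset.range i,
        ∫⁻ x, ψ (a + L + j) x * S.sqr.it (i - j) (ψ (a + L + i)) x ∂m := by
      intro i
      rw [Finset.sum_range_add]
      congr 1
      apply Finset.sum_congr rfl
      intro j _
      rw [← add_assoc, ← add_assoc, Nat.add_sub_add_left]
    simp only [hsplit, Finset.sum_add_distrib]
    rw [hcross]
    have hA := ih a
    have hB := ih (a + L)
    have hC : ∫⁻ x, VL x * VR x ∂m ≤ 2 * ∑ i ∈ Finset.range L, ∫⁻ x, ψ (a + i) x ∂m +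
        2 * ∑ i ∈ Finset.range L, ∫⁻ x, ψ (a + L + i) x ∂m := by
      calc ∫⁻ x, VL x * VR x ∂m ≤ ∫⁻ x, (2⁻¹ * VL x ^ 2 + 2⁻¹ * VR x ^ 2) ∂m := by
            apply lintegral_mono
            intro x
            have := mul_le_half (VL x) (VR x)
            rwa [ENNReal.div_eq_inv_mul, ENNReal.div_eq_inv_mul] at this
        _ = 2⁻¹ * ∫⁻ x, VL x ^ 2 ∂m + 2⁻¹ * ∫⁻ x, VR x ^ 2 ∂m := by
            rw [lintegral_add_left ((hVLm.pow_const 2).const_mul _),
              lintegral_const_mul _ (hVLm.pow_const 2), lintegral_const_mul _ (hVRm.pow_const 2)]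
        _ ≤ 2⁻¹ * (4 * ∑ i ∈ Finset.range L, ∫⁻ x, ψ (a + i) x ∂m) +
            2⁻¹ * (4 * ∑ i ∈ Finset.range L, ∫⁻ x, ψ (a + L + i) x ∂m) := by gcongr
        _ = _ := by
            have : (2⁻¹ : ℝ≥0∞) * 4 = 2 := by
              rw [show (4 : ℝ≥0∞) = 2 * 2 by norm_num, ← mul_assoc,
                ENNReal.inv_mul_cancel (by norm_num) (by norm_num), one_mul]
            rw [← mul_assoc, ← mul_assoc, this]
    simp only [add_assoc] at hB ⊢
    simp only [add_assoc] at hC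
    push_cast
    calc _ ≤ 2 * (p : ℝ≥0∞) * ∑ i ∈ Finset.range L, ∫⁻ x, ψ (a + i) x ∂m +
          ((2 * ∑ i ∈ Finset.range L, ∫⁻ x, ψ (a + i) x ∂m +
        2 * ∑ i ∈ Finset.range L, ∫⁻ x, ψ (a + (L + i)) x ∂m) +
        2 * (p : ℝ≥0∞) * ∑ i ∈ Finset.range L, ∫⁻ x, ψ (a + (L + i)) x ∂m) := by
          gcongr
      _ = _ := by ring

/-- One dyadic level of the maximal function. -/
theorem level (S : SymMarkov m) (f : X → ℝ≥0∞) (hf : Measurable f) (hfi : ∫⁻ x, f x ∂m ≠ ∞)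
    (s : ℝ≥0∞) (hs : s ≠ 0) (hs' : s ≠ ∞) (p : ℕ)
    (ψ : ℕ → X → ℝ≥0∞) (hψ : ∀ i, Measurable (ψ i))
    (h1 : ∀ N x, ∑ i ∈ Finset.range N, ψ i x ≤ 1)
    (hlow : ∀ j x, s * ψ j x ≤ S.sqr.it j f x * ψ j x)
    (hup : ∀ j x, S.sqr.it j f x * ψ j x ≤ 2 * s * ψ j x) :
    s * ∑ j ∈ Finset.range (2 ^ p), ∫⁻ x, ψ j x ∂m ≤ 2 * (1 + 4 * p) * ∫⁻ x, f x ∂m := by
  set T := S.sqr with hT
  have hle : ∀ j x, ψ j x ≤ 1 := by
    intro j x
    refine le_trans ?_ (h1 (j + 1) x)
    rw [Finset.sum_range_succ]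
    exact le_add_self
  have hsq : ∀ j x, ψ j x ^ 2 ≤ ψ j x := by
    intro j x
    calc ψ j x ^ 2 = ψ j x * ψ j x := by ring
      _ ≤ ψ j x * 1 := by gcongr; exact hle j x
      _ = _ := mul_one _
  have hfin : ∀ i, ∫⁻ x, ψ i x ∂m ≠ ∞ := by
    intro i
    have h2 : s * ∫⁻ x, ψ i x ∂m ≤ ∫⁻ x, f x ∂m := by
      rw [← lintegral_const_mul _ (hψ i), ← T.lint_it i hf]
      apply lintegral_mono
      intro x
      refine (hlow i x).trans ?_
      calc T.it i f x * ψ i x ≤ T.it i f x * 1 := by gcongr; exact hle i x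
        _ = _ := mul_one _
    intro h3
    rw [h3, ENNReal.mul_top hs] at h2
    exact hfi (top_le_iff.1 h2)
  set E := ∑ j ∈ Finset.range (2 ^ p), ∫⁻ x, ψ j x ∂m with hE
  have hEfin : E ≠ ∞ := ENNReal.sum_ne_top.2 fun i _ => hfin i
  set A : ℝ≥0∞ := 2 * (1 + 4 * p) with hA
  have hA0 : A ≠ 0 := by rw [hA]; simp
  have hAt : A ≠ ∞ := by
    rw [hA]
    exact ENNReal.mul_ne_top (by norm_num) (ENNReal.add_ne_top.2 ⟨by norm_num,
      ENNReal.mul_ne_top (by norm_num) (ENNReal.natCast_ne_top p)⟩)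
  set Yf := Y T (2 ^ p) ψ with hYf
  have hYm : Measurable Yf := Y_meas T _ _ hψ
  have hYe : Yf = fun x => ∑ j ∈ Finset.range (2 ^ p), T.it j (ψ j) x := Y_eq T _ _ hψ
  have hfY : ∫⁻ x, f x * Yf x ∂m = ∑ j ∈ Finset.range (2 ^ p), ∫⁻ x, T.it j f x * ψ j x ∂m := by
    have e1 : ∀ x, f x * Yf x = ∑ j ∈ Finset.range (2 ^ p), f x * T.it j (ψ j) x := by
      intro x
      rw [hYe, Finset.mul_sum]
    simp only [e1]
    rw [lintegral_finsetSum _ (f := fun j x => f x * T.it j (ψ j) x)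
      (fun j _ => hf.mul (T.it_meas j (hψ j)))]
    apply Finset.sum_congr rfl
    intro j _
    exact T.it_symm j hf (hψ j)
  have hstep1 : s * E ≤ ∫⁻ x, f x * Yf x ∂m := by
    rw [hfY, hE, Finset.mul_sum]
    apply Finset.sum_le_sum
    intro j _
    rw [← lintegral_const_mul _ (hψ j)]
    exact lintegral_mono (hlow j)
  have hpair := pair_sum S ψ hψ h1 hfin p 0
  simp only [zero_add] at hpair
  have hstep2 : ∫⁻ x, f x * Yf x ^ 2 ∂m ≤ A * (s * E) := by
    refine (lint_Y_sq T (2 ^ p) f hf ψ hψ).trans ?_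
    have ha : ∑ i ∈ Finset.range (2 ^ p), ∫⁻ x, T.it i f x * ψ i x ^ 2 ∂m ≤ 2 * s * E := by
      rw [hE, Finset.mul_sum]
      apply Finset.sum_le_sum
      intro i _
      rw [← lintegral_const_mul _ (hψ i)]
      apply lintegral_mono
      intro x
      calc T.it i f x * ψ i x ^ 2 ≤ T.it i f x * ψ i x := by gcongr; exact hsq i x
        _ ≤ _ := hup i x
    have hb : ∑ i ∈ Finset.range (2 ^ p), ∑ j ∈ Finset.range i,
        ∫⁻ x, T.it j f x * (ψ j x * T.it (i - j) (ψ i) x) ∂m ≤ 2 * s * (2 * p * E) := by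
      calc _ ≤ ∑ i ∈ Finset.range (2 ^ p), ∑ j ∈ Finset.range i,
            2 * s * ∫⁻ x, ψ j x * T.it (i - j) (ψ i) x ∂m := by
            apply Finset.sum_le_sum
            intro i _
            apply Finset.sum_le_sum
            intro j _
            rw [← lintegral_const_mul _ (f := fun x => ψ j x * T.it (i - j) (ψ i) x)
              ((hψ j).mul (T.it_meas _ (hψ i)))]
            apply lintegral_mono
            intro x
            simp only
            rw [← mul_assoc, ← mul_assoc]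
            gcongr ?_ * _
            exact hup j x
        _ = 2 * s * ∑ i ∈ Finset.range (2 ^ p), ∑ j ∈ Finset.range i,
            ∫⁻ x, ψ j x * T.it (i - j) (ψ i) x ∂m := by
            simp only [Finset.mul_sum]
        _ ≤ _ := by gcongr
    calc _ ≤ 2 * s * E + 2 * (2 * s * (2 * p * E)) := by gcongr
      _ = A * (s * E) := by rw [hA]; ring
  have hsE : s * E ≠ ∞ := ENNReal.mul_ne_top hs' hEfin
  have hstep3 : A * (s * E) ≤ (A ^ 2 / 2) * ∫⁻ x, f x ∂m + (A * (s * E)) / 2 := by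
    calc A * (s * E) ≤ A * ∫⁻ x, f x * Yf x ∂m := by gcongr
      _ = ∫⁻ x, A * (f x * Yf x) ∂m :=
          (lintegral_const_mul _ (f := fun x => f x * Yf x) (hf.mul hYm)).symm
      _ ≤ ∫⁻ x, (A ^ 2 / 2 * f x + 2⁻¹ * (f x * Yf x ^ 2)) ∂m := by
          apply lintegral_mono
          intro x
          have h3 := mul_le_half A (Yf x)
          calc A * (f x * Yf x) = f x * (A * Yf x) := by ring
            _ ≤ f x * (A ^ 2 / 2 + Yf x ^ 2 / 2) := by gcongr
            _ = _ := by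
              rw [ENNReal.div_eq_inv_mul (b := 2) (a := Yf x ^ 2)]
              ring
      _ = A ^ 2 / 2 * ∫⁻ x, f x ∂m + 2⁻¹ * ∫⁻ x, f x * Yf x ^ 2 ∂m := by
          rw [lintegral_add_left (hf.const_mul _), lintegral_const_mul _ hf,
            lintegral_const_mul _ (f := fun x => f x * Yf x ^ 2) (hf.mul (hYm.pow_const 2))]
      _ ≤ _ := by
          rw [ENNReal.div_eq_inv_mul (a := A * (s * E))]
          gcongr
  have hstep4 := absorb (ENNReal.mul_ne_top hAt hsE) hstep3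
  have hstep5 : A * (s * E) ≤ A * (A * ∫⁻ x, f x ∂m) := by
    refine hstep4.trans (le_of_eq ?_)
    rw [← mul_assoc, ENNReal.mul_div_cancel (by norm_num) (by norm_num)]
    ring
  exact (ENNReal.mul_le_mul_iff_right hA0 hAt).1 hstep5

/-- Weak type (1,1) with constant `4(1+4p)` for the maximal function of the first `2^p` iterates
of the square of a symmetric Markov operator. -/
theorem weak_type (S : SymMarkov m) (f : X → ℝ≥0∞) (hf : Measurable f) (hfi : ∫⁻ x, f x ∂m ≠ ∞)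
    (s : ℝ≥0∞) (hs : s ≠ 0) (hs' : s ≠ ∞) (p : ℕ) :
    m {x | ∃ j < 2 ^ p, s < S.sqr.it j f x} ≤ (4 * (1 + 4 * p)) / s * ∫⁻ x, f x ∂m := by
  classical
  set T := S.sqr with hT
  -- level sets
  let D : ℕ → ℕ → Set X := fun i j => {x | j < 2 ^ p ∧ 2 ^ i * s < T.it j f x ∧
    (∀ k < j, T.it k f x ≤ 2 ^ i * s) ∧ ∀ k < 2 ^ p, T.it k f x ≤ 2 * (2 ^ i * s)}
  have hDm : ∀ i j, MeasurableSet (D i j) := by
    intro i j
    have e : D i j = {x | j < 2 ^ p} ∩ ({x | 2 ^ i * s < T.it j f x} ∩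
        ((⋂ k ∈ Set.Iio j, {x | T.it k f x ≤ 2 ^ i * s}) ∩
        (⋂ k ∈ Set.Iio (2 ^ p), {x | T.it k f x ≤ 2 * (2 ^ i * s)}))) := by
      ext x
      simp [D, Set.mem_iInter]
    rw [e]
    refine (MeasurableSet.const _).inter ((measurableSet_lt measurable_const
      (T.it_meas j hf)).inter ((MeasurableSet.biInter (Set.to_countable _) fun k _ =>
      measurableSet_le (T.it_meas k hf) measurable_const).inter
      (MeasurableSet.biInter (Set.to_countable _) fun k _ =>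
      measurableSet_le (T.it_meas k hf) measurable_const)))
  have hDdisj : ∀ i j k x, x ∈ D i j → x ∈ D i k → j = k := by
    intro i j k x hj hk
    by_contra hne
    rcases lt_or_gt_of_ne hne with h | h
    · exact absurd (hk.2.2.1 j h) (not_le.2 hj.2.1)
    · exact absurd (hj.2.2.1 k h) (not_le.2 hk.2.1)
  -- each level
  have hlev : ∀ i, m (⋃ j, D i j) ≤ (2 * (1 + 4 * p) * ∫⁻ x, f x ∂m) / (2 ^ i * s) := by
    intro i
    have hs1 : (2 : ℝ≥0∞) ^ i * s ≠ 0 := mul_ne_zero (by simp) hs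
    have hs2 : (2 : ℝ≥0∞) ^ i * s ≠ ∞ := ENNReal.mul_ne_top (by simp) hs'
    have h := level S f hf hfi (2 ^ i * s) hs1 hs2 p
      (fun j => (D i j).indicator (fun _ => 1)) (fun j => measurable_const.indicator (hDm i j))
      (by
        intro N x
        by_cases hx : ∃ j, x ∈ D i j
        · obtain ⟨j, hj⟩ := hx
          calc ∑ k ∈ Finset.range N, (D i k).indicator (fun _ => (1 : ℝ≥0∞)) x
              ≤ ∑ k ∈ Finset.range N, if k = j then 1 else 0 := by
                apply Finset.sum_le_sum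
                intro k _
                by_cases hk : x ∈ D i k
                · rw [if_pos (hDdisj i k j x hk hj), Set.indicator_of_mem hk]
                · rw [Set.indicator_of_notMem hk]; exact zero_le
            _ ≤ 1 := by
                rw [Finset.sum_ite_eq' (Finset.range N) j]
                split_ifs <;> simp
        · push_neg at hx
          have : ∑ k ∈ Finset.range N, (D i k).indicator (fun _ => (1 : ℝ≥0∞)) x = 0 :=
            Finset.sum_eq_zero fun k _ => Set.indicator_of_notMem (hx k) _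
          rw [this]
          exact zero_le)
      (by
        intro j x
        by_cases hx : x ∈ D i j
        · rw [Set.indicator_of_mem hx, mul_one, mul_one]
          exact hx.2.1.le
        · rw [Set.indicator_of_notMem hx, mul_zero, mul_zero])
      (by
        intro j x
        by_cases hx : x ∈ D i j
        · rw [Set.indicator_of_mem hx, mul_one, mul_one]
          exact hx.2.2.2 j hx.1
        · rw [Set.indicator_of_notMem hx, mul_zero, mul_zero])
    rw [ENNReal.le_div_iff_mul_le (Or.inl hs1) (Or.inl hs2), mul_comm]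
    refine le_trans ?_ h
    gcongr
    have e : (⋃ j, D i j) = ⋃ j ∈ Finset.range (2 ^ p), D i j := by
      ext x
      simp only [Set.mem_iUnion, Finset.mem_range, exists_prop]
      exact ⟨fun ⟨j, hj⟩ => ⟨j, hj.1, hj⟩, fun ⟨j, _, hj⟩ => ⟨j, hj⟩⟩
    rw [e]
    refine (measure_biUnion_finset_le _ _).trans (le_of_eq ?_)
    apply Finset.sum_congr rfl
    intro j _
    rw [lintegral_indicator (hDm i j)]
    simp
  -- the points where some iterate is infinite
  have hinf : m {x | ∃ j < 2 ^ p, T.it j f x = ∞} = 0 := by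
    have : ∀ j, ∀ᵐ x ∂m, T.it j f x < ∞ := fun j =>
      ae_lt_top (T.it_meas j hf) (by rw [T.lint_it j hf]; exact hfi)
    have h2 : ∀ᵐ x ∂m, ∀ j, T.it j f x < ∞ := ae_all_iff.2 this
    have h3 := ae_iff.1 h2
    refine measure_mono_null ?_ h3
    rintro x ⟨j, _, hj⟩
    simp only [not_forall, Set.mem_setOf_eq]
    exact ⟨j, by rw [hj]; exact lt_irrefl _⟩
  have hcov : {x | ∃ j < 2 ^ p, s < T.it j f x} ⊆
      {x | ∃ j < 2 ^ p, T.it j f x = ∞} ∪ ⋃ i, ⋃ j, D i j := by
    rintro x ⟨j0, hj0, hx0⟩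
    by_cases hx : ∃ j < 2 ^ p, T.it j f x = ∞
    · exact Or.inl hx
    right
    push_neg at hx
    -- some power bounds all iterates
    have hex : ∃ i : ℕ, ∀ k < 2 ^ p, T.it k f x ≤ 2 * (2 ^ i * s) := by
      set B := ∑ k ∈ Finset.range (2 ^ p), T.it k f x with hB
      have hBt : B ≠ ∞ := ENNReal.sum_ne_top.2 fun k hk => hx k (Finset.mem_range.1 hk)
      have hBs : B / s ≠ ∞ := ENNReal.div_ne_top hBt hs
      obtain ⟨n, hn⟩ := ENNReal.exists_nat_gt hBs
      refine ⟨n, fun k hk => ?_⟩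
      have h1 : T.it k f x ≤ B := Finset.single_le_sum (f := fun k => T.it k f x)
        (fun _ _ => zero_le) (Finset.mem_range.2 hk)
      have h2 : B ≤ n * s := by
        rw [ENNReal.div_lt_iff (Or.inl hs) (Or.inl hs')] at hn
        exact hn.le
      have h3 : (n : ℝ≥0∞) ≤ 2 ^ n := by exact_mod_cast Nat.lt_two_pow_self.le
      calc T.it k f x ≤ B := h1
        _ ≤ n * s := h2
        _ ≤ 2 ^ n * s := by gcongr
        _ ≤ 2 * (2 ^ n * s) := le_mul_of_one_le_left zero_le (by norm_num)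
    have hmin := Nat.find_spec hex
    set i := Nat.find hex with hi
    -- some iterate exceeds 2^i s
    have hex2 : ∃ j, j < 2 ^ p ∧ 2 ^ i * s < T.it j f x := by
      rcases Nat.eq_zero_or_pos i with h0 | h0
      · exact ⟨j0, hj0, by rw [h0]; simpa using hx0⟩
      · have h1 := Nat.find_min hex (m := i - 1) (by omega)
        push_neg at h1
        obtain ⟨k, hk, hk2⟩ := h1
        refine ⟨k, hk, ?_⟩
        have h2 : (2 : ℝ≥0∞) ^ i = 2 * 2 ^ (i - 1) := by
          rw [← pow_succ']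
          congr 1
          omega
        rw [h2, mul_assoc]
        exact hk2
    have hj := Nat.find_spec hex2
    refine Set.mem_iUnion.2 ⟨i, Set.mem_iUnion.2 ⟨Nat.find hex2, hj.1, hj.2, ?_, hmin⟩⟩
    intro k hk
    have h1 := Nat.find_min hex2 hk
    push_neg at h1
    exact h1 (hk.trans hj.1)
  calc m {x | ∃ j < 2 ^ p, s < T.it j f x}
      ≤ m ({x | ∃ j < 2 ^ p, T.it j f x = ∞} ∪ ⋃ i, ⋃ j, D i j) := measure_mono hcov
    _ ≤ m {x | ∃ j < 2 ^ p, T.it j f x = ∞} + m (⋃ i, ⋃ j, D i j) := measure_union_le _ _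
    _ ≤ 0 + ∑' i, m (⋃ j, D i j) := by
        gcongr
        · exact hinf.le
        · exact measure_iUnion_le _
    _ ≤ ∑' i : ℕ, (2 * (1 + 4 * p) * ∫⁻ x, f x ∂m) / s * (2⁻¹) ^ i := by
        rw [zero_add]
        apply ENNReal.tsum_le_tsum
        intro i
        refine (hlev i).trans (le_of_eq ?_)
        rw [ENNReal.div_eq_inv_mul, ENNReal.mul_inv (Or.inr hs') (Or.inr hs),
          ENNReal.div_eq_inv_mul, ENNReal.inv_pow]
        ring
    _ = _ := by
        rw [ENNReal.tsum_mul_left, ENNReal.tsum_geometric, ENNReal.one_sub_inv_two, inv_inv,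
          ENNReal.div_eq_inv_mul, ENNReal.div_eq_inv_mul]
        ring

end Pool.MaxFn
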