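import Pool.Agent.MaxFn.Defs2

/-! MODULE P0 (measurability and elementary facts about rad, vb, mb, lev, fst). -/

set_option autoImplicit false

open MeasureTheory Metric
open scoped ENNReal RealInnerProductSpace

namespace Pool.MaxFn

theorem rad_sq (n : ℕ) (hn : 1 ≤ n) (R : ℝ) (j : ℕ) : rad n R j ^ 2 = R ^ 2 * (1 + j / n) := by
  unfold rad
  rw [mul_pow, Real.sq_sqrt (by positivity)]

theorem rad_pos (n : ℕ) (R : ℝ) (hR : 0 < R) (j : ℕ) : 0 < rad n R j := by
  unfold rad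
  positivity

theorem rad_mono (n : ℕ) (R : ℝ) (hR : 0 < R) {i j : ℕ} (h : i ≤ j) : rad n R i ≤ rad n R j := by
  unfold rad
  have : (i : ℝ) ≤ j := by exact_mod_cast h
  gcongr

theorem vb_ne_zero (n : ℕ) (R : ℝ) (hR : 0 < R) (j : ℕ) : vb n R j ≠ 0 :=
  (measure_ball_pos _ _ (rad_pos n R hR j)).ne'

theorem vb_ne_top (n : ℕ) (R : ℝ) (j : ℕ) : vb n R j ≠ ∞ :=
  measure_ball_lt_top.ne

theorem vb_mono (n : ℕ) (R : ℝ) (hR : 0 < R) {i j : ℕ} (h : i ≤ j) : vb n R i ≤ vb n R j :=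
  measure_mono (ball_subset_ball (rad_mono n R hR h))

theorem basic2_vb_eq (n : ℕ) (R : ℝ) (hR : 0 < R) (j : ℕ) :
    vb n R j = ENNReal.ofReal (rad n R j ^ n) *
      volume (ball (0 : EuclideanSpace ℝ (Fin n)) 1) := by
  unfold vb
  rw [Measure.addHaar_ball_of_pos _ _ (rad_pos n R hR j)]
  simp

/-- comparison of volumes from a comparison of squares of radii -/
theorem basic2_vb_le (n : ℕ) (hn : 1 ≤ n) (R : ℝ) (hR : 0 < R) (i j : ℕ) (c : ℝ)
    (h : Real.exp (2 * c / n) * rad n R i ^ 2 ≤ rad n R j ^ 2) :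
    ENNReal.ofReal (Real.exp c) * vb n R i ≤ vb n R j := by
  have hn0 : (0 : ℝ) < n := by exact_mod_cast hn
  rw [basic2_vb_eq n R hR i, basic2_vb_eq n R hR j, ← mul_assoc,
    ← ENNReal.ofReal_mul (Real.exp_pos _).le]
  gcongr
  have h1 : Real.exp (c / n) * rad n R i ≤ rad n R j := by
    have h2 : (Real.exp (c / n) * rad n R i) ^ 2 ≤ rad n R j ^ 2 := by
      rw [mul_pow, ← Real.exp_nat_mul]
      convert h using 3
      push_cast
      ring
    exact (pow_le_pow_iff_left₀ (by have := rad_pos n R hR i; positivity)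
      (rad_pos n R hR j).le two_ne_zero).mp h2
  have h3 : Real.exp c * rad n R i ^ n = (Real.exp (c / n) * rad n R i) ^ n := by
    rw [mul_pow, ← Real.exp_nat_mul]
    congr 2
    field_simp
  rw [h3]
  exact pow_le_pow_left₀ (by have := rad_pos n R hR i; positivity) h1 n

/-- consecutive volumes: `vb (j+1) <= e^{1/2} vb j` -/
theorem vb_succ_le (n : ℕ) (hn : 1 ≤ n) (R : ℝ) (hR : 0 < R) (j : ℕ) :
    vb n R (j + 1) ≤ ENNReal.ofReal (Real.exp (1 / 2)) * vb n R j := by
  have hn0 : (0 : ℝ) < n := by exact_mod_cast hn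
  have key : ENNReal.ofReal (Real.exp (-(1 / 2))) * vb n R (j + 1) ≤ vb n R j := by
    apply basic2_vb_le n hn R hR
    rw [rad_sq n hn, rad_sq n hn]
    have h1 : Real.exp (2 * -(1 / 2) / n) * (1 + 1 / n) ≤ 1 := by
      have h2 : (1 + 1 / (n : ℝ)) ≤ Real.exp (1 / n) := by
        have := Real.add_one_le_exp (1 / (n : ℝ)); linarith
      calc Real.exp (2 * -(1 / 2) / n) * (1 + 1 / n)
          ≤ Real.exp (2 * -(1 / 2) / n) * Real.exp (1 / n) := by gcongr
        _ = 1 := by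
            rw [← Real.exp_add]
            have : 2 * -(1 / 2) / (n : ℝ) + 1 / n = 0 := by ring
            rw [this, Real.exp_zero]
    have h3 : (1 + ((j + 1 : ℕ) : ℝ) / n) ≤ (1 + 1 / (n : ℝ)) * (1 + j / n) := by
      push_cast
      have : (0 : ℝ) ≤ 1 / n * (j / n) := by positivity
      have h4 : (1 + 1 / (n : ℝ)) * (1 + j / n) = 1 + (j + 1) / n + 1 / n * (j / n) := by ring
      rw [h4]
      linarith
    calc Real.exp (2 * -(1 / 2) / n) * (R ^ 2 * (1 + ((j + 1 : ℕ) : ℝ) / n))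
        ≤ Real.exp (2 * -(1 / 2) / n) * (R ^ 2 * ((1 + 1 / (n : ℝ)) * (1 + j / n))) := by gcongr
      _ = (Real.exp (2 * -(1 / 2) / n) * (1 + 1 / n)) * (R ^ 2 * (1 + j / n)) := by ring
      _ ≤ 1 * (R ^ 2 * (1 + j / n)) := by gcongr
      _ = R ^ 2 * (1 + j / n) := one_mul _
  calc vb n R (j + 1) = ENNReal.ofReal (Real.exp (1 / 2)) *
        (ENNReal.ofReal (Real.exp (-(1 / 2))) * vb n R (j + 1)) := by
        rw [← mul_assoc, ← ENNReal.ofReal_mul (Real.exp_pos _).le, ← Real.exp_add]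
        simp
    _ ≤ _ := by gcongr

/-- `vb b / vb j >= exp ((b-j)/8)` for `j <= b <= n` -/
theorem vb_ratio (n : ℕ) (hn : 1 ≤ n) (R : ℝ) (hR : 0 < R) (j b : ℕ) (hjb : j ≤ b) (hb : b ≤ n) :
    ENNReal.ofReal (Real.exp (((b : ℝ) - j) / 8)) * vb n R j ≤ vb n R b := by
  have hn0 : (0 : ℝ) < n := by exact_mod_cast hn
  have hjb' : (j : ℝ) ≤ b := by exact_mod_cast hjb
  have hb' : (b : ℝ) ≤ n := by exact_mod_cast hb
  have hj0 : (0 : ℝ) ≤ j := by positivity
  apply basic2_vb_le n hn R hR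
  rw [rad_sq n hn, rad_sq n hn]
  set x : ℝ := 2 * (((b : ℝ) - j) / 8) / n with hx
  have hx0 : 0 ≤ x := by
    have : 0 ≤ (b : ℝ) - j := by linarith
    positivity
  have hx1 : x ≤ 1 / 4 := by
    rw [hx, div_le_iff₀ hn0]
    linarith
  have h1 : Real.exp x ≤ 1 + 2 * x := by
    have h2 := Real.abs_exp_sub_one_sub_id_le (x := x) (by rw [abs_of_nonneg hx0]; linarith)
    have h3 := (abs_le.mp h2).2
    nlinarith
  have h4 : (1 + 2 * x) * (1 + j / n) ≤ 1 + (b : ℝ) / n := by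
    have h5 : 2 * x = ((b : ℝ) - j) / (2 * n) := by rw [hx]; field_simp; ring
    rw [h5]
    have h6 : (1 + ((b : ℝ) - j) / (2 * n)) * (1 + j / n) =
        1 + j / n + ((b : ℝ) - j) / n * ((1 + j / n) / 2) := by field_simp
    have h7 : (1 + (j : ℝ) / n) / 2 ≤ 1 := by
      have : (j : ℝ) / n ≤ 1 := by
        rw [div_le_one hn0]; linarith
      linarith
    have h8 : 0 ≤ ((b : ℝ) - j) / n := by
      have : 0 ≤ (b : ℝ) - j := by linarith
      positivity
    have h9 : ((b : ℝ) - j) / n * ((1 + j / n) / 2) ≤ ((b : ℝ) - j) / n * 1 := by gcongr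
    have h10 : 1 + (j : ℝ) / n + ((b : ℝ) - j) / n * 1 = 1 + (b : ℝ) / n := by ring
    rw [h6]
    linarith
  calc Real.exp x * (R ^ 2 * (1 + j / n)) ≤ (1 + 2 * x) * (R ^ 2 * (1 + j / n)) := by gcongr
    _ = R ^ 2 * ((1 + 2 * x) * (1 + j / n)) := by ring
    _ ≤ R ^ 2 * (1 + (b : ℝ) / n) := by gcongr

/-- `vb (j) <= e^{-1/4} vb (j+1)` for `j+1 <= n` -/
theorem vb_le_succ (n : ℕ) (hn : 1 ≤ n) (R : ℝ) (hR : 0 < R) (j : ℕ) (hj : j + 1 ≤ n) :
    vb n R j ≤ ENNReal.ofReal (Real.exp (-(1 / 4))) * vb n R (j + 1) := by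
  have hn0 : (0 : ℝ) < n := by exact_mod_cast hn
  have hj' : (j : ℝ) + 1 ≤ n := by exact_mod_cast hj
  have hj0 : (0 : ℝ) ≤ j := by positivity
  have key : ENNReal.ofReal (Real.exp (1 / 4)) * vb n R j ≤ vb n R (j + 1) := by
    apply basic2_vb_le n hn R hR
    rw [rad_sq n hn, rad_sq n hn]
    have h1 : Real.exp (2 * (1 / 4) / n) * (1 - 1 / (2 * n)) ≤ 1 := by
      have h2 : 1 - 1 / (2 * (n : ℝ)) ≤ Real.exp (-(1 / (2 * n))) := by
        have := Real.add_one_le_exp (-(1 / (2 * (n : ℝ)))); linarith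
      calc Real.exp (2 * (1 / 4) / n) * (1 - 1 / (2 * n))
          ≤ Real.exp (2 * (1 / 4) / n) * Real.exp (-(1 / (2 * n))) := by gcongr
        _ = 1 := by
            rw [← Real.exp_add]
            have : 2 * (1 / 4) / (n : ℝ) + -(1 / (2 * n)) = 0 := by ring
            rw [this, Real.exp_zero]
    have h3 : (1 + (j : ℝ) / n) ≤ (1 - 1 / (2 * (n : ℝ))) * (1 + ((j + 1 : ℕ) : ℝ) / n) := by
      push_cast
      have h4 : (1 - 1 / (2 * (n : ℝ))) * (1 + ((j : ℝ) + 1) / n) - (1 + (j : ℝ) / n) =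
          (1 / (2 * n)) * (1 - (j + 1) / n) := by
        field_simp
        ring
      have h5 : 0 ≤ (1 / (2 * (n : ℝ))) * (1 - (j + 1) / n) := by
        have : ((j : ℝ) + 1) / n ≤ 1 := by rw [div_le_one hn0]; exact hj'
        have h6 : 0 ≤ 1 - ((j : ℝ) + 1) / n := by linarith
        positivity
      linarith
    calc Real.exp (2 * (1 / 4) / n) * (R ^ 2 * (1 + (j : ℝ) / n))
        ≤ Real.exp (2 * (1 / 4) / n) *
          (R ^ 2 * ((1 - 1 / (2 * (n : ℝ))) * (1 + ((j + 1 : ℕ) : ℝ) / n))) := by gcongr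
      _ = (Real.exp (2 * (1 / 4) / n) * (1 - 1 / (2 * n))) *
          (R ^ 2 * (1 + ((j + 1 : ℕ) : ℝ) / n)) := by ring
      _ ≤ 1 * (R ^ 2 * (1 + ((j + 1 : ℕ) : ℝ) / n)) := by gcongr
      _ = _ := one_mul _
  calc vb n R j = ENNReal.ofReal (Real.exp (-(1 / 4))) *
        (ENNReal.ofReal (Real.exp (1 / 4)) * vb n R j) := by
        rw [← mul_assoc, ← ENNReal.ofReal_mul (Real.exp_pos _).le, ← Real.exp_add]
        simp
    _ ≤ _ := by gcongr

theorem measurable_mb (n : ℕ) (R : ℝ) (f : EuclideanSpace ℝ (Fin n) → ℝ≥0∞) (hf : Measurable f)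
    (j : ℕ) : Measurable (fun x => mb n R f x j) := by
  have h1 : (fun x => mb n R f x j) = fun x => ∫⁻ z,
      Set.indicator {p : EuclideanSpace ℝ (Fin n) × EuclideanSpace ℝ (Fin n) |
        dist p.2 p.1 < rad n R j} (fun p => f p.2) (x, z) := by
    funext x
    unfold mb
    rw [← lintegral_indicator measurableSet_ball]
    rfl
  rw [h1]
  refine Measurable.lintegral_prod_right' ?_
  refine (hf.comp measurable_snd).indicator ?_
  exact measurableSet_lt (measurable_snd.dist measurable_fst) measurable_const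

theorem basic2_measurableSet_lt (n : ℕ) (R : ℝ) (f : EuclideanSpace ℝ (Fin n) → ℝ≥0∞)
    (hf : Measurable f) (s : ℝ≥0∞) (j : ℕ) :
    MeasurableSet {x | s * vb n R j < mb n R f x j} :=
  measurableSet_lt measurable_const (measurable_mb n R f hf j)

theorem measurableSet_lev (n : ℕ) (R : ℝ) (f : EuclideanSpace ℝ (Fin n) → ℝ≥0∞)
    (hf : Measurable f) (s : ℝ≥0∞) : MeasurableSet (lev n R f s) := by
  have h1 : lev n R f s = (⋃ j : ℕ, ⋃ _ : j ≤ n, {x | s * vb n R j < mb n R f x j}) ∩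
      ⋂ j : ℕ, ⋂ _ : j ≤ n, {x | mb n R f x j ≤ 2 * s * vb n R j} := by
    ext x
    simp [lev]
  rw [h1]
  refine MeasurableSet.inter ?_ ?_
  · exact MeasurableSet.iUnion fun j => MeasurableSet.iUnion fun _ =>
      basic2_measurableSet_lt n R f hf s j
  · exact MeasurableSet.iInter fun j => MeasurableSet.iInter fun _ =>
      measurableSet_le (measurable_mb n R f hf j) measurable_const

theorem measurable_fst (n : ℕ) (R : ℝ) (f : EuclideanSpace ℝ (Fin n) → ℝ≥0∞)
    (hf : Measurable f) (s : ℝ≥0∞) : Measurable (fst n R f s) := by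
  refine measurable_to_countable' fun k => ?_
  have h1 : fst n R f s ⁻¹' {k} =
      ({x | s * vb n R k < mb n R f x k} ∩
        ⋂ i : ℕ, ⋂ _ : i < k, {x | s * vb n R i < mb n R f x i}ᶜ) ∪
      ({_x | k = 0} ∩ ⋂ i : ℕ, {x | s * vb n R i < mb n R f x i}ᶜ) := by
    ext x
    simp only [Set.mem_preimage, Set.mem_singleton_iff, Set.mem_union, Set.mem_inter_iff,
      Set.mem_iInter, Set.mem_compl_iff, Set.mem_ofPred_eq]
    constructor
    · intro h
      by_cases hne : {j | s * vb n R j < mb n R f x j}.Nonempty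
      · left
        have h2 := Nat.sInf_mem hne
        have h3 : sInf {j | s * vb n R j < mb n R f x j} = k := h
        rw [h3] at h2
        refine ⟨h2, fun i hi => ?_⟩
        rw [← h3] at hi
        exact Nat.notMem_of_lt_sInf hi
      · right
        have h2 : {j | s * vb n R j < mb n R f x j} = ∅ := Set.not_nonempty_iff_eq_empty.mp hne
        refine ⟨?_, fun i hi => hne ⟨i, hi⟩⟩
        rw [← h]
        unfold fst
        rw [h2]
        simp
    · rintro (⟨h2, h3⟩ | ⟨h2, h3⟩)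
      · unfold fst
        apply le_antisymm
        · exact Nat.sInf_le h2
        · by_contra hlt
          push Not at hlt
          have h4 := Nat.sInf_mem (s := {j | s * vb n R j < mb n R f x j}) ⟨k, h2⟩
          exact h3 _ hlt h4
      · unfold fst
        have h4 : {j | s * vb n R j < mb n R f x j} = ∅ := by
          ext j
          simp only [Set.mem_ofPred_eq, Set.mem_empty_iff_false, iff_false]
          exact h3 j
        rw [h4, h2]
        simp
  rw [h1]
  refine MeasurableSet.union (MeasurableSet.inter (basic2_measurableSet_lt n R f hf s k)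
    (MeasurableSet.iInter fun i => MeasurableSet.iInter fun _ =>
      (basic2_measurableSet_lt n R f hf s i).compl)) (MeasurableSet.inter
      (MeasurableSet.const _) (MeasurableSet.iInter fun i =>
      (basic2_measurableSet_lt n R f hf s i).compl))

theorem fst_le (n : ℕ) (R : ℝ) (f : EuclideanSpace ℝ (Fin n) → ℝ≥0∞) (s : ℝ≥0∞)
    (x : EuclideanSpace ℝ (Fin n)) (hx : x ∈ lev n R f s) : fst n R f s x ≤ n := by
  obtain ⟨⟨j, hj, hj'⟩, -⟩ := hx
  exact (Nat.sInf_le hj').trans hj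

theorem fst_spec (n : ℕ) (R : ℝ) (f : EuclideanSpace ℝ (Fin n) → ℝ≥0∞) (s : ℝ≥0∞)
    (x : EuclideanSpace ℝ (Fin n)) (hx : x ∈ lev n R f s) :
    s * vb n R (fst n R f s x) < mb n R f x (fst n R f s x) := by
  obtain ⟨⟨j, hj, hj'⟩, -⟩ := hx
  exact Nat.sInf_mem (s := {j | s * vb n R j < mb n R f x j}) ⟨j, hj'⟩

theorem lt_fst (n : ℕ) (R : ℝ) (f : EuclideanSpace ℝ (Fin n) → ℝ≥0∞) (s : ℝ≥0∞)
    (x : EuclideanSpace ℝ (Fin n)) (j : ℕ) (hj : j < fst n R f s x) :
    mb n R f x j ≤ s * vb n R j := by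
  have h := Nat.notMem_of_lt_sInf hj
  exact not_lt.mp h

theorem basic2_measurable_rad (n : ℕ) (R : ℝ) : Measurable (rad n R) :=
  measurable_of_countable _

theorem measurableSet_shell (n : ℕ) (R : ℝ) :
    MeasurableSet {q : (EuclideanSpace ℝ (Fin n) × ℕ) × EuclideanSpace ℝ (Fin n) |
      q.2 ∈ shell n R q.1.1 q.1.2} := by
  have h1 : Measurable fun q : (EuclideanSpace ℝ (Fin n) × ℕ) × EuclideanSpace ℝ (Fin n) =>
      dist q.1.1 q.2 :=
    (_root_.measurable_fst.comp _root_.measurable_fst).dist measurable_snd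
  have h2 : Measurable fun q : (EuclideanSpace ℝ (Fin n) × ℕ) × EuclideanSpace ℝ (Fin n) =>
      rad n R q.1.2 := (basic2_measurable_rad n R).comp
        (measurable_snd.comp _root_.measurable_fst)
  have h3 : Measurable fun q : (EuclideanSpace ℝ (Fin n) × ℕ) × EuclideanSpace ℝ (Fin n) =>
      rad n R (q.1.2 - 1) := (measurable_of_countable fun j : ℕ => rad n R (j - 1)).comp
        (measurable_snd.comp _root_.measurable_fst)
  exact (measurableSet_le h3 h1).inter (measurableSet_lt h1 h2)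

/-- the shell at the first index is a measurable relation -/
theorem basic2_shell_fst (n : ℕ) (R : ℝ) (f : EuclideanSpace ℝ (Fin n) → ℝ≥0∞)
    (hf : Measurable f) (s : ℝ≥0∞) :
    MeasurableSet {q : EuclideanSpace ℝ (Fin n) × EuclideanSpace ℝ (Fin n) |
      q.2 ∈ shell n R q.1 (fst n R f s q.1)} := by
  have h1 : Measurable fun q : EuclideanSpace ℝ (Fin n) × EuclideanSpace ℝ (Fin n) =>
      (((q.1, fst n R f s q.1), q.2) :
        (EuclideanSpace ℝ (Fin n) × ℕ) × EuclideanSpace ℝ (Fin n)) :=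
    (_root_.measurable_fst.prodMk
      ((measurable_fst n R f hf s).comp _root_.measurable_fst)).prodMk measurable_snd
  exact h1 (measurableSet_shell n R)

/-- general form of the measurability of `posSet` and `negSet` -/
theorem basic2_measurableSet_gen (n : ℕ) (R : ℝ) (f : EuclideanSpace ℝ (Fin n) → ℝ≥0∞)
    (hf : Measurable f) (s : ℝ≥0∞) (φ : ℝ) (A : Set ℝ) (hA : MeasurableSet A) :
    MeasurableSet {q : EuclideanSpace ℝ (Fin n) × EuclideanSpace ℝ (Fin n) |
      q.2 ∈ shell n R q.1 (fst n R f s q.1) ∧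
      ENNReal.ofReal φ * s * vb n R (fst n R f s q.1) ≤
        ∫⁻ z' in {z' | z' ∈ shell n R q.1 (fst n R f s q.1) ∧
          ⟪q.1 - q.2, q.1 - z'⟫ ∈ A}, f z'} := by
  refine (basic2_shell_fst n R f hf s).inter ?_
  have hS : MeasurableSet {w : (EuclideanSpace ℝ (Fin n) × EuclideanSpace ℝ (Fin n)) ×
      EuclideanSpace ℝ (Fin n) | w.2 ∈ shell n R w.1.1 (fst n R f s w.1.1) ∧
        ⟪w.1.1 - w.1.2, w.1.1 - w.2⟫ ∈ A} := by
    refine MeasurableSet.inter ?_ ?_
    · have h1 : Measurable fun w : (EuclideanSpace ℝ (Fin n) × EuclideanSpace ℝ (Fin n)) ×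
          EuclideanSpace ℝ (Fin n) => (w.1.1, w.2) :=
        (_root_.measurable_fst.comp _root_.measurable_fst).prodMk measurable_snd
      exact h1 (basic2_shell_fst n R f hf s)
    · have h2 : Measurable fun w : (EuclideanSpace ℝ (Fin n) × EuclideanSpace ℝ (Fin n)) ×
          EuclideanSpace ℝ (Fin n) => (⟪w.1.1 - w.1.2, w.1.1 - w.2⟫ : ℝ) := by
        apply Continuous.measurable
        fun_prop
      exact h2 hA
  have h3 : (fun q : EuclideanSpace ℝ (Fin n) × EuclideanSpace ℝ (Fin n) =>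
      ∫⁻ z' in {z' | z' ∈ shell n R q.1 (fst n R f s q.1) ∧
          ⟪q.1 - q.2, q.1 - z'⟫ ∈ A}, f z') = fun q => ∫⁻ z',
      Set.indicator {w : (EuclideanSpace ℝ (Fin n) × EuclideanSpace ℝ (Fin n)) ×
      EuclideanSpace ℝ (Fin n) | w.2 ∈ shell n R w.1.1 (fst n R f s w.1.1) ∧
        ⟪w.1.1 - w.1.2, w.1.1 - w.2⟫ ∈ A} (fun w => f w.2) (q, z') := by
    funext q
    have h4 : MeasurableSet {z' | z' ∈ shell n R q.1 (fst n R f s q.1) ∧
          ⟪q.1 - q.2, q.1 - z'⟫ ∈ A} := measurable_prodMk_left hS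
    rw [← lintegral_indicator h4]
    rfl
  have h5 : Measurable fun q : EuclideanSpace ℝ (Fin n) × EuclideanSpace ℝ (Fin n) =>
      ∫⁻ z' in {z' | z' ∈ shell n R q.1 (fst n R f s q.1) ∧
          ⟪q.1 - q.2, q.1 - z'⟫ ∈ A}, f z' := by
    rw [h3]
    refine Measurable.lintegral_prod_right' ?_
    exact (hf.comp measurable_snd).indicator hS
  have h6 : Measurable fun q : EuclideanSpace ℝ (Fin n) × EuclideanSpace ℝ (Fin n) =>
      ENNReal.ofReal φ * s * vb n R (fst n R f s q.1) := by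
    have h7 : Measurable (vb n R) := measurable_of_countable _
    exact (h7.comp ((measurable_fst n R f hf s).comp _root_.measurable_fst)).const_mul _
  exact measurableSet_le h6 h5

theorem measurableSet_posSet (n : ℕ) (R : ℝ) (f : EuclideanSpace ℝ (Fin n) → ℝ≥0∞)
    (hf : Measurable f) (hfi : ∫⁻ x, f x ≠ ∞) (s : ℝ≥0∞) (ε φ : ℝ) :
    MeasurableSet {q : EuclideanSpace ℝ (Fin n) × EuclideanSpace ℝ (Fin n) |
      q.2 ∈ posSet n R f s ε φ q.1} :=
  basic2_measurableSet_gen n R f hf s φ (Set.Ici (ε * R ^ 2)) measurableSet_Ici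

theorem measurableSet_negSet (n : ℕ) (R : ℝ) (f : EuclideanSpace ℝ (Fin n) → ℝ≥0∞)
    (hf : Measurable f) (hfi : ∫⁻ x, f x ≠ ∞) (s : ℝ≥0∞) (ε φ : ℝ) :
    MeasurableSet {q : EuclideanSpace ℝ (Fin n) × EuclideanSpace ℝ (Fin n) |
      q.2 ∈ negSet n R f s ε φ q.1} :=
  basic2_measurableSet_gen n R f hf s φ (Set.Iic (-(ε * R ^ 2))) measurableSet_Iic

end Pool.MaxFn
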