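import Pool.Agent.MaxFn.Defs

/-!
Definitions for the polylogarithmic bound (MP_a6dc0c_an).
-/

set_option autoImplicit false

open MeasureTheory Metric
open scoped ENNReal RealInnerProductSpace

namespace Pool.MaxFn

/-- The radii of one octave: `rad j = R * sqrt (1 + j/n)`, so `rad (j+1)^2 - rad j^2 = R^2/n`. -/
noncomputable def rad (n : ℕ) (R : ℝ) (j : ℕ) : ℝ := R * Real.sqrt (1 + j / n)

/-- Volume of the ball of radius `rad j`. -/
noncomputable def vb (n : ℕ) (R : ℝ) (j : ℕ) : ℝ≥0∞ :=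
  volume (ball (0 : EuclideanSpace ℝ (Fin n)) (rad n R j))

/-- Mass of the ball of radius `rad j` about `x`. -/
noncomputable def mb (n : ℕ) (R : ℝ) (f : EuclideanSpace ℝ (Fin n) → ℝ≥0∞)
    (x : EuclideanSpace ℝ (Fin n)) (j : ℕ) : ℝ≥0∞ :=
  ∫⁻ z in ball x (rad n R j), f z

/-- The shell `rad (j-1) <= |x - z| < rad j` (empty for `j = 0`). -/
def shell (n : ℕ) (R : ℝ) (x : EuclideanSpace ℝ (Fin n)) (j : ℕ) :
    Set (EuclideanSpace ℝ (Fin n)) :=
  {z | rad n R (j - 1) ≤ dist x z ∧ dist x z < rad n R j}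

/-- The level set `s < max_{j <= n} (average over ball of radius rad j) <= 2 s`. -/
def lev (n : ℕ) (R : ℝ) (f : EuclideanSpace ℝ (Fin n) → ℝ≥0∞) (s : ℝ≥0∞) :
    Set (EuclideanSpace ℝ (Fin n)) :=
  {x | (∃ j ≤ n, s * vb n R j < mb n R f x j) ∧ ∀ j ≤ n, mb n R f x j ≤ 2 * s * vb n R j}

/-- The first index `j` at which the average exceeds `s`. -/
noncomputable def fst (n : ℕ) (R : ℝ) (f : EuclideanSpace ℝ (Fin n) → ℝ≥0∞) (s : ℝ≥0∞)
    (x : EuclideanSpace ℝ (Fin n)) : ℕ :=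
  sInf {j | s * vb n R j < mb n R f x j}

/-- Points `z` of the shell of `x` such that the mass of the points `z'` of the shell that are
positively aligned with `z` is at least `φ s vb`. -/
def posSet (n : ℕ) (R : ℝ) (f : EuclideanSpace ℝ (Fin n) → ℝ≥0∞) (s : ℝ≥0∞) (ε φ : ℝ)
    (x : EuclideanSpace ℝ (Fin n)) : Set (EuclideanSpace ℝ (Fin n)) :=
  {z | z ∈ shell n R x (fst n R f s x) ∧
    ENNReal.ofReal φ * s * vb n R (fst n R f s x) ≤
      ∫⁻ z' in {z' | z' ∈ shell n R x (fst n R f s x) ∧ ε * R ^ 2 ≤ ⟪x - z, x - z'⟫}, f z'}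

/-- The same for negative alignment. -/
def negSet (n : ℕ) (R : ℝ) (f : EuclideanSpace ℝ (Fin n) → ℝ≥0∞) (s : ℝ≥0∞) (ε φ : ℝ)
    (x : EuclideanSpace ℝ (Fin n)) : Set (EuclideanSpace ℝ (Fin n)) :=
  {z | z ∈ shell n R x (fst n R f s x) ∧
    ENNReal.ofReal φ * s * vb n R (fst n R f s x) ≤
      ∫⁻ z' in {z' | z' ∈ shell n R x (fst n R f s x) ∧ ⟪x - z, x - z'⟫ ≤ -(ε * R ^ 2)}, f z'}

end Pool.MaxFn
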