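import Pool.Agent.MaxFn.Heat

/-! Gaussian measure of slabs (module P2s of MP_a6dc0c_an). -/

set_option autoImplicit false

open MeasureTheory Metric
open scoped ENNReal RealInnerProductSpace

namespace Pool.MaxFn

/-- one dimensional Gaussian integral with a shift, in `ENNReal` form -/
private lemma slabStep_gauss {t : ℝ} (ht : 0 < t) (b : ℝ) :
    ∫⁻ τ : ℝ, ENNReal.ofReal (Real.exp (-((τ + b) ^ 2 / (4 * t)))) =
      ENNReal.ofReal (Real.sqrt (4 * Real.pi * t)) := by
  have hpi := Real.pi_pos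
  have ha : 0 < 1 / (4 * t) := by positivity
  have h0 : ∫ τ : ℝ, Real.exp (-(1 / (4 * t)) * τ ^ 2) = Real.sqrt (Real.pi / (1 / (4 * t))) :=
    integral_gaussian _
  have hint : Integrable (fun τ : ℝ => Real.exp (-(1 / (4 * t)) * τ ^ 2)) :=
    integrable_exp_neg_mul_sq ha
  have h1 : ∫⁻ τ : ℝ, ENNReal.ofReal (Real.exp (-(1 / (4 * t)) * τ ^ 2)) =
      ENNReal.ofReal (Real.sqrt (4 * Real.pi * t)) := by
    rw [← ofReal_integral_eq_lintegral_ofReal hint
      (Filter.Eventually.of_forall fun v => (Real.exp_pos _).le), h0]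
    congr 2
    field_simp
  rw [← h1, ← lintegral_add_right_eq_self
    (fun τ : ℝ => ENNReal.ofReal (Real.exp (-(1 / (4 * t)) * τ ^ 2))) b]
  refine lintegral_congr fun τ => ?_
  congr 2
  ring

/-- the kernel is dominated by its average over lines -/
private lemma slabStep_line (n : ℕ) {t : ℝ} (ht : 0 < t) (z v : EuclideanSpace ℝ (Fin n))
    (hv : ‖v‖ = 1) :
    ENNReal.ofReal (heatK n t z) ≤ ENNReal.ofReal ((Real.sqrt (4 * Real.pi * t))⁻¹) *
      ∫⁻ τ : ℝ, ENNReal.ofReal (heatK n t (z + τ • v)) := by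
  have hpi := Real.pi_pos
  have hs : 0 < Real.sqrt (4 * Real.pi * t) := by positivity
  have hC : 0 ≤ (4 * Real.pi * t) ^ (-((n : ℝ) / 2)) := by positivity
  set b : ℝ := ⟪z, v⟫ with hb
  have hnorm : ∀ τ : ℝ, ‖z + τ • v‖ ^ 2 = (‖z‖ ^ 2 - b ^ 2) + (τ + b) ^ 2 := by
    intro τ
    rw [norm_add_sq_real, norm_smul, hv, inner_smul_right, ← hb, Real.norm_eq_abs, mul_one, sq_abs]
    ring
  have hK : ∀ τ : ℝ, ENNReal.ofReal (heatK n t (z + τ • v)) =
      ENNReal.ofReal ((4 * Real.pi * t) ^ (-((n : ℝ) / 2)) *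
        Real.exp (-((‖z‖ ^ 2 - b ^ 2) / (4 * t)))) *
        ENNReal.ofReal (Real.exp (-((τ + b) ^ 2 / (4 * t)))) := by
    intro τ
    rw [← ENNReal.ofReal_mul (by positivity)]
    congr 1
    unfold heatK
    rw [hnorm]
    rw [mul_assoc ((4 * Real.pi * t) ^ (-((n : ℝ) / 2))), ← Real.exp_add]
    congr 2
    ring
  simp only [hK]
  rw [lintegral_const_mul' _ _ ENNReal.ofReal_ne_top, slabStep_gauss ht b,
    ← ENNReal.ofReal_mul (by positivity), ← ENNReal.ofReal_mul (by positivity)]
  apply ENNReal.ofReal_le_ofReal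
  have hexp : Real.exp (-(‖z‖ ^ 2 / (4 * t))) ≤ Real.exp (-((‖z‖ ^ 2 - b ^ 2) / (4 * t))) := by
    apply Real.exp_le_exp.2
    apply neg_le_neg
    gcongr
    have := sq_nonneg b
    linarith
  calc heatK n t z = (4 * Real.pi * t) ^ (-((n : ℝ) / 2)) * Real.exp (-(‖z‖ ^ 2 / (4 * t))) := rfl
    _ ≤ (4 * Real.pi * t) ^ (-((n : ℝ) / 2)) * Real.exp (-((‖z‖ ^ 2 - b ^ 2) / (4 * t))) := by
        gcongr
    _ = _ := by field_simp

theorem slab_step (n : ℕ) (t : ℝ) (ht : 0 < t) (x v : EuclideanSpace ℝ (Fin n)) (hv : ‖v‖ = 1)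
    (G A : Set (EuclideanSpace ℝ (Fin n))) (hG : MeasurableSet G) (hA : MeasurableSet A)
    (hinv : ∀ (y : EuclideanSpace ℝ (Fin n)) (τ : ℝ), y ∈ G → y + τ • v ∈ G) (len : ℝ≥0∞)
    (hlen : ∀ y, volume {τ : ℝ | y + τ • v ∈ A} ≤ len) :
    ∫⁻ y in G ∩ A, ENNReal.ofReal (heatK n t (x - y)) ≤
      len * ENNReal.ofReal ((Real.sqrt (4 * Real.pi * t))⁻¹) *
        ∫⁻ y in G, ENNReal.ofReal (heatK n t (x - y)) := by
  classical
  set c : ℝ≥0∞ := ENNReal.ofReal ((Real.sqrt (4 * Real.pi * t))⁻¹) with hc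
  have hctop : c ≠ ∞ := ENNReal.ofReal_ne_top
  have hv' : ‖-v‖ = 1 := by rw [norm_neg]; exact hv
  have hGA : MeasurableSet (G ∩ A) := hG.inter hA
  -- the indicator as a function
  set I : EuclideanSpace ℝ (Fin n) → ℝ≥0∞ := (G ∩ A).indicator (fun _ => 1) with hI
  have hIm : Measurable I := measurable_const.indicator hGA
  -- joint measurability of the two-variable integrands
  have hcont1 : Continuous (fun p : EuclideanSpace ℝ (Fin n) × ℝ => p.1 + p.2 • v) := by
    fun_prop
  have hKm : Measurable (fun p : EuclideanSpace ℝ (Fin n) × ℝ =>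
      ENNReal.ofReal (heatK n t (x - (p.1 + p.2 • v)))) := by
    have : Continuous (fun p : EuclideanSpace ℝ (Fin n) × ℝ =>
        heatK n t (x - (p.1 + p.2 • v))) :=
      (heatK_continuous n t).comp (continuous_const.sub hcont1)
    exact this.measurable.ennreal_ofReal
  have hcont2 : Continuous (fun p : ℝ × EuclideanSpace ℝ (Fin n) => p.2 - p.1 • v) := by
    fun_prop
  have step1 : ∫⁻ y in G ∩ A, ENNReal.ofReal (heatK n t (x - y)) ≤
      c * ∫⁻ y, ∫⁻ τ : ℝ, I y * ENNReal.ofReal (heatK n t (x - (y + τ • v))) := by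
    rw [← lintegral_const_mul' _ _ hctop, ← lintegral_indicator hGA]
    refine lintegral_mono fun y => ?_
    by_cases hy : y ∈ G ∩ A
    · have h1 : I y = 1 := by rw [hI, Set.indicator_of_mem hy]
      rw [Set.indicator_of_mem hy]
      simp only [h1, one_mul]
      refine (slabStep_line n ht (x - y) (-v) hv').trans ?_
      gcongr with τ
      refine le_of_eq ?_
      congr 1
      module
    · rw [Set.indicator_of_notMem hy]
      exact zero_le
  have step2 : ∫⁻ y, ∫⁻ τ : ℝ, I y * ENNReal.ofReal (heatK n t (x - (y + τ • v))) =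
      ∫⁻ y, ∫⁻ τ : ℝ, I (y - τ • v) * ENNReal.ofReal (heatK n t (x - y)) := by
    rw [lintegral_lintegral_swap]
    · have h1 : ∀ τ : ℝ, ∫⁻ y, I y * ENNReal.ofReal (heatK n t (x - (y + τ • v))) =
          ∫⁻ y, I (y - τ • v) * ENNReal.ofReal (heatK n t (x - y)) := by
        intro τ
        rw [← lintegral_add_right_eq_self
          (fun y => I (y - τ • v) * ENNReal.ofReal (heatK n t (x - y))) (τ • v)]
        refine lintegral_congr fun y => ?_
        rw [add_sub_cancel_right]
      simp only [h1]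
      rw [lintegral_lintegral_swap]
      refine Measurable.aemeasurable ?_
      exact (hIm.comp hcont2.measurable).mul
        ((measurable_kernel_left n t x).comp measurable_snd)
    · refine Measurable.aemeasurable ?_
      exact (hIm.comp measurable_fst).mul hKm
  have step3 : ∫⁻ y, ∫⁻ τ : ℝ, I (y - τ • v) * ENNReal.ofReal (heatK n t (x - y)) ≤
      len * ∫⁻ y in G, ENNReal.ofReal (heatK n t (x - y)) := by
    rw [← lintegral_indicator hG, ← lintegral_const_mul _
      ((measurable_kernel_left n t x).indicator hG)]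
    refine lintegral_mono fun y => ?_
    by_cases hy : y ∈ G
    · rw [Set.indicator_of_mem hy, lintegral_mul_const' _ _ ENNReal.ofReal_ne_top]
      gcongr
      have h2 : ∀ τ : ℝ, I (y - τ • v) ≤ ({τ : ℝ | y - τ • v ∈ A}.indicator (fun _ => 1) τ) := by
        intro τ
        by_cases hτ : y - τ • v ∈ A
        · have : τ ∈ {τ : ℝ | y - τ • v ∈ A} := hτ
          rw [Set.indicator_of_mem this, hI]
          exact Set.indicator_le_self' (fun _ _ => zero_le) _
        · have : y - τ • v ∉ G ∩ A := fun h => hτ h.2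
          rw [hI, Set.indicator_of_notMem this]
          exact zero_le
      have hSm : MeasurableSet {τ : ℝ | y - τ • v ∈ A} := by
        have hcont3 : Continuous (fun τ : ℝ => y - τ • v) := by fun_prop
        exact hcont3.measurable hA
      calc ∫⁻ τ : ℝ, I (y - τ • v) ≤ ∫⁻ τ : ℝ, {τ : ℝ | y - τ • v ∈ A}.indicator (fun _ => 1) τ :=
            lintegral_mono h2
        _ = volume {τ : ℝ | y - τ • v ∈ A} := by
            rw [lintegral_indicator hSm]
            simp
        _ = volume ((fun τ : ℝ => -τ) ⁻¹' {τ : ℝ | y + τ • v ∈ A}) := by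
            congr 1
            ext τ
            simp only [Set.mem_ofPred_eq, Set.mem_preimage, neg_smul, ← sub_eq_add_neg]
        _ = volume {τ : ℝ | y + τ • v ∈ A} := by
            have hSm' : MeasurableSet {τ : ℝ | y + τ • v ∈ A} := by
              have hcont3 : Continuous (fun τ : ℝ => y + τ • v) := by fun_prop
              exact hcont3.measurable hA
            exact (Measure.measurePreserving_neg (volume : Measure ℝ)).measure_preimage
              hSm'.nullMeasurableSet
        _ ≤ len := hlen y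
    · have h3 : ∀ τ : ℝ, I (y - τ • v) = 0 := by
        intro τ
        have : y - τ • v ∉ G ∩ A := by
          intro h
          apply hy
          have := hinv _ τ h.1
          rwa [sub_add_cancel] at this
        rw [hI, Set.indicator_of_notMem this]
      simp [h3]
  calc _ ≤ c * ∫⁻ y, ∫⁻ τ : ℝ, I y * ENNReal.ofReal (heatK n t (x - (y + τ • v))) := step1
    _ = c * ∫⁻ y, ∫⁻ τ : ℝ, I (y - τ • v) * ENNReal.ofReal (heatK n t (x - y)) := by rw [step2]
    _ ≤ c * (len * ∫⁻ y in G, ENNReal.ofReal (heatK n t (x - y))) := by gcongr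
    _ = _ := by ring

end Pool.MaxFn
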