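import Pool.Agent.MaxFn.Heat
import Pool.Agent.MaxFn.Defs2
import Pool.Agent.MaxFn.SlabStep

/-! MODULE P2a (Gaussian slabs, linear algebra and induction). -/

set_option autoImplicit false

open MeasureTheory Metric
open scoped ENNReal RealInnerProductSpace

namespace Pool.MaxFn

theorem dist_span (n : ℕ) (R : ℝ) (hR : 0 < R) (ε : ℝ) (hε : 0 < ε)
    (w : EuclideanSpace ℝ (Fin n)) (L : List (EuclideanSpace ℝ (Fin n)))
    (hlen : ε * (L.length + 1) ≤ 1 / 4) (hw : R ≤ ‖w‖) (hLR : ∀ u ∈ L, R ≤ ‖u‖)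
    (hwL : ∀ u ∈ L, |⟪w, u⟫| < ε * R ^ 2)
    (hpair : L.Pairwise fun u u' => |⟪u, u'⟫| < ε * R ^ 2)
    (u : EuclideanSpace ℝ (Fin n)) (hu : u ∈ Submodule.span ℝ {u | u ∈ L}) :
    R / 3 ≤ ‖w - u‖ := by
  classical
  have hrange : {u | u ∈ L} = Set.range L.get := by
    ext y
    simp [List.mem_iff_get]
  rw [hrange, Submodule.mem_span_range_iff_exists_fun] at hu
  obtain ⟨c, rfl⟩ := hu
  have hm4 : 4 * ε * (L.length : ℝ) ≤ 1 := by nlinarith
  have hε4 : ε ≤ 1 / 4 := by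
    have : 0 ≤ ε * (L.length : ℝ) := by positivity
    nlinarith
  set S : ℝ := ∑ i, |c i| with hS
  set Q : ℝ := ∑ i, |c i| ^ 2 with hQ
  have hS0 : 0 ≤ S := Finset.sum_nonneg fun i _ => abs_nonneg _
  have hQ0 : 0 ≤ Q := Finset.sum_nonneg fun i _ => by positivity
  have hSQ : S ^ 2 ≤ (L.length : ℝ) * Q := by
    have := sq_sum_le_card_mul_sum_sq (s := Finset.univ) (f := fun i => |c i|)
    rw [Finset.card_univ, Fintype.card_fin] at this
    exact this
  have hQS : 4 * ε * S ^ 2 ≤ Q := by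
    calc 4 * ε * S ^ 2 ≤ 4 * ε * ((L.length : ℝ) * Q) := by gcongr
      _ = (4 * ε * (L.length : ℝ)) * Q := by ring
      _ ≤ 1 * Q := by gcongr
      _ = Q := one_mul _
  -- cross term
  have hcross : |⟪w, ∑ i, c i • L.get i⟫| ≤ ε * R ^ 2 * S := by
    rw [inner_sum]
    calc |∑ i, ⟪w, c i • L.get i⟫| ≤ ∑ i, |⟪w, c i • L.get i⟫| := Finset.abs_sum_le_sum_abs _ _
      _ ≤ ∑ i, ε * R ^ 2 * |c i| := by
          refine Finset.sum_le_sum fun i _ => ?_
          rw [real_inner_smul_right, abs_mul, mul_comm]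
          exact mul_le_mul_of_nonneg_right (hwL _ (List.get_mem L i)).le (abs_nonneg _)
      _ = _ := by rw [hS, Finset.mul_sum]
  -- the norm of u
  have hnorm : R ^ 2 * Q - ε * R ^ 2 * S ^ 2 ≤ ‖∑ i, c i • L.get i‖ ^ 2 := by
    rw [← real_inner_self_eq_norm_sq, sum_inner]
    have e1 : R ^ 2 * Q - ε * R ^ 2 * S ^ 2 = ∑ i, ∑ j,
        ((if i = j then R ^ 2 * |c i| ^ 2 else 0) - ε * R ^ 2 * (|c i| * |c j|)) := by
      simp only [Finset.sum_sub_distrib, Finset.sum_ite_eq, Finset.mem_univ, if_true,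
        ← Finset.mul_sum]
      rw [← Finset.sum_mul, ← hS, ← hQ]
      ring
    rw [e1]
    refine Finset.sum_le_sum fun i _ => ?_
    rw [inner_sum]
    refine Finset.sum_le_sum fun j _ => ?_
    rw [real_inner_smul_left, real_inner_smul_right]
    split_ifs with hij
    · subst hij
      rw [real_inner_self_eq_norm_sq]
      have h1 : R ^ 2 ≤ ‖L.get i‖ ^ 2 := by
        have := hLR _ (List.get_mem L i)
        gcongr
      have h2 : c i * (c i * ‖L.get i‖ ^ 2) = |c i| ^ 2 * ‖L.get i‖ ^ 2 := by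
        rw [sq_abs]; ring
      rw [h2]
      have h3 : 0 ≤ ε * R ^ 2 * (|c i| * |c i|) := by positivity
      have h4 : R ^ 2 * |c i| ^ 2 ≤ |c i| ^ 2 * ‖L.get i‖ ^ 2 := by
        rw [mul_comm]
        gcongr
      linarith
    · have h1 : |⟪L.get i, L.get j⟫| ≤ ε * R ^ 2 := by
        rcases lt_or_gt_of_ne hij with h | h
        · exact (List.pairwise_iff_get.mp hpair i j h).le
        · rw [real_inner_comm]
          exact (List.pairwise_iff_get.mp hpair j i h).le
      have h2 : |c i * (c j * ⟪L.get i, L.get j⟫)| ≤ ε * R ^ 2 * (|c i| * |c j|) := by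
        rw [abs_mul, abs_mul]
        calc |c i| * (|c j| * |⟪L.get i, L.get j⟫|)
            = (|c i| * |c j|) * |⟪L.get i, L.get j⟫| := by ring
          _ ≤ (|c i| * |c j|) * (ε * R ^ 2) := by gcongr
          _ = _ := by ring
      have h3 := neg_abs_le (c i * (c j * ⟪L.get i, L.get j⟫))
      linarith
  have hfin : (R / 3) ^ 2 ≤ ‖w - ∑ i, c i • L.get i‖ ^ 2 := by
    rw [norm_sub_sq_real]
    have h1 : R ^ 2 ≤ ‖w‖ ^ 2 := by gcongr
    have h2 := (abs_le.mp hcross).2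
    have h3 : R ^ 2 * (4 * ε * S ^ 2) ≤ R ^ 2 * Q := by gcongr
    have h4 : 0 ≤ R ^ 2 * (ε * (3 * S - 1) ^ 2) := by positivity
    have h5 : R ^ 2 * ε ≤ R ^ 2 * (1 / 4) := by gcongr
    nlinarith [sq_nonneg R]
  exact le_of_sq_le_sq hfin (norm_nonneg _)

lemma slab_rad_sq (n : ℕ) (R : ℝ) (j : ℕ) : rad n R j ^ 2 = R ^ 2 * (1 + j / n) := by
  unfold rad
  rw [mul_pow, Real.sq_sqrt (by positivity)]

lemma shell_diff (n : ℕ) (R : ℝ) (hR : 0 < R) (y z z1 : EuclideanSpace ℝ (Fin n)) (b : ℕ)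
    (hz : z ∈ shell n R y b) (hz1 : z1 ∈ shell n R y b) :
    |‖y - z‖ ^ 2 - ‖y - z1‖ ^ 2| < R ^ 2 / n := by
  obtain ⟨h1, h2⟩ := hz
  obtain ⟨h3, h4⟩ := hz1
  rw [dist_eq_norm] at h1 h2 h3 h4
  rcases Nat.eq_zero_or_pos b with hb | hb
  · subst hb
    exact absurd h2 (not_lt.mpr h1)
  obtain ⟨k, rfl⟩ : ∃ k, b = k + 1 := ⟨b - 1, by omega⟩
  have hk : k + 1 - 1 = k := by omega
  rw [hk] at h1 h3
  have hr0 : 0 ≤ rad n R k := by unfold rad; positivity
  have hr1 : 0 ≤ rad n R (k + 1) := by unfold rad; positivity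
  have e : rad n R (k + 1) ^ 2 - rad n R k ^ 2 = R ^ 2 / n := by
    rw [slab_rad_sq, slab_rad_sq]
    push_cast
    ring
  have a1 : rad n R k ^ 2 ≤ ‖y - z‖ ^ 2 := by gcongr
  have a2 : rad n R k ^ 2 ≤ ‖y - z1‖ ^ 2 := by gcongr
  have a3 : ‖y - z‖ ^ 2 < rad n R (k + 1) ^ 2 := by gcongr
  have a4 : ‖y - z1‖ ^ 2 < rad n R (k + 1) ^ 2 := by gcongr
  rw [abs_lt]
  constructor <;> linarith

/-- The set where the squared distances to the points of `M` are close to that to `z1`. -/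
def slabH (n : ℕ) (R : ℝ) (z1 : EuclideanSpace ℝ (Fin n)) (M : List (EuclideanSpace ℝ (Fin n))) :
    Set (EuclideanSpace ℝ (Fin n)) :=
  {y | ∀ z ∈ M, |‖y - z‖ ^ 2 - ‖y - z1‖ ^ 2| < R ^ 2 / n}

lemma slabH_cons (n : ℕ) (R : ℝ) (z1 z : EuclideanSpace ℝ (Fin n))
    (M : List (EuclideanSpace ℝ (Fin n))) :
    slabH n R z1 (z :: M) = slabH n R z1 M ∩ {y | |‖y - z‖ ^ 2 - ‖y - z1‖ ^ 2| < R ^ 2 / n} := by
  ext y
  simp only [slabH, List.mem_cons, forall_eq_or_imp, Set.mem_ofPred_eq, Set.mem_inter_iff]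
  exact and_comm

lemma slabA_meas (n : ℕ) (R : ℝ) (z1 z : EuclideanSpace ℝ (Fin n)) :
    MeasurableSet {y : EuclideanSpace ℝ (Fin n) | |‖y - z‖ ^ 2 - ‖y - z1‖ ^ 2| < R ^ 2 / n} := by
  refine (isOpen_lt ?_ continuous_const).measurableSet
  fun_prop

lemma slabH_meas (n : ℕ) (R : ℝ) (z1 : EuclideanSpace ℝ (Fin n))
    (M : List (EuclideanSpace ℝ (Fin n))) : MeasurableSet (slabH n R z1 M) := by
  induction M with
  | nil =>
    have : slabH n R z1 [] = Set.univ := by
      ext y; simp [slabH]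
    rw [this]
    exact MeasurableSet.univ
  | cons z M ih =>
    rw [slabH_cons]
    exact ih.inter (slabA_meas n R z1 z)

lemma shift_diff (n : ℕ) (y z z1 v : EuclideanSpace ℝ (Fin n)) (τ : ℝ) :
    ‖y + τ • v - z‖ ^ 2 - ‖y + τ • v - z1‖ ^ 2 =
      (‖y - z‖ ^ 2 - ‖y - z1‖ ^ 2) + 2 * τ * ⟪v, z1 - z⟫ := by
  have e1 : y + τ • v - z = (y - z) + τ • v := by abel
  have e2 : y + τ • v - z1 = (y - z1) + τ • v := by abel
  rw [e1, e2, norm_add_sq_real, norm_add_sq_real, real_inner_smul_right, real_inner_smul_right]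
  have e3 : ⟪v, z1 - z⟫ = ⟪y - z, v⟫ - ⟪y - z1, v⟫ := by
    rw [← inner_sub_left, real_inner_comm]
    congr 1
    abel
  rw [e3]
  ring

lemma section_vol (c d r : ℝ) (hd : 0 < d) :
    volume {τ : ℝ | |c + 2 * τ * d| < r} ≤ ENNReal.ofReal (r / d) := by
  have h : {τ : ℝ | |c + 2 * τ * d| < r} ⊆ Set.Ioo ((-r - c) / (2 * d)) ((r - c) / (2 * d)) := by
    intro τ hτ
    simp only [Set.mem_ofPred_eq, abs_lt] at hτ
    constructor
    · rw [div_lt_iff₀ (by positivity)]; linarith [hτ.1]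
    · rw [lt_div_iff₀ (by positivity)]; linarith [hτ.2]
  refine (measure_mono h).trans ?_
  rw [Real.volume_Ioo]
  refine ENNReal.ofReal_le_ofReal (le_of_eq ?_)
  field_simp
  ring

lemma slab_ind (n : ℕ) (hn : 1 ≤ n) (R : ℝ) (hR : 0 < R) (ε : ℝ) (hε : 0 < ε)
    (x z1 : EuclideanSpace ℝ (Fin n)) (hz1 : R ≤ dist x z1) (t : ℝ) (ht : 0 < t)
    (M : List (EuclideanSpace ℝ (Fin n)))
    (hlen : ε * (M.length + 1) ≤ 1 / 4) (hLR : ∀ z ∈ M, R ≤ dist x z)
    (h1 : ∀ z ∈ M, |⟪x - z1, x - z⟫| < ε * R ^ 2)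
    (hpair : M.Pairwise fun z z' => |⟪x - z, x - z'⟫| < ε * R ^ 2) :
    ∫⁻ y in slabH n R z1 M, ENNReal.ofReal (heatK n t (x - y)) ≤
      ENNReal.ofReal (R / (n * Real.sqrt t)) ^ M.length := by
  induction M with
  | nil =>
    calc _ ≤ ∫⁻ y, ENNReal.ofReal (heatK n t (x - y)) := setLIntegral_le_lintegral _ _
      _ = 1 := lintegral_heatK n ht x
      _ ≤ _ := by simp
  | cons z M ih =>
    have hlen' : ε * ((M.length : ℝ) + 1 + 1) ≤ 1 / 4 := by
      simpa using hlen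
    have hLR' : ∀ z ∈ M, R ≤ dist x z := fun z hz => hLR z (List.mem_cons_of_mem _ hz)
    have h1' : ∀ z ∈ M, |⟪x - z1, x - z⟫| < ε * R ^ 2 := fun z hz => h1 z (List.mem_cons_of_mem _ hz)
    have hp' := List.pairwise_cons.mp hpair
    have ih' := ih (by nlinarith) hLR' h1' hp'.2
    -- the span
    set V : Submodule ℝ (EuclideanSpace ℝ (Fin n)) :=
      Submodule.span ℝ {u | ∃ y ∈ M, u = z1 - y} with hV
    set D : EuclideanSpace ℝ (Fin n) := (z1 - z) - V.starProjection (z1 - z) with hD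
    have hDmem : D ∈ Vᗮ := V.sub_starProjection_mem_orthogonal (z1 - z)
    have hDperp : ∀ u ∈ V, ⟪u, D⟫ = 0 := fun u hu => (Submodule.mem_orthogonal V D).mp hDmem u hu
    have hPmem : V.starProjection (z1 - z) ∈ V := V.starProjection_apply_mem (z1 - z)
    have hDnorm : R / 3 ≤ ‖D‖ := by
      have key := dist_span n R hR ε hε (x - z) ((x - z1) :: M.map (fun y => x - y))
        (by simpa using hlen') (by rw [← dist_eq_norm]; exact hLR z List.mem_cons_self)
        (by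
          intro u hu
          rcases List.mem_cons.mp hu with rfl | hu
          · rw [← dist_eq_norm]; exact hz1
          · obtain ⟨y, hy, rfl⟩ := List.mem_map.mp hu
            rw [← dist_eq_norm]; exact hLR' y hy)
        (by
          intro u hu
          rcases List.mem_cons.mp hu with rfl | hu
          · rw [real_inner_comm]; exact h1 z List.mem_cons_self
          · obtain ⟨y, hy, rfl⟩ := List.mem_map.mp hu
            exact hp'.1 y hy)
        (by
          rw [List.pairwise_cons]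
          refine ⟨?_, ?_⟩
          · intro u hu
            obtain ⟨y, hy, rfl⟩ := List.mem_map.mp hu
            exact h1' y hy
          · rw [List.pairwise_map]
            exact hp'.2)
        ((x - z) - D) ?_
      · rwa [sub_sub_cancel] at key
      · have e : (x - z) - D = (x - z1) + V.starProjection (z1 - z) := by
          rw [hD]; abel
        rw [e]
        refine Submodule.add_mem _ (Submodule.subset_span List.mem_cons_self) ?_
        have hle : V ≤ Submodule.span ℝ {u | u ∈ (x - z1) :: M.map (fun y => x - y)} := by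
          rw [hV, Submodule.span_le]
          rintro u ⟨y, hy, rfl⟩
          have e2 : z1 - y = (x - y) - (x - z1) := by abel
          rw [e2]
          refine Submodule.sub_mem _ (Submodule.subset_span ?_)
            (Submodule.subset_span List.mem_cons_self)
          exact List.mem_cons_of_mem _ (List.mem_map.mpr ⟨y, hy, rfl⟩)
        exact hle hPmem
    have hDpos : 0 < ‖D‖ := lt_of_lt_of_le (by positivity) hDnorm
    have hDz : ⟪D, z1 - z⟫ = ‖D‖ ^ 2 := by
      have e : z1 - z = D + V.starProjection (z1 - z) := by rw [hD]; abel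
      have e2 : ⟪D, V.starProjection (z1 - z)⟫ = 0 := by
        rw [real_inner_comm]; exact hDperp _ hPmem
      calc ⟪D, z1 - z⟫ = ⟪D, D + V.starProjection (z1 - z)⟫ := by rw [← e]
        _ = ‖D‖ ^ 2 := by rw [inner_add_right, e2, add_zero, real_inner_self_eq_norm_sq]
    set v : EuclideanSpace ℝ (Fin n) := (‖D‖⁻¹ : ℝ) • D with hv
    have hvn : ‖v‖ = 1 := by
      rw [hv, norm_smul, norm_inv, norm_norm, inv_mul_cancel₀ hDpos.ne']
    have hvz : ⟪v, z1 - z⟫ = ‖D‖ := by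
      rw [hv, real_inner_smul_left, hDz]
      field_simp
    have hinv : ∀ (y : EuclideanSpace ℝ (Fin n)) (τ : ℝ), y ∈ slabH n R z1 M →
        y + τ • v ∈ slabH n R z1 M := by
      intro y τ hy z' hz'
      rw [shift_diff]
      have : ⟪v, z1 - z'⟫ = 0 := by
        rw [hv, real_inner_smul_left, real_inner_comm,
          hDperp _ (Submodule.subset_span ⟨z', hz', rfl⟩), mul_zero]
      rw [this, mul_zero, add_zero]
      exact hy z' hz'
    have hsec : ∀ y : EuclideanSpace ℝ (Fin n), volume {τ : ℝ | y + τ • v ∈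
        {y : EuclideanSpace ℝ (Fin n) | |‖y - z‖ ^ 2 - ‖y - z1‖ ^ 2| < R ^ 2 / n}} ≤
        ENNReal.ofReal (3 * R / n) := by
      intro y
      have e : {τ : ℝ | y + τ • v ∈
        {y : EuclideanSpace ℝ (Fin n) | |‖y - z‖ ^ 2 - ‖y - z1‖ ^ 2| < R ^ 2 / n}} =
          {τ : ℝ | |(‖y - z‖ ^ 2 - ‖y - z1‖ ^ 2) + 2 * τ * ‖D‖| < R ^ 2 / n} := by
        ext τ
        simp only [Set.mem_ofPred_eq]
        rw [shift_diff, hvz]
      rw [e]
      refine (section_vol _ _ _ hDpos).trans (ENNReal.ofReal_le_ofReal ?_)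
      rw [div_le_iff₀ hDpos]
      have hn0 : (0 : ℝ) < n := by exact_mod_cast hn
      calc R ^ 2 / n = 3 * R / n * (R / 3) := by ring
        _ ≤ 3 * R / n * ‖D‖ := by gcongr
    have hstep := slab_step n t ht x v hvn (slabH n R z1 M) _ (slabH_meas n R z1 M)
      (slabA_meas n R z1 z) hinv _ hsec
    rw [slabH_cons]
    refine hstep.trans ?_
    rw [List.length_cons, pow_succ, mul_comm (ENNReal.ofReal (R / (n * Real.sqrt t)) ^ M.length)]
    refine mul_le_mul' ?_ ih'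
    rw [← ENNReal.ofReal_mul (by positivity)]
    refine ENNReal.ofReal_le_ofReal ?_
    have hn0 : (0 : ℝ) < n := by exact_mod_cast hn
    have hst : 0 < Real.sqrt t := Real.sqrt_pos.mpr ht
    have h3 : 3 * Real.sqrt t ≤ Real.sqrt (4 * Real.pi * t) := by
      rw [Real.sqrt_mul (by positivity)]
      have : (3 : ℝ) ≤ Real.sqrt (4 * Real.pi) := by
        apply Real.le_sqrt_of_sq_le
        nlinarith [Real.pi_gt_three]
      gcongr
    calc 3 * R / n * (Real.sqrt (4 * Real.pi * t))⁻¹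
        ≤ 3 * R / n * (3 * Real.sqrt t)⁻¹ := by gcongr
      _ = R / (n * Real.sqrt t) := by
          field_simp

theorem slab_list (n : ℕ) (hn : 1 ≤ n) (R : ℝ) (hR : 0 < R) (ε : ℝ) (hε : 0 < ε)
    (x : EuclideanSpace ℝ (Fin n)) (L : List (EuclideanSpace ℝ (Fin n)))
    (hlen : ε * L.length ≤ 1 / 4) (hLR : ∀ z ∈ L, R ≤ dist x z)
    (hpair : L.Pairwise fun z z' => |⟪x - z, x - z'⟫| < ε * R ^ 2)
    (t : ℝ) (ht : 0 < t) (β : EuclideanSpace ℝ (Fin n) → ℕ) :
    ∫⁻ y in {y | ∀ z ∈ L, z ∈ shell n R y (β y)}, ENNReal.ofReal (heatK n t (x - y)) ≤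
      ENNReal.ofReal (R / (n * Real.sqrt t)) ^ (L.length - 1) := by
  cases L with
  | nil =>
    calc _ ≤ ∫⁻ y, ENNReal.ofReal (heatK n t (x - y)) := setLIntegral_le_lintegral _ _
      _ = 1 := lintegral_heatK n ht x
      _ ≤ _ := by simp
  | cons z1 M =>
    have hp := List.pairwise_cons.mp hpair
    have h := slab_ind n hn R hR ε hε x z1 (hLR z1 List.mem_cons_self) t ht M
      (by simpa using hlen) (fun z hz => hLR z (List.mem_cons_of_mem _ hz)) hp.1 hp.2
    refine le_trans (lintegral_mono_set ?_) (h.trans (le_of_eq ?_))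
    · intro y hy z hz
      exact shell_diff n R hR y z z1 (β y) (hy z (List.mem_cons_of_mem _ hz))
        (hy z1 List.mem_cons_self)
    · simp

end Pool.MaxFn
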