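import Pool.Agent.MaxFn.ConcCore
import Pool.Agent.MaxFn.Slab

/-! MODULE P2b: concentration. -/

set_option autoImplicit false

open MeasureTheory Metric
open scoped ENNReal RealInnerProductSpace

namespace Pool.MaxFn

theorem conc (n : ℕ) (hn : 1 ≤ n) (R : ℝ) (hR : 0 < R) (ε : ℝ) (hε : 0 < ε)
    (p : ℕ) (hp : 1 ≤ p) (hεp : ε * p ≤ 1 / 4) (x : EuclideanSpace ℝ (Fin n))
    (ν : Measure (EuclideanSpace ℝ (Fin n))) [IsFiniteMeasure ν]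
    (G : Set (EuclideanSpace ℝ (Fin n))) (hG : MeasurableSet G) (hνG : ν Gᶜ = 0)
    (hGR : ∀ z ∈ G, R ≤ dist x z) (φ' : ℝ≥0∞)
    (hal : ∀ z ∈ G, ν {z' | ε * R ^ 2 ≤ |⟪x - z, x - z'⟫|} ≤ φ')
    (β : EuclideanSpace ℝ (Fin n) → ℕ) (hβ : Measurable β) (t : ℝ) (ht : 0 < t)
    (η : ℝ≥0∞) (hη : η ≠ 0) (hη' : η ≠ ∞) (hηφ : 2 * p * φ' ≤ η) :
    ∫⁻ y in {y | η ≤ ν (shell n R y (β y))}, ENNReal.ofReal (heatK n t (x - y)) ≤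
      (2 * ν Set.univ / η) ^ p * ENNReal.ofReal (R / (n * Real.sqrt t)) ^ (p - 1) :=
  conc_of slab_list n hn R hR ε hε p hp hεp x ν G hG hνG hGR φ' hal β hβ t ht η hη hη' hηφ

end Pool.MaxFn
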