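import Pool.Agent.MaxFn.Heat
import Pool.Agent.MaxFn.Defs2

/-! MODULE P2b (concentration from slab_list), core: `conc_of` takes the statement of `slab_list`
as a hypothesis.

Let A(y) = shell n R y (β y), W = {y : eta <= nu(A(y))}. For a list L put
Psi 0 L = int_{y : all of L in shell y (β y)} K(x-y) dy,
Psi (k+1) L = int_z 1[z in G, z non-aligned with all of L] Psi k (z :: L) dnu(z).
Upper bound: Psi k L <= nu(univ)^k * lam^(|L|+k-1). Lower bound: Psi k L >= (eta/2)^k int_{y in W, L in A(y)} K(x-y) dy.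
-/

set_option autoImplicit false

open MeasureTheory Metric
open scoped ENNReal RealInnerProductSpace

namespace Pool.MaxFn

/-- The statement of `slab_list` (proved in `Slab.lean`). -/
def SlabList : Prop := ∀ (n : ℕ) (_ : 1 ≤ n) (R : ℝ) (_ : 0 < R) (ε : ℝ) (_ : 0 < ε)
    (x : EuclideanSpace ℝ (Fin n)) (L : List (EuclideanSpace ℝ (Fin n)))
    (_ : ε * L.length ≤ 1 / 4) (_ : ∀ z ∈ L, R ≤ dist x z)
    (_ : L.Pairwise fun z z' => |⟪x - z, x - z'⟫| < ε * R ^ 2)
    (t : ℝ) (_ : 0 < t) (β : EuclideanSpace ℝ (Fin n) → ℕ),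
    ∫⁻ y in {y | ∀ z ∈ L, z ∈ shell n R y (β y)}, ENNReal.ofReal (heatK n t (x - y)) ≤
      ENNReal.ofReal (R / (n * Real.sqrt t)) ^ (L.length - 1)

section
variable (n : ℕ) (R ε : ℝ) (x : EuclideanSpace ℝ (Fin n)) (ν : Measure (EuclideanSpace ℝ (Fin n)))
  (G : Set (EuclideanSpace ℝ (Fin n))) (β : EuclideanSpace ℝ (Fin n) → ℕ) (t : ℝ)

/-- points of `G` not aligned with the points of `L` -/
def concN (L : List (EuclideanSpace ℝ (Fin n))) : Set (EuclideanSpace ℝ (Fin n)) :=
  {z | z ∈ G ∧ ∀ z' ∈ L, |⟪x - z, x - z'⟫| < ε * R ^ 2}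

/-- iterated integral -/
noncomputable def concP : ℕ → List (EuclideanSpace ℝ (Fin n)) → ℝ≥0∞
  | 0, L => ∫⁻ y in {y | ∀ z ∈ L, z ∈ shell n R y (β y)}, ENNReal.ofReal (heatK n t (x - y))
  | k + 1, L => ∫⁻ z in concN n R ε x G L, concP k (z :: L) ∂ν

variable {n R ε x ν G β t}

theorem concN_meas (hG : MeasurableSet G) (L : List (EuclideanSpace ℝ (Fin n))) :
    MeasurableSet (concN n R ε x G L) := by
  refine hG.inter ?_
  have : {z : EuclideanSpace ℝ (Fin n) | ∀ z' ∈ L, |⟪x - z, x - z'⟫| < ε * R ^ 2} =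
      (⋂ z' ∈ {z' | z' ∈ L}, {z : EuclideanSpace ℝ (Fin n) | |⟪x - z, x - z'⟫| < ε * R ^ 2}) := by
    ext z
    simp only [Set.mem_iInter, Set.mem_ofPred_eq]
  change MeasurableSet {z : EuclideanSpace ℝ (Fin n) | ∀ z' ∈ L, |⟪x - z, x - z'⟫| < ε * R ^ 2}
  rw [this]
  refine MeasurableSet.biInter (List.finite_toSet L).countable fun z' _ => ?_
  exact measurableSet_lt (by fun_prop) measurable_const

theorem concS_meas (hβ : Measurable β) : MeasurableSet
    {q : EuclideanSpace ℝ (Fin n) × EuclideanSpace ℝ (Fin n) | q.2 ∈ shell n R q.1 (β q.1)} := by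
  have h1 : Measurable fun q : EuclideanSpace ℝ (Fin n) × EuclideanSpace ℝ (Fin n) =>
      rad n R (β q.1 - 1) :=
    (measurable_from_top (f := fun j : ℕ => rad n R (j - 1))).comp (hβ.comp measurable_fst)
  have h2 : Measurable fun q : EuclideanSpace ℝ (Fin n) × EuclideanSpace ℝ (Fin n) =>
      rad n R (β q.1) :=
    (measurable_from_top (f := fun j : ℕ => rad n R j)).comp (hβ.comp measurable_fst)
  have h3 : Measurable fun q : EuclideanSpace ℝ (Fin n) × EuclideanSpace ℝ (Fin n) =>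
      dist q.1 q.2 := (continuous_fst.dist continuous_snd).measurable
  exact (measurableSet_le h1 h3).inter (measurableSet_lt h3 h2)

theorem concP_le (hslab : SlabList) (hn : 1 ≤ n) (hR : 0 < R) (hε : 0 < ε) (ht : 0 < t) (hG : MeasurableSet G)
    (hGR : ∀ z ∈ G, R ≤ dist x z) {p : ℕ} (hεp : ε * p ≤ 1 / 4) (k : ℕ) :
    ∀ L : List (EuclideanSpace ℝ (Fin n)), L.length + k ≤ p → (∀ z ∈ L, z ∈ G) →
      (L.Pairwise fun z z' => |⟪x - z, x - z'⟫| < ε * R ^ 2) →
      concP n R ε x ν G β t k L ≤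
        ν Set.univ ^ k * ENNReal.ofReal (R / (n * Real.sqrt t)) ^ (L.length + k - 1) := by
  induction k with
  | zero =>
    intro L hL hLG hLp
    rw [concP, pow_zero, one_mul, add_zero]
    have hLp' : (L.length : ℝ) ≤ p := by exact_mod_cast hL
    exact hslab n hn R hR ε hε x L (le_trans (by gcongr) hεp)
      (fun z hz => hGR z (hLG z hz)) hLp t ht β
  | succ k ih =>
    intro L hL hLG hLp
    rw [concP]
    calc ∫⁻ z in concN n R ε x G L, concP n R ε x ν G β t k (z :: L) ∂ν ≤
        ∫⁻ _ in concN n R ε x G L,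
          ν Set.univ ^ k * ENNReal.ofReal (R / (n * Real.sqrt t)) ^ (L.length + k) ∂ν := by
          refine setLIntegral_mono' (concN_meas hG L) fun z hz => ?_
          refine (ih (z :: L) (by simp only [List.length_cons]; omega) ?_ ?_).trans (le_of_eq ?_)
          · intro z' hz'
            rcases List.mem_cons.1 hz' with h | h
            · rw [h]; exact hz.1
            · exact hLG z' h
          · exact List.pairwise_cons.2 ⟨hz.2, hLp⟩
          · congr 2
            simp only [List.length_cons]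
            omega
      _ = ν Set.univ ^ k * ENNReal.ofReal (R / (n * Real.sqrt t)) ^ (L.length + k) *
          ν (concN n R ε x G L) := by rw [setLIntegral_const]
      _ ≤ ν Set.univ ^ k * ENNReal.ofReal (R / (n * Real.sqrt t)) ^ (L.length + k) *
          ν Set.univ := by gcongr; exact Set.subset_univ _
      _ = _ := by
          have : L.length + (k + 1) - 1 = L.length + k := by omega
          rw [this, pow_succ]
          ring

variable (n R ν β) in
/-- the good set with prescribed points in the shell -/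
def concW (η : ℝ≥0∞) (L : List (EuclideanSpace ℝ (Fin n))) : Set (EuclideanSpace ℝ (Fin n)) :=
  {y | η ≤ ν (shell n R y (β y)) ∧ ∀ z ∈ L, z ∈ shell n R y (β y)}

theorem concW_meas [IsFiniteMeasure ν] (hβ : Measurable β) (η : ℝ≥0∞)
    (L : List (EuclideanSpace ℝ (Fin n))) :
    MeasurableSet (concW n R ν β η L) := by
  have h1 : Measurable fun y => ν (shell n R y (β y)) :=
    measurable_measure_prodMk_left (concS_meas (R := R) hβ)
  refine (measurableSet_le measurable_const h1).inter ?_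
  have : {y : EuclideanSpace ℝ (Fin n) | ∀ z ∈ L, z ∈ shell n R y (β y)} =
      (⋂ z ∈ {z | z ∈ L}, {y : EuclideanSpace ℝ (Fin n) | z ∈ shell n R y (β y)}) := by
    ext z
    simp only [Set.mem_iInter, Set.mem_ofPred_eq]
  change MeasurableSet {y : EuclideanSpace ℝ (Fin n) | ∀ z ∈ L, z ∈ shell n R y (β y)}
  rw [this]
  refine MeasurableSet.biInter (List.finite_toSet L).countable fun z _ => ?_
  exact measurable_prodMk_right (concS_meas (R := R) hβ)

theorem le_concN [IsFiniteMeasure ν] (hνG : ν Gᶜ = 0) {φ' : ℝ≥0∞}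
    (hal : ∀ z ∈ G, ν {z' | ε * R ^ 2 ≤ |⟪x - z, x - z'⟫|} ≤ φ') {p : ℕ}
    {η : ℝ≥0∞} (hη' : η ≠ ∞) (hηφ : 2 * p * φ' ≤ η)
    (S : Set (EuclideanSpace ℝ (Fin n))) (hS : η ≤ ν S)
    (L : List (EuclideanSpace ℝ (Fin n))) (hL : L.length ≤ p) (hLG : ∀ z ∈ L, z ∈ G) :
    η / 2 ≤ ν (concN n R ε x G L ∩ S) := by
  -- `S` is covered by the good part, the complement of `G` and the aligned parts
  have h1 : ∀ L : List (EuclideanSpace ℝ (Fin n)), (∀ z ∈ L, z ∈ G) →
      ν {z | ∃ z' ∈ L, ε * R ^ 2 ≤ |⟪x - z, x - z'⟫|} ≤ L.length * φ' := by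
    intro L
    induction L with
    | nil => intro _; simp
    | cons a L ih =>
      intro hL
      have : {z | ∃ z' ∈ a :: L, ε * R ^ 2 ≤ |⟪x - z, x - z'⟫|} ⊆
          {z | ε * R ^ 2 ≤ |⟪x - a, x - z⟫|} ∪ {z | ∃ z' ∈ L, ε * R ^ 2 ≤ |⟪x - z, x - z'⟫|} := by
        rintro z ⟨z', hz', hzz⟩
        rcases List.mem_cons.1 hz' with h | h
        · left
          rw [h] at hzz
          change ε * R ^ 2 ≤ |⟪x - a, x - z⟫|
          rw [real_inner_comm]
          exact hzz
        · right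
          exact ⟨z', h, hzz⟩
      calc _ ≤ _ := measure_mono this
        _ ≤ _ := measure_union_le _ _
        _ ≤ φ' + L.length * φ' := by
          gcongr
          · exact hal a (hL a (List.mem_cons_self))
          · exact ih fun z hz => hL z (List.mem_cons_of_mem _ hz)
        _ = _ := by
          simp only [List.length_cons]
          push_cast
          ring
  have h2 : S ⊆ (concN n R ε x G L ∩ S) ∪ (Gᶜ ∪ {z | ∃ z' ∈ L, ε * R ^ 2 ≤ |⟪x - z, x - z'⟫|}) := by
    intro z hz
    by_cases hzG : z ∈ G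
    · by_cases hzL : ∀ z' ∈ L, |⟪x - z, x - z'⟫| < ε * R ^ 2
      · left; exact ⟨⟨hzG, hzL⟩, hz⟩
      · push Not at hzL
        right; right; exact hzL
    · right; left; exact hzG
  have h3 : η ≤ ν (concN n R ε x G L ∩ S) + η / 2 := by
    calc η ≤ ν S := hS
      _ ≤ _ := measure_mono h2
      _ ≤ ν (concN n R ε x G L ∩ S) + ν (Gᶜ ∪ {z | ∃ z' ∈ L, ε * R ^ 2 ≤ |⟪x - z, x - z'⟫|}) :=
          measure_union_le _ _
      _ ≤ ν (concN n R ε x G L ∩ S) + (ν Gᶜ + ν {z | ∃ z' ∈ L, ε * R ^ 2 ≤ |⟪x - z, x - z'⟫|}) := by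
          gcongr; exact measure_union_le _ _
      _ ≤ ν (concN n R ε x G L ∩ S) + (0 + L.length * φ') := by
          gcongr
          · exact hνG.le
          · exact h1 L hLG
      _ ≤ ν (concN n R ε x G L ∩ S) + η / 2 := by
          gcongr
          rw [zero_add, ENNReal.le_div_iff_mul_le (Or.inl two_ne_zero) (Or.inl ENNReal.ofNat_ne_top)]
          calc (L.length : ℝ≥0∞) * φ' * 2 = 2 * L.length * φ' := by ring
            _ ≤ 2 * p * φ' := by gcongr
            _ ≤ η := hηφ
  have h4 : η / 2 + η / 2 ≤ ν (concN n R ε x G L ∩ S) + η / 2 := by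
    rw [ENNReal.add_halves]; exact h3
  exact (ENNReal.add_le_add_iff_right (ENNReal.div_ne_top hη' two_ne_zero)).1 h4

theorem le_concP [IsFiniteMeasure ν] (hG : MeasurableSet G) (hνG : ν Gᶜ = 0) {φ' : ℝ≥0∞}
    (hal : ∀ z ∈ G, ν {z' | ε * R ^ 2 ≤ |⟪x - z, x - z'⟫|} ≤ φ') (hβ : Measurable β) {p : ℕ}
    {η : ℝ≥0∞} (hη' : η ≠ ∞) (hηφ : 2 * p * φ' ≤ η) (k : ℕ) :
    ∀ L : List (EuclideanSpace ℝ (Fin n)), L.length + k ≤ p → (∀ z ∈ L, z ∈ G) →
      (η / 2) ^ k * ∫⁻ y in concW n R ν β η L, ENNReal.ofReal (heatK n t (x - y)) ≤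
        concP n R ε x ν G β t k L := by
  induction k with
  | zero =>
    intro L _ _
    rw [concP, pow_zero, one_mul]
    exact lintegral_mono_set fun y hy => hy.2
  | succ k ih =>
    intro L hL hLG
    rw [concP]
    set KK : EuclideanSpace ℝ (Fin n) → ℝ≥0∞ := fun y => ENNReal.ofReal (heatK n t (x - y)) with hKK
    have hKm : Measurable KK := measurable_kernel_left n t x
    have hWm := concW_meas (n := n) (R := R) (ν := ν) hβ η L
    have hNm := concN_meas (n := n) (R := R) (ε := ε) (x := x) hG L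
    have hSm := concS_meas (n := n) (R := R) hβ
    -- the double integral
    set T : Set (EuclideanSpace ℝ (Fin n) × EuclideanSpace ℝ (Fin n)) :=
      {q | q.1 ∈ concN n R ε x G L ∧ q.2 ∈ concW n R ν β η L ∧ q.1 ∈ shell n R q.2 (β q.2)} with hT
    have hTm : MeasurableSet T := by
      refine (measurable_fst hNm).inter ((measurable_snd hWm).inter ?_)
      exact measurable_swap hSm
    have hFm : Measurable (Function.uncurry fun z y : EuclideanSpace ℝ (Fin n) =>
        T.indicator (fun q => KK q.2) (z, y)) :=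
      (hKm.comp measurable_snd).indicator hTm
    have e1 : ∀ z ∈ concN n R ε x G L, ∫⁻ y, T.indicator (fun q => KK q.2) (z, y) =
        ∫⁻ y in concW n R ν β η (z :: L), KK y := by
      intro z hz
      rw [← lintegral_indicator (concW_meas hβ η _)]
      refine lintegral_congr fun y => ?_
      by_cases h : y ∈ concW n R ν β η (z :: L)
      · rw [Set.indicator_of_mem h, Set.indicator_of_mem]
        exact ⟨hz, ⟨h.1, fun z' hz' => h.2 z' (List.mem_cons_of_mem _ hz')⟩,
          h.2 z List.mem_cons_self⟩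
      · rw [Set.indicator_of_notMem h, Set.indicator_of_notMem]
        rintro ⟨-, h2, h3⟩
        apply h
        refine ⟨h2.1, fun z' hz' => ?_⟩
        rcases List.mem_cons.1 hz' with h4 | h4
        · rw [h4]; exact h3
        · exact h2.2 z' h4
    have e2 : ∀ z, z ∉ concN n R ε x G L → ∫⁻ y, T.indicator (fun q => KK q.2) (z, y) = 0 := by
      intro z hz
      have : ∀ y, T.indicator (fun q => KK q.2) (z, y) = 0 := fun y =>
        Set.indicator_of_notMem (fun h => hz h.1) _
      simp only [this, lintegral_zero]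
    have e3 : ∫⁻ z in concN n R ε x G L, (∫⁻ y in concW n R ν β η (z :: L), KK y) ∂ν =
        ∫⁻ z, (∫⁻ y, T.indicator (fun q => KK q.2) (z, y)) ∂ν := by
      rw [← lintegral_indicator hNm]
      refine lintegral_congr fun z => ?_
      by_cases h : z ∈ concN n R ε x G L
      · rw [Set.indicator_of_mem h, e1 z h]
      · rw [Set.indicator_of_notMem h, e2 z h]
    have e4 : ∫⁻ z, (∫⁻ y, T.indicator (fun q => KK q.2) (z, y)) ∂ν =
        ∫⁻ y, (∫⁻ z, T.indicator (fun q => KK q.2) (z, y) ∂ν) :=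
      lintegral_lintegral_swap hFm.aemeasurable
    have e5 : ∀ y ∈ concW n R ν β η L, η / 2 * KK y ≤
        ∫⁻ z, T.indicator (fun q => KK q.2) (z, y) ∂ν := by
      intro y hy
      have h1 := le_concN (n := n) (R := R) (ε := ε) (x := x) hνG hal hη' hηφ
        (shell n R y (β y)) hy.1 L (by omega) hLG
      have hSy : MeasurableSet (shell n R y (β y)) := measurable_prodMk_left hSm
      have h2 : ∫⁻ z, T.indicator (fun q => KK q.2) (z, y) ∂ν =
          KK y * ν (concN n R ε x G L ∩ shell n R y (β y)) := by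
        rw [← setLIntegral_const, ← lintegral_indicator (hNm.inter hSy)]
        refine lintegral_congr fun z => ?_
        by_cases h : z ∈ concN n R ε x G L ∩ shell n R y (β y)
        · rw [Set.indicator_of_mem h, Set.indicator_of_mem]
          exact ⟨h.1, hy, h.2⟩
        · rw [Set.indicator_of_notMem h, Set.indicator_of_notMem]
          exact fun h' => h ⟨h'.1, h'.2.2⟩
      rw [h2, mul_comm]
      gcongr
    calc (η / 2) ^ (k + 1) * ∫⁻ y in concW n R ν β η L, KK y =
        (η / 2) ^ k * ∫⁻ y in concW n R ν β η L, η / 2 * KK y := by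
          rw [lintegral_const_mul _ hKm, pow_succ]
          ring
      _ ≤ (η / 2) ^ k * ∫⁻ y in concW n R ν β η L,
          (∫⁻ z, T.indicator (fun q => KK q.2) (z, y) ∂ν) := by
          gcongr 1
          exact setLIntegral_mono' hWm e5
      _ ≤ (η / 2) ^ k * ∫⁻ y, (∫⁻ z, T.indicator (fun q => KK q.2) (z, y) ∂ν) := by
          gcongr 1
          exact setLIntegral_le_lintegral _ _
      _ = (η / 2) ^ k * ∫⁻ z in concN n R ε x G L, (∫⁻ y in concW n R ν β η (z :: L), KK y) ∂ν := by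
          rw [e3, e4]
      _ = ∫⁻ z in concN n R ε x G L, ((η / 2) ^ k * ∫⁻ y in concW n R ν β η (z :: L), KK y) ∂ν := by
          rw [lintegral_const_mul' _ _ (ENNReal.pow_ne_top (ENNReal.div_ne_top hη' two_ne_zero))]
      _ ≤ _ := by
          refine setLIntegral_mono' hNm fun z hz => ?_
          refine ih (z :: L) (by simp only [List.length_cons]; omega) ?_
          intro z' hz'
          rcases List.mem_cons.1 hz' with h | h
          · rw [h]; exact hz.1
          · exact hLG z' h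

end

theorem conc_of (hslab : SlabList) (n : ℕ) (hn : 1 ≤ n) (R : ℝ) (hR : 0 < R) (ε : ℝ) (hε : 0 < ε)
    (p : ℕ) (_hp : 1 ≤ p) (hεp : ε * p ≤ 1 / 4) (x : EuclideanSpace ℝ (Fin n))
    (ν : Measure (EuclideanSpace ℝ (Fin n))) [IsFiniteMeasure ν]
    (G : Set (EuclideanSpace ℝ (Fin n))) (hG : MeasurableSet G) (hνG : ν Gᶜ = 0)
    (hGR : ∀ z ∈ G, R ≤ dist x z) (φ' : ℝ≥0∞)
    (hal : ∀ z ∈ G, ν {z' | ε * R ^ 2 ≤ |⟪x - z, x - z'⟫|} ≤ φ')
    (β : EuclideanSpace ℝ (Fin n) → ℕ) (hβ : Measurable β) (t : ℝ) (ht : 0 < t)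
    (η : ℝ≥0∞) (hη : η ≠ 0) (hη' : η ≠ ∞) (hηφ : 2 * p * φ' ≤ η) :
    ∫⁻ y in {y | η ≤ ν (shell n R y (β y))}, ENNReal.ofReal (heatK n t (x - y)) ≤
      (2 * ν Set.univ / η) ^ p * ENNReal.ofReal (R / (n * Real.sqrt t)) ^ (p - 1) := by
  have h1 := concP_le (ν := ν) (β := β) hslab hn hR hε ht hG hGR hεp p [] (by simp) (by simp) (by simp)
  have h2 := le_concP (t := t) (x := x) (ε := ε) (R := R) hG hνG hal hβ hη' hηφ p [] (by simp)
    (by simp)
  have h3 : concW n R ν β η [] = {y | η ≤ ν (shell n R y (β y))} := by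
    ext y
    constructor
    · intro h; exact h.1
    · intro h; exact ⟨h, by simp⟩
  rw [h3] at h2
  have h4 := h2.trans h1
  simp only [List.length_nil, zero_add] at h4
  have h5 : (η / 2) ^ p ≠ 0 := pow_ne_zero _ (by simp [hη])
  have h6 : (η / 2) ^ p ≠ ∞ := ENNReal.pow_ne_top (ENNReal.div_ne_top hη' two_ne_zero)
  rw [mul_comm, ← ENNReal.le_div_iff_mul_le (Or.inl h5) (Or.inl h6)] at h4
  refine h4.trans (le_of_eq ?_)
  have h7 : 2 * ν Set.univ / η = ν Set.univ / (η / 2) := by
    rw [ENNReal.div_eq_inv_mul, ENNReal.div_eq_inv_mul, ENNReal.div_eq_inv_mul,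
      ENNReal.mul_inv (Or.inl (by simp)) (Or.inl (by simp)), inv_inv]
    ring
  have h8 : (ν Set.univ / (η / 2)) ^ p = ν Set.univ ^ p / (η / 2) ^ p := by
    rw [div_eq_mul_inv, div_eq_mul_inv (ν Set.univ ^ p), mul_pow, ENNReal.inv_pow]
  rw [h7, h8, div_eq_mul_inv, div_eq_mul_inv (ν Set.univ ^ p)]
  ring

end Pool.MaxFn
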