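import Mathlib

/-!
Common definitions for the improved weak type (1,1) bound for the centred ball maximal function
(MP_a6dc0c_an).
-/

set_option autoImplicit false

open MeasureTheory
open scoped ENNReal

namespace Pool.MaxFn

/-- A symmetric Markov operator acting on nonnegative functions. -/
structure SymMarkov {X : Type*} [MeasurableSpace X] (m : Measure X) where
  op : (X → ℝ≥0∞) → X → ℝ≥0∞
  meas : ∀ g : X → ℝ≥0∞, Measurable g → Measurable (op g)
  add : ∀ f g : X → ℝ≥0∞, Measurable f → Measurable g →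
    op (fun x => f x + g x) = fun x => op f x + op g x
  zero : op (fun _ => 0) = fun _ => 0
  one : op (fun _ => 1) = fun _ => 1
  mono : ∀ f g : X → ℝ≥0∞, (∀ x, f x ≤ g x) → ∀ x, op f x ≤ op g x
  symm : ∀ f g : X → ℝ≥0∞, Measurable f → Measurable g →
    ∫⁻ x, f x * op g x ∂m = ∫⁻ x, op f x * g x ∂m
  sq : ∀ g : X → ℝ≥0∞, Measurable g → ∀ x, op g x ^ 2 ≤ op (fun y => g y ^ 2) x

/-- The Gaussian (heat) kernel on Euclidean space. -/
noncomputable def heatK (n : ℕ) (t : ℝ) (x : EuclideanSpace ℝ (Fin n)) : ℝ :=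
  (4 * Real.pi * t) ^ (-((n : ℝ) / 2)) * Real.exp (-(‖x‖ ^ 2 / (4 * t)))

/-- The heat semigroup acting on nonnegative functions. -/
noncomputable def heatP (n : ℕ) (t : ℝ) (g : EuclideanSpace ℝ (Fin n) → ℝ≥0∞)
    (x : EuclideanSpace ℝ (Fin n)) : ℝ≥0∞ :=
  ∫⁻ y, ENNReal.ofReal (heatK n t (x - y)) * g y

/-- The set where some ball average with radius in the set of radii D exceeds s. -/
def bigSet (n : ℕ) (f : EuclideanSpace ℝ (Fin n) → ℝ≥0∞) (D : Set ℝ) (s : ℝ≥0∞) :
    Set (EuclideanSpace ℝ (Fin n)) :=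
  {x | ∃ r ∈ D, s * volume (Metric.ball x r) < ∫⁻ y in Metric.ball x r, f y}

end Pool.MaxFn
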