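import Pool.Agent.MaxFn.SumBound

/-!
The good part of a level set (polylogarithmic bound, MP_a6dc0c_an).
-/

set_option autoImplicit false

open MeasureTheory Metric
open scoped ENNReal RealInnerProductSpace

namespace Pool.MaxFn

theorem err_real (n : ℕ) (hn : 4 ≤ n) (p : ℕ) (hp : 1 ≤ p) (hpn : 16 * n ^ 2 ≤ 2 ^ p) (l : ℕ)
    (hl : 1 ≤ l) (hl' : l ≤ 3 * n) :
    2 * ((4 / (12 / Real.sqrt l)) ^ p * Real.sqrt (2 / l) ^ (p - 1)) +
      2 * (4 * Real.exp (-(p : ℝ))) ≤ 1 / n := by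
  have hn0 : (4 : ℝ) ≤ n := by exact_mod_cast hn
  have hl0 : (0 : ℝ) < l := by exact_mod_cast hl
  have hl1 : (l : ℝ) ≤ 3 * n := by exact_mod_cast hl'
  have hsl : 0 < Real.sqrt l := Real.sqrt_pos.2 hl0
  have h1 : (4 : ℝ) / (12 / Real.sqrt l) = Real.sqrt l / 3 := by
    field_simp
    norm_num
  have h2p : (16 : ℝ) * n ^ 2 ≤ 2 ^ p := by exact_mod_cast hpn
  have hsl2 : Real.sqrt l ≤ 2 * n := by
    apply Real.sqrt_le_iff.2
    constructor
    · linarith
    · nlinarith
  obtain ⟨q, rfl⟩ : ∃ q, p = q + 1 := ⟨p - 1, by omega⟩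
  have h2 : Real.sqrt l / 3 * Real.sqrt (2 / l) ≤ 1 / 2 := by
    have e : Real.sqrt l * Real.sqrt (2 / l) = Real.sqrt 2 := by
      rw [← Real.sqrt_mul hl0.le]
      congr 1
      field_simp
    have h3 : Real.sqrt 2 ≤ 1.5 := by
      apply Real.sqrt_le_iff.2
      norm_num
    calc Real.sqrt l / 3 * Real.sqrt (2 / l) = (Real.sqrt l * Real.sqrt (2 / l)) / 3 := by ring
      _ = Real.sqrt 2 / 3 := by rw [e]
      _ ≤ 1 / 2 := by linarith
  have h3 : (Real.sqrt l / 3) ^ (q + 1) * Real.sqrt (2 / l) ^ (q + 1 - 1) ≤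
      Real.sqrt l / 3 * (1 / 2) ^ q := by
    rw [Nat.add_sub_cancel, pow_succ]
    calc (Real.sqrt l / 3) ^ q * (Real.sqrt l / 3) * Real.sqrt (2 / l) ^ q
        = Real.sqrt l / 3 * (Real.sqrt l / 3 * Real.sqrt (2 / l)) ^ q := by
          rw [mul_pow]
          ring
      _ ≤ _ := by gcongr
  have h4 : Real.exp (-((q + 1 : ℕ) : ℝ)) ≤ (1 / 2) ^ (q + 1) := by
    rw [Real.exp_neg, one_div, inv_pow]
    apply inv_anti₀ (by positivity)
    have : Real.exp ((q + 1 : ℕ) : ℝ) = Real.exp 1 ^ (q + 1) := by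
      rw [← Real.exp_nat_mul]
      simp
    rw [this]
    gcongr
    have := Real.exp_one_gt_d9
    linarith
  have h5 : ((1 : ℝ) / 2) ^ (q + 1) ≤ 1 / (16 * n ^ 2) := by
    rw [one_div, inv_pow, one_div]
    exact inv_anti₀ (by positivity) h2p
  have h6 : ((1 : ℝ) / 2) ^ q = 2 * (1 / 2) ^ (q + 1) := by rw [pow_succ]; ring
  rw [h1]
  calc _ ≤ 2 * (Real.sqrt l / 3 * (1 / 2) ^ q) + 2 * (4 * (1 / 2) ^ (q + 1)) := by gcongr
    _ = (4 / 3 * Real.sqrt l + 8) * (1 / 2) ^ (q + 1) := by rw [h6]; ring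
    _ ≤ (4 / 3 * (2 * n) + 8) * (1 / (16 * n ^ 2)) := by gcongr
    _ ≤ 1 / n := by
        rw [mul_one_div, div_le_div_iff₀ (by positivity) (by positivity)]
        nlinarith

theorem err_bound (n : ℕ) (hn : 4 ≤ n) (p : ℕ) (hp : 1 ≤ p) (hpn : 16 * n ^ 2 ≤ 2 ^ p) (l : ℕ)
    (hl : 1 ≤ l) (hl' : l ≤ 3 * n) :
    2 * ((4 / ENNReal.ofReal (12 / Real.sqrt l)) ^ p *
      ENNReal.ofReal (Real.sqrt (2 / l)) ^ (p - 1)) +
      2 * ENNReal.ofReal (4 * Real.exp (-(p : ℝ))) ≤ ENNReal.ofReal (1 / n) := by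
  have hl0 : (0 : ℝ) < l := by exact_mod_cast hl
  have hsl : 0 < Real.sqrt l := Real.sqrt_pos.2 hl0
  have e1 : (4 : ℝ≥0∞) / ENNReal.ofReal (12 / Real.sqrt l) =
      ENNReal.ofReal (4 / (12 / Real.sqrt l)) := by
    rw [ENNReal.ofReal_div_of_pos (y := 12 / Real.sqrt l) (by positivity)]
    congr 1
    simp
  have e2 : (2 : ℝ≥0∞) = ENNReal.ofReal 2 := by simp
  rw [e1, ← ENNReal.ofReal_pow (by positivity), ← ENNReal.ofReal_pow (by positivity),
    ← ENNReal.ofReal_mul (by positivity), e2, ← ENNReal.ofReal_mul (by norm_num),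
    ← ENNReal.ofReal_mul (by norm_num), ← ENNReal.ofReal_add (by positivity) (by positivity)]
  exact ENNReal.ofReal_le_ofReal (err_real n hn p hp hpn l hl hl')

section

variable (n : ℕ) (R : ℝ) (f : EuclideanSpace ℝ (Fin n) → ℝ≥0∞) (s : ℝ≥0∞) (p : ℕ)

/-- the positively aligned points, with the final parameters -/
noncomputable def posP (x : EuclideanSpace ℝ (Fin n)) : Set (EuclideanSpace ℝ (Fin n)) :=
  posSet n R f s (1 / (4 * p)) (1 / (p * n)) x

/-- the negatively aligned points, with the final parameters -/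
noncomputable def negP (x : EuclideanSpace ℝ (Fin n)) : Set (EuclideanSpace ℝ (Fin n)) :=
  negSet n R f s (1 / (4 * p)) (1 / (p * n)) x

/-- the remaining points of the shell -/
noncomputable def GG (x : EuclideanSpace ℝ (Fin n)) : Set (EuclideanSpace ℝ (Fin n)) :=
  shell n R x (fst n R f s x) \ (posP n R f s p x ∪ negP n R f s p x)

/-- the weight `s vb` at the first index -/
noncomputable def WW (x : EuclideanSpace ℝ (Fin n)) : ℝ≥0∞ := s * vb n R (fst n R f s x)

/-- the good part of the level set -/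
def gd : Set (EuclideanSpace ℝ (Fin n)) :=
  {x | (x ∈ lev n R f s ∧ 17 * p ≤ fst n R f s x) ∧
    (∫⁻ z in posP n R f s p x, f z ≤ ENNReal.ofReal (1 / 20) * WW n R f s x ∧
      ∫⁻ z in negP n R f s p x, f z ≤ ENNReal.ofReal (1 / 20) * WW n R f s x)}

theorem measurable_vbfst (hf : Measurable f) : Measurable (fun x => vb n R (fst n R f s x)) :=
  (measurable_from_nat (f := fun b => vb n R b)).comp (measurable_fst n R f hf s)

theorem measurable_WW (hf : Measurable f) : Measurable (WW n R f s) :=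
  (measurable_vbfst n R f s hf).const_mul s

theorem measurable_mass (P : EuclideanSpace ℝ (Fin n) → Set (EuclideanSpace ℝ (Fin n)))
    (hP : MeasurableSet {q : EuclideanSpace ℝ (Fin n) × EuclideanSpace ℝ (Fin n) | q.2 ∈ P q.1})
    (hf : Measurable f) : Measurable (fun x => ∫⁻ z in P x, f z) := by
  have h1 : Measurable (fun q : EuclideanSpace ℝ (Fin n) × EuclideanSpace ℝ (Fin n) =>
      ({q : EuclideanSpace ℝ (Fin n) × EuclideanSpace ℝ (Fin n) | q.2 ∈ P q.1}).indicator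
        (fun q => f q.2) q) := (hf.comp measurable_snd).indicator hP
  have h2 := h1.lintegral_prod_right' (ν := (volume : Measure (EuclideanSpace ℝ (Fin n))))
  have e : (fun x => ∫⁻ z in P x, f z) = fun x => ∫⁻ z, ({q : EuclideanSpace ℝ (Fin n) ×
      EuclideanSpace ℝ (Fin n) | q.2 ∈ P q.1}).indicator (fun q => f q.2) (x, z) := by
    funext x
    rw [← lintegral_indicator (section_meas n P hP x)]
    refine lintegral_congr fun z => ?_
    by_cases hz : z ∈ P x
    · rw [Set.indicator_of_mem hz, Set.indicator_of_mem (show (x, z) ∈ _ from hz)]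
    · rw [Set.indicator_of_notMem hz, Set.indicator_of_notMem (show (x, z) ∉ _ from hz)]
  rw [e]
  exact h2

theorem measurableSet_gd (hf : Measurable f) (hfi : ∫⁻ x, f x ≠ ∞) :
    MeasurableSet (gd n R f s p) := by
  have e : gd n R f s p = (lev n R f s ∩ {x | 17 * p ≤ fst n R f s x}) ∩
      ({x | ∫⁻ z in posP n R f s p x, f z ≤ ENNReal.ofReal (1 / 20) * WW n R f s x} ∩
      {x | ∫⁻ z in negP n R f s p x, f z ≤ ENNReal.ofReal (1 / 20) * WW n R f s x}) := rfl
  rw [e]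
  refine ((measurableSet_lev n R f hf s).inter (measurable_fst n R f hf s
    (MeasurableSet.of_discrete (s := {b | 17 * p ≤ b})))).inter ((measurableSet_le ?_ ?_).inter
    (measurableSet_le ?_ ?_))
  · exact measurable_mass n f _ (measurableSet_posSet n R f hf hfi s _ _) hf
  · exact (measurable_WW n R f s hf).const_mul _
  · exact measurable_mass n f _ (measurableSet_negSet n R f hf hfi s _ _) hf
  · exact (measurable_WW n R f s hf).const_mul _

theorem measurableSet_GG (hf : Measurable f) (hfi : ∫⁻ x, f x ≠ ∞) :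
    MeasurableSet {q : EuclideanSpace ℝ (Fin n) × EuclideanSpace ℝ (Fin n) |
      q.2 ∈ GG n R f s p q.1} :=
  MeasurableSet.diff (measurableSet_shell' n R _ (measurable_fst n R f hf s))
    (MeasurableSet.union (measurableSet_posSet n R f hf hfi s _ _)
      (measurableSet_negSet n R f hf hfi s _ _))

theorem GG_sub (x : EuclideanSpace ℝ (Fin n)) :
    GG n R f s p x ⊆ shell n R x (fst n R f s x) := Set.sdiff_subset

theorem WW_ne_zero (hR : 0 < R) (hs : s ≠ 0) (x : EuclideanSpace ℝ (Fin n)) :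
    WW n R f s x ≠ 0 := mul_ne_zero hs (vb_ne_zero n R hR _)

theorem WW_ne_top (hs' : s ≠ ∞) (x : EuclideanSpace ℝ (Fin n)) :
    WW n R f s x ≠ ∞ := ENNReal.mul_ne_top hs' (vb_ne_top n R _)

theorem mass_GG_le (x : EuclideanSpace ℝ (Fin n)) (hx : x ∈ lev n R f s) :
    ∫⁻ z in GG n R f s p x, f z ≤ 2 * WW n R f s x := by
  have h1 := hx.2 _ (fst_le n R f s x hx)
  have h2 : GG n R f s p x ⊆ ball x (rad n R (fst n R f s x)) := by
    intro z hz
    rw [mem_ball, dist_comm]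
    exact (GG_sub n R f s p x hz).2
  calc _ ≤ mb n R f x (fst n R f s x) := lintegral_mono_set h2
    _ ≤ _ := h1
    _ = _ := by rw [WW]; ring

theorem mass_GG_ge (hn : 4 ≤ n) (hR : 0 < R) (hs' : s ≠ ∞) (hp : 1 ≤ p)
    (hf : Measurable f) (x : EuclideanSpace ℝ (Fin n)) (hx : x ∈ gd n R f s p) :
    ENNReal.ofReal (1 / 10) * WW n R f s x ≤ ∫⁻ z in GG n R f s p x, f z := by
  obtain ⟨⟨hlev, hb⟩, hpos, hneg⟩ := hx
  set b := fst n R f s x with hbdef
  have hb1 : 1 ≤ b := by omega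
  have hbn : b ≤ n := fst_le n R f s x hlev
  have h1 : s * vb n R b < mb n R f x b := fst_spec n R f s x hlev
  have h2 : mb n R f x (b - 1) ≤ s * vb n R (b - 1) :=
    lt_fst n R f s x (b - 1) (by omega)
  have h3 : vb n R (b - 1) ≤ ENNReal.ofReal (Real.exp (-(1 / 4))) * vb n R b := by
    have := vb_le_succ n (by omega) R hR (b - 1) (by omega)
    rwa [Nat.sub_add_cancel hb1] at this
  have hsub : ball x (rad n R b) ⊆ ball x (rad n R (b - 1)) ∪ ((GG n R f s p x) ∪
      ((posP n R f s p x) ∪ (negP n R f s p x))) := by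
    intro z hz
    by_cases hz1 : z ∈ ball x (rad n R (b - 1))
    · exact Or.inl hz1
    · right
      have hzs : z ∈ shell n R x b := by
        refine ⟨?_, ?_⟩
        · rw [mem_ball, not_lt, dist_comm] at hz1
          exact hz1
        · rw [mem_ball, dist_comm] at hz
          exact hz
      by_cases hz2 : z ∈ posP n R f s p x ∪ negP n R f s p x
      · exact Or.inr hz2
      · exact Or.inl ⟨hzs, hz2⟩
  have h4 : mb n R f x b ≤ mb n R f x (b - 1) + ((∫⁻ z in GG n R f s p x, f z) +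
      ((∫⁻ z in posP n R f s p x, f z) + (∫⁻ z in negP n R f s p x, f z))) := by
    refine (lintegral_mono_set hsub).trans ((lintegral_union_le _ _ _).trans ?_)
    refine add_le_add le_rfl ((lintegral_union_le _ _ _).trans ?_)
    exact add_le_add le_rfl (lintegral_union_le _ _ _)
  have hexp : Real.exp (-(1 / 4)) ≤ 4 / 5 := by
    rw [Real.exp_neg]
    rw [show (4 / 5 : ℝ) = (5 / 4)⁻¹ by norm_num]
    apply inv_anti₀ (by norm_num)
    have := Real.add_one_le_exp (1 / 4 : ℝ)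
    linarith
  have hWt := WW_ne_top n R f s hs' x
  have hW : WW n R f s x = s * vb n R b := rfl
  set W := WW n R f s x with hWdef
  have h5 : W ≤ ENNReal.ofReal (9 / 10) * W + ∫⁻ z in GG n R f s p x, f z := by
    calc W = s * vb n R b := hW
      _ ≤ mb n R f x b := h1.le
      _ ≤ _ := h4
      _ ≤ ENNReal.ofReal (4 / 5) * W + ((∫⁻ z in GG n R f s p x, f z) +
          (ENNReal.ofReal (1 / 20) * W + ENNReal.ofReal (1 / 20) * W)) := by
          refine add_le_add ?_ (add_le_add le_rfl (add_le_add hpos hneg))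
          calc mb n R f x (b - 1) ≤ s * vb n R (b - 1) := h2
            _ ≤ s * (ENNReal.ofReal (Real.exp (-(1 / 4))) * vb n R b) := by gcongr
            _ ≤ s * (ENNReal.ofReal (4 / 5) * vb n R b) := by gcongr
            _ = _ := by rw [hW]; ring
      _ = (ENNReal.ofReal (4 / 5) + (ENNReal.ofReal (1 / 20) + ENNReal.ofReal (1 / 20))) * W +
          ∫⁻ z in GG n R f s p x, f z := by ring
      _ = _ := by
          rw [← ENNReal.ofReal_add (by norm_num) (by norm_num),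
            ← ENNReal.ofReal_add (by norm_num) (by norm_num)]
          norm_num
  have h6 : W = ENNReal.ofReal (9 / 10) * W + ENNReal.ofReal (1 / 10) * W := by
    rw [← add_mul, ← ENNReal.ofReal_add (by norm_num) (by norm_num)]
    norm_num
  have h7 : ENNReal.ofReal (9 / 10) * W + ENNReal.ofReal (1 / 10) * W ≤
      ENNReal.ofReal (9 / 10) * W + ∫⁻ z in GG n R f s p x, f z := by
    rw [← h6]
    exact h5
  exact (ENNReal.add_le_add_iff_left (ENNReal.mul_ne_top ENNReal.ofReal_ne_top hWt)).1 h7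

theorem al_GG (x z : EuclideanSpace ℝ (Fin n)) (hz : z ∈ GG n R f s p x) :
    ∫⁻ z' in {z' | z' ∈ GG n R f s p x ∧ 1 / (4 * p) * R ^ 2 ≤ |⟪x - z, x - z'⟫|}, f z' ≤
      2 * ENNReal.ofReal (1 / (p * n)) * WW n R f s x := by
  obtain ⟨hzs, hzn⟩ := hz
  have h1 : ∫⁻ z' in {z' | z' ∈ shell n R x (fst n R f s x) ∧
      1 / (4 * p) * R ^ 2 ≤ ⟪x - z, x - z'⟫}, f z' ≤
      ENNReal.ofReal (1 / (p * n)) * s * vb n R (fst n R f s x) := by
    by_contra hcon
    exact hzn (Or.inl ⟨hzs, (not_le.1 hcon).le⟩)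
  have h2 : ∫⁻ z' in {z' | z' ∈ shell n R x (fst n R f s x) ∧
      ⟪x - z, x - z'⟫ ≤ -(1 / (4 * p) * R ^ 2)}, f z' ≤
      ENNReal.ofReal (1 / (p * n)) * s * vb n R (fst n R f s x) := by
    by_contra hcon
    exact hzn (Or.inr ⟨hzs, (not_le.1 hcon).le⟩)
  have hsub : {z' | z' ∈ GG n R f s p x ∧ 1 / (4 * p) * R ^ 2 ≤ |⟪x - z, x - z'⟫|} ⊆
      {z' | z' ∈ shell n R x (fst n R f s x) ∧ 1 / (4 * p) * R ^ 2 ≤ ⟪x - z, x - z'⟫} ∪
      {z' | z' ∈ shell n R x (fst n R f s x) ∧ ⟪x - z, x - z'⟫ ≤ -(1 / (4 * p) * R ^ 2)} := by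
    rintro z' ⟨h3, h4⟩
    rcases le_abs.1 h4 with h5 | h5
    · exact Or.inl ⟨h3.1, h5⟩
    · exact Or.inr ⟨h3.1, by linarith⟩
  calc _ ≤ _ := lintegral_mono_set hsub
    _ ≤ _ := lintegral_union_le _ _ _
    _ ≤ _ := add_le_add h1 h2
    _ = _ := by rw [WW]; ring

end

end Pool.MaxFn
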