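import Pool.Agent.MaxFn.Good

/-!
The bound for the good part of a level set (polylogarithmic bound, MP_a6dc0c_an).
-/

set_option autoImplicit false

open MeasureTheory Metric
open scoped ENNReal RealInnerProductSpace

namespace Pool.MaxFn

section

variable (n : ℕ) (R : ℝ) (A : Set (EuclideanSpace ℝ (Fin n)))
  (β : EuclideanSpace ℝ (Fin n) → ℕ)

/-- inner integral of `DD` -/
noncomputable def NN (p l : ℕ) (x : EuclideanSpace ℝ (Fin n)) : ℝ≥0∞ :=
  ∫⁻ y in A ∩ {y | |(β y : ℤ) - (β x : ℕ) - l| ≤ Vf p l}, hk n R l (x - y)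

theorem measurable_NN (hA : MeasurableSet A) (hβ : Measurable β) (p l : ℕ) :
    Measurable (NN n R A β p l) := by
  have hS : MeasurableSet {q : EuclideanSpace ℝ (Fin n) × EuclideanSpace ℝ (Fin n) |
      q.2 ∈ A ∩ {y | |(β y : ℤ) - (β q.1 : ℕ) - l| ≤ Vf p l}} := by
    have h1 : MeasurableSet {q : EuclideanSpace ℝ (Fin n) × EuclideanSpace ℝ (Fin n) |
        |(β q.2 : ℤ) - (β q.1 : ℕ) - l| ≤ Vf p l} := by
      have hm : Measurable (fun q : EuclideanSpace ℝ (Fin n) × EuclideanSpace ℝ (Fin n) =>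
          (β q.1, β q.2)) :=
        (hβ.comp _root_.measurable_fst).prodMk (hβ.comp measurable_snd)
      exact hm (MeasurableSet.of_discrete (s := {b : ℕ × ℕ |
        |(b.2 : ℤ) - (b.1 : ℕ) - l| ≤ Vf p l}))
    exact (measurable_snd hA).inter h1
  have h1 := ((measurable_hk n R l).indicator hS).lintegral_prod_right'
    (ν := (volume : Measure (EuclideanSpace ℝ (Fin n))))
  have e : NN n R A β p l = fun x => ∫⁻ y, ({q : EuclideanSpace ℝ (Fin n) ×
      EuclideanSpace ℝ (Fin n) |
      q.2 ∈ A ∩ {y | |(β y : ℤ) - (β q.1 : ℕ) - l| ≤ Vf p l}}).indicator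
        (fun q => hk n R l (q.1 - q.2)) (x, y) := by
    funext x
    have hSx : MeasurableSet (A ∩ {y | |(β y : ℤ) - (β x : ℕ) - l| ≤ Vf p l}) :=
      hA.inter (measurable_near n β hβ (β x) l (Vf p l))
    rw [NN, ← lintegral_indicator hSx]
    refine lintegral_congr fun y => ?_
    by_cases hy : y ∈ A ∩ {y | |(β y : ℤ) - (β x : ℕ) - l| ≤ Vf p l}
    · rw [Set.indicator_of_mem hy, Set.indicator_of_mem (show (x, y) ∈ _ from hy)]
    · rw [Set.indicator_of_notMem hy, Set.indicator_of_notMem (show (x, y) ∉ _ from hy)]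
  rw [e]
  exact h1

end

theorem cancel_sq {X C : ℝ≥0∞} (hX : X ≠ ∞) (h : X ^ 2 ≤ C * X) : X ≤ C := by
  by_cases h0 : X = 0
  · rw [h0]
    exact zero_le
  · rw [sq] at h
    exact (ENNReal.mul_le_mul_iff_left h0 hX).1 h

theorem eta_cond (n : ℕ) (hn : 4 ≤ n) (p : ℕ) (hp : 1 ≤ p) (l : ℕ) (hl : 1 ≤ l)
    (hl' : l ≤ 3 * n) :
    2 * (p : ℝ≥0∞) * (2 * ENNReal.ofReal (1 / (p * n))) ≤
      ENNReal.ofReal (12 / Real.sqrt l) := by
  have hn0 : (4 : ℝ) ≤ n := by exact_mod_cast hn
  have hp0 : (0 : ℝ) < p := by exact_mod_cast hp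
  have hl0 : (0 : ℝ) < l := by exact_mod_cast hl
  have hl1 : (l : ℝ) ≤ 3 * n := by exact_mod_cast hl'
  have e : 2 * (p : ℝ≥0∞) * (2 * ENNReal.ofReal (1 / (p * n))) =
      ENNReal.ofReal (2 * p * (2 * (1 / (p * n)))) := by
    rw [ENNReal.ofReal_mul (by positivity), ENNReal.ofReal_mul (by norm_num),
      ENNReal.ofReal_mul (by norm_num), ENNReal.ofReal_natCast]
    simp
  rw [e]
  apply ENNReal.ofReal_le_ofReal
  have e2 : 2 * (p : ℝ) * (2 * (1 / (p * n))) = 4 / n := by
    field_simp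
    norm_num
  have hs : Real.sqrt l ≤ 2 * n := by
    apply Real.sqrt_le_iff.2
    constructor
    · linarith
    · nlinarith
  rw [e2, div_le_div_iff₀ (by linarith) (Real.sqrt_pos.2 hl0)]
  linarith

theorem good_bound (n : ℕ) (hn : 4 ≤ n) (R : ℝ) (hR : 0 < R)
    (f : EuclideanSpace ℝ (Fin n) → ℝ≥0∞) (hf : Measurable f) (hfi : ∫⁻ x, f x ≠ ∞)
    (s : ℝ≥0∞) (hs : s ≠ 0) (hs' : s ≠ ∞) (p : ℕ) (hp : 1 ≤ p) (hpn : 16 * n ^ 2 ≤ 2 ^ p)
    (hAt : volume (gd n R f s p) ≠ ∞) :
    s * volume (gd n R f s p) ≤ 600000000000000 * (p : ℝ≥0∞) ^ 2 * ∫⁻ x, f x := by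
  have hA := measurableSet_gd n R f s p hf hfi
  have hG := measurableSet_GG n R f s p hf hfi
  have hβ := measurable_fst n R f hf s
  have hn0 : (0 : ℝ) < n := by exact_mod_cast (by omega : 0 < n)
  have hp0 : (0 : ℝ) < p := by exact_mod_cast hp
  have hβn : ∀ x ∈ gd n R f s p, fst n R f s x ≤ n := fun x hx => fst_le n R f s x hx.1.1
  have hmom := moments n (gd n R f s p) (fst n R f s) (GG n R f s p) R hR hn hA hβ hβn hG
    (GG_sub n R f s p) f hf hfi
  have hvt : ∀ b, vb n R b ≠ ∞ := fun b => vb_ne_top n R b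
  have hv0 : ∀ b, vb n R b ≠ 0 := fun b => vb_ne_zero n R hR b
  have hsum := sum_near n R (gd n R f s p) (fst n R f s) hA hAt hβ hβn hn hR p hp (by
    have h1 : n ≤ n ^ 2 := Nat.le_self_pow (by norm_num) n
    have h2 : 16 * n ^ 2 = 3 * n ^ 2 + 13 * n ^ 2 := by ring
    omega)
  -- lower bound
  have hlow : ENNReal.ofReal (1 / 10) * (s * volume (gd n R f s p)) ≤
      ∫⁻ x in gd n R f s p, (vb n R (fst n R f s x))⁻¹ * ∫⁻ z in GG n R f s p x, f z := by
    calc _ = ∫⁻ x in gd n R f s p, ENNReal.ofReal (1 / 10) * s := by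
          rw [setLIntegral_const]
          ring
      _ ≤ _ := by
          refine setLIntegral_mono' hA fun x hx => ?_
          have h1 := mass_GG_ge n R f s p hn hR hs' hp hf x hx
          rw [WW] at h1
          calc ENNReal.ofReal (1 / 10) * s = (vb n R (fst n R f s x))⁻¹ *
                vb n R (fst n R f s x) * (ENNReal.ofReal (1 / 10) * s) := by
                rw [ENNReal.inv_mul_cancel (hv0 _) (hvt _), one_mul]
            _ = (vb n R (fst n R f s x))⁻¹ * (ENNReal.ofReal (1 / 10) *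
                (s * vb n R (fst n R f s x))) := by ring
            _ ≤ _ := by gcongr
  -- upper bound
  have hup : ∀ x ∈ gd n R f s p, (vb n R (fst n R f s x))⁻¹ * ((∫⁻ z in GG n R f s p x, f z) +
        2 * ∑ l ∈ Finset.range (3 * n), ∫⁻ y in gd n R f s p, hk n R (l + 1) (x - y) *
          ∫⁻ z in GG n R f s p x ∩ GG n R f s p y, f z) ≤
      s * (8 + 2 * ∑ l ∈ Finset.range (3 * n), ENNReal.ofReal (12 / Real.sqrt ((l + 1 : ℕ) : ℝ)) *
        NN n R (gd n R f s p) (fst n R f s) p (l + 1) x) := by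
    intro x hx
    have hWt := WW_ne_top n R f s hs' x
    have hW0 := WW_ne_zero n R f s hR hs x
    have h1 := mass_GG_le n R f s p x hx.1.1
    have h2 : ∀ l ∈ Finset.range (3 * n), ∫⁻ y in gd n R f s p, hk n R (l + 1) (x - y) *
          ∫⁻ z in GG n R f s p x ∩ GG n R f s p y, f z ≤
        WW n R f s x * (ENNReal.ofReal (12 / Real.sqrt ((l + 1 : ℕ) : ℝ)) *
        NN n R (gd n R f s p) (fst n R f s) p (l + 1) x + ENNReal.ofReal (1 / n)) := by
      intro l hl
      rw [Finset.mem_range] at hl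
      have hl0 : (0 : ℝ) < ((l + 1 : ℕ) : ℝ) := by positivity
      have h3 := inner_bound n hn R hR f (fst n R f s) hβ (gd n R f s p) hA (GG n R f s p) hG
        (GG_sub n R f s p) x (hβn x hx) (WW n R f s x) hW0 hWt h1 (1 / (4 * p)) (by positivity)
        p hp (by
          rw [div_mul_eq_mul_div, one_mul, div_le_div_iff₀ (by positivity) (by norm_num)]
          linarith) (2 * ENNReal.ofReal (1 / (p * n)))
        (fun z hz => al_GG n R f s p x z hz) (l + 1) (by omega) (by omega) p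
        (by exact_mod_cast hp) (Vf p (l + 1)) (le_Vf p (l + 1))
        (ENNReal.ofReal (12 / Real.sqrt ((l + 1 : ℕ) : ℝ)))
        (by
          simp only [ne_eq, ENNReal.ofReal_eq_zero, not_le]
          have := Real.sqrt_pos.2 hl0
          positivity) ENNReal.ofReal_ne_top
        (eta_cond n hn p hp (l + 1) (by omega) (by omega))
      refine h3.trans ?_
      have h4 := err_bound n hn p hp hpn (l + 1) (by omega) (by omega)
      rw [add_assoc]
      exact mul_le_mul_right (add_le_add le_rfl h4) _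
    calc _ ≤ (vb n R (fst n R f s x))⁻¹ * (2 * WW n R f s x +
          2 * ∑ l ∈ Finset.range (3 * n), WW n R f s x *
          (ENNReal.ofReal (12 / Real.sqrt ((l + 1 : ℕ) : ℝ)) *
        NN n R (gd n R f s p) (fst n R f s) p (l + 1) x + ENNReal.ofReal (1 / n))) := by
          refine mul_le_mul_right (add_le_add h1 (mul_le_mul_right ?_ _)) _
          exact Finset.sum_le_sum h2
      _ = ((vb n R (fst n R f s x))⁻¹ * vb n R (fst n R f s x)) * s * (2 +
          2 * ∑ l ∈ Finset.range (3 * n),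
          (ENNReal.ofReal (12 / Real.sqrt ((l + 1 : ℕ) : ℝ)) *
        NN n R (gd n R f s p) (fst n R f s) p (l + 1) x + ENNReal.ofReal (1 / n))) := by
          rw [← Finset.mul_sum, WW]
          ring
      _ = s * (2 + 2 * (∑ l ∈ Finset.range (3 * n),
          ENNReal.ofReal (12 / Real.sqrt ((l + 1 : ℕ) : ℝ)) *
        NN n R (gd n R f s p) (fst n R f s) p (l + 1) x + 3)) := by
          rw [ENNReal.inv_mul_cancel (hv0 _) (hvt _), one_mul, Finset.sum_add_distrib,
            Finset.sum_const, Finset.card_range, nsmul_eq_mul]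
          have e3 : ((3 * n : ℕ) : ℝ≥0∞) * ENNReal.ofReal (1 / n) = 3 := by
            rw [← ENNReal.ofReal_natCast, ← ENNReal.ofReal_mul (by positivity)]
            push_cast
            rw [mul_assoc, mul_one_div_cancel hn0.ne']
            simp
          rw [e3]
      _ = _ := by ring
  have hup2 : ∫⁻ x in gd n R f s p, (vb n R (fst n R f s x))⁻¹ *
        ((∫⁻ z in GG n R f s p x, f z) +
        2 * ∑ l ∈ Finset.range (3 * n), ∫⁻ y in gd n R f s p, hk n R (l + 1) (x - y) *
          ∫⁻ z in GG n R f s p x ∩ GG n R f s p y, f z) ≤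
      840008 * (p : ℝ≥0∞) ^ 2 * (s * volume (gd n R f s p)) := by
    have hNm : ∀ l, Measurable fun x => ENNReal.ofReal (12 / Real.sqrt ((l + 1 : ℕ) : ℝ)) *
        NN n R (gd n R f s p) (fst n R f s) p (l + 1) x := fun l =>
      (measurable_NN n R _ _ hA hβ p (l + 1)).const_mul _
    have hp2 : (1 : ℝ≥0∞) ≤ (p : ℝ≥0∞) ^ 2 := by
      have : 1 ≤ p ^ 2 := Nat.one_le_pow _ _ hp
      exact_mod_cast this
    calc _ ≤ ∫⁻ x in gd n R f s p, s * (8 + 2 * ∑ l ∈ Finset.range (3 * n),
          ENNReal.ofReal (12 / Real.sqrt ((l + 1 : ℕ) : ℝ)) *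
          NN n R (gd n R f s p) (fst n R f s) p (l + 1) x) := setLIntegral_mono' hA hup
      _ = s * (8 * volume (gd n R f s p) + 2 * ∑ l ∈ Finset.range (3 * n),
          ENNReal.ofReal (12 / Real.sqrt ((l + 1 : ℕ) : ℝ)) *
          DD n R (gd n R f s p) (fst n R f s) p (l + 1)) := by
          rw [lintegral_const_mul' _ _ hs', lintegral_add_left measurable_const,
            setLIntegral_const, lintegral_const_mul' _ _ (by norm_num), lintegral_finsetSum _
            (fun l _ => hNm l)]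
          congr 3
          refine Finset.sum_congr rfl fun l _ => ?_
          rw [lintegral_const_mul' _ _ ENNReal.ofReal_ne_top]
          rfl
      _ ≤ s * (8 * ((p : ℝ≥0∞) ^ 2 * volume (gd n R f s p)) +
          2 * (420000 * (p : ℝ≥0∞) ^ 2 * volume (gd n R f s p))) := by
          refine mul_le_mul_right (add_le_add (mul_le_mul_right ?_ _)
            (mul_le_mul_right hsum _)) _
          exact le_mul_of_one_le_left zero_le hp2
      _ = _ := by ring
  have hXt : s * volume (gd n R f s p) ≠ ∞ := ENNReal.mul_ne_top hs' hAt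
  generalize s * volume (gd n R f s p) = X at *
  apply cancel_sq hXt
  have h10 : ENNReal.ofReal (1 / 10) = (10 : ℝ≥0∞)⁻¹ := by
    rw [one_div, ENNReal.ofReal_inv_of_pos (by norm_num)]
    simp
  calc X ^ 2 = 100 * (ENNReal.ofReal (1 / 10) * X) ^ 2 := by
        rw [mul_pow, ← mul_assoc, h10, show (100 : ℝ≥0∞) = 10 ^ 2 by norm_num, ← mul_pow,
          ENNReal.mul_inv_cancel (by norm_num) (by norm_num)]
        simp
    _ ≤ 100 * (7000000 * (∫⁻ z, f z) * (840008 * (p : ℝ≥0∞) ^ 2 * X)) := by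
        refine mul_le_mul_right ?_ _
        refine (pow_le_pow_left' hlow 2).trans (hmom.trans ?_)
        exact mul_le_mul_right hup2 _
    _ = 588005600000000 * (p : ℝ≥0∞) ^ 2 * (∫⁻ z, f z) * X := by ring
    _ ≤ _ := by
        gcongr
        norm_num

end Pool.MaxFn
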