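import Pool.Agent.MaxFn.Inner0

/-!
The pointwise bound of the pair interaction (polylogarithmic bound, MP_a6dc0c_an).
-/

set_option autoImplicit false

open MeasureTheory Metric
open scoped ENNReal RealInnerProductSpace

namespace Pool.MaxFn

theorem shell_far (n : ℕ) (R : ℝ) (hR : 0 < R) (x z : EuclideanSpace ℝ (Fin n)) (b : ℕ)
    (h : z ∈ shell n R x b) : R ≤ dist x z := by
  have h2 : R ≤ rad n R (b - 1) := by
    rw [rad]
    have h3 : 1 ≤ Real.sqrt (1 + ((b - 1 : ℕ) : ℝ) / n) := by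
      rw [Real.one_le_sqrt]
      have : 0 ≤ ((b - 1 : ℕ) : ℝ) / n := by positivity
      linarith
    nlinarith
  exact h2.trans h.1

theorem conc_bound (n : ℕ) (hn : 4 ≤ n) (R : ℝ) (hR : 0 < R)
    (β : EuclideanSpace ℝ (Fin n) → ℕ) (hβ : Measurable β) (x : EuclideanSpace ℝ (Fin n)) (b : ℕ)
    (G : Set (EuclideanSpace ℝ (Fin n))) (hG : MeasurableSet G) (hGs : G ⊆ shell n R x b)
    (ν : Measure (EuclideanSpace ℝ (Fin n))) [IsFiniteMeasure ν] (hνG : ν Gᶜ = 0)
    (hνu : ν Set.univ ≤ 2)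
    (ε : ℝ) (hε : 0 < ε) (p : ℕ) (hp : 1 ≤ p) (hεp : ε * p ≤ 1 / 4) (φ' : ℝ≥0∞)
    (hal : ∀ z ∈ G, ν {z' | ε * R ^ 2 ≤ |⟪x - z, x - z'⟫|} ≤ φ')
    (l : ℕ) (hl : 1 ≤ l) (η : ℝ≥0∞) (hη : η ≠ 0) (hη' : η ≠ ∞) (hηφ : 2 * p * φ' ≤ η) :
    ∫⁻ y in {y | η ≤ ν (shell n R y (β y))}, hk n R l (x - y) ≤
      (4 / η) ^ p * ENNReal.ofReal (Real.sqrt (2 / l)) ^ (p - 1) := by
  have hn0 : (0 : ℝ) < n := by exact_mod_cast (by omega : 0 < n)
  have hl0 : (0 : ℝ) < l := by exact_mod_cast hl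
  have hconc := conc n (by omega) R hR ε hε p hp hεp x ν G hG hνG
    (fun z hz => shell_far n R hR x z b (hGs hz)) φ' hal β hβ (l * (R ^ 2 / (2 * n ^ 2)))
    (by positivity) η hη hη' hηφ
  rw [ratio_eq n (by omega) R hR l hl] at hconc
  refine hconc.trans ?_
  gcongr
  calc 2 * ν Set.univ ≤ 2 * 2 := by gcongr
    _ = 4 := by norm_num

theorem split_bound (n : ℕ) (x : EuclideanSpace ℝ (Fin n))
    (A N Hs : Set (EuclideanSpace ℝ (Fin n)))
    (hN : MeasurableSet N) (hHs : MeasurableSet Hs) (K F g : EuclideanSpace ℝ (Fin n) → ℝ≥0∞)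
    (hK : Measurable K) (W η : ℝ≥0∞) (hWt : W ≠ ∞) (hη' : η ≠ ∞)
    (hF : ∀ y ∈ A, F y ≤ W * g y) (hg : ∀ y, g y ≤ 2) (hH : ∀ y, y ∉ Hs → g y ≤ η) (hA : MeasurableSet A) :
    ∫⁻ y in A, K y * F y ≤ W * (η * (∫⁻ y in A ∩ N, K y) + 2 * (∫⁻ y in Hs, K y) +
      ∫⁻ y in Nᶜ, K y * g y) := by
  have hNmK : Measurable fun y => η * K y := hK.const_mul η
  have h2K : Measurable fun y => 2 * K y := hK.const_mul 2
  have hpt : ∀ y ∈ A, K y * F y ≤ W * (N.indicator (fun y => η * K y) y +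
        Hs.indicator (fun y => 2 * K y) y + Nᶜ.indicator (fun y => K y * g y) y) := by
    intro y hyA
    calc K y * F y ≤ K y * (W * g y) := by gcongr; exact hF y hyA
      _ = W * (K y * g y) := by ring
      _ ≤ _ := by
        gcongr
        by_cases hy : y ∈ N
        · by_cases hy2 : y ∈ Hs
          · rw [Set.indicator_of_mem hy, Set.indicator_of_mem hy2]
            calc K y * g y ≤ K y * 2 := by gcongr; exact hg y
              _ = 2 * K y := mul_comm _ _
              _ ≤ η * K y + 2 * K y := le_add_self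
              _ ≤ _ := le_self_add
          · rw [Set.indicator_of_mem hy]
            calc K y * g y ≤ K y * η := by gcongr; exact hH y hy2
              _ = η * K y := mul_comm _ _
              _ ≤ _ := le_self_add
              _ ≤ _ := le_self_add
        · rw [Set.indicator_of_mem (s := Nᶜ) hy]
          exact le_add_self
  calc ∫⁻ y in A, K y * F y
      ≤ ∫⁻ y in A, W * (N.indicator (fun y => η * K y) y +
        Hs.indicator (fun y => 2 * K y) y + Nᶜ.indicator (fun y => K y * g y) y) :=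
        setLIntegral_mono' hA hpt
    _ = W * ((∫⁻ y in A, N.indicator (fun y => η * K y) y) +
        (∫⁻ y in A, Hs.indicator (fun y => 2 * K y) y) +
        (∫⁻ y in A, Nᶜ.indicator (fun y => K y * g y) y)) := by
        rw [lintegral_const_mul' _ _ hWt, lintegral_add_left, lintegral_add_left]
        · exact hNmK.indicator hN
        · exact (hNmK.indicator hN).add (h2K.indicator hHs)
    _ ≤ _ := by
        refine mul_le_mul_right (add_le_add (add_le_add ?_ ?_) ?_) W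
        · apply le_of_eq
          rw [lintegral_indicator hN, Measure.restrict_restrict hN, Set.inter_comm,
            lintegral_const_mul' _ _ hη']
        · calc _ ≤ ∫⁻ y, Hs.indicator (fun y => 2 * K y) y :=
                setLIntegral_le_lintegral _ _
            _ = 2 * ∫⁻ y in Hs, K y := by
                rw [lintegral_indicator hHs, lintegral_const_mul' _ _ (by norm_num)]
        · calc _ ≤ ∫⁻ y, Nᶜ.indicator (fun y => K y * g y) y :=
                setLIntegral_le_lintegral _ _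
            _ = ∫⁻ y in Nᶜ, K y * g y := lintegral_indicator hN.compl _

theorem inner_bound (n : ℕ) (hn : 4 ≤ n) (R : ℝ) (hR : 0 < R)
    (f : EuclideanSpace ℝ (Fin n) → ℝ≥0∞)
    (β : EuclideanSpace ℝ (Fin n) → ℕ) (hβ : Measurable β)
    (A : Set (EuclideanSpace ℝ (Fin n))) (hA : MeasurableSet A)
    (G : EuclideanSpace ℝ (Fin n) → Set (EuclideanSpace ℝ (Fin n)))
    (hG : MeasurableSet {q : EuclideanSpace ℝ (Fin n) × EuclideanSpace ℝ (Fin n) | q.2 ∈ G q.1})
    (hGs : ∀ x, G x ⊆ shell n R x (β x)) (x : EuclideanSpace ℝ (Fin n)) (hb : β x ≤ n)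
    (W : ℝ≥0∞) (hW0 : W ≠ 0) (hWt : W ≠ ∞) (hmass : ∫⁻ z in G x, f z ≤ 2 * W)
    (ε : ℝ) (hε : 0 < ε) (p : ℕ) (hp : 1 ≤ p) (hεp : ε * p ≤ 1 / 4) (φ' : ℝ≥0∞)
    (hal : ∀ z ∈ G x, ∫⁻ z' in {z' | z' ∈ G x ∧ ε * R ^ 2 ≤ |⟪x - z, x - z'⟫|}, f z' ≤ φ' * W)
    (l : ℕ) (hl : 1 ≤ l) (hl' : l ≤ 3 * n) (Λ : ℝ) (hΛ : 1 ≤ Λ) (V : ℕ)
    (hV : 10 * Real.sqrt (l * Λ) + 50 * Λ ≤ V)
    (η : ℝ≥0∞) (hη : η ≠ 0) (hη' : η ≠ ∞) (hηφ : 2 * p * φ' ≤ η) :
    ∫⁻ y in A, hk n R l (x - y) * ∫⁻ z in G x ∩ G y, f z ≤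
      W * (η * (∫⁻ y in A ∩ {y | |(β y : ℤ) - (β x : ℕ) - l| ≤ V}, hk n R l (x - y)) +
        2 * ((4 / η) ^ p * ENNReal.ofReal (Real.sqrt (2 / l)) ^ (p - 1)) +
        2 * ENNReal.ofReal (4 * Real.exp (-Λ))) := by
  have hGx : MeasurableSet (G x) := section_meas n G hG x
  obtain ⟨ν, hν⟩ : ∃ ν : Measure (EuclideanSpace ℝ (Fin n)),
      ν = W⁻¹ • (volume.withDensity f).restrict (G x) := ⟨_, rfl⟩
  have hνS : ∀ S, MeasurableSet S → ν S = W⁻¹ * ∫⁻ z in G x ∩ S, f z := by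
    intro S hS
    rw [hν, Measure.smul_apply, Measure.restrict_apply hS, withDensity_apply _ (hS.inter hGx),
      Set.inter_comm, smul_eq_mul]
  have hνu : ν Set.univ ≤ 2 := by
    rw [hνS _ MeasurableSet.univ, Set.inter_univ, ← ENNReal.div_eq_inv_mul]
    exact ENNReal.div_le_of_le_mul hmass
  have hfm : IsFiniteMeasure ν := ⟨lt_of_le_of_lt hνu (by norm_num)⟩
  have hsh := measurableSet_shell' n R β hβ
  have hshy : ∀ y, MeasurableSet (shell n R y (β y)) := fun y => measurable_prodMk_left (x := y) hsh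
  have hmeasν : Measurable (fun y => ν (shell n R y (β y))) := measurable_measure_prodMk_left hsh
  have hNm : MeasurableSet {y | |(β y : ℤ) - (β x : ℕ) - l| ≤ V} :=
    measurable_near n β hβ (β x) l V
  have hHm : MeasurableSet {y | η ≤ ν (shell n R y (β y))} :=
    measurableSet_le measurable_const hmeasν
  have hsplit := split_bound n x A {y | |(β y : ℤ) - (β x : ℕ) - l| ≤ V}
    {y | η ≤ ν (shell n R y (β y))} hNm hHm (fun y => hk n R l (x - y))
    (fun y => ∫⁻ z in G x ∩ G y, f z) (fun y => ν (shell n R y (β y)))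
    (measurable_hk_left n R l x) W η hWt hη'
    (by
      intro y _
      rw [hνS _ (hshy y), ← mul_assoc, ENNReal.mul_inv_cancel hW0 hWt, one_mul]
      exact lintegral_mono_set (Set.inter_subset_inter_right _ (hGs y)))
    (fun y => (measure_mono (Set.subset_univ _)).trans hνu)
    (fun y hy => (not_le.1 hy).le) hA
  have h1 := conc_bound n hn R hR β hβ x (β x) (G x) hGx (hGs x) ν
    (by rw [hνS _ hGx.compl, Set.inter_compl_self]; simp) hνu ε hε p hp hεp φ'
    (fun z hz => by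
      have hm : MeasurableSet {z' : EuclideanSpace ℝ (Fin n) | ε * R ^ 2 ≤ |⟪x - z, x - z'⟫|} := by
        apply measurableSet_le measurable_const
        have hc : Continuous fun z' : EuclideanSpace ℝ (Fin n) => |⟪x - z, x - z'⟫| := by fun_prop
        exact hc.measurable
      rw [hνS _ hm, ← ENNReal.div_eq_inv_mul]
      exact ENNReal.div_le_of_le_mul (hal z hz)) l hl η hη hη' hηφ
  have hsupp : ν (shell n R x (β x))ᶜ = 0 := by
    rw [hνS _ (hshy x).compl]
    have : G x ∩ (shell n R x (β x))ᶜ = ∅ := by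
      rw [← Set.sdiff_eq, Set.sdiff_eq_empty.2 (hGs x)]
    rw [this]
    simp
  have h2 := far_bound n hn R hR x (β x) hb β hβ ν hsupp l hl hl' Λ hΛ V hV
  refine hsplit.trans ?_
  gcongr
  refine h2.trans ?_
  rw [mul_comm]
  gcongr

end Pool.MaxFn
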