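import Pool.Agent.MaxFn.Heat
import Pool.Agent.MaxFn.Defs2

/-! Gaussian tails (module P3 of MP_a6dc0c_an). -/

set_option autoImplicit false

open MeasureTheory Metric
open scoped ENNReal RealInnerProductSpace

namespace Pool.MaxFn

/-- Exponential Chebyshev inequality. -/
lemma tail_cheb (n : ℕ) (k φ : EuclideanSpace ℝ (Fin n) → ℝ) (c M : ℝ) (hk : ∀ y, 0 ≤ k y)
    (hφ : Measurable φ) (h : ∫⁻ y, ENNReal.ofReal (k y * Real.exp (φ y)) ≤ ENNReal.ofReal M) :
    ∫⁻ y in {y | c ≤ φ y}, ENNReal.ofReal (k y) ≤ ENNReal.ofReal (Real.exp (-c) * M) := by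
  have hS : MeasurableSet {y | c ≤ φ y} := measurableSet_le measurable_const hφ
  calc ∫⁻ y in {y | c ≤ φ y}, ENNReal.ofReal (k y)
      ≤ ∫⁻ y in {y | c ≤ φ y}, ENNReal.ofReal (Real.exp (-c)) *
          ENNReal.ofReal (k y * Real.exp (φ y)) := by
        refine setLIntegral_mono' hS fun y hy => ?_
        rw [← ENNReal.ofReal_mul (Real.exp_pos _).le]
        apply ENNReal.ofReal_le_ofReal
        have h1 : 1 ≤ Real.exp (-c) * Real.exp (φ y) := by
          rw [← Real.exp_add]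
          apply Real.one_le_exp
          have : c ≤ φ y := hy
          linarith
        have h2 := hk y
        calc k y = 1 * k y := (one_mul _).symm
          _ ≤ (Real.exp (-c) * Real.exp (φ y)) * k y := by gcongr
          _ = _ := by ring
    _ ≤ ∫⁻ y, ENNReal.ofReal (Real.exp (-c)) * ENNReal.ofReal (k y * Real.exp (φ y)) :=
        setLIntegral_le_lintegral _ _
    _ = ENNReal.ofReal (Real.exp (-c)) * ∫⁻ y, ENNReal.ofReal (k y * Real.exp (φ y)) :=
        lintegral_const_mul' _ _ ENNReal.ofReal_ne_top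
    _ ≤ ENNReal.ofReal (Real.exp (-c)) * ENNReal.ofReal M := by gcongr
    _ = _ := by rw [← ENNReal.ofReal_mul (Real.exp_pos _).le]

/-- Exponential moment of a linear functional. -/
lemma tail_moment_lin (n : ℕ) {t : ℝ} (ht : 0 < t) (x w : EuclideanSpace ℝ (Fin n)) :
    ∫⁻ y, ENNReal.ofReal (heatK n t (x - y) * Real.exp (⟪w, y - x⟫)) =
      ENNReal.ofReal (Real.exp (t * ‖w‖ ^ 2)) := by
  have h1 : ∀ y : EuclideanSpace ℝ (Fin n),
      ENNReal.ofReal (heatK n t (x - y) * Real.exp (⟪w, y - x⟫)) =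
      ENNReal.ofReal (Real.exp (t * ‖w‖ ^ 2)) *
        ENNReal.ofReal (heatK n t ((x + (2 * t) • w) - y)) := by
    intro y
    rw [← ENNReal.ofReal_mul (Real.exp_pos _).le]
    congr 1
    have e1 : x + (2 * t) • w - y = (2 * t) • w - (y - x) := by abel
    have e2 : ‖(2 * t) • w - (y - x)‖ ^ 2 =
        4 * t ^ 2 * ‖w‖ ^ 2 - 4 * t * ⟪w, y - x⟫ + ‖x - y‖ ^ 2 := by
      rw [norm_sub_sq_real, norm_smul, inner_smul_left, norm_sub_rev y x]
      simp only [Real.norm_eq_abs, mul_pow, sq_abs, conj_trivial]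
      ring
    unfold heatK
    rw [e1, e2]
    have e3 : Real.exp (-(‖x - y‖ ^ 2 / (4 * t))) * Real.exp ⟪w, y - x⟫ =
        Real.exp (t * ‖w‖ ^ 2) *
        Real.exp (-((4 * t ^ 2 * ‖w‖ ^ 2 - 4 * t * ⟪w, y - x⟫ + ‖x - y‖ ^ 2) / (4 * t))) := by
      rw [← Real.exp_add, ← Real.exp_add]
      congr 1
      field_simp
      ring
    calc _ = (4 * Real.pi * t) ^ (-((n : ℝ) / 2)) *
          (Real.exp (-(‖x - y‖ ^ 2 / (4 * t))) * Real.exp ⟪w, y - x⟫) := by ring
      _ = _ := by rw [e3]; ring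
  simp only [h1]
  rw [lintegral_const_mul' _ _ ENNReal.ofReal_ne_top, lintegral_heatK n ht, mul_one]

/-- Exponential moment of the square of the norm. -/
lemma tail_moment_sq (n : ℕ) {t : ℝ} (ht : 0 < t) (x : EuclideanSpace ℝ (Fin n)) (s : ℝ)
    (hs : s < 1) :
    ∫⁻ y, ENNReal.ofReal (heatK n t (x - y) * Real.exp (s / (4 * t) * ‖y - x‖ ^ 2)) =
      ENNReal.ofReal ((1 - s) ^ (-((n : ℝ) / 2))) := by
  have hpi := Real.pi_pos
  have hs' : 0 < 1 - s := by linarith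
  have ha : 0 < (1 - s) / (4 * t) := by positivity
  have h1 : ∀ y : EuclideanSpace ℝ (Fin n),
      ENNReal.ofReal (heatK n t (x - y) * Real.exp (s / (4 * t) * ‖y - x‖ ^ 2)) =
      ENNReal.ofReal ((4 * Real.pi * t) ^ (-((n : ℝ) / 2))) *
        ENNReal.ofReal (Real.exp (-((1 - s) / (4 * t) * ‖y - x‖ ^ 2))) := by
    intro y
    rw [← ENNReal.ofReal_mul (by positivity)]
    congr 1
    unfold heatK
    rw [mul_assoc, ← Real.exp_add, norm_sub_rev x y]
    congr 2
    field_simp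
    ring
  simp only [h1]
  rw [lintegral_const_mul' _ _ ENNReal.ofReal_ne_top, lintegral_gauss n ha,
    ← ENNReal.ofReal_mul (by positivity)]
  congr 1
  have h2 : Real.pi / ((1 - s) / (4 * t)) = (4 * Real.pi * t) * (1 - s)⁻¹ := by field_simp
  have h3 : (0 : ℝ) < 4 * Real.pi * t := by positivity
  rw [h2, Real.mul_rpow h3.le (inv_pos.2 hs').le, ← mul_assoc,
    ← Real.rpow_add h3, neg_add_cancel, Real.rpow_zero, one_mul,
    Real.inv_rpow hs'.le, Real.rpow_neg hs'.le]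

lemma tail_one_sub (s : ℝ) (h0 : 0 ≤ s) (h1 : s ≤ 1 / 2) : 1 ≤ (1 - s) * Real.exp (s + s ^ 2) := by
  have h := Real.quadratic_le_exp_of_nonneg (x := s + s ^ 2) (by positivity)
  have h2 : 1 ≤ (1 - s) * (1 + (s + s ^ 2) + (s + s ^ 2) ^ 2 / 2) := by
    have e : (1 - s) * (1 + (s + s ^ 2) + (s + s ^ 2) ^ 2 / 2) =
        1 + s ^ 2 / 2 * (1 - s - s ^ 2 - s ^ 3) := by ring
    rw [e]
    have : 0 ≤ 1 - s - s ^ 2 - s ^ 3 := by
      have a1 : s ^ 2 ≤ 1 / 4 := by nlinarith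
      have a2 : s ^ 3 ≤ 1 / 8 := by
        calc s ^ 3 ≤ (1 / 2 : ℝ) ^ 3 := by gcongr
          _ = 1 / 8 := by norm_num
      linarith
    have : 0 ≤ s ^ 2 / 2 * (1 - s - s ^ 2 - s ^ 3) := by positivity
    linarith
  have h3 : 0 < 1 - s := by linarith
  calc 1 ≤ _ := h2
    _ ≤ _ := by gcongr

lemma tail_one_add (s : ℝ) (h0 : 0 ≤ s) : Real.exp (s - s ^ 2 / 2) ≤ 1 + s := by
  rw [← Real.le_log_iff_exp_le (by positivity)]
  refine le_trans ?_ (Real.le_log_one_add_of_nonneg h0)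
  rw [le_div_iff₀ (by positivity)]
  nlinarith [pow_nonneg h0 3]

theorem tail (n : ℕ) (hn : 1 ≤ n) (R : ℝ) (hR : 0 < R) (x z : EuclideanSpace ℝ (Fin n))
    (hz : dist x z ^ 2 ≤ 2 * R ^ 2) (l : ℕ) (hl : 1 ≤ l) (hl' : l ≤ 3 * n) (Λ : ℝ) (hΛ : 1 ≤ Λ) :
    ∫⁻ y in {y | R ^ 2 / n * (10 * Real.sqrt (l * Λ) + 50 * Λ) ≤
        |dist y z ^ 2 - dist x z ^ 2 - R ^ 2 * l / n|},
      ENNReal.ofReal (heatK n (l * (R ^ 2 / (2 * n ^ 2))) (x - y)) ≤
    ENNReal.ofReal (4 * Real.exp (-Λ)) := by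
  have hn0 : (0 : ℝ) < n := by exact_mod_cast hn
  have hl0 : (0 : ℝ) < l := by exact_mod_cast hl
  have hl3 : (l : ℝ) ≤ 3 * n := by exact_mod_cast hl'
  have hΛ0 : 0 < Λ := by linarith
  set t : ℝ := l * (R ^ 2 / (2 * n ^ 2)) with ht_def
  have ht : 0 < t := by positivity
  set A : ℝ := 10 * Real.sqrt (l * Λ) + 50 * Λ with hA
  have hsq0 : 0 ≤ Real.sqrt (l * Λ) := Real.sqrt_nonneg _
  have hsq : Real.sqrt (l * Λ) ^ 2 = l * Λ := Real.sq_sqrt (by positivity)
  have hA0 : 0 < A := by positivity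
  have hA1 : 100 * (l * Λ) ≤ A ^ 2 := by
    have : 10 * Real.sqrt (l * Λ) ≤ A := by rw [hA]; linarith
    calc 100 * (l * Λ) = (10 * Real.sqrt (l * Λ)) ^ 2 := by rw [mul_pow, hsq]; norm_num
      _ ≤ A ^ 2 := by gcongr
  have hA2 : 50 * Λ ≤ A := by rw [hA]; linarith
  set k : EuclideanSpace ℝ (Fin n) → ℝ := fun y => heatK n t (x - y) with hk
  have hk0 : ∀ y, 0 ≤ k y := fun y => heatK_nonneg n ht _
  -- linear part
  set a : ℝ := R ^ 2 / n * (A / 4) with ha
  have ha0 : 0 < a := by positivity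
  set lam : ℝ := a / (4 * t * R ^ 2) with hlam
  have hlam0 : 0 < lam := by positivity
  have hnv : ‖x - z‖ ^ 2 ≤ 2 * R ^ 2 := by rw [← dist_eq_norm]; exact hz
  have hlin : ∀ w : EuclideanSpace ℝ (Fin n), ‖w‖ ^ 2 = lam ^ 2 * ‖x - z‖ ^ 2 →
      ∫⁻ y in {y | lam * a ≤ ⟪w, y - x⟫}, ENNReal.ofReal (k y) ≤
        ENNReal.ofReal (Real.exp (-Λ)) := by
    intro w hw
    have hm : Measurable (fun y : EuclideanSpace ℝ (Fin n) => (⟪w, y - x⟫ : ℝ)) :=
      (by fun_prop : Continuous (fun y : EuclideanSpace ℝ (Fin n) => (⟪w, y - x⟫ : ℝ))).measurable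
    refine (tail_cheb n k _ (lam * a) _ hk0 hm (tail_moment_lin n ht x w).le).trans ?_
    apply ENNReal.ofReal_le_ofReal
    rw [← Real.exp_add]
    apply Real.exp_le_exp.2
    have e1 : t * ‖w‖ ^ 2 ≤ t * (lam ^ 2 * (2 * R ^ 2)) := by
      rw [hw]; gcongr
    have e2 : -(lam * a) + t * (lam ^ 2 * (2 * R ^ 2)) = -(A ^ 2 / (64 * l)) := by
      rw [hlam, ha, ht_def]
      field_simp
      ring
    have e3 : Λ ≤ A ^ 2 / (64 * l) := by
      rw [le_div_iff₀ (by positivity)]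
      nlinarith [mul_pos hl0 hΛ0]
    linarith
  have h1 := hlin (lam • (x - z)) (by rw [norm_smul, mul_pow, Real.norm_eq_abs, sq_abs])
  have h2 := hlin (-(lam • (x - z))) (by rw [norm_neg, norm_smul, mul_pow, Real.norm_eq_abs, sq_abs])
  -- quadratic part
  set e : ℝ := A / (2 * l) with he
  have he0 : 0 < e := by positivity
  have h2nt : 2 * n * t = R ^ 2 * l / n := by
    rw [ht_def]; field_simp
  have hmsq : ∀ c : ℝ, Measurable (fun y : EuclideanSpace ℝ (Fin n) => c * ‖y - x‖ ^ 2) := fun c =>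
    (by fun_prop : Continuous (fun y : EuclideanSpace ℝ (Fin n) => c * ‖y - x‖ ^ 2)).measurable
  have h3 : ∫⁻ y in {y | R ^ 2 * l / n * (1 + e) ≤ ‖y - x‖ ^ 2}, ENNReal.ofReal (k y) ≤
      ENNReal.ofReal (Real.exp (-Λ)) := by
    set s : ℝ := min (e / 2) (1 / 2) with hs
    have hs0 : 0 < s := lt_min (by positivity) (by norm_num)
    have hs1 : s ≤ 1 / 2 := min_le_right _ _
    have hset : {y : EuclideanSpace ℝ (Fin n) | R ^ 2 * l / n * (1 + e) ≤ ‖y - x‖ ^ 2} ⊆
        {y | n / 2 * s * (1 + e) ≤ s / (4 * t) * ‖y - x‖ ^ 2} := by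
      intro y hy
      have hy' : R ^ 2 * l / n * (1 + e) ≤ ‖y - x‖ ^ 2 := hy
      show n / 2 * s * (1 + e) ≤ s / (4 * t) * ‖y - x‖ ^ 2
      calc n / 2 * s * (1 + e) = s / (4 * t) * (2 * n * t * (1 + e)) := by field_simp; norm_num
        _ ≤ _ := by rw [h2nt]; gcongr
    refine (lintegral_mono_set hset).trans ?_
    refine (tail_cheb n k _ (n / 2 * s * (1 + e)) _ hk0 (hmsq _)
      (tail_moment_sq n ht x s (by linarith)).le).trans ?_
    apply ENNReal.ofReal_le_ofReal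
    have e1 : (1 - s) ^ (-((n : ℝ) / 2)) ≤ Real.exp (n / 2 * (s + s ^ 2)) := by
      have e2 := tail_one_sub s hs0.le hs1
      have e3 : 0 < 1 - s := by linarith
      rw [Real.rpow_neg e3.le, ← Real.inv_rpow e3.le]
      have e4 : (1 - s)⁻¹ ≤ Real.exp (s + s ^ 2) := by
        rw [inv_le_iff_one_le_mul₀ e3]
        linarith
      calc ((1 - s)⁻¹) ^ ((n : ℝ) / 2) ≤ (Real.exp (s + s ^ 2)) ^ ((n : ℝ) / 2) := by gcongr
        _ = _ := by rw [← Real.exp_mul]; congr 1; ring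
    calc Real.exp (-(n / 2 * s * (1 + e))) * (1 - s) ^ (-((n : ℝ) / 2))
        ≤ Real.exp (-(n / 2 * s * (1 + e))) * Real.exp (n / 2 * (s + s ^ 2)) := by gcongr
      _ = Real.exp (-(n / 2 * (s * (e - s)))) := by
          rw [← Real.exp_add]; congr 1; ring
      _ ≤ Real.exp (-Λ) := by
          apply Real.exp_le_exp.2
          apply neg_le_neg
          rcases le_total e 1 with he1 | he1
          · have e5 : s = e / 2 := by rw [hs]; apply min_eq_left; linarith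
            rw [e5, he]
            have e6 : (n : ℝ) / 2 * (A / (2 * l) / 2 * (A / (2 * l) - A / (2 * l) / 2)) =
                n * A ^ 2 / (32 * l ^ 2) := by field_simp; ring
            rw [e6, le_div_iff₀ (by positivity)]
            calc Λ * (32 * l ^ 2) = 32 * l * (l * Λ) := by ring
              _ ≤ 32 * (3 * n) * (l * Λ) := by gcongr
              _ ≤ n * (100 * (l * Λ)) := by nlinarith [mul_pos hn0 (mul_pos hl0 hΛ0)]
              _ ≤ n * A ^ 2 := by gcongr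
          · have e5 : s = 1 / 2 := by rw [hs]; apply min_eq_right; linarith
            rw [e5]
            have e6 : (n : ℝ) / 2 * (1 / 2 * (e - 1 / 2)) ≥ n / 8 * e := by nlinarith
            have e7 : (n : ℝ) / 8 * e = n * A / (16 * l) := by rw [he]; field_simp; ring
            have e8 : Λ ≤ n * A / (16 * l) := by
              rw [le_div_iff₀ (by positivity)]
              calc Λ * (16 * l) ≤ Λ * (16 * (3 * n)) := by gcongr
                _ ≤ n * (50 * Λ) := by nlinarith [mul_pos hn0 hΛ0]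
                _ ≤ n * A := by gcongr
            linarith
  have h4 : ∫⁻ y in {y | ‖y - x‖ ^ 2 ≤ R ^ 2 * l / n * (1 - e)}, ENNReal.ofReal (k y) ≤
      ENNReal.ofReal (Real.exp (-Λ)) := by
    have hset : {y : EuclideanSpace ℝ (Fin n) | ‖y - x‖ ^ 2 ≤ R ^ 2 * l / n * (1 - e)} ⊆
        {y | -(n / 2 * e * (1 - e)) ≤ (-e) / (4 * t) * ‖y - x‖ ^ 2} := by
      intro y hy
      have hy' : ‖y - x‖ ^ 2 ≤ R ^ 2 * l / n * (1 - e) := hy
      show -(n / 2 * e * (1 - e)) ≤ (-e) / (4 * t) * ‖y - x‖ ^ 2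
      have e1 : e / (4 * t) * ‖y - x‖ ^ 2 ≤ e / (4 * t) * (R ^ 2 * l / n * (1 - e)) := by gcongr
      have e2 : e / (4 * t) * (R ^ 2 * l / n * (1 - e)) = n / 2 * e * (1 - e) := by
        rw [← h2nt]; field_simp; norm_num
      have e3 : (-e) / (4 * t) * ‖y - x‖ ^ 2 = -(e / (4 * t) * ‖y - x‖ ^ 2) := by ring
      rw [e3]
      linarith
    refine (lintegral_mono_set hset).trans ?_
    refine (tail_cheb n k _ (-(n / 2 * e * (1 - e))) _ hk0 (hmsq _)
      (tail_moment_sq n ht x (-e) (by linarith)).le).trans ?_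
    apply ENNReal.ofReal_le_ofReal
    have e1 : (1 - -e) ^ (-((n : ℝ) / 2)) ≤ Real.exp (-(n / 2 * (e - e ^ 2 / 2))) := by
      have e2 := tail_one_add e he0.le
      have e3 : (1 : ℝ) - -e = 1 + e := by ring
      rw [e3]
      calc (1 + e) ^ (-((n : ℝ) / 2)) ≤ (Real.exp (e - e ^ 2 / 2)) ^ (-((n : ℝ) / 2)) := by
            apply Real.rpow_le_rpow_of_nonpos (Real.exp_pos _) e2
            linarith
        _ = _ := by rw [← Real.exp_mul]; congr 1; ring
    calc Real.exp (-(-(n / 2 * e * (1 - e)))) * (1 - -e) ^ (-((n : ℝ) / 2))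
        ≤ Real.exp (-(-(n / 2 * e * (1 - e)))) * Real.exp (-(n / 2 * (e - e ^ 2 / 2))) := by gcongr
      _ = Real.exp (-(n * e ^ 2 / 4)) := by
          rw [← Real.exp_add]; congr 1; ring
      _ ≤ Real.exp (-Λ) := by
          apply Real.exp_le_exp.2
          apply neg_le_neg
          have e6 : (n : ℝ) * e ^ 2 / 4 = n * A ^ 2 / (16 * l ^ 2) := by rw [he]; field_simp; ring
          rw [e6, le_div_iff₀ (by positivity)]
          calc Λ * (16 * l ^ 2) = 16 * l * (l * Λ) := by ring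
            _ ≤ 16 * (3 * n) * (l * Λ) := by gcongr
            _ ≤ n * (100 * (l * Λ)) := by nlinarith [mul_pos hn0 (mul_pos hl0 hΛ0)]
            _ ≤ n * A ^ 2 := by gcongr
  -- the union bound
  have hsub : {y : EuclideanSpace ℝ (Fin n) | R ^ 2 / n * A ≤
        |dist y z ^ 2 - dist x z ^ 2 - R ^ 2 * l / n|} ⊆
      ({y | lam * a ≤ ⟪lam • (x - z), y - x⟫} ∪ {y | lam * a ≤ ⟪-(lam • (x - z)), y - x⟫}) ∪
      ({y | R ^ 2 * l / n * (1 + e) ≤ ‖y - x‖ ^ 2} ∪
        {y | ‖y - x‖ ^ 2 ≤ R ^ 2 * l / n * (1 - e)}) := by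
    intro y hy
    have hy' : R ^ 2 / n * A ≤ |dist y z ^ 2 - dist x z ^ 2 - R ^ 2 * l / n| := hy
    by_contra hcon
    simp only [Set.mem_union, Set.mem_ofPred_eq, not_or, not_le] at hcon
    obtain ⟨⟨c1, c2⟩, c3, c4⟩ := hcon
    rw [inner_smul_left, conj_trivial] at c1
    rw [inner_neg_left, inner_smul_left, conj_trivial] at c2
    have d1 : ⟪x - z, y - x⟫ < a := lt_of_mul_lt_mul_left c1 hlam0.le
    have d2 : -⟪x - z, y - x⟫ < a := by
      apply lt_of_mul_lt_mul_left _ hlam0.le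
      linarith
    have e1 : dist y z ^ 2 = ‖y - x‖ ^ 2 + 2 * ⟪x - z, y - x⟫ + dist x z ^ 2 := by
      rw [dist_eq_norm, dist_eq_norm]
      have : y - z = (y - x) + (x - z) := by abel
      rw [this, norm_add_sq_real, real_inner_comm]
    have e2 : R ^ 2 * l / n * e = R ^ 2 / n * (A / 2) := by rw [he]; field_simp
    have e3 : |dist y z ^ 2 - dist x z ^ 2 - R ^ 2 * l / n| < R ^ 2 / n * A := by
      rw [abs_lt]
      constructor
      · rw [e1]; rw [ha] at d1 d2; nlinarith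
      · rw [e1]; rw [ha] at d1 d2; nlinarith
    linarith
  calc ∫⁻ y in {y | R ^ 2 / n * A ≤ |dist y z ^ 2 - dist x z ^ 2 - R ^ 2 * l / n|},
        ENNReal.ofReal (heatK n t (x - y))
      ≤ _ := lintegral_mono_set hsub
    _ ≤ _ := lintegral_union_le _ _ _
    _ ≤ (ENNReal.ofReal (Real.exp (-Λ)) + ENNReal.ofReal (Real.exp (-Λ))) +
        (ENNReal.ofReal (Real.exp (-Λ)) + ENNReal.ofReal (Real.exp (-Λ))) := by
        apply add_le_add
        · exact (lintegral_union_le _ _ _).trans (add_le_add h1 h2)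
        · exact (lintegral_union_le _ _ _).trans (add_le_add h3 h4)
    _ = ENNReal.ofReal (4 * Real.exp (-Λ)) := by
        have := (Real.exp_pos (-Λ)).le
        rw [← ENNReal.ofReal_add this this, ← ENNReal.ofReal_add (by positivity) (by positivity)]
        congr 1
        ring

end Pool.MaxFn
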