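import Pool.Agent.MaxFn.Moments
import Pool.Agent.MaxFn.Conc
import Pool.Agent.MaxFn.Tail

/-!
Preparations for the pointwise bound of the pair interaction (polylogarithmic bound, MP_a6dc0c_an).
-/

set_option autoImplicit false

open MeasureTheory Metric
open scoped ENNReal RealInnerProductSpace

namespace Pool.MaxFn

theorem ratio_eq (n : ℕ) (hn : 1 ≤ n) (R : ℝ) (hR : 0 < R) (l : ℕ) (hl : 1 ≤ l) :
    R / (n * Real.sqrt (l * (R ^ 2 / (2 * n ^ 2)))) = Real.sqrt (2 / l) := by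
  have hn0 : (0 : ℝ) < n := by exact_mod_cast hn
  have hl0 : (0 : ℝ) < l := by exact_mod_cast hl
  have h1 : (l : ℝ) * (R ^ 2 / (2 * n ^ 2)) = (R / n) ^ 2 * (l / 2) := by
    field_simp
  rw [h1, Real.sqrt_mul (by positivity), Real.sqrt_sq (by positivity)]
  have h2 : (2 : ℝ) / l = ((l : ℝ) / 2)⁻¹ := by rw [inv_div]
  rw [h2, Real.sqrt_inv]
  have h3 : 0 < Real.sqrt ((l : ℝ) / 2) := Real.sqrt_pos.2 (by positivity)
  field_simp

theorem measurable_hk_left (n : ℕ) (R : ℝ) (j : ℕ) (x : EuclideanSpace ℝ (Fin n)) :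
    Measurable (fun y => hk n R j (x - y)) := by
  have h : Continuous (fun y : EuclideanSpace ℝ (Fin n) =>
      heatK n (j * (R ^ 2 / (2 * n ^ 2))) (x - y)) :=
    (heatK_continuous n _).comp (continuous_const.sub continuous_id)
  exact h.measurable.ennreal_ofReal

theorem measurableSet_shell' (n : ℕ) (R : ℝ) (β : EuclideanSpace ℝ (Fin n) → ℕ)
    (hβ : Measurable β) : MeasurableSet {q : EuclideanSpace ℝ (Fin n) × EuclideanSpace ℝ (Fin n) |
      q.2 ∈ shell n R q.1 (β q.1)} := by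
  have h := measurableSet_shell n R
  have hm : Measurable (fun q : EuclideanSpace ℝ (Fin n) × EuclideanSpace ℝ (Fin n) =>
      ((q.1, β q.1), q.2)) :=
    (_root_.measurable_fst.prodMk (hβ.comp _root_.measurable_fst)).prodMk measurable_snd
  exact hm h

theorem measurable_near (n : ℕ) (β : EuclideanSpace ℝ (Fin n) → ℕ) (hβ : Measurable β)
    (a l V : ℕ) : MeasurableSet {y | |(β y : ℤ) - a - l| ≤ V} :=
  hβ (MeasurableSet.of_discrete (s := {b : ℕ | |(b : ℤ) - a - l| ≤ V}))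

theorem far_geom (n : ℕ) (hn : 4 ≤ n) (R : ℝ) (hR : 0 < R) (x y z : EuclideanSpace ℝ (Fin n))
    (b c : ℕ) (hx : z ∈ shell n R x b) (hy : z ∈ shell n R y c) (l V : ℕ) (Q : ℝ) (hQ : Q ≤ V)
    (h : ¬ |(c : ℤ) - b - l| ≤ V) :
    R ^ 2 / n * Q ≤ |dist y z ^ 2 - dist x z ^ 2 - R ^ 2 * l / n| := by
  have hn0 : (0 : ℝ) < n := by exact_mod_cast (by omega : 0 < n)
  obtain ⟨h1, h2⟩ := shell_sq n (by omega) R hR hx
  obtain ⟨h3, h4⟩ := shell_sq n (by omega) R hR hy
  have h5 : (V : ℤ) + 1 ≤ |(c : ℤ) - b - l| := by omega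
  have h5' : (V : ℝ) + 1 ≤ |(c : ℝ) - b - l| := by exact_mod_cast h5
  have e2 : ∀ c : ℝ, R ^ 2 * (1 + c / n) = R ^ 2 + R ^ 2 / n * c := by
    intro c
    field_simp
  rw [e2] at h1 h2 h3 h4
  have hq : 0 < R ^ 2 / (n : ℝ) := by positivity
  have e3 : R ^ 2 * (l : ℝ) / n = R ^ 2 / n * l := by ring
  rw [e3]
  generalize R ^ 2 / (n : ℝ) = q at *
  generalize dist y z ^ 2 = u at *
  generalize dist x z ^ 2 = v at *
  have hP1 : q * ((c : ℝ) - b - l) - q < u - v - q * l := by linarith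
  have hP2 : u - v - q * l < q * ((c : ℝ) - b - l) + q := by linarith
  generalize u - v - q * l = P at *
  have h6 : q * |(c : ℝ) - b - l| ≤ |P| + q := by
    have e4 : q * |(c : ℝ) - b - l| = |q * ((c : ℝ) - b - l)| := by
      rw [abs_mul, abs_of_pos hq]
    rw [e4]
    rcases abs_cases (q * ((c : ℝ) - b - l)) with ⟨h, _⟩ | ⟨h, _⟩
    · rw [h]
      have := le_abs_self P
      linarith
    · rw [h]
      have := neg_abs_le P
      linarith
  have h7 : q * ((V : ℝ) + 1) ≤ q * |(c : ℝ) - b - l| := by gcongr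
  have h8 : q * Q ≤ q * V := by gcongr
  linarith

theorem far_point (n : ℕ) (hn : 4 ≤ n) (R : ℝ) (hR : 0 < R) (x z : EuclideanSpace ℝ (Fin n))
    (b : ℕ) (hb : b ≤ n) (hx : z ∈ shell n R x b) (β : EuclideanSpace ℝ (Fin n) → ℕ)
    (hβ : Measurable β) (l : ℕ) (hl : 1 ≤ l) (hl' : l ≤ 3 * n) (Λ : ℝ) (hΛ : 1 ≤ Λ) (V : ℕ)
    (hV : 10 * Real.sqrt (l * Λ) + 50 * Λ ≤ V) :
    ∫⁻ y in {y | |(β y : ℤ) - b - l| ≤ V}ᶜ, (shell n R y (β y)).indicator
        (fun _ => hk n R l (x - y)) z ≤ ENNReal.ofReal (4 * Real.exp (-Λ)) := by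
  have hn0 : (0 : ℝ) < n := by exact_mod_cast (by omega : 0 < n)
  have hNm : MeasurableSet {y | |(β y : ℤ) - b - l| ≤ V} := measurable_near n β hβ b l V
  obtain ⟨h1, h2⟩ := shell_sq n (by omega) R hR hx
  have hb' : (b : ℝ) ≤ n := by exact_mod_cast hb
  have hd : dist x z ^ 2 ≤ 2 * R ^ 2 := by
    have : (b : ℝ) / n ≤ 1 := by rw [div_le_one hn0]; exact hb'
    nlinarith [sq_nonneg R]
  refine le_trans ?_ (tail n (by omega) R hR x z hd l hl hl' Λ hΛ)
  rw [← lintegral_indicator hNm.compl]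
  refine (lintegral_mono fun y => ?_).trans (lintegral_indicator_le _ _)
  by_cases hy : y ∈ {y | |(β y : ℤ) - b - l| ≤ V}ᶜ
  · rw [Set.indicator_of_mem hy]
    by_cases hy2 : z ∈ shell n R y (β y)
    · rw [Set.indicator_of_mem hy2, Set.indicator_of_mem]
      · exact le_rfl
      · exact far_geom n hn R hR x y z b (β y) hx hy2 l V _ hV hy
    · rw [Set.indicator_of_notMem hy2]
      exact zero_le
  · rw [Set.indicator_of_notMem hy]
    exact zero_le

theorem measurable_shell_ind (n : ℕ) (R : ℝ) (β : EuclideanSpace ℝ (Fin n) → ℕ)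
    (hβ : Measurable β) (g : EuclideanSpace ℝ (Fin n) → ℝ≥0∞) (hg : Measurable g) :
    Measurable (fun q : EuclideanSpace ℝ (Fin n) × EuclideanSpace ℝ (Fin n) =>
      (shell n R q.1 (β q.1)).indicator (fun _ => g q.1) q.2) := by
  have hsh := measurableSet_shell' n R β hβ
  have h := (hg.comp (_root_.measurable_fst (β := EuclideanSpace ℝ (Fin n)))).indicator hsh
  have e : (fun q : EuclideanSpace ℝ (Fin n) × EuclideanSpace ℝ (Fin n) =>
      (shell n R q.1 (β q.1)).indicator (fun _ => g q.1) q.2) =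
      ({q : EuclideanSpace ℝ (Fin n) × EuclideanSpace ℝ (Fin n) |
      q.2 ∈ shell n R q.1 (β q.1)}).indicator (g ∘ Prod.fst) := by
    funext q
    by_cases hq : q.2 ∈ shell n R q.1 (β q.1)
    · rw [Set.indicator_of_mem hq, Set.indicator_of_mem (by exact hq)]
      rfl
    · rw [Set.indicator_of_notMem hq, Set.indicator_of_notMem (by exact hq)]
  rw [e]
  exact h

theorem far_bound (n : ℕ) (hn : 4 ≤ n) (R : ℝ) (hR : 0 < R) (x : EuclideanSpace ℝ (Fin n))
    (b : ℕ) (hb : b ≤ n) (β : EuclideanSpace ℝ (Fin n) → ℕ) (hβ : Measurable β)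
    (ν : Measure (EuclideanSpace ℝ (Fin n))) [IsFiniteMeasure ν] (hν : ν (shell n R x b)ᶜ = 0)
    (l : ℕ) (hl : 1 ≤ l) (hl' : l ≤ 3 * n) (Λ : ℝ) (hΛ : 1 ≤ Λ) (V : ℕ)
    (hV : 10 * Real.sqrt (l * Λ) + 50 * Λ ≤ V) :
    ∫⁻ y in {y | |(β y : ℤ) - b - l| ≤ V}ᶜ, hk n R l (x - y) * ν (shell n R y (β y)) ≤
      ENNReal.ofReal (4 * Real.exp (-Λ)) * ν Set.univ := by
  have hshy : ∀ y, MeasurableSet (shell n R y (β y)) := fun y =>
    measurable_prodMk_left (x := y) (measurableSet_shell' n R β hβ)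
  have hKm : Measurable (fun y => hk n R l (x - y)) := measurable_hk_left n R l x
  have e1 : ∀ y, hk n R l (x - y) * ν (shell n R y (β y)) =
      ∫⁻ z, (shell n R y (β y)).indicator (fun _ => hk n R l (x - y)) z ∂ν := by
    intro y
    rw [lintegral_indicator_const (hshy y)]
  have hjm := measurable_shell_ind n R β hβ _ hKm
  have hswap := lintegral_lintegral_swap
    (μ := (volume : Measure (EuclideanSpace ℝ (Fin n))).restrict
      {y | |(β y : ℤ) - b - l| ≤ V}ᶜ) (ν := ν)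
    (f := fun y z => (shell n R y (β y)).indicator (fun _ => hk n R l (x - y)) z)
    (by exact hjm.aemeasurable)
  simp only [e1]
  rw [hswap]
  have hae : ∀ᵐ z ∂ν, ∫⁻ y in {y | |(β y : ℤ) - b - l| ≤ V}ᶜ, (shell n R y (β y)).indicator
        (fun _ => hk n R l (x - y)) z ≤ ENNReal.ofReal (4 * Real.exp (-Λ)) := by
    filter_upwards [compl_mem_ae_iff.2 hν] with z hz'
    rw [compl_compl] at hz'
    exact far_point n hn R hR x z b hb hz' β hβ l hl hl' Λ hΛ V hV
  refine (lintegral_mono_ae hae).trans ?_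
  rw [lintegral_const]

end Pool.MaxFn
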