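import Pool.Agent.MaxFn.Markov

/-!
Pointwise second moment bound for path sums (polylogarithmic bound, MP_a6dc0c_an).
-/

set_option autoImplicit false

open MeasureTheory
open scoped ENNReal

namespace Pool.MaxFn

open SymMarkov

variable {X : Type*} [MeasurableSpace X] {m : Measure X}

theorem Y_le_sum (T : SymMarkov m) (N : ℕ) (ρ : X → ℝ≥0∞) (ψ : ℕ → X → ℝ≥0∞)
    (hψ : ∀ i, Measurable (ψ i)) (hle : ∀ i x, ψ i x ≤ ρ x) (x : X) :
    Y T N ψ x ≤ ∑ l ∈ Finset.range N, T.it l ρ x := by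
  rw [Y_eq T N ψ hψ]
  exact Finset.sum_le_sum fun i _ => T.it_mono i (hle i) x

theorem Y_sq_le (T : SymMarkov m) (M N : ℕ) (hNM : N ≤ M) (ρ : X → ℝ≥0∞) (hρ : Measurable ρ)
    (ψ : ℕ → X → ℝ≥0∞) (hψ : ∀ i, Measurable (ψ i)) (h1 : ∀ i x, ψ i x ≤ 1)
    (hle : ∀ i x, ψ i x ≤ ρ x) (x : X) :
    (Y T N ψ x) ^ 2 ≤ ∑ j ∈ Finset.range N,
      T.it j (fun y => ψ j y * (1 + 2 * ∑ l ∈ Finset.range M, T.it (l + 1) ρ y)) x := by
  induction N generalizing ψ x with
  | zero => simp [Y]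
  | succ N ih =>
    have hψ' : ∀ i, Measurable (fun x => ψ (i + 1) x) := fun i => hψ (i + 1)
    have hW : Measurable fun y => (1 + 2 * ∑ l ∈ Finset.range M, T.it (l + 1) ρ y) :=
      ((Finset.measurable_sum _ fun l _ => T.it_meas (l + 1) hρ).const_mul 2).const_add 1
    set Y' := Y T N (fun i => ψ (i + 1)) with hY'
    have hY'm : Measurable Y' := Y_meas T N _ hψ'
    have hA : T.op Y' x ≤ ∑ l ∈ Finset.range M, T.it (l + 1) ρ x := by
      have h2 : T.op Y' x ≤ T.op (fun y => ∑ l ∈ Finset.range N, T.it l ρ y) x :=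
        T.mono _ _ (fun y => Y_le_sum T N ρ _ hψ' (fun i y => hle (i + 1) y) y) x
      rw [T.op_sum _ _ (fun i => T.it_meas i hρ)] at h2
      refine h2.trans ?_
      simp only [it_succ']
      exact Finset.sum_le_sum_of_subset (Finset.range_subset_range.2 (by omega))
    have e : (Y T (N + 1) ψ x) = ψ 0 x + T.op Y' x := rfl
    have h3 : T.op Y' x ^ 2 ≤ ∑ j ∈ Finset.range N,
        T.it (j + 1) (fun y => ψ (j + 1) y *
          (1 + 2 * ∑ l ∈ Finset.range M, T.it (l + 1) ρ y)) x := by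
      refine (T.sq _ hY'm x).trans ?_
      refine (T.mono _ _ (fun y => ih (by omega) _ hψ' (fun i y => h1 (i + 1) y)
        (fun i y => hle (i + 1) y) y) x).trans ?_
      have h4 : ∀ i, Measurable (T.it i (fun y => ψ (i + 1) y *
          (1 + 2 * ∑ l ∈ Finset.range M, T.it (l + 1) ρ y))) :=
        fun i => T.it_meas i ((hψ' i).mul hW)
      rw [T.op_sum _ _ h4]
      simp only [it_succ']
      exact le_rfl
    rw [e, Finset.sum_range_succ']
    simp only [it_zero]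
    calc (ψ 0 x + T.op Y' x) ^ 2 = T.op Y' x ^ 2 + (ψ 0 x * ψ 0 x + ψ 0 x * (2 * T.op Y' x)) := by
          ring
      _ ≤ (∑ j ∈ Finset.range N, T.it (j + 1) (fun y => ψ (j + 1) y *
          (1 + 2 * ∑ l ∈ Finset.range M, T.it (l + 1) ρ y)) x) +
          (ψ 0 x * 1 + ψ 0 x * (2 * ∑ l ∈ Finset.range M, T.it (l + 1) ρ x)) := by
          gcongr
          exact h1 0 x
      _ = _ := by ring

end Pool.MaxFn
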