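import Pool.Agent.MaxFn.Heat
import Pool.Agent.MaxFn.Defs2

/-! Pointwise bounds for the heat kernel (module P5 of MP_a6dc0c_an). -/

set_option autoImplicit false

open MeasureTheory Metric
open scoped ENNReal

namespace Pool.MaxFn

/-- Lower Stirling bound for the Gamma function at half integers. -/
lemma kernel_gamma_ge (n : ℕ) (hn : 1 ≤ n) :
    Real.sqrt n * (((n : ℝ) / 2) ^ ((n : ℝ) / 2) * Real.exp (-((n : ℝ) / 2))) ≤
      Real.Gamma ((n : ℝ) / 2 + 1) := by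
  have hpi : (3 : ℝ) < Real.pi := Real.pi_gt_three
  rcases Nat.even_or_odd' n with ⟨k, hk | hk⟩
  · subst hk
    have hk1 : 1 ≤ k := by omega
    have hq : ((2 * k : ℕ) : ℝ) / 2 = (k : ℝ) := by push_cast; ring
    rw [hq, Real.Gamma_nat_eq_factorial, Real.rpow_natCast]
    have h := Stirling.le_factorial_stirling k
    refine le_trans ?_ h
    have e1 : ((k : ℝ) / Real.exp 1) ^ k = (k : ℝ) ^ k * Real.exp (-(k : ℝ)) := by
      rw [div_pow, ← Real.exp_nat_mul, mul_one, Real.exp_neg]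
      rfl
    rw [e1]
    refine mul_le_mul_of_nonneg_right ?_ (by positivity)
    apply Real.sqrt_le_sqrt
    push_cast
    have : (0 : ℝ) ≤ k := Nat.cast_nonneg k
    nlinarith
  · subst hk
    have hq : ((2 * k + 1 : ℕ) : ℝ) / 2 = (k : ℝ) + 1 / 2 := by push_cast; ring
    rw [hq]
    have hk0 : (0 : ℝ) ≤ k := Nat.cast_nonneg k
    -- log-convexity
    have hG : Real.sqrt ((k : ℝ) + 1 / 2) * (k.factorial : ℝ) ≤ Real.Gamma ((k : ℝ) + 1 / 2 + 1) := by
      have hmid : (k : ℝ) + 1 = 1 / 2 * ((k : ℝ) + 1 / 2) + 1 / 2 * ((k : ℝ) + 1 / 2 + 1) := by ring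
      have h1 : Real.Gamma ((k : ℝ) + 1) ≤ Real.Gamma ((k : ℝ) + 1 / 2) ^ (1 / 2 : ℝ) *
          Real.Gamma ((k : ℝ) + 1 / 2 + 1) ^ (1 / 2 : ℝ) := by
        rw [hmid]
        exact Real.Gamma_mul_add_mul_le_rpow_Gamma_mul_rpow_Gamma (by positivity) (by positivity)
          (by norm_num) (by norm_num) (by norm_num)
      rw [Real.Gamma_nat_eq_factorial] at h1
      have hg0 : 0 < Real.Gamma ((k : ℝ) + 1 / 2) := Real.Gamma_pos_of_pos (by positivity)
      have h2 : Real.Gamma ((k : ℝ) + 1 / 2 + 1) = ((k : ℝ) + 1 / 2) * Real.Gamma ((k : ℝ) + 1 / 2) :=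
        Real.Gamma_add_one (by positivity)
      rw [h2, Real.mul_rpow (by positivity) hg0.le] at h1
      rw [h2]
      have h3 : Real.Gamma ((k : ℝ) + 1 / 2) ^ (1 / 2 : ℝ) * Real.Gamma ((k : ℝ) + 1 / 2) ^ (1 / 2 : ℝ) =
          Real.Gamma ((k : ℝ) + 1 / 2) := by
        rw [← Real.rpow_add hg0]
        norm_num
      calc Real.sqrt ((k : ℝ) + 1 / 2) * (k.factorial : ℝ)
          ≤ Real.sqrt ((k : ℝ) + 1 / 2) * (Real.Gamma ((k : ℝ) + 1 / 2) ^ (1 / 2 : ℝ) *
            (((k : ℝ) + 1 / 2) ^ (1 / 2 : ℝ) * Real.Gamma ((k : ℝ) + 1 / 2) ^ (1 / 2 : ℝ))) := by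
            gcongr
        _ = (Real.sqrt ((k : ℝ) + 1 / 2) * Real.sqrt ((k : ℝ) + 1 / 2)) *
            (Real.Gamma ((k : ℝ) + 1 / 2) ^ (1 / 2 : ℝ) *
              Real.Gamma ((k : ℝ) + 1 / 2) ^ (1 / 2 : ℝ)) := by
            rw [← Real.sqrt_eq_rpow ((k : ℝ) + 1 / 2)]; ring
        _ = _ := by rw [Real.mul_self_sqrt (by positivity), h3]
    refine le_trans ?_ hG
    have e0 : Real.sqrt ((2 * k + 1 : ℕ) : ℝ) = Real.sqrt 2 * Real.sqrt ((k : ℝ) + 1 / 2) := by
      rw [← Real.sqrt_mul (by norm_num)]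
      congr 1
      push_cast
      ring
    have hs2 : Real.sqrt 2 ≤ 3 / 2 := by
      rw [Real.sqrt_le_left (by norm_num)]
      norm_num
    have hs20 : 0 < Real.sqrt 2 := by positivity
    have hsk : 0 < Real.sqrt ((k : ℝ) + 1 / 2) := by positivity
    suffices hmain : Real.sqrt 2 * (((k : ℝ) + 1 / 2) ^ ((k : ℝ) + 1 / 2) *
        Real.exp (-((k : ℝ) + 1 / 2))) ≤ (k.factorial : ℝ) by
      rw [e0]
      calc Real.sqrt 2 * Real.sqrt ((k : ℝ) + 1 / 2) * (((k : ℝ) + 1 / 2) ^ ((k : ℝ) + 1 / 2) *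
            Real.exp (-((k : ℝ) + 1 / 2)))
          = Real.sqrt ((k : ℝ) + 1 / 2) * (Real.sqrt 2 * (((k : ℝ) + 1 / 2) ^ ((k : ℝ) + 1 / 2) *
            Real.exp (-((k : ℝ) + 1 / 2)))) := by ring
        _ ≤ _ := by gcongr
    rcases Nat.eq_zero_or_pos k with hk0' | hk0'
    · subst hk0'
      simp only [Nat.factorial_zero, Nat.cast_one, Nat.cast_zero, zero_add]
      have h1 : Real.exp (-(1 / 2 : ℝ)) ≤ 1 := by
        rw [Real.exp_le_one_iff]; norm_num
      have h2 : Real.sqrt 2 * (1 / 2 : ℝ) ^ (1 / 2 : ℝ) = 1 := by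
        rw [← Real.sqrt_eq_rpow, ← Real.sqrt_mul (by norm_num)]
        norm_num
      calc Real.sqrt 2 * ((1 / 2 : ℝ) ^ (1 / 2 : ℝ) * Real.exp (-(1 / 2 : ℝ)))
          = (Real.sqrt 2 * (1 / 2 : ℝ) ^ (1 / 2 : ℝ)) * Real.exp (-(1 / 2 : ℝ)) := by ring
        _ = Real.exp (-(1 / 2 : ℝ)) := by rw [h2, one_mul]
        _ ≤ 1 := h1
    · have hk1 : (1 : ℝ) ≤ k := by exact_mod_cast hk0'
      have hkp : (0 : ℝ) < k := by linarith
      have hst := Stirling.le_factorial_stirling k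
      have e1 : ((k : ℝ) / Real.exp 1) ^ k = (k : ℝ) ^ k * Real.exp (-(k : ℝ)) := by
        rw [div_pow, ← Real.exp_nat_mul, mul_one, Real.exp_neg]
        rfl
      rw [e1] at hst
      have e2 : ((k : ℝ) + 1 / 2) ^ ((k : ℝ) + 1 / 2) ≤
          (k : ℝ) ^ k * Real.exp (1 / 2) * Real.sqrt ((k : ℝ) + 1 / 2) := by
        rw [Real.rpow_add (by positivity), Real.rpow_natCast, ← Real.sqrt_eq_rpow]
        gcongr
        have e3 : (k : ℝ) + 1 / 2 = k * (1 + 1 / (2 * k)) := by field_simp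
        rw [e3, mul_pow]
        gcongr
        have e4 : 1 + 1 / (2 * (k : ℝ)) ≤ Real.exp (1 / (2 * k)) := by
          have := Real.add_one_le_exp (1 / (2 * (k : ℝ)))
          linarith
        calc (1 + 1 / (2 * (k : ℝ))) ^ k ≤ Real.exp (1 / (2 * k)) ^ k := by gcongr
          _ = Real.exp (1 / 2) := by
              rw [← Real.exp_nat_mul]
              congr 1
              field_simp
      have e5 : Real.exp (1 / 2) * Real.exp (-((k : ℝ) + 1 / 2)) = Real.exp (-(k : ℝ)) := by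
        rw [← Real.exp_add]; congr 1; ring
      calc Real.sqrt 2 * (((k : ℝ) + 1 / 2) ^ ((k : ℝ) + 1 / 2) * Real.exp (-((k : ℝ) + 1 / 2)))
          ≤ Real.sqrt 2 * (((k : ℝ) ^ k * Real.exp (1 / 2) * Real.sqrt ((k : ℝ) + 1 / 2)) *
            Real.exp (-((k : ℝ) + 1 / 2))) := by gcongr
        _ = (Real.sqrt 2 * Real.sqrt ((k : ℝ) + 1 / 2)) * ((k : ℝ) ^ k *
            (Real.exp (1 / 2) * Real.exp (-((k : ℝ) + 1 / 2)))) := by ring
        _ = Real.sqrt (2 * k + 1) * ((k : ℝ) ^ k * Real.exp (-(k : ℝ))) := by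
            rw [e5, ← Real.sqrt_mul (by norm_num)]
            congr 2
            ring
        _ ≤ Real.sqrt (2 * Real.pi * k) * ((k : ℝ) ^ k * Real.exp (-(k : ℝ))) := by
            gcongr
            nlinarith
        _ ≤ _ := hst

/-- The kernel times the volume of the ball, in closed form. -/
lemma kernel_mul_vol (n : ℕ) (t : ℝ) (ht : 0 < t) (x : EuclideanSpace ℝ (Fin n)) :
    heatK n t x * (‖x‖ ^ n * (Real.sqrt Real.pi ^ n / Real.Gamma ((n : ℝ) / 2 + 1))) =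
      (‖x‖ ^ 2 / (4 * t)) ^ ((n : ℝ) / 2) * Real.exp (-(‖x‖ ^ 2 / (4 * t))) /
        Real.Gamma ((n : ℝ) / 2 + 1) := by
  have hpi := Real.pi_pos
  set q : ℝ := (n : ℝ) / 2 with hq
  have hvol : ‖x‖ ^ n * Real.sqrt Real.pi ^ n = (Real.pi * ‖x‖ ^ 2) ^ q := by
    have e1 : ‖x‖ ^ n = (‖x‖ ^ 2) ^ q := by
      rw [← Real.rpow_natCast ‖x‖ n, ← Real.rpow_natCast ‖x‖ 2, ← Real.rpow_mul (norm_nonneg x)]
      congr 1
      rw [hq]; push_cast; ring
    have e2 : Real.sqrt Real.pi ^ n = Real.pi ^ q := by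
      rw [Real.sqrt_eq_rpow, ← Real.rpow_natCast (Real.pi ^ (1 / 2 : ℝ)) n,
        ← Real.rpow_mul hpi.le]
      congr 1
      rw [hq]; ring
    rw [e1, e2, ← Real.mul_rpow (by positivity) (by positivity), mul_comm (‖x‖ ^ 2)]
  have hcomb : (4 * Real.pi * t) ^ (-q) * (Real.pi * ‖x‖ ^ 2) ^ q = (‖x‖ ^ 2 / (4 * t)) ^ q := by
    rw [Real.rpow_neg (by positivity), ← Real.inv_rpow (by positivity),
      ← Real.mul_rpow (by positivity) (by positivity)]
    congr 1
    field_simp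
  unfold heatK
  rw [← hcomb, ← hvol, ← hq]
  ring

lemma kernel_vol (n : ℕ) (hn : 1 ≤ n) (r : ℝ) (hr : 0 ≤ r) :
    volume (ball (0 : EuclideanSpace ℝ (Fin n)) r) =
      ENNReal.ofReal (r ^ n * (Real.sqrt Real.pi ^ n / Real.Gamma ((n : ℝ) / 2 + 1))) := by
  have : Nonempty (Fin n) := ⟨⟨0, hn⟩⟩
  rw [EuclideanSpace.volume_ball, ENNReal.ofReal_mul (by positivity), ENNReal.ofReal_pow hr]
  simp

theorem heatK_upper (n : ℕ) (hn : 1 ≤ n) (t : ℝ) (ht : 0 < t) (x : EuclideanSpace ℝ (Fin n))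
    (hx : x ≠ 0) :
    ENNReal.ofReal (heatK n t x) * (ENNReal.ofReal (Real.sqrt n) *
      volume (ball (0 : EuclideanSpace ℝ (Fin n)) ‖x‖)) ≤ 2 := by
  have hn0 : (0 : ℝ) < n := by exact_mod_cast hn
  have hx0 : 0 < ‖x‖ := norm_pos_iff.2 hx
  have hG : 0 < Real.Gamma ((n : ℝ) / 2 + 1) := Real.Gamma_pos_of_pos (by positivity)
  have hgam := kernel_gamma_ge n hn
  rw [kernel_vol n hn ‖x‖ hx0.le, ← ENNReal.ofReal_mul (by positivity),
    ← ENNReal.ofReal_mul (heatK_nonneg n ht x)]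
  have h2 : (2 : ℝ≥0∞) = ENNReal.ofReal 2 := by simp
  refine le_trans (ENNReal.ofReal_le_ofReal (q := 2) ?_) (le_of_eq h2.symm)
  have key := kernel_mul_vol n t ht x
  set q : ℝ := (n : ℝ) / 2 with hq
  have hq0 : 0 < q := by positivity
  set y : ℝ := ‖x‖ ^ 2 / (4 * t) with hy
  have hy0 : 0 < y := by positivity
  have hmax : y ^ q * Real.exp (-y) ≤ q ^ q * Real.exp (-q) := by
    have e1 : y / q ≤ Real.exp (y / q - 1) := by
      have := Real.add_one_le_exp (y / q - 1)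
      linarith
    have e2 : (y / q) ^ q ≤ Real.exp (y - q) := by
      calc (y / q) ^ q ≤ (Real.exp (y / q - 1)) ^ q := by gcongr
        _ = Real.exp (y - q) := by
            rw [← Real.exp_mul]
            congr 1
            field_simp
    rw [Real.div_rpow hy0.le hq0.le, div_le_iff₀ (by positivity)] at e2
    calc y ^ q * Real.exp (-y) ≤ (Real.exp (y - q) * q ^ q) * Real.exp (-y) := by gcongr
      _ = q ^ q * (Real.exp (y - q) * Real.exp (-y)) := by ring
      _ = _ := by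
          rw [← Real.exp_add]
          congr 2
          ring
  calc heatK n t x * (Real.sqrt n * (‖x‖ ^ n * (Real.sqrt Real.pi ^ n / Real.Gamma (q + 1))))
      = Real.sqrt n * (heatK n t x * (‖x‖ ^ n * (Real.sqrt Real.pi ^ n / Real.Gamma (q + 1)))) := by
        ring
    _ = Real.sqrt n * (y ^ q * Real.exp (-y)) / Real.Gamma (q + 1) := by
        rw [key]; ring
    _ ≤ Real.sqrt n * (q ^ q * Real.exp (-q)) / Real.Gamma (q + 1) := by gcongr
    _ ≤ Real.Gamma (q + 1) / Real.Gamma (q + 1) := by gcongr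
    _ = 1 := div_self hG.ne'
    _ ≤ 2 := by norm_num

theorem heatK_lower (n : ℕ) (hn : 4 ≤ n) (t : ℝ) (ht : 0 < t) (x : EuclideanSpace ℝ (Fin n))
    (hx : x ≠ 0) (h : |t - ‖x‖ ^ 2 / (2 * n)| ≤ ‖x‖ ^ 2 / (2 * n) / Real.sqrt n) :
    1 ≤ ENNReal.ofReal (heatK n t x) * (ENNReal.ofReal (1000 * Real.sqrt n) *
      volume (ball (0 : EuclideanSpace ℝ (Fin n)) ‖x‖)) := by
  have hn1 : 1 ≤ n := by omega
  have hn4 : (4 : ℝ) ≤ n := by exact_mod_cast hn
  have hn0 : (0 : ℝ) < n := by linarith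
  have hx0 : 0 < ‖x‖ := norm_pos_iff.2 hx
  have hG : 0 < Real.Gamma ((n : ℝ) / 2 + 1) := Real.Gamma_pos_of_pos (by positivity)
  have hgam := gamma_le n hn1
  rw [kernel_vol n hn1 ‖x‖ hx0.le, ← ENNReal.ofReal_mul (by positivity),
    ← ENNReal.ofReal_mul (heatK_nonneg n ht x), ENNReal.one_le_ofReal]
  have key := kernel_mul_vol n t ht x
  set q : ℝ := (n : ℝ) / 2 with hq
  have hq0 : 0 < q := by positivity
  set y : ℝ := ‖x‖ ^ 2 / (4 * t) with hy
  have hy0 : 0 < y := by positivity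
  have hs : 2 ≤ Real.sqrt n := by
    rw [Real.le_sqrt' (by norm_num)]
    norm_num
    exact hn
  have hss : Real.sqrt n * Real.sqrt n = n := Real.mul_self_sqrt hn0.le
  set t0 : ℝ := ‖x‖ ^ 2 / (2 * n) with ht0
  have ht00 : 0 < t0 := by positivity
  -- the quotient u
  set u : ℝ := t / t0 with hu
  have hu0 : 0 < u := by positivity
  have hu1 : |u - 1| ≤ 1 / Real.sqrt n := by
    have e1 : u - 1 = (t - t0) / t0 := by rw [hu]; field_simp
    rw [e1, abs_div, abs_of_pos ht00, div_le_iff₀ ht00]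
    calc |t - t0| ≤ t0 / Real.sqrt n := h
      _ = _ := by ring
  have hu2 : 1 / 2 ≤ u := by
    have e1 : 1 / Real.sqrt n ≤ 1 / 2 := one_div_le_one_div_of_le (by norm_num) hs
    have := (abs_le.1 (hu1.trans e1)).1
    linarith
  have hu3 : (u - 1) ^ 2 ≤ 1 / (n : ℝ) := by
    rw [← sq_abs]
    calc |u - 1| ^ 2 ≤ (1 / Real.sqrt n) ^ 2 := by gcongr
      _ = 1 / (n : ℝ) := by rw [div_pow, Real.sq_sqrt hn0.le, one_pow]
  have hyu : y = q / u := by
    rw [hy, hu, hq, ht0]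
    field_simp
    norm_num
  have hmin : q ^ q * Real.exp (-q) * Real.exp (-1) ≤ y ^ q * Real.exp (-y) := by
    rw [hyu, Real.div_rpow hq0.le hu0.le]
    have e1 : u ≤ Real.exp (u - 1) := by
      have := Real.add_one_le_exp (u - 1)
      linarith
    have e2 : u ^ q ≤ Real.exp (q * (u - 1)) := by
      calc u ^ q ≤ (Real.exp (u - 1)) ^ q := by gcongr
        _ = _ := by rw [← Real.exp_mul]; congr 1; ring
    have hup : 0 < u ^ q := by positivity
    have e3 : -1 ≤ -(q * (u - 1)) + (q - q / u) := by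
      have e4 : -(q * (u - 1)) + (q - q / u) = -(q * ((u - 1) ^ 2 / u)) := by
        field_simp
        ring
      rw [e4]
      have e5 : (u - 1) ^ 2 / u ≤ 2 / n := by
        rw [div_le_iff₀ hu0]
        calc (u - 1) ^ 2 ≤ 1 / (n : ℝ) := hu3
          _ = 2 / (n : ℝ) * (1 / 2) := by ring
          _ ≤ 2 / (n : ℝ) * u := by gcongr
      have e6 : q * ((u - 1) ^ 2 / u) ≤ q * (2 / n) := by gcongr
      have e7 : q * (2 / (n : ℝ)) = 1 := by rw [hq]; field_simp
      linarith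
    rw [div_mul_eq_mul_div, le_div_iff₀ hup]
    calc q ^ q * Real.exp (-q) * Real.exp (-1) * u ^ q
        ≤ q ^ q * Real.exp (-q) * Real.exp (-(q * (u - 1)) + (q - q / u)) *
          Real.exp (q * (u - 1)) := by gcongr
      _ = q ^ q * (Real.exp (-q) * Real.exp (-(q * (u - 1)) + (q - q / u)) *
          Real.exp (q * (u - 1))) := by ring
      _ = _ := by
          rw [← Real.exp_add, ← Real.exp_add]
          congr 2
          ring
  have he : Real.exp (-1) ≥ 1 / 3 := by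
    rw [Real.exp_neg, ge_iff_le, one_div]
    apply inv_anti₀ (Real.exp_pos _)
    have := Real.exp_one_lt_d9
    linarith
  have hX : 0 < q ^ q * Real.exp (-q) := by positivity
  have hsq : 0 < Real.sqrt n := by positivity
  calc (1 : ℝ) = Real.Gamma (q + 1) / Real.Gamma (q + 1) := (div_self hG.ne').symm
    _ ≤ (60 * Real.sqrt n * (q ^ q * Real.exp (-q))) / Real.Gamma (q + 1) := by gcongr
    _ ≤ (1000 * Real.sqrt n * (q ^ q * Real.exp (-q) * (1 / 3))) / Real.Gamma (q + 1) := by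
        gcongr ?_ / _
        nlinarith [mul_pos hsq hX]
    _ ≤ (1000 * Real.sqrt n * (q ^ q * Real.exp (-q) * Real.exp (-1))) / Real.Gamma (q + 1) := by
        gcongr
    _ ≤ (1000 * Real.sqrt n * (y ^ q * Real.exp (-y))) / Real.Gamma (q + 1) := by gcongr
    _ = 1000 * Real.sqrt n * (heatK n t x *
        (‖x‖ ^ n * (Real.sqrt Real.pi ^ n / Real.Gamma (q + 1)))) := by rw [key]; ring
    _ = _ := by ring

end Pool.MaxFn
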