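import Pool.Agent.MaxFn.Defs2

/-! Geometric claim for rays (module P1a of MP_a6dc0c_an). -/

set_option autoImplicit false

open MeasureTheory Metric
open scoped ENNReal RealInnerProductSpace

namespace Pool.MaxFn

theorem rayClaim_rad_sq (n : ℕ) (R : ℝ) (j : ℕ) : rad n R j ^ 2 = R ^ 2 * (1 + j / n) := by
  rw [rad, mul_pow, Real.sq_sqrt (by positivity)]

theorem rayClaim_rad_pos (n : ℕ) (R : ℝ) (hR : 0 < R) (j : ℕ) : 0 < rad n R j := by
  have : 0 < Real.sqrt (1 + (j : ℝ) / n) := Real.sqrt_pos.mpr (by positivity)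
  exact mul_pos hR this

theorem rayClaim_vb (n : ℕ) (R : ℝ) (hR : 0 < R) (j : ℕ) :
    vb n R j = ENNReal.ofReal (rad n R j ^ n) *
      volume (ball (0 : EuclideanSpace ℝ (Fin n)) 1) := by
  rw [vb, Measure.addHaar_ball_of_pos _ _ (rayClaim_rad_pos n R hR j)]
  simp

theorem rayClaim_vb_ne_zero (n : ℕ) (R : ℝ) (hR : 0 < R) (j : ℕ) : vb n R j ≠ 0 :=
  (measure_ball_pos _ _ (rayClaim_rad_pos n R hR j)).ne'

theorem rayClaim_vb_ne_top (n : ℕ) (R : ℝ) (j : ℕ) : vb n R j ≠ ∞ :=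
  measure_ball_lt_top.ne

theorem rayClaim_vb_ratio (n : ℕ) (hn : 1 ≤ n) (R : ℝ) (hR : 0 < R) (j b : ℕ) (hjb : j ≤ b)
    (hb : b ≤ n) :
    ENNReal.ofReal (Real.exp (((b : ℝ) - j) / 8)) * vb n R j ≤ vb n R b := by
  rw [rayClaim_vb n R hR, rayClaim_vb n R hR, ← mul_assoc, ← ENNReal.ofReal_mul (Real.exp_pos _).le]
  gcongr
  have hn0 : (0 : ℝ) < n := by exact_mod_cast hn
  have hjb' : (j : ℝ) ≤ b := by exact_mod_cast hjb
  have hb' : (b : ℝ) ≤ n := by exact_mod_cast hb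
  have hj0 : (0 : ℝ) ≤ j := Nat.cast_nonneg j
  set u : ℝ := (1 + (b : ℝ) / n) / (1 + (j : ℝ) / n) with hu
  have hden : 0 < 1 + (j : ℝ) / n := by positivity
  have hu0 : 0 < u := by positivity
  have hlog : ((b : ℝ) - j) / (2 * n) ≤ Real.log u := by
    have h1 := Real.one_sub_inv_le_log_of_pos hu0
    refine le_trans ?_ h1
    have h2 : 1 - u⁻¹ = ((b : ℝ) - j) / (n + b) := by
      rw [hu]
      field_simp
      ring
    rw [h2]
    apply div_le_div_of_nonneg_left (by linarith) (by positivity) (by linarith)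
  have hratio : rad n R b = rad n R j * Real.sqrt u := by
    rw [rad, rad, mul_assoc, ← Real.sqrt_mul hden.le, hu]
    congr 2
    field_simp
  rw [hratio, mul_pow, mul_comm]
  refine mul_le_mul_of_nonneg_left ?_ (pow_nonneg (rayClaim_rad_pos n R hR j).le n)
  have h3 : Real.sqrt u ^ n = Real.exp ((n : ℝ) * (Real.log u / 2)) := by
    rw [Real.exp_nat_mul]
    congr 1
    rw [Real.sqrt_eq_rpow, Real.rpow_def_of_pos hu0]
    congr 1
    ring
  rw [h3]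
  gcongr
  have h4 : (n : ℝ) * (((b : ℝ) - j) / (2 * n) / 2) ≤ (n : ℝ) * (Real.log u / 2) := by gcongr
  have h5 : (n : ℝ) * (((b : ℝ) - j) / (2 * n) / 2) = ((b : ℝ) - j) / 4 := by
    field_simp
    ring
  linarith

theorem rayClaim_core (n : ℕ) (hn : 1 ≤ n) (R : ℝ) (hR : 0 < R)
    (f : EuclideanSpace ℝ (Fin n) → ℝ≥0∞) (s : ℝ≥0∞) (hs : s ≠ 0) (hs' : s ≠ ∞) (ε φ : ℝ)
    (hε : 0 < ε) (hφ : 0 < φ) (L1 b0 : ℕ)
    (hL1 : (4 / ε) * (8 * Real.log (2 / φ) + 2) < L1)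
    (hb0 : 8 * Real.log (2 / φ) + 1 ≤ b0) (x : EuclideanSpace ℝ (Fin n))
    (b D : ℕ) (hD : L1 ≤ D) (hbn : b ≤ n) (hb : b0 ≤ b)
    (S : Set (EuclideanSpace ℝ (Fin n)))
    (hmass : ENNReal.ofReal φ * s * vb n R b ≤ ∫⁻ z' in S, f z')
    (hS : ∀ z' ∈ S, dist z' x ^ 2 < R ^ 2 * (1 + ((b : ℝ) - ε * D / 4) / n)) :
    x ∉ lev n R f s := by
  intro hx
  have hn0 : (0 : ℝ) < n := by exact_mod_cast hn
  have hD' : (L1 : ℝ) ≤ D := by exact_mod_cast hD
  set j : ℕ := ⌈(b : ℝ) - ε * D / 4⌉₊ with hj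
  have hjb : j ≤ b := by
    rw [hj, Nat.ceil_le]
    have : 0 ≤ ε * D / 4 := by positivity
    linarith
  have hjn : j ≤ n := hjb.trans hbn
  have hsub : S ⊆ ball x (rad n R j) := by
    intro z' hz'
    rw [mem_ball]
    apply lt_of_pow_lt_pow_left₀ 2 (rayClaim_rad_pos n R hR j).le
    refine (hS z' hz').trans_le ?_
    rw [rayClaim_rad_sq]
    have : (b : ℝ) - ε * D / 4 ≤ j := Nat.le_ceil _
    gcongr
  have h1 : ENNReal.ofReal φ * s * vb n R b ≤ 2 * s * vb n R j :=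
    hmass.trans ((lintegral_mono_set hsub).trans (hx.2 j hjn))
  have hgap : 8 * Real.log (2 / φ) < (b : ℝ) - j := by
    by_cases hneg : (b : ℝ) - ε * D / 4 < 0
    · have hj0 : j = 0 := by
        rw [hj, Nat.ceil_eq_zero]
        exact hneg.le
      rw [hj0]
      have : (b0 : ℝ) ≤ b := by exact_mod_cast hb
      push_cast
      linarith
    · push Not at hneg
      have h2 : (j : ℝ) < (b : ℝ) - ε * D / 4 + 1 := Nat.ceil_lt_add_one hneg
      have h3 : 8 * Real.log (2 / φ) + 2 < ε * D / 4 := by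
        have h4 : 4 / ε * (8 * Real.log (2 / φ) + 2) < D := hL1.trans_le hD'
        rw [div_mul_eq_mul_div, div_lt_iff₀ hε] at h4
        linarith
      linarith
  have h2 : 2 < φ * Real.exp (((b : ℝ) - j) / 8) := by
    have h3 : Real.log (2 / φ) < ((b : ℝ) - j) / 8 := by linarith
    have h4 : 2 / φ < Real.exp (((b : ℝ) - j) / 8) := (Real.log_lt_iff_lt_exp (by positivity)).mp h3
    rw [div_lt_iff₀ hφ] at h4
    linarith
  have h3 := rayClaim_vb_ratio n hn R hR j b hjb hbn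
  have h4 : ENNReal.ofReal (φ * Real.exp (((b : ℝ) - j) / 8)) * (s * vb n R j)
      ≤ 2 * (s * vb n R j) := by
    calc ENNReal.ofReal (φ * Real.exp (((b : ℝ) - j) / 8)) * (s * vb n R j)
        = ENNReal.ofReal φ * s * (ENNReal.ofReal (Real.exp (((b : ℝ) - j) / 8)) * vb n R j) := by
          rw [ENNReal.ofReal_mul hφ.le]
          ring
      _ ≤ ENNReal.ofReal φ * s * vb n R b := by gcongr
      _ ≤ 2 * s * vb n R j := h1
      _ = _ := by ring
  have h5 : s * vb n R j ≠ 0 := mul_ne_zero hs (rayClaim_vb_ne_zero n R hR j)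
  have h6 : s * vb n R j ≠ ∞ := ENNReal.mul_ne_top hs' (rayClaim_vb_ne_top n R j)
  have h7 : ENNReal.ofReal (φ * Real.exp (((b : ℝ) - j) / 8)) ≤ 2 :=
    (ENNReal.mul_le_mul_iff_left h5 h6).mp h4
  have h8 : φ * Real.exp (((b : ℝ) - j) / 8) ≤ 2 := by
    have := ENNReal.toReal_mono (by simp) h7
    rw [ENNReal.toReal_ofReal (by positivity)] at this
    simpa using this
  linarith

/-- the elementary estimate -/
theorem rayClaim_real (n : ℕ) (hn : 1 ≤ n) (R : ℝ) (hR : 0 < R) (ε : ℝ) (hε : 0 < ε)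
    (a b D : ℕ) (han : a ≤ n) (hbn : b ≤ n) (hD : (D : ℝ) ≤ ε * n)
    (hab : ((b : ℝ) - a) ^ 2 = (D : ℝ) ^ 2) (δ : ℝ) (hδ : 0 ≤ δ)
    (hδ2 : (rad n R b - rad n R a) ^ 2 = δ ^ 2) :
    rad n R b ^ 2 - 2 * δ * (ε * R ^ 2 / rad n R b) + δ ^ 2
      ≤ R ^ 2 * (1 + ((b : ℝ) - ε * D / 4) / n) := by
  have hn0 : (0 : ℝ) < n := by exact_mod_cast hn
  have hra := rayClaim_rad_pos n R hR a
  have hrb := rayClaim_rad_pos n R hR b
  have hra2 := rayClaim_rad_sq n R a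
  have hrb2 := rayClaim_rad_sq n R b
  have han' : (a : ℝ) / n ≤ 1 := by
    rw [div_le_one hn0]
    exact_mod_cast han
  have hbn' : (b : ℝ) / n ≤ 1 := by
    rw [div_le_one hn0]
    exact_mod_cast hbn
  have ha0 : (0 : ℝ) ≤ (a : ℝ) / n := by positivity
  have hb0 : (0 : ℝ) ≤ (b : ℝ) / n := by positivity
  set ra := rad n R a
  set rb := rad n R b
  -- δ (ra + rb) = R^2 D / n
  have hsum : 0 < ra + rb := by positivity
  have h1 : δ * (ra + rb) = R ^ 2 * (D / n) := by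
    have h2 : (δ * (ra + rb)) ^ 2 = (R ^ 2 * (D / n)) ^ 2 := by
      calc (δ * (ra + rb)) ^ 2 = (rb - ra) ^ 2 * (ra + rb) ^ 2 := by rw [mul_pow, hδ2]
        _ = (rb ^ 2 - ra ^ 2) ^ 2 := by ring
        _ = (R ^ 2 * (((b : ℝ) - a) / n)) ^ 2 := by rw [hra2, hrb2]; ring
        _ = R ^ 4 * (((b : ℝ) - a) ^ 2) / n ^ 2 := by ring
        _ = (R ^ 2 * (D / n)) ^ 2 := by rw [hab]; ring
    exact (pow_left_inj₀ (by positivity) (by positivity) two_ne_zero).mp h2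
  -- bounds for ra, rb
  have hraR : R ≤ ra := by
    apply le_of_sq_le_sq _ hra.le
    rw [hra2]
    nlinarith [sq_nonneg R]
  have hrbR : R ≤ rb := by
    apply le_of_sq_le_sq _ hrb.le
    rw [hrb2]
    nlinarith [sq_nonneg R]
  have hra2' : ra ^ 2 ≤ 2 * R ^ 2 := by
    rw [hra2]
    nlinarith [sq_nonneg R]
  have hrb2' : rb ^ 2 ≤ 2 * R ^ 2 := by
    rw [hrb2]
    nlinarith [sq_nonneg R]
  have hprod : rb * (ra + rb) ≤ 4 * R ^ 2 := by nlinarith [sq_nonneg (ra - rb)]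
  have hδup : δ ≤ R * (D / (2 * n)) := by
    have h2 : δ * (2 * R) ≤ R ^ 2 * (D / n) := by
      rw [← h1]
      gcongr
      linarith
    have h3 : R ^ 2 * (D / n) = (R * (D / (2 * n))) * (2 * R) := by
      field_simp
    rw [h3] at h2
    exact le_of_mul_le_mul_right h2 (by positivity)
  have hlow : R ^ 2 * ε * D / (2 * n) ≤ 2 * δ * (ε * R ^ 2 / rb) := by
    have h2 : δ / rb = R ^ 2 * (D / n) / (rb * (ra + rb)) := by
      rw [← h1]
      field_simp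
    have h3 : R ^ 2 * (D / n) / (4 * R ^ 2) ≤ δ / rb := by
      rw [h2]
      gcongr
    have h4 : 2 * δ * (ε * R ^ 2 / rb) = 2 * ε * R ^ 2 * (δ / rb) := by ring
    rw [h4]
    calc R ^ 2 * ε * D / (2 * n) = 2 * ε * R ^ 2 * (R ^ 2 * (D / n) / (4 * R ^ 2)) := by
          field_simp
          ring
      _ ≤ _ := by gcongr
  have hδsq : δ ^ 2 ≤ R ^ 2 * (ε * D / (4 * n)) := by
    calc δ ^ 2 ≤ (R * (D / (2 * n))) ^ 2 := by gcongr
      _ = R ^ 2 * (D / (4 * n) * (D / n)) := by ring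
      _ ≤ R ^ 2 * (D / (4 * n) * ε) := by
          have : (D : ℝ) / n ≤ ε := by
            rw [div_le_iff₀ hn0]
            exact hD
          gcongr
      _ = _ := by ring
  rw [hrb2]
  have h5 : R ^ 2 * (1 + ((b : ℝ) - ε * D / 4) / n)
      = R ^ 2 * (1 + b / n) - R ^ 2 * ε * D / (2 * n) + R ^ 2 * (ε * D / (4 * n)) := by
    field_simp
    ring
  rw [h5]
  linarith

theorem ray_claim_pos (n : ℕ) (hn : 1 ≤ n) (R : ℝ) (hR : 0 < R)
    (f : EuclideanSpace ℝ (Fin n) → ℝ≥0∞) (s : ℝ≥0∞) (hs : s ≠ 0) (hs' : s ≠ ∞) (ε φ : ℝ)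
    (hε : 0 < ε) (hε1 : ε ≤ 1) (hφ : 0 < φ) (hφ1 : φ ≤ 1) (L1 L2 b0 : ℕ)
    (hL1 : (4 / ε) * (8 * Real.log (2 / φ) + 2) < L1) (hL2 : (L2 : ℝ) ≤ ε * n)
    (hb0 : 8 * Real.log (2 / φ) + 1 ≤ b0) (z w : EuclideanSpace ℝ (Fin n)) (hw : ‖w‖ ≤ 1)
    (a b : ℕ) (h1 : a + L1 ≤ b) (h2 : b ≤ a + L2) (hbn : b ≤ n) (hb : b0 ≤ b)
    (hfst : fst n R f s (z + rad n R b • w) = b)
    (hz : z ∈ posSet n R f s ε φ (z + rad n R b • w)) :
    z + rad n R a • w ∉ lev n R f s := by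
  have hn0 : (0 : ℝ) < n := by exact_mod_cast hn
  obtain ⟨-, hmass⟩ := hz
  rw [hfst] at hmass
  have hab : a ≤ b := by omega
  have hD2 : ((b - a : ℕ) : ℝ) ≤ ε * n := by
    have : ((b - a : ℕ) : ℝ) ≤ L2 := by exact_mod_cast (by omega : b - a ≤ L2)
    linarith
  have hmono : rad n R a ≤ rad n R b := by
    unfold rad
    gcongr
  refine rayClaim_core n hn R hR f s hs hs' ε φ hε hφ L1 b0 hL1 hb0 _ b (b - a) (by omega) hbn hb
    _ hmass ?_
  rintro z' ⟨⟨-, hz1⟩, hz2⟩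
  have hrb := rayClaim_rad_pos n R hR b
  refine lt_of_lt_of_le ?_ (rayClaim_real n hn R hR ε hε a b (b - a) (by omega) hbn hD2
    (by rw [Nat.cast_sub hab]) (rad n R b - rad n R a) (by linarith) rfl)
  set x := z + rad n R b • w with hx
  have hxz : x - z = rad n R b • w := by rw [hx]; abel
  rw [hxz, real_inner_smul_left] at hz2
  have hin : ε * R ^ 2 / rad n R b ≤ ⟪w, x - z'⟫ := by
    rw [div_le_iff₀ hrb]
    linarith
  have hdist : dist z' (z + rad n R a • w) ^ 2 = dist x z' ^ 2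
      - 2 * (rad n R b - rad n R a) * ⟪w, x - z'⟫
      + (rad n R b - rad n R a) ^ 2 * ‖w‖ ^ 2 := by
    have e1 : z + rad n R a • w - z' = (x - z') - (rad n R b - rad n R a) • w := by
      rw [hx, sub_smul]
      abel
    rw [dist_comm, dist_eq_norm, e1, norm_sub_sq_real, dist_eq_norm, real_inner_smul_right,
      norm_smul, mul_pow, Real.norm_eq_abs, sq_abs, real_inner_comm]
    ring
  rw [hdist]
  have e2 : dist x z' ^ 2 < rad n R b ^ 2 := by
    have := dist_nonneg (x := x) (y := z')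
    gcongr
  have e3 : ‖w‖ ^ 2 ≤ 1 := by
    have := norm_nonneg w
    nlinarith
  have e4 : 0 ≤ rad n R b - rad n R a := by linarith
  have e5 : 2 * (rad n R b - rad n R a) * (ε * R ^ 2 / rad n R b)
      ≤ 2 * (rad n R b - rad n R a) * ⟪w, x - z'⟫ := by gcongr
  have e6 : (rad n R b - rad n R a) ^ 2 * ‖w‖ ^ 2 ≤ (rad n R b - rad n R a) ^ 2 * 1 := by gcongr
  linarith

theorem ray_claim_neg (n : ℕ) (hn : 1 ≤ n) (R : ℝ) (hR : 0 < R)
    (f : EuclideanSpace ℝ (Fin n) → ℝ≥0∞) (s : ℝ≥0∞) (hs : s ≠ 0) (hs' : s ≠ ∞) (ε φ : ℝ)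
    (hε : 0 < ε) (hε1 : ε ≤ 1) (hφ : 0 < φ) (hφ1 : φ ≤ 1) (L1 L2 b0 : ℕ)
    (hL1 : (4 / ε) * (8 * Real.log (2 / φ) + 2) < L1) (hL2 : (L2 : ℝ) ≤ ε * n)
    (hb0 : 8 * Real.log (2 / φ) + 1 ≤ b0) (z w : EuclideanSpace ℝ (Fin n)) (hw : ‖w‖ ≤ 1)
    (a b : ℕ) (h1 : b + L1 ≤ a) (h2 : a ≤ b + L2) (han : a ≤ n) (hb : b0 ≤ b)
    (hfst : fst n R f s (z + rad n R b • w) = b)
    (hz : z ∈ negSet n R f s ε φ (z + rad n R b • w)) :
    z + rad n R a • w ∉ lev n R f s := by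
  have hn0 : (0 : ℝ) < n := by exact_mod_cast hn
  obtain ⟨-, hmass⟩ := hz
  rw [hfst] at hmass
  have hab : b ≤ a := by omega
  have hbn : b ≤ n := by omega
  have hD2 : ((a - b : ℕ) : ℝ) ≤ ε * n := by
    have : ((a - b : ℕ) : ℝ) ≤ L2 := by exact_mod_cast (by omega : a - b ≤ L2)
    linarith
  have hmono : rad n R b ≤ rad n R a := by
    unfold rad
    gcongr
  refine rayClaim_core n hn R hR f s hs hs' ε φ hε hφ L1 b0 hL1 hb0 _ b (a - b) (by omega) hbn hb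
    _ hmass ?_
  rintro z' ⟨⟨-, hz1⟩, hz2⟩
  have hrb := rayClaim_rad_pos n R hR b
  refine lt_of_lt_of_le ?_ (rayClaim_real n hn R hR ε hε a b (a - b) han hbn hD2
    (by rw [Nat.cast_sub hab]; ring) (rad n R a - rad n R b) (by linarith) (by ring))
  set x := z + rad n R b • w with hx
  have hxz : x - z = rad n R b • w := by rw [hx]; abel
  rw [hxz, real_inner_smul_left] at hz2
  have hin : ε * R ^ 2 / rad n R b ≤ -⟪w, x - z'⟫ := by
    rw [div_le_iff₀ hrb]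
    linarith
  have hdist : dist z' (z + rad n R a • w) ^ 2 = dist x z' ^ 2
      + 2 * (rad n R a - rad n R b) * ⟪w, x - z'⟫
      + (rad n R a - rad n R b) ^ 2 * ‖w‖ ^ 2 := by
    have e1 : z + rad n R a • w - z' = (x - z') + (rad n R a - rad n R b) • w := by
      rw [hx, sub_smul]
      abel
    rw [dist_comm, dist_eq_norm, e1, norm_add_sq_real, dist_eq_norm, real_inner_smul_right,
      norm_smul, mul_pow, Real.norm_eq_abs, sq_abs, real_inner_comm]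
    ring
  rw [hdist]
  have e2 : dist x z' ^ 2 < rad n R b ^ 2 := by
    have := dist_nonneg (x := x) (y := z')
    gcongr
  have e3 : ‖w‖ ^ 2 ≤ 1 := by
    have := norm_nonneg w
    nlinarith
  have e4 : 0 ≤ rad n R a - rad n R b := by linarith
  have e5 : 2 * (rad n R a - rad n R b) * (ε * R ^ 2 / rad n R b)
      ≤ 2 * (rad n R a - rad n R b) * (-⟪w, x - z'⟫) := by gcongr
  have e6 : (rad n R a - rad n R b) ^ 2 * ‖w‖ ^ 2 ≤ (rad n R a - rad n R b) ^ 2 * 1 := by gcongr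
  linarith

end Pool.MaxFn
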