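import Pool.Agent.MaxFn.Basic2

/-! MODULE P1b (rays: measure theory and counting).  Target file: Pool/Agent/MaxFn/RayCount.lean
(same name, no sorry). (Module P0, target Pool/Agent/MaxFn/Basic2.lean, has rad_pos, vb_ne_zero, vb_ne_top,
measurableSet_lev, measurable_fst; until it is landed keep sorry copies.)

Proof. Write r_b = rad n R b, B = unit ball. For x in lev with fst x = b and z in P x we have dist x z < r_b.
For fixed z and b the substitution x = z + r_b w gives
  vb(b)^{-1} vol{x : x in lev, fst x = b, z in P x} = vol(B)^{-1} vol{w in B : b in A(z,w)},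
  A(z,w) = {b : b0 <= b <= n, x_b := z + r_b w in lev, fst x_b = b, z in P x_b}.
(vb b = ofReal(r_b^n) vol B: `Measure.addHaar_ball`/`addHaar_smul`; fst <= n on lev.) By Tonelli the left side is
sum_b vb(b)^{-1} int_x 1[x in lev, fst x = b] int_{z in P x} f(z) dz dx
 = int f(z) vol(B)^{-1} int_B card A(z,w) dw dz, and it suffices to show card A(z,w) <= L1 (n/L2+1):
cut {0..n} into the n/L2+1 blocks [i L2,(i+1) L2) (b/L2 = i); by hgap two elements of A in one block differ by less
than L1 (their difference is < L2), so a block has at most L1 elements. -/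

set_option autoImplicit false

open MeasureTheory Metric
open scoped ENNReal RealInnerProductSpace

namespace Pool.MaxFn

theorem ray_card {n L1 L2 : ℕ} (hL2 : 1 ≤ L2) (A : Finset ℕ) (hA : ∀ a ∈ A, a ≤ n)
    (hgap : ∀ a ∈ A, ∀ b ∈ A, a + L1 ≤ b → b ≤ a + L2 → False) :
    A.card ≤ L1 * (n / L2 + 1) := by
  classical
  have h := Finset.card_le_mul_card_image_of_maps_to (s := A) (t := Finset.range (n / L2 + 1))
    (f := fun a => a / L2) ?_ L1 ?_
  · rwa [Finset.card_range] at h
  · intro a ha
    have h1 := Nat.div_le_div_right (c := L2) (hA a ha)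
    simp only [Finset.mem_range]
    omega
  · intro c hc
    rcases (A.filter (fun a => a / L2 = c)).eq_empty_or_nonempty with h | h
    · rw [h, Finset.card_empty]; exact Nat.zero_le _
    · set m := (A.filter (fun a => a / L2 = c)).min' h with hm
      have h2 : m ∈ A.filter (fun a => a / L2 = c) := Finset.min'_mem _ h
      have h3 : A.filter (fun a => a / L2 = c) ⊆ Finset.Ico m (m + L1) := by
        intro a ha
        have h1 : m ≤ a := Finset.min'_le _ a ha
        rw [Finset.mem_Ico]
        refine ⟨h1, ?_⟩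
        by_contra h4
        rw [Finset.mem_filter] at h2 ha
        refine hgap m h2.1 a ha.1 (by omega) ?_
        have h5 : a < m + L2 := by
          have e1 := Nat.div_add_mod a L2
          have e2 := Nat.div_add_mod m L2
          have e3 := Nat.mod_lt a (show L2 > 0 by omega)
          rw [ha.2] at e1
          rw [h2.2] at e2
          omega
        omega
      calc _ ≤ (Finset.Ico m (m + L1)).card := Finset.card_le_card h3
        _ = L1 := by rw [Nat.card_Ico]; omega

theorem ray_scale (n : ℕ) (R : ℝ) (hR : 0 < R) (b : ℕ) (z : EuclideanSpace ℝ (Fin n))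
    (Q : Set (EuclideanSpace ℝ (Fin n))) :
    (vb n R b)⁻¹ * volume Q = (volume (ball (0 : EuclideanSpace ℝ (Fin n)) 1))⁻¹ *
      volume {w : EuclideanSpace ℝ (Fin n) | z + rad n R b • w ∈ Q} := by
  have hr := rad_pos n R hR b
  have h1 : volume {w : EuclideanSpace ℝ (Fin n) | z + rad n R b • w ∈ Q} =
      ENNReal.ofReal ((rad n R b ^ n)⁻¹) * volume Q := by
    have e1 : {w : EuclideanSpace ℝ (Fin n) | z + rad n R b • w ∈ Q} =
        (rad n R b • ·) ⁻¹' ((fun y => z + y) ⁻¹' Q) := rfl
    rw [e1, Measure.addHaar_preimage_smul _ hr.ne', measure_preimage_add,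
      finrank_euclideanSpace, Fintype.card_fin, abs_of_pos (by positivity)]
  have h2 : vb n R b = ENNReal.ofReal (rad n R b ^ n) *
      volume (ball (0 : EuclideanSpace ℝ (Fin n)) 1) := by
    rw [vb, Measure.addHaar_ball_of_pos _ _ hr, finrank_euclideanSpace, Fintype.card_fin]
  have h3 : ENNReal.ofReal (rad n R b ^ n) ≠ 0 := by
    rw [Ne, ENNReal.ofReal_eq_zero, not_le]; positivity
  rw [h1, h2, ENNReal.mul_inv (Or.inl h3) (Or.inl ENNReal.ofReal_ne_top),
    ENNReal.ofReal_inv_of_pos (by positivity)]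
  ring

theorem rays_abs (n : ℕ) (hn : 1 ≤ n) (R : ℝ) (hR : 0 < R)
    (f : EuclideanSpace ℝ (Fin n) → ℝ≥0∞) (hf : Measurable f) (s : ℝ≥0∞)
    (P : EuclideanSpace ℝ (Fin n) → Set (EuclideanSpace ℝ (Fin n)))
    (hP : MeasurableSet {q : EuclideanSpace ℝ (Fin n) × EuclideanSpace ℝ (Fin n) | q.2 ∈ P q.1})
    (hsub : ∀ x, P x ⊆ shell n R x (fst n R f s x))
    (L1 L2 b0 : ℕ) (hL2 : 1 ≤ L2)
    (hgap : ∀ (z w : EuclideanSpace ℝ (Fin n)) (a b : ℕ), ‖w‖ ≤ 1 → a + L1 ≤ b → b ≤ a + L2 →
      b ≤ n → b0 ≤ a →
      z + rad n R a • w ∈ lev n R f s → fst n R f s (z + rad n R a • w) = a →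
      z ∈ P (z + rad n R a • w) →
      z + rad n R b • w ∈ lev n R f s → fst n R f s (z + rad n R b • w) = b →
      z ∈ P (z + rad n R b • w) → False) :
    ∫⁻ x in lev n R f s ∩ {x | b0 ≤ fst n R f s x},
      (vb n R (fst n R f s x))⁻¹ * ∫⁻ z in P x, f z ≤
    ((L1 * (n / L2 + 1) : ℕ) : ℝ≥0∞) * ∫⁻ z, f z := by
  classical
  set V := volume (ball (0 : EuclideanSpace ℝ (Fin n)) 1) with hV
  have hV0 : V ≠ 0 := (measure_ball_pos volume _ one_pos).ne'
  have hVt : V ≠ ∞ := measure_ball_lt_top.ne
  have hlev := measurableSet_lev n R f hf s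
  have hfst := measurable_fst n R f hf s
  set I : Finset ℕ := Finset.Icc b0 n with hI
  -- the set of pairs
  let T : ℕ → Set (EuclideanSpace ℝ (Fin n) × EuclideanSpace ℝ (Fin n)) := fun b =>
    {q | q.1 ∈ lev n R f s ∧ fst n R f s q.1 = b ∧ q.2 ∈ P q.1}
  have hTm : ∀ b, MeasurableSet (T b) := fun b =>
    (_root_.measurable_fst hlev).inter
      (((hfst.comp _root_.measurable_fst) (measurableSet_singleton b)).inter hP)
  have hFm : ∀ b, Measurable (fun q : EuclideanSpace ℝ (Fin n) × EuclideanSpace ℝ (Fin n) =>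
      (T b).indicator (fun q => f q.2) q) := fun b =>
    (hf.comp measurable_snd).indicator (hTm b)
  -- Step 1
  have h1 : ∫⁻ x in lev n R f s ∩ {x | b0 ≤ fst n R f s x},
      (vb n R (fst n R f s x))⁻¹ * ∫⁻ z in P x, f z ≤
      ∑ b ∈ I, (vb n R b)⁻¹ * ∫⁻ x, ∫⁻ z, (T b).indicator (fun q => f q.2) (x, z) := by
    calc ∫⁻ x in lev n R f s ∩ {x | b0 ≤ fst n R f s x},
          (vb n R (fst n R f s x))⁻¹ * ∫⁻ z in P x, f z ≤
        ∫⁻ x in lev n R f s ∩ {x | b0 ≤ fst n R f s x},
          ∑ b ∈ I, (vb n R b)⁻¹ * ∫⁻ z, (T b).indicator (fun q => f q.2) (x, z) := by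
          refine setLIntegral_mono' (hlev.inter (hfst measurableSet_Ici)) fun x hx => ?_
          have hxI : fst n R f s x ∈ I := by
            rw [hI, Finset.mem_Icc]
            exact ⟨hx.2, fst_le n R f s x hx.1⟩
          refine le_trans (le_of_eq ?_) (Finset.single_le_sum (f := fun b => (vb n R b)⁻¹ *
            ∫⁻ z, (T b).indicator (fun q => f q.2) (x, z)) (fun _ _ => zero_le) hxI)
          have hPx : MeasurableSet (P x) := measurable_prodMk_left hP
          congr 1
          rw [← lintegral_indicator hPx]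
          refine lintegral_congr fun z => ?_
          by_cases h : z ∈ P x
          · rw [Set.indicator_of_mem h, Set.indicator_of_mem]
            exact ⟨hx.1, rfl, h⟩
          · rw [Set.indicator_of_notMem h, Set.indicator_of_notMem]
            exact fun h' => h h'.2.2
      _ ≤ ∫⁻ x, ∑ b ∈ I, (vb n R b)⁻¹ * ∫⁻ z, (T b).indicator (fun q => f q.2) (x, z) :=
          setLIntegral_le_lintegral _ _
      _ = _ := by
          rw [lintegral_finsetSum]
          · refine Finset.sum_congr rfl fun b _ => ?_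
            rw [lintegral_const_mul]
            exact (hFm b).lintegral_prod_right'
          · intro b _
            exact (hFm b).lintegral_prod_right'.const_mul _
  -- Step 2
  have h2 : ∀ b, ∫⁻ x, ∫⁻ z, (T b).indicator (fun q => f q.2) (x, z) =
      ∫⁻ z, f z * volume {x | (x, z) ∈ T b} := by
    intro b
    rw [lintegral_lintegral_swap (hFm b).aemeasurable]
    refine lintegral_congr fun z => ?_
    have hQ : MeasurableSet {x | (x, z) ∈ T b} := measurable_prodMk_right (hTm b)
    rw [← setLIntegral_const, ← lintegral_indicator hQ]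
    refine lintegral_congr fun x => ?_
    by_cases h : (x, z) ∈ T b
    · rw [Set.indicator_of_mem h, Set.indicator_of_mem (show x ∈ {x | (x, z) ∈ T b} from h)]
    · rw [Set.indicator_of_notMem h, Set.indicator_of_notMem (show x ∉ {x | (x, z) ∈ T b} from h)]
  -- Step 3
  have h3 : ∀ b, (vb n R b)⁻¹ * ∫⁻ z, f z * volume {x | (x, z) ∈ T b} =
      ∫⁻ z, f z * (V⁻¹ * volume {w : EuclideanSpace ℝ (Fin n) | (z + rad n R b • w, z) ∈ T b}) := by
    intro b
    have hQm : Measurable fun z => volume {x | (x, z) ∈ T b} := measurable_measure_prodMk_right (hTm b)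
    have hQm' : Measurable fun z => f z * volume {x | (x, z) ∈ T b} := hf.mul hQm
    refine (lintegral_const_mul _ hQm').symm.trans (lintegral_congr fun z => ?_)
    have := ray_scale n R hR b z {x | (x, z) ∈ T b}
    rw [mul_left_comm, this]
    rfl
  -- Step 4
  have h4 : ∀ z, ∑ b ∈ I, volume {w : EuclideanSpace ℝ (Fin n) | (z + rad n R b • w, z) ∈ T b} ≤
      ((L1 * (n / L2 + 1) : ℕ) : ℝ≥0∞) * V := by
    intro z
    have hWm : ∀ b, MeasurableSet {w : EuclideanSpace ℝ (Fin n) | (z + rad n R b • w, z) ∈ T b} := by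
      intro b
      have : Measurable fun w : EuclideanSpace ℝ (Fin n) => (z + rad n R b • w, z) := by fun_prop
      exact this (hTm b)
    have hW1 : ∀ b (w : EuclideanSpace ℝ (Fin n)), (z + rad n R b • w, z) ∈ T b → ‖w‖ < 1 := by
      intro b w hw
      have hr := rad_pos n R hR b
      have h5 := (hsub _ hw.2.2).2
      rw [hw.2.1] at h5
      simp only at h5
      rw [dist_eq_norm, add_sub_cancel_left, norm_smul, Real.norm_of_nonneg hr.le] at h5
      by_contra h6
      push Not at h6
      nlinarith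
    calc ∑ b ∈ I, volume {w : EuclideanSpace ℝ (Fin n) | (z + rad n R b • w, z) ∈ T b} =
        ∑ b ∈ I, ∫⁻ w in ball (0 : EuclideanSpace ℝ (Fin n)) 1,
          Set.indicator {w : EuclideanSpace ℝ (Fin n) | (z + rad n R b • w, z) ∈ T b} 1 w := by
          refine Finset.sum_congr rfl fun b _ => ?_
          rw [lintegral_indicator_one (hWm b), Measure.restrict_apply (hWm b),
            Set.inter_eq_self_of_subset_left]
          intro w hw
          rw [mem_ball_zero_iff]
          exact hW1 b w hw
      _ = ∫⁻ w in ball (0 : EuclideanSpace ℝ (Fin n)) 1, ∑ b ∈ I,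
          Set.indicator {w : EuclideanSpace ℝ (Fin n) | (z + rad n R b • w, z) ∈ T b} 1 w :=
          (lintegral_finsetSum _ fun b _ => measurable_one.indicator (hWm b)).symm
      _ ≤ ∫⁻ _ in ball (0 : EuclideanSpace ℝ (Fin n)) 1, ((L1 * (n / L2 + 1) : ℕ) : ℝ≥0∞) := by
          refine setLIntegral_mono' measurableSet_ball fun w hw => ?_
          rw [mem_ball_zero_iff] at hw
          have e1 : ∑ b ∈ I, Set.indicator {w : EuclideanSpace ℝ (Fin n) |
              (z + rad n R b • w, z) ∈ T b} (1 : EuclideanSpace ℝ (Fin n) → ℝ≥0∞) w =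
              ((I.filter fun b => (z + rad n R b • w, z) ∈ T b).card : ℝ≥0∞) := by
            rw [Finset.card_filter]
            push_cast
            refine Finset.sum_congr rfl fun b _ => ?_
            by_cases h : (z + rad n R b • w, z) ∈ T b
            · rw [if_pos h, Set.indicator_of_mem (show w ∈ {w : EuclideanSpace ℝ (Fin n) |
                (z + rad n R b • w, z) ∈ T b} from h)]
              rfl
            · rw [if_neg h, Set.indicator_of_notMem (show w ∉ {w : EuclideanSpace ℝ (Fin n) |
                (z + rad n R b • w, z) ∈ T b} from h)]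
          rw [e1]
          have h7 := ray_card (n := n) (L1 := L1) hL2
            (I.filter fun b => (z + rad n R b • w, z) ∈ T b) ?_ ?_
          · exact_mod_cast h7
          · intro a ha
            exact (Finset.mem_Icc.1 (Finset.mem_filter.1 ha).1).2
          · intro a ha b hb hab hab'
            obtain ⟨ha1, ha2⟩ := Finset.mem_filter.1 ha
            obtain ⟨hb1, hb2⟩ := Finset.mem_filter.1 hb
            exact hgap z w a b hw.le hab hab' (Finset.mem_Icc.1 hb1).2 (Finset.mem_Icc.1 ha1).1
              ha2.1 ha2.2.1 ha2.2.2 hb2.1 hb2.2.1 hb2.2.2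
      _ = _ := by rw [setLIntegral_const]
  -- conclusion
  have h5 : ∀ b, Measurable fun z => f z *
      (V⁻¹ * volume {w : EuclideanSpace ℝ (Fin n) | (z + rad n R b • w, z) ∈ T b}) := by
    intro b
    refine hf.mul (Measurable.const_mul ?_ _)
    have h6 : MeasurableSet {q : EuclideanSpace ℝ (Fin n) × EuclideanSpace ℝ (Fin n) |
        (q.1 + rad n R b • q.2, q.1) ∈ T b} := by
      have : Measurable fun q : EuclideanSpace ℝ (Fin n) × EuclideanSpace ℝ (Fin n) =>
        (q.1 + rad n R b • q.2, q.1) := by fun_prop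
      exact this (hTm b)
    exact measurable_measure_prodMk_left h6
  calc _ ≤ _ := h1
    _ = ∑ b ∈ I, ∫⁻ z, f z *
        (V⁻¹ * volume {w : EuclideanSpace ℝ (Fin n) | (z + rad n R b • w, z) ∈ T b}) :=
        Finset.sum_congr rfl fun b _ => by rw [h2, h3]
    _ = ∫⁻ z, ∑ b ∈ I, f z *
        (V⁻¹ * volume {w : EuclideanSpace ℝ (Fin n) | (z + rad n R b • w, z) ∈ T b}) :=
        (lintegral_finsetSum _ fun b _ => h5 b).symm
    _ ≤ ∫⁻ z, ((L1 * (n / L2 + 1) : ℕ) : ℝ≥0∞) * f z := by
        refine lintegral_mono fun z => ?_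
        rw [← Finset.mul_sum, ← Finset.mul_sum]
        calc f z * (V⁻¹ * ∑ b ∈ I, volume {w : EuclideanSpace ℝ (Fin n) |
              (z + rad n R b • w, z) ∈ T b}) ≤
            f z * (V⁻¹ * (((L1 * (n / L2 + 1) : ℕ) : ℝ≥0∞) * V)) := by
              gcongr
              exact h4 z
          _ = ((L1 * (n / L2 + 1) : ℕ) : ℝ≥0∞) * f z * (V⁻¹ * V) := by ring
          _ = _ := by rw [ENNReal.inv_mul_cancel hV0 hVt, mul_one]
    _ = _ := lintegral_const_mul _ hf

end Pool.MaxFn
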