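import Pool.Agent.MaxFn.GoodBound
import Pool.Agent.MaxFn.RayClaim
import Pool.Agent.MaxFn.RayCount

/-!
The bound for one level set (polylogarithmic bound, MP_a6dc0c_an).
-/

set_option autoImplicit false

open MeasureTheory Metric
open scoped ENNReal RealInnerProductSpace

namespace Pool.MaxFn

theorem log_param (n : ℕ) (hn : 4 ≤ n) (p : ℕ) (hp : 1 ≤ p) (hpn : 16 * n ^ 2 ≤ 2 ^ p) :
    Real.log (2 * (p * n)) ≤ 2 * p := by
  have hn0 : (4 : ℝ) ≤ n := by exact_mod_cast hn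
  have hp0 : (1 : ℝ) ≤ p := by exact_mod_cast hp
  have h1 : (16 : ℝ) * n ^ 2 ≤ 2 ^ p := by exact_mod_cast hpn
  have h2 : Real.log ((16 : ℝ) * n ^ 2) ≤ p * Real.log 2 := by
    rw [← Real.log_pow]
    exact Real.log_le_log (by positivity) h1
  have h3 : Real.log ((16 : ℝ) * n ^ 2) = 4 * Real.log 2 + 2 * Real.log n := by
    rw [Real.log_mul (by norm_num) (by positivity), Real.log_pow,
      show (16 : ℝ) = 2 ^ 4 by norm_num, Real.log_pow]
    norm_num
  have h4 : Real.log p ≤ p - 1 := Real.log_le_sub_one_of_pos (by linarith)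
  have h5 : Real.log (2 * (p * n)) = Real.log 2 + (Real.log p + Real.log n) := by
    rw [Real.log_mul (by norm_num) (by positivity), Real.log_mul (by positivity) (by positivity)]
  have h6 := Real.log_two_lt_d9
  have h7 := Real.log_two_gt_d9
  rw [h3] at h2
  rw [h5]
  nlinarith

theorem two_le_param (n : ℕ) (hn : 4 ≤ n) (p : ℕ) (hp : 1 ≤ p) (hpn : 16 * n ^ 2 ≤ 2 ^ p) :
    (2 : ℝ) ≤ p := by
  have : 2 ≤ p := by
    by_contra hcon
    have h1 : p = 1 := by omega
    subst h1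
    have h2 : 4 ^ 2 ≤ n ^ 2 := Nat.pow_le_pow_left hn 2
    omega
  exact_mod_cast this

section

variable (n : ℕ) (R : ℝ) (f : EuclideanSpace ℝ (Fin n) → ℝ≥0∞) (s : ℝ≥0∞) (p : ℕ)

theorem rays_posP (hn : 4 ≤ n) (hR : 0 < R) (hf : Measurable f) (hfi : ∫⁻ x, f x ≠ ∞)
    (hs : s ≠ 0) (hs' : s ≠ ∞) (hp : 1 ≤ p) (hpn : 16 * n ^ 2 ≤ 2 ^ p) (h4 : 4 * p ≤ n) :
    ∫⁻ x in lev n R f s ∩ {x | 17 * p ≤ fst n R f s x},
      (vb n R (fst n R f s x))⁻¹ * ∫⁻ z in posP n R f s p x, f z ≤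
    (((272 * p ^ 2 + 1) * (n / (n / (4 * p)) + 1) : ℕ) : ℝ≥0∞) * ∫⁻ z, f z := by
  have hn0 : (0 : ℝ) < n := by exact_mod_cast (by omega : 0 < n)
  have hp0 : (1 : ℝ) ≤ p := by exact_mod_cast hp
  have hlog := log_param n hn p hp hpn
  have hp2 := two_le_param n hn p hp hpn
  have hL2 : 1 ≤ n / (4 * p) := (Nat.one_le_div_iff (by omega)).2 h4
  have e1 : (2 : ℝ) / (1 / (p * n)) = 2 * (p * n) := by field_simp
  have e2 : (4 : ℝ) / (1 / (4 * p)) = 16 * p := by field_simp; ring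
  refine rays_abs n (by omega) R hR f hf s (posP n R f s p)
    (measurableSet_posSet n R f hf hfi s _ _) (fun x z hz => hz.1) (272 * p ^ 2 + 1)
    (n / (4 * p)) (17 * p) hL2 ?_
  intro z w a b hw h1 h2 hbn hba ha1 _ _ _ hb2 hb3
  refine ray_claim_pos n (by omega) R hR f s hs hs' (1 / (4 * p)) (1 / (p * n)) (by positivity)
    ?_ (by positivity) ?_ (272 * p ^ 2 + 1) (n / (4 * p)) (17 * p) ?_ ?_ ?_ z w hw a b h1 h2 hbn
    (by omega) hb2 hb3 ha1
  · rw [div_le_one (by positivity)]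
    linarith
  · rw [div_le_one (by positivity)]
    have : (1 : ℝ) ≤ n := by exact_mod_cast (by omega : 1 ≤ n)
    nlinarith
  · rw [e1, e2]
    push_cast
    nlinarith
  · refine (Nat.cast_div_le).trans (le_of_eq ?_)
    push_cast
    ring
  · rw [e1]
    push_cast
    nlinarith

theorem rays_negP (hn : 4 ≤ n) (hR : 0 < R) (hf : Measurable f) (hfi : ∫⁻ x, f x ≠ ∞)
    (hs : s ≠ 0) (hs' : s ≠ ∞) (hp : 1 ≤ p) (hpn : 16 * n ^ 2 ≤ 2 ^ p) (h4 : 4 * p ≤ n) :
    ∫⁻ x in lev n R f s ∩ {x | 17 * p ≤ fst n R f s x},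
      (vb n R (fst n R f s x))⁻¹ * ∫⁻ z in negP n R f s p x, f z ≤
    (((272 * p ^ 2 + 1) * (n / (n / (4 * p)) + 1) : ℕ) : ℝ≥0∞) * ∫⁻ z, f z := by
  have hn0 : (0 : ℝ) < n := by exact_mod_cast (by omega : 0 < n)
  have hp0 : (1 : ℝ) ≤ p := by exact_mod_cast hp
  have hlog := log_param n hn p hp hpn
  have hp2 := two_le_param n hn p hp hpn
  have hL2 : 1 ≤ n / (4 * p) := (Nat.one_le_div_iff (by omega)).2 h4
  have e1 : (2 : ℝ) / (1 / (p * n)) = 2 * (p * n) := by field_simp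
  have e2 : (4 : ℝ) / (1 / (4 * p)) = 16 * p := by field_simp; ring
  refine rays_abs n (by omega) R hR f hf s (negP n R f s p)
    (measurableSet_negSet n R f hf hfi s _ _) (fun x z hz => hz.1) (272 * p ^ 2 + 1)
    (n / (4 * p)) (17 * p) hL2 ?_
  intro z w a b hw h1 h2 hbn hba _ ha2 ha3 hb1 _ _
  refine ray_claim_neg n (by omega) R hR f s hs hs' (1 / (4 * p)) (1 / (p * n)) (by positivity)
    ?_ (by positivity) ?_ (272 * p ^ 2 + 1) (n / (4 * p)) (17 * p) ?_ ?_ ?_ z w hw b a h1 h2 hbn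
    hba ha2 ha3 hb1
  · rw [div_le_one (by positivity)]
    linarith
  · rw [div_le_one (by positivity)]
    have : (1 : ℝ) ≤ n := by exact_mod_cast (by omega : 1 ≤ n)
    nlinarith
  · rw [e1, e2]
    push_cast
    nlinarith
  · refine (Nat.cast_div_le).trans (le_of_eq ?_)
    push_cast
    ring
  · rw [e1]
    push_cast
    nlinarith

theorem count_le (hp : 1 ≤ p) (h4 : 4 * p ≤ n) :
    (272 * p ^ 2 + 1) * (n / (n / (4 * p)) + 1) ≤ 2457 * p ^ 3 := by
  have hL2 : 1 ≤ n / (4 * p) := (Nat.one_le_div_iff (by omega)).2 h4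
  have h1 : n < (4 * p) * (n / (4 * p) + 1) := by
    have := Nat.lt_mul_div_succ n (show 0 < 4 * p by omega)
    exact this
  have h2 : n / (n / (4 * p)) ≤ 8 * p := by
    apply (Nat.div_lt_of_lt_mul ?_).le
    calc n < (4 * p) * (n / (4 * p) + 1) := h1
      _ ≤ (4 * p) * (n / (4 * p) + n / (4 * p)) := by gcongr
      _ = n / (4 * p) * (8 * p) := by ring
  have h3 : 1 ≤ p ^ 2 := Nat.one_le_pow _ _ hp
  calc (272 * p ^ 2 + 1) * (n / (n / (4 * p)) + 1) ≤ (272 * p ^ 2 + p ^ 2) * (8 * p + p) := by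
        gcongr
    _ = 2457 * p ^ 3 := by ring

/-- the bad part: large aligned mass -/
theorem bad_bound (P : EuclideanSpace ℝ (Fin n) → Set (EuclideanSpace ℝ (Fin n))) (M : ℝ≥0∞)
    (hR : 0 < R) (hf : Measurable f)
    (hP : MeasurableSet {q : EuclideanSpace ℝ (Fin n) × EuclideanSpace ℝ (Fin n) | q.2 ∈ P q.1})
    (h : ∫⁻ x in lev n R f s ∩ {x | 17 * p ≤ fst n R f s x},
      (vb n R (fst n R f s x))⁻¹ * ∫⁻ z in P x, f z ≤ M * ∫⁻ z, f z) :
    s * volume ((lev n R f s ∩ {x | 17 * p ≤ fst n R f s x}) ∩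
      {x | ENNReal.ofReal (1 / 20) * WW n R f s x ≤ ∫⁻ z in P x, f z}) ≤
      20 * M * ∫⁻ z, f z := by
  have hlm : MeasurableSet (lev n R f s ∩ {x | 17 * p ≤ fst n R f s x}) :=
    (measurableSet_lev n R f hf s).inter (measurable_fst n R f hf s
    (MeasurableSet.of_discrete (s := {b | 17 * p ≤ b})))
  have hbm : MeasurableSet {x | ENNReal.ofReal (1 / 20) * WW n R f s x ≤ ∫⁻ z in P x, f z} :=
    measurableSet_le ((measurable_WW n R f s hf).const_mul _) (measurable_mass n f P hP hf)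
  have h20 : ENNReal.ofReal (1 / 20) = (20 : ℝ≥0∞)⁻¹ := by
    rw [one_div, ENNReal.ofReal_inv_of_pos (by norm_num)]
    simp
  set L := lev n R f s ∩ {x | 17 * p ≤ fst n R f s x} with hL
  set B := {x | ENNReal.ofReal (1 / 20) * WW n R f s x ≤ ∫⁻ z in P x, f z} with hB
  calc s * volume (L ∩ B) = 20 * (ENNReal.ofReal (1 / 20) * s * volume (L ∩ B)) := by
        rw [h20, ← mul_assoc, ← mul_assoc, ENNReal.mul_inv_cancel (by norm_num) (by norm_num),
          one_mul]
    _ = 20 * ∫⁻ x in L ∩ B, ENNReal.ofReal (1 / 20) * s := by rw [setLIntegral_const]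
    _ ≤ 20 * ∫⁻ x in L ∩ B, (vb n R (fst n R f s x))⁻¹ * ∫⁻ z in P x, f z := by
        refine mul_le_mul_right ?_ _
        refine setLIntegral_mono' (hlm.inter hbm) fun x hx => ?_
        have h1 : ENNReal.ofReal (1 / 20) * WW n R f s x ≤ ∫⁻ z in P x, f z := hx.2
        rw [WW] at h1
        calc ENNReal.ofReal (1 / 20) * s = (vb n R (fst n R f s x))⁻¹ *
              vb n R (fst n R f s x) * (ENNReal.ofReal (1 / 20) * s) := by
              rw [ENNReal.inv_mul_cancel (vb_ne_zero n R hR _) (vb_ne_top n R _), one_mul]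
          _ = (vb n R (fst n R f s x))⁻¹ * (ENNReal.ofReal (1 / 20) *
              (s * vb n R (fst n R f s x))) := by ring
          _ ≤ _ := by gcongr
    _ ≤ 20 * ∫⁻ x in L, (vb n R (fst n R f s x))⁻¹ * ∫⁻ z in P x, f z :=
        mul_le_mul_right (lintegral_mono_set Set.inter_subset_left) _
    _ ≤ 20 * (M * ∫⁻ z, f z) := mul_le_mul_right h _
    _ = _ := by ring

theorem lint_mb (hf : Measurable f) (j : ℕ) :
    ∫⁻ x, mb n R f x j = vb n R j * ∫⁻ z, f z := by
  have hS : MeasurableSet {q : EuclideanSpace ℝ (Fin n) × EuclideanSpace ℝ (Fin n) |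
      dist q.1 q.2 < rad n R j} :=
    measurableSet_lt (continuous_fst.dist continuous_snd).measurable measurable_const
  have e1 : ∀ x, mb n R f x j = ∫⁻ z, ({q : EuclideanSpace ℝ (Fin n) ×
      EuclideanSpace ℝ (Fin n) | dist q.1 q.2 < rad n R j}).indicator (fun q => f q.2) (x, z) := by
    intro x
    rw [mb, ← lintegral_indicator measurableSet_ball]
    refine lintegral_congr fun z => ?_
    by_cases hz : z ∈ ball x (rad n R j)
    · have hz' := hz
      rw [mem_ball, dist_comm] at hz'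
      rw [Set.indicator_of_mem hz, Set.indicator_of_mem (show (x, z) ∈ _ from hz')]
    · have hz' := hz
      rw [mem_ball, dist_comm] at hz'
      rw [Set.indicator_of_notMem hz, Set.indicator_of_notMem (show (x, z) ∉ _ from hz')]
  simp only [e1]
  have hm : Measurable (({q : EuclideanSpace ℝ (Fin n) ×
      EuclideanSpace ℝ (Fin n) | dist q.1 q.2 < rad n R j}).indicator (fun q => f q.2)) :=
    (hf.comp measurable_snd).indicator hS
  have hswap := lintegral_lintegral_swap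
    (μ := (volume : Measure (EuclideanSpace ℝ (Fin n))))
    (ν := (volume : Measure (EuclideanSpace ℝ (Fin n))))
    (f := fun x z => ({q : EuclideanSpace ℝ (Fin n) ×
      EuclideanSpace ℝ (Fin n) | dist q.1 q.2 < rad n R j}).indicator (fun q => f q.2) (x, z))
    (by exact hm.aemeasurable)
  rw [hswap]
  have e2 : ∀ z, ∫⁻ x, ({q : EuclideanSpace ℝ (Fin n) ×
      EuclideanSpace ℝ (Fin n) | dist q.1 q.2 < rad n R j}).indicator (fun q => f q.2) (x, z) =
      vb n R j * f z := by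
    intro z
    have e3 : ∀ x, ({q : EuclideanSpace ℝ (Fin n) ×
      EuclideanSpace ℝ (Fin n) | dist q.1 q.2 < rad n R j}).indicator (fun q => f q.2) (x, z) =
      (ball z (rad n R j)).indicator (fun _ => f z) x := by
      intro x
      by_cases hz : x ∈ ball z (rad n R j)
      · have hz' := hz
        rw [mem_ball] at hz'
        rw [Set.indicator_of_mem hz, Set.indicator_of_mem (show (x, z) ∈ _ from hz')]
      · have hz' := hz
        rw [mem_ball] at hz'
        rw [Set.indicator_of_notMem hz, Set.indicator_of_notMem (show (x, z) ∉ _ from hz')]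
    simp only [e3]
    rw [lintegral_indicator measurableSet_ball, setLIntegral_const, vb, mul_comm]
    congr 1
    exact Measure.addHaar_ball_center _ _ _
  simp only [e2]
  rw [lintegral_const_mul _ hf]

theorem single_bound (hR : 0 < R) (hf : Measurable f) (j : ℕ) :
    s * volume {x | s * vb n R j < mb n R f x j} ≤ ∫⁻ z, f z := by
  have h1 := mul_meas_ge_le_lintegral (μ := (volume : Measure (EuclideanSpace ℝ (Fin n))))
    (measurable_mb n R f hf j) (s * vb n R j)
  rw [lint_mb n R f hf j] at h1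
  have h2 : vb n R j * (s * volume {x | s * vb n R j < mb n R f x j}) ≤
      vb n R j * ∫⁻ z, f z := by
    refine le_trans ?_ h1
    calc vb n R j * (s * volume {x | s * vb n R j < mb n R f x j}) =
          s * vb n R j * volume {x | s * vb n R j < mb n R f x j} := by ring
      _ ≤ _ := by
          refine mul_le_mul_right (measure_mono fun x hx => ?_) _
          have hx' : s * vb n R j < mb n R f x j := hx
          exact hx'.le
  exact (ENNReal.mul_le_mul_iff_right (vb_ne_zero n R hR j) (vb_ne_top n R j)).1 h2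

theorem small_bound (hR : 0 < R) (hf : Measurable f) (m : ℕ) :
    s * volume (lev n R f s ∩ {x | fst n R f s x < m}) ≤ m * ∫⁻ z, f z := by
  have h1 : lev n R f s ∩ {x | fst n R f s x < m} ⊆
      ⋃ j ∈ Finset.range m, {x | s * vb n R j < mb n R f x j} := by
    rintro x ⟨hx, hxm⟩
    simp only [Set.mem_iUnion]
    exact ⟨fst n R f s x, Finset.mem_range.2 hxm, fst_spec n R f s x hx⟩
  calc _ ≤ s * ∑ j ∈ Finset.range m, volume {x | s * vb n R j < mb n R f x j} :=
        mul_le_mul_right ((measure_mono h1).trans (measure_biUnion_finset_le _ _)) _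
    _ = ∑ j ∈ Finset.range m, s * volume {x | s * vb n R j < mb n R f x j} := by
        rw [Finset.mul_sum]
    _ ≤ ∑ j ∈ Finset.range m, ∫⁻ z, f z :=
        Finset.sum_le_sum fun j _ => single_bound n R f s hR hf j
    _ = _ := by simp

theorem lev_ne_top (hR : 0 < R) (hf : Measurable f) (hfi : ∫⁻ x, f x ≠ ∞) (hs : s ≠ 0) :
    volume (lev n R f s) ≠ ∞ := by
  have h1 := small_bound n R f s hR hf (n + 1)
  have e : lev n R f s ∩ {x | fst n R f s x < n + 1} = lev n R f s := by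
    apply Set.inter_eq_left.2
    intro x hx
    exact Nat.lt_succ_of_le (fst_le n R f s x hx)
  rw [e] at h1
  intro hcon
  rw [hcon, ENNReal.mul_top hs] at h1
  exact ENNReal.mul_ne_top (by simp) hfi (top_le_iff.1 h1)

theorem level_bound (hn : 4 ≤ n) (hR : 0 < R) (hf : Measurable f) (hfi : ∫⁻ x, f x ≠ ∞)
    (hs : s ≠ 0) (hs' : s ≠ ∞) (hp : 1 ≤ p) (hpn : 16 * n ^ 2 ≤ 2 ^ p) (h4 : 4 * p ≤ n) :
    s * volume (lev n R f s) ≤ 700000000000000 * (p : ℝ≥0∞) ^ 3 * ∫⁻ x, f x := by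
  have hsub : lev n R f s ⊆ (lev n R f s ∩ {x | fst n R f s x < 17 * p}) ∪ (gd n R f s p ∪
      (((lev n R f s ∩ {x | 17 * p ≤ fst n R f s x}) ∩
      {x | ENNReal.ofReal (1 / 20) * WW n R f s x ≤ ∫⁻ z in posP n R f s p x, f z}) ∪
      ((lev n R f s ∩ {x | 17 * p ≤ fst n R f s x}) ∩
      {x | ENNReal.ofReal (1 / 20) * WW n R f s x ≤ ∫⁻ z in negP n R f s p x, f z}))) := by
    intro x hx
    by_cases h1 : fst n R f s x < 17 * p
    · exact Or.inl ⟨hx, h1⟩
    · right
      push Not at h1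
      by_cases h2 : ENNReal.ofReal (1 / 20) * WW n R f s x ≤ ∫⁻ z in posP n R f s p x, f z
      · exact Or.inr (Or.inl ⟨⟨hx, h1⟩, h2⟩)
      · by_cases h3 : ENNReal.ofReal (1 / 20) * WW n R f s x ≤ ∫⁻ z in negP n R f s p x, f z
        · exact Or.inr (Or.inr ⟨⟨hx, h1⟩, h3⟩)
        · exact Or.inl ⟨⟨hx, h1⟩, (not_le.1 h2).le, (not_le.1 h3).le⟩
  have hA := small_bound n R f s hR hf (17 * p)
  have hgt : volume (gd n R f s p) ≠ ∞ :=
    ne_top_of_le_ne_top (lev_ne_top n R f s hR hf hfi hs) (measure_mono fun x hx => hx.1.1)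
  have hB := good_bound n hn R hR f hf hfi s hs hs' p hp hpn hgt
  have hC := bad_bound n R f s p (posP n R f s p) _ hR hf
    (measurableSet_posSet n R f hf hfi s _ _) (rays_posP n R f s p hn hR hf hfi hs hs' hp hpn h4)
  have hD := bad_bound n R f s p (negP n R f s p) _ hR hf
    (measurableSet_negSet n R f hf hfi s _ _) (rays_negP n R f s p hn hR hf hfi hs hs' hp hpn h4)
  have hc : (((272 * p ^ 2 + 1) * (n / (n / (4 * p)) + 1) : ℕ) : ℝ≥0∞) ≤ 2457 * (p : ℝ≥0∞) ^ 3 := by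
    exact_mod_cast count_le n p hp h4
  have hp1 : (p : ℝ≥0∞) ≤ (p : ℝ≥0∞) ^ 3 := by
    have : p ≤ p ^ 3 := Nat.le_self_pow (by norm_num) p
    exact_mod_cast this
  have hp2 : (p : ℝ≥0∞) ^ 2 ≤ (p : ℝ≥0∞) ^ 3 := by
    have : p ^ 2 ≤ p ^ 3 := Nat.pow_le_pow_right hp (by norm_num)
    exact_mod_cast this
  calc s * volume (lev n R f s) ≤ _ := mul_le_mul_right ((measure_mono hsub).trans
        ((measure_union_le _ _).trans (add_le_add le_rfl ((measure_union_le _ _).trans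
        (add_le_add le_rfl (measure_union_le _ _)))))) _
    _ = s * volume (lev n R f s ∩ {x | fst n R f s x < 17 * p}) +
        (s * volume (gd n R f s p) +
        (s * volume ((lev n R f s ∩ {x | 17 * p ≤ fst n R f s x}) ∩
      {x | ENNReal.ofReal (1 / 20) * WW n R f s x ≤ ∫⁻ z in posP n R f s p x, f z}) +
        s * volume ((lev n R f s ∩ {x | 17 * p ≤ fst n R f s x}) ∩
      {x | ENNReal.ofReal (1 / 20) * WW n R f s x ≤ ∫⁻ z in negP n R f s p x, f z}))) := by
        ring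
    _ ≤ ((17 * p : ℕ) : ℝ≥0∞) * (∫⁻ x, f x) + (600000000000000 * (p : ℝ≥0∞) ^ 2 * (∫⁻ x, f x) +
        (20 * (2457 * (p : ℝ≥0∞) ^ 3) * (∫⁻ x, f x) +
          20 * (2457 * (p : ℝ≥0∞) ^ 3) * (∫⁻ x, f x))) := by
        refine add_le_add hA (add_le_add hB (add_le_add (hC.trans ?_) (hD.trans ?_))) <;> gcongr
    _ ≤ 17 * (p : ℝ≥0∞) ^ 3 * (∫⁻ x, f x) + (600000000000000 * (p : ℝ≥0∞) ^ 3 * (∫⁻ x, f x) +
        (20 * (2457 * (p : ℝ≥0∞) ^ 3) * (∫⁻ x, f x) +
          20 * (2457 * (p : ℝ≥0∞) ^ 3) * (∫⁻ x, f x))) := by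
        push_cast
        gcongr
    _ = 600000000098297 * (p : ℝ≥0∞) ^ 3 * (∫⁻ x, f x) := by ring
    _ ≤ _ := by
        gcongr
        norm_num

end

end Pool.MaxFn
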