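import Pool.Agent.MaxFn.Sqrt
import Pool.Agent.MaxFn.Kernel
import Pool.Agent.MaxFn.Basic2

/-!
Kernel windows: sums of heat kernels over about `2 sqrt n` consecutive times.
-/

set_option autoImplicit false

open MeasureTheory Metric
open scoped ENNReal

namespace Pool.MaxFn

/-- heat kernel at time `j` steps -/
noncomputable def hk (n : ℕ) (R : ℝ) (j : ℕ) (v : EuclideanSpace ℝ (Fin n)) : ℝ≥0∞ :=
  ENNReal.ofReal (heatK n (j * (R ^ 2 / (2 * n ^ 2))) v)

/-- window of times around `n + b` -/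
def win2 (n b : ℕ) : Finset ℕ := Finset.Ico (n + b - Nat.sqrt n) (n + b + Nat.sqrt n)

noncomputable def wk (n : ℕ) (R : ℝ) (b : ℕ) (v : EuclideanSpace ℝ (Fin n)) : ℝ≥0∞ :=
  ∑ j ∈ win2 n b, hk n R j v

theorem card_win2 (n b : ℕ) : (win2 n b).card = 2 * Nat.sqrt n := by
  have := Nat.sqrt_le_self n
  rw [win2, Nat.card_Ico]
  omega

theorem pos_of_mem_win2 (n b j : ℕ) (hn : 1 ≤ n) (hb : 1 ≤ b) (hj : j ∈ win2 n b) : 1 ≤ j := by
  have := Nat.sqrt_le_self n
  rw [win2, Finset.mem_Ico] at hj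
  omega

theorem shell_pos {n : ℕ} {R : ℝ} {x z : EuclideanSpace ℝ (Fin n)} {b : ℕ}
    (hz : z ∈ shell n R x b) : 1 ≤ b := by
  rcases Nat.eq_zero_or_pos b with rfl | h
  · exact absurd (hz.1.trans_lt hz.2) (lt_irrefl _)
  · exact h

theorem shell_sq (n : ℕ) (hn : 1 ≤ n) (R : ℝ) (hR : 0 < R) {x z : EuclideanSpace ℝ (Fin n)} {b : ℕ}
    (hz : z ∈ shell n R x b) :
    R ^ 2 * (1 + ((b : ℝ) - 1) / n) ≤ dist x z ^ 2 ∧ dist x z ^ 2 < R ^ 2 * (1 + b / n) := by
  have hb := shell_pos hz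
  constructor
  · have h := pow_le_pow_left₀ (rad_pos n R hR (b - 1)).le hz.1 2
    rw [rad_sq n hn] at h
    rwa [Nat.cast_sub hb, Nat.cast_one] at h
  · have h := pow_lt_pow_left₀ hz.2 dist_nonneg (n := 2) (by norm_num)
    rwa [rad_sq n hn] at h

theorem sqrt_le_two_mul (n : ℕ) (hn : 1 ≤ n) : Real.sqrt n ≤ 2 * Nat.sqrt n := by
  have h1 : (1 : ℝ) ≤ Nat.sqrt n := by
    exact_mod_cast Nat.sqrt_pos.2 hn
  have h2 : n < (Nat.sqrt n + 1) * (Nat.sqrt n + 1) := Nat.lt_succ_sqrt n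
  have h3 : (n : ℝ) ≤ (2 * Nat.sqrt n) ^ 2 := by
    have : (n : ℝ) < ((Nat.sqrt n : ℝ) + 1) * ((Nat.sqrt n : ℝ) + 1) := by exact_mod_cast h2
    nlinarith
  exact (Real.sqrt_le_left (by positivity)).2 h3

theorem natsqrt_le (n : ℕ) : (Nat.sqrt n : ℝ) ≤ Real.sqrt n := by
  apply Real.le_sqrt_of_sq_le
  have := Nat.sqrt_le' n
  exact_mod_cast this

theorem wk_lower (n : ℕ) (hn : 4 ≤ n) (R : ℝ) (hR : 0 < R) {x z : EuclideanSpace ℝ (Fin n)} {b : ℕ}
    (hz : z ∈ shell n R x b) : 1 ≤ wk n R b (x - z) * (1000 * vb n R b) := by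
  have hb := shell_pos hz
  have hb' : (1 : ℝ) ≤ b := by exact_mod_cast hb
  have hn0 : (0 : ℝ) < n := by exact_mod_cast (by omega : 0 < n)
  obtain ⟨h1, h2⟩ := shell_sq n (by omega) R hR hz
  have hρ : ‖x - z‖ = dist x z := (dist_eq_norm x z).symm
  have hd0 : 0 < dist x z := (rad_pos n R hR _).trans_le hz.1
  have hx : x - z ≠ 0 := by
    rw [← norm_ne_zero_iff, hρ]
    exact hd0.ne'
  have hsq : 0 < Real.sqrt n := Real.sqrt_pos.2 hn0
  have hss : Real.sqrt n * Real.sqrt n = n := Real.mul_self_sqrt hn0.le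
  have hr := natsqrt_le n
  have key : ∀ j ∈ win2 n b, 1 ≤ hk n R j (x - z) * (ENNReal.ofReal (1000 * Real.sqrt n) *
      volume (ball (0 : EuclideanSpace ℝ (Fin n)) ‖x - z‖)) := by
    intro j hj
    have hj1 := pos_of_mem_win2 n b j (by omega) hb hj
    have hj1' : (1 : ℝ) ≤ j := by exact_mod_cast hj1
    rw [win2, Finset.mem_Ico] at hj
    have hsn := Nat.sqrt_le_self n
    have hj2 : (n : ℝ) + b ≤ j + Nat.sqrt n := by
      exact_mod_cast (by omega : n + b ≤ j + Nat.sqrt n)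
    have hj3 : (j : ℝ) + 1 ≤ n + b + Nat.sqrt n := by
      exact_mod_cast (by omega : j + 1 ≤ n + b + Nat.sqrt n)
    apply heatK_lower n hn _ (by positivity) _ hx
    rw [hρ]
    set a : ℝ := n * dist x z ^ 2 / R ^ 2 with ha
    have ha1 : (n : ℝ) + b - 1 ≤ a := by
      rw [ha, le_div_iff₀ (by positivity)]
      have : (n : ℝ) * (R ^ 2 * (1 + ((b : ℝ) - 1) / n)) ≤ n * dist x z ^ 2 := by gcongr
      have e : (n : ℝ) * (R ^ 2 * (1 + ((b : ℝ) - 1) / n)) = (n + b - 1) * R ^ 2 := by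
        field_simp
        ring
      linarith
    have ha2 : a < (n : ℝ) + b := by
      rw [ha, div_lt_iff₀ (by positivity)]
      have : (n : ℝ) * dist x z ^ 2 < n * (R ^ 2 * (1 + b / n)) := by gcongr
      have e : (n : ℝ) * (R ^ 2 * (1 + b / n)) = (n + b) * R ^ 2 := by
        field_simp
      linarith
    have e1 : dist x z ^ 2 / (2 * n) = a * (R ^ 2 / (2 * n ^ 2)) := by
      rw [ha]
      field_simp
    rw [e1]
    have e2 : (j : ℝ) * (R ^ 2 / (2 * n ^ 2)) - a * (R ^ 2 / (2 * n ^ 2)) =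
        (j - a) * (R ^ 2 / (2 * n ^ 2)) := by ring
    rw [e2, abs_mul, abs_of_pos (a := R ^ 2 / (2 * (n : ℝ) ^ 2)) (by positivity),
      mul_div_right_comm]
    apply mul_le_mul_of_nonneg_right _ (by positivity)
    rw [le_div_iff₀ hsq]
    have h5 : |(j : ℝ) - a| ≤ Real.sqrt n := by
      rw [abs_le]
      constructor <;> linarith
    calc |(j : ℝ) - a| * Real.sqrt n ≤ Real.sqrt n * Real.sqrt n := by gcongr
      _ = n := hss
      _ ≤ a := by linarith
  have hsum : ((2 * Nat.sqrt n : ℕ) : ℝ≥0∞) ≤ wk n R b (x - z) *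
      (ENNReal.ofReal (1000 * Real.sqrt n) *
      volume (ball (0 : EuclideanSpace ℝ (Fin n)) ‖x - z‖)) := by
    rw [wk, Finset.sum_mul, ← card_win2 n b]
    have := Finset.sum_le_sum key
    simpa using this
  have h6 : ENNReal.ofReal (Real.sqrt n) ≤ ((2 * Nat.sqrt n : ℕ) : ℝ≥0∞) := by
    rw [← ENNReal.ofReal_natCast]
    apply ENNReal.ofReal_le_ofReal
    have := sqrt_le_two_mul n (by omega)
    push_cast
    exact this
  have h7 : volume (ball (0 : EuclideanSpace ℝ (Fin n)) ‖x - z‖) ≤ vb n R b := by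
    rw [hρ, vb]
    exact measure_mono (ball_subset_ball hz.2.le)
  have h8 : ENNReal.ofReal (Real.sqrt n) * 1 ≤ ENNReal.ofReal (Real.sqrt n) *
      (wk n R b (x - z) * (1000 * vb n R b)) := by
    rw [mul_one]
    calc ENNReal.ofReal (Real.sqrt n) ≤ _ := h6.trans hsum
      _ ≤ wk n R b (x - z) * (ENNReal.ofReal (1000 * Real.sqrt n) * vb n R b) := by gcongr
      _ = _ := by
        rw [ENNReal.ofReal_mul (by norm_num)]
        simp only [ENNReal.ofReal_ofNat]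
        ring
  have h9 : ENNReal.ofReal (Real.sqrt n) ≠ 0 := by simpa using hsq
  exact (ENNReal.mul_le_mul_iff_right h9 ENNReal.ofReal_ne_top).1 h8

theorem wk_upper (n : ℕ) (hn : 4 ≤ n) (R : ℝ) (hR : 0 < R) {x z : EuclideanSpace ℝ (Fin n)} {b : ℕ}
    (hz : z ∈ shell n R x b) : wk n R b (x - z) * vb n R b ≤ 7 := by
  have hb := shell_pos hz
  have hn0 : (0 : ℝ) < n := by exact_mod_cast (by omega : 0 < n)
  have hρ : ‖x - z‖ = dist x z := (dist_eq_norm x z).symm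
  have hd0 : 0 < dist x z := (rad_pos n R hR _).trans_le hz.1
  have hx : x - z ≠ 0 := by
    rw [← norm_ne_zero_iff, hρ]
    exact hd0.ne'
  have hsq : 0 < Real.sqrt n := Real.sqrt_pos.2 hn0
  have key : ∀ j ∈ win2 n b, hk n R j (x - z) * (ENNReal.ofReal (Real.sqrt n) *
      volume (ball (0 : EuclideanSpace ℝ (Fin n)) ‖x - z‖)) ≤ 2 := by
    intro j hj
    have hj1 := pos_of_mem_win2 n b j (by omega) hb hj
    have hj1' : (1 : ℝ) ≤ j := by exact_mod_cast hj1
    exact heatK_upper n (by omega) _ (by positivity) _ hx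
  have hsum : wk n R b (x - z) * (ENNReal.ofReal (Real.sqrt n) *
      volume (ball (0 : EuclideanSpace ℝ (Fin n)) ‖x - z‖)) ≤ ((2 * Nat.sqrt n : ℕ) : ℝ≥0∞) * 2 := by
    rw [wk, Finset.sum_mul, ← card_win2 n b]
    have := Finset.sum_le_sum key
    simpa using this
  have h6 : ((2 * Nat.sqrt n : ℕ) : ℝ≥0∞) * 2 ≤ ENNReal.ofReal (Real.sqrt n) * 4 := by
    rw [← ENNReal.ofReal_natCast, show (2 : ℝ≥0∞) = ENNReal.ofReal 2 by simp,
      show (4 : ℝ≥0∞) = ENNReal.ofReal 4 by simp, ← ENNReal.ofReal_mul (by positivity),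
      ← ENNReal.ofReal_mul (by positivity)]
    apply ENNReal.ofReal_le_ofReal
    have := natsqrt_le n
    push_cast
    linarith
  have h9 : ENNReal.ofReal (Real.sqrt n) ≠ 0 := by simpa using hsq
  have h7 : wk n R b (x - z) * volume (ball (0 : EuclideanSpace ℝ (Fin n)) ‖x - z‖) ≤ 4 := by
    apply (ENNReal.mul_le_mul_iff_right h9 ENNReal.ofReal_ne_top).1
    calc _ = wk n R b (x - z) * (ENNReal.ofReal (Real.sqrt n) *
      volume (ball (0 : EuclideanSpace ℝ (Fin n)) ‖x - z‖)) := by ring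
      _ ≤ _ := hsum.trans h6
  have h8 : vb n R b ≤ ENNReal.ofReal (Real.exp (1 / 2)) *
      volume (ball (0 : EuclideanSpace ℝ (Fin n)) ‖x - z‖) := by
    have h := vb_succ_le n (by omega) R hR (b - 1)
    rw [Nat.sub_add_cancel hb] at h
    refine h.trans ?_
    gcongr
    rw [hρ, vb]
    exact measure_mono (ball_subset_ball hz.1)
  calc wk n R b (x - z) * vb n R b ≤ wk n R b (x - z) * (ENNReal.ofReal (Real.exp (1 / 2)) *
      volume (ball (0 : EuclideanSpace ℝ (Fin n)) ‖x - z‖)) := by gcongr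
    _ = ENNReal.ofReal (Real.exp (1 / 2)) * (wk n R b (x - z) *
      volume (ball (0 : EuclideanSpace ℝ (Fin n)) ‖x - z‖)) := by ring
    _ ≤ ENNReal.ofReal (7 / 4) * 4 := by
      gcongr
      have h10 : Real.exp (1 / 2) ^ 2 = Real.exp 1 := by
        rw [← Real.exp_nat_mul]
        norm_num
      have h11 := Real.exp_one_lt_d9
      nlinarith [Real.exp_pos (1 / 2 : ℝ)]
    _ = 7 := by
      rw [show (4 : ℝ≥0∞) = ENNReal.ofReal 4 by simp, ← ENNReal.ofReal_mul (by norm_num)]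
      norm_num

end Pool.MaxFn
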