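import Pool.Agent.MaxFn.Jensen
import Pool.Agent.MaxFn.Window

/-!
First and second moments for the polylogarithmic bound (MP_a6dc0c_an).
-/

set_option autoImplicit false

open MeasureTheory Metric
open scoped ENNReal

namespace Pool.MaxFn

theorem step_pos (n : ℕ) (hn : 1 ≤ n) (R : ℝ) (hR : 0 < R) : 0 < R ^ 2 / (2 * (n : ℝ) ^ 2) := by
  have : (0 : ℝ) < n := by exact_mod_cast hn
  positivity

/-- one time step of the heat semigroup -/
noncomputable def TT (n : ℕ) (R : ℝ) (h : 0 < R ^ 2 / (2 * (n : ℝ) ^ 2)) :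
    SymMarkov (volume : Measure (EuclideanSpace ℝ (Fin n))) :=
  (heatOp n (R ^ 2 / (2 * (n : ℝ) ^ 2) / 2) (by linarith)).sqr

theorem TT_it (n : ℕ) (R : ℝ) (h : 0 < R ^ 2 / (2 * (n : ℝ) ^ 2)) (j : ℕ)
    (g : EuclideanSpace ℝ (Fin n) → ℝ≥0∞) (hg : Measurable g) (x : EuclideanSpace ℝ (Fin n)) :
    (TT n R h).it (j + 1) g x = ∫⁻ y, hk n R (j + 1) (x - y) * g y := by
  rw [TT, heat_it n _ h j g hg, heatP]
  simp only [hk]
  push_cast
  rfl

theorem hk_comm (n : ℕ) (R : ℝ) (j : ℕ) (x y : EuclideanSpace ℝ (Fin n)) :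
    hk n R j (x - y) = hk n R j (y - x) := by
  rw [hk, hk, heatK_comm]

theorem measurable_hk (n : ℕ) (R : ℝ) (j : ℕ) :
    Measurable (fun q : EuclideanSpace ℝ (Fin n) × EuclideanSpace ℝ (Fin n) =>
      hk n R j (q.1 - q.2)) :=
  (((heatK_continuous n _).measurable.comp (_root_.measurable_fst.sub measurable_snd))).ennreal_ofReal

theorem lint_cs (n : ℕ) (f : EuclideanSpace ℝ (Fin n) → ℝ≥0∞) (hf : Measurable f)
    (Z : EuclideanSpace ℝ (Fin n) → ℝ≥0∞) (hZ : Measurable Z) :
    (∫⁻ z, f z * Z z) ^ 2 ≤ (∫⁻ z, f z) * ∫⁻ z, f z * Z z ^ 2 := by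
  set μ : Measure (EuclideanSpace ℝ (Fin n)) := volume.withDensity f with hμ
  have h1 : ∀ h : EuclideanSpace ℝ (Fin n) → ℝ≥0∞, Measurable h →
      ∫⁻ y, f y * h y = ∫⁻ y, h y ∂μ := by
    intro h hh
    rw [hμ, lintegral_withDensity_eq_lintegral_mul _ hf hh]
    rfl
  have hμ1 : ∫⁻ _, (1 : ℝ≥0∞) ∂μ = ∫⁻ z, f z := by
    rw [← h1 (fun _ => 1) measurable_const]
    simp only [mul_one]
  rw [h1 Z hZ, h1 _ (hZ.pow_const 2)]
  have hcs := ENNReal.lintegral_mul_le_Lp_mul_Lq μ (p := 2) (q := 2)
    (Real.HolderConjugate.two_two) (f := fun _ => (1 : ℝ≥0∞)) (g := Z)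
    aemeasurable_const hZ.aemeasurable
  have h2 : ∫⁻ y, Z y ∂μ ≤ (∫⁻ z, f z) ^ ((1 : ℝ) / 2) * (∫⁻ y, Z y ^ 2 ∂μ) ^ ((1 : ℝ) / 2) := by
    have e1 : ∫⁻ y, ((fun _ : EuclideanSpace ℝ (Fin n) => (1 : ℝ≥0∞)) * Z) y ∂μ =
        ∫⁻ y, Z y ∂μ := lintegral_congr fun y => by rw [Pi.mul_apply, one_mul]
    have e2 : (∫⁻ _ : EuclideanSpace ℝ (Fin n), (1 : ℝ≥0∞) ^ (2 : ℝ) ∂μ) = ∫⁻ z, f z := by
      simp only [ENNReal.one_rpow]
      exact hμ1
    have e3 : ∫⁻ y, Z y ^ (2 : ℝ) ∂μ = ∫⁻ y, Z y ^ 2 ∂μ := by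
      refine lintegral_congr fun y => ?_
      rw [← ENNReal.rpow_natCast]
      norm_num
    rw [e1, e2, e3] at hcs
    exact hcs
  calc (∫⁻ y, Z y ∂μ) ^ 2 ≤ ((∫⁻ z, f z) ^ ((1 : ℝ) / 2) *
        (∫⁻ y, Z y ^ 2 ∂μ) ^ ((1 : ℝ) / 2)) ^ 2 := by gcongr
    _ = (∫⁻ z, f z) * ∫⁻ y, Z y ^ 2 ∂μ := by
        rw [mul_pow, ← ENNReal.rpow_natCast, ← ENNReal.rpow_mul, ← ENNReal.rpow_natCast,
          ← ENNReal.rpow_mul]
        norm_num

section

variable (n : ℕ) (A : Set (EuclideanSpace ℝ (Fin n))) (β : EuclideanSpace ℝ (Fin n) → ℕ)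
  (G : EuclideanSpace ℝ (Fin n) → Set (EuclideanSpace ℝ (Fin n)))

open Classical in
/-- indicator of `x in A`, `z in G x` -/
noncomputable def chi (z x : EuclideanSpace ℝ (Fin n)) : ℝ≥0∞ := if x ∈ A ∧ z ∈ G x then 1 else 0

open Classical in
/-- indicator of `x in A`, `z in G x`, `j` in the window of `x` -/
noncomputable def psi (z : EuclideanSpace ℝ (Fin n)) (j : ℕ) (x : EuclideanSpace ℝ (Fin n)) : ℝ≥0∞ :=
  if x ∈ A ∧ z ∈ G x ∧ j ∈ win2 n (β x) then 1 else 0

theorem measurable_chi (hA : MeasurableSet A)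
    (hG : MeasurableSet {q : EuclideanSpace ℝ (Fin n) × EuclideanSpace ℝ (Fin n) | q.2 ∈ G q.1}) :
    Measurable (fun q : EuclideanSpace ℝ (Fin n) × EuclideanSpace ℝ (Fin n) =>
      chi n A G q.1 q.2) := by
  classical
  apply Measurable.ite _ measurable_const measurable_const
  exact (measurable_snd hA).inter (measurable_swap hG)

theorem measurable_psi (hA : MeasurableSet A) (hβ : Measurable β)
    (hG : MeasurableSet {q : EuclideanSpace ℝ (Fin n) × EuclideanSpace ℝ (Fin n) | q.2 ∈ G q.1})
    (j : ℕ) : Measurable (fun q : EuclideanSpace ℝ (Fin n) × EuclideanSpace ℝ (Fin n) =>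
      psi n A β G q.1 j q.2) := by
  classical
  apply Measurable.ite _ measurable_const measurable_const
  have h1 : MeasurableSet {x | j ∈ win2 n (β x)} := hβ (MeasurableSet.of_discrete (s := {b | j ∈ win2 n b}))
  exact (measurable_snd hA).inter ((measurable_swap hG).inter (measurable_snd h1))

theorem psi_le_one (z : EuclideanSpace ℝ (Fin n)) (j : ℕ) (x : EuclideanSpace ℝ (Fin n)) :
    psi n A β G z j x ≤ 1 := by
  unfold psi
  split_ifs <;> simp

theorem psi_le_chi (z : EuclideanSpace ℝ (Fin n)) (j : ℕ) (x : EuclideanSpace ℝ (Fin n)) :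
    psi n A β G z j x ≤ chi n A G z x := by
  unfold psi chi
  split_ifs with h1 h2
  · exact le_rfl
  · exact absurd ⟨h1.1, h1.2.1⟩ h2
  · simp
  · exact le_rfl

theorem section_meas
    (hG : MeasurableSet {q : EuclideanSpace ℝ (Fin n) × EuclideanSpace ℝ (Fin n) | q.2 ∈ G q.1})
    (x : EuclideanSpace ℝ (Fin n)) : MeasurableSet (G x) :=
  measurable_prodMk_left (x := x) hG

theorem setint_chi (hA : MeasurableSet A)
    (hG : MeasurableSet {q : EuclideanSpace ℝ (Fin n) × EuclideanSpace ℝ (Fin n) | q.2 ∈ G q.1})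
    (h : EuclideanSpace ℝ (Fin n) → EuclideanSpace ℝ (Fin n) → ℝ≥0∞) :
    ∫⁻ x in A, ∫⁻ z in G x, h x z = ∫⁻ x, ∫⁻ z, chi n A G z x * h x z := by
  rw [← lintegral_indicator hA]
  refine lintegral_congr fun x => ?_
  by_cases hx : x ∈ A
  · rw [Set.indicator_of_mem hx, ← lintegral_indicator (section_meas n G hG x)]
    refine lintegral_congr fun z => ?_
    by_cases hz : z ∈ G x
    · rw [Set.indicator_of_mem hz, chi, if_pos ⟨hx, hz⟩, one_mul]
    · rw [Set.indicator_of_notMem hz, chi, if_neg (fun h => hz h.2), zero_mul]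
  · rw [Set.indicator_of_notMem hx]
    symm
    rw [lintegral_eq_zero_iff']
    · refine Filter.Eventually.of_forall fun z => ?_
      simp [chi, hx]
    · refine AEMeasurable.congr (measurable_const (a := (0 : ℝ≥0∞))).aemeasurable ?_
      refine Filter.Eventually.of_forall fun z => ?_
      simp [chi, hx]

theorem sum_psi (R : ℝ) (hn : 4 ≤ n) (hβn : ∀ x ∈ A, β x ≤ n) (z x : EuclideanSpace ℝ (Fin n)) :
    ∑ j ∈ Finset.range (3 * n), psi n A β G z j x * hk n R j (z - x) =
      chi n A G z x * wk n R (β x) (x - z) := by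
  classical
  by_cases hx : x ∈ A ∧ z ∈ G x
  · have hsub : win2 n (β x) ⊆ Finset.range (3 * n) := by
      intro j hj
      have h1 := hβn x hx.1
      have h2 := Nat.sqrt_lt_self (n := n) (by omega)
      rw [win2, Finset.mem_Ico] at hj
      rw [Finset.mem_range]
      omega
    rw [chi, if_pos hx, one_mul, wk, ← Finset.sum_subset hsub]
    · refine Finset.sum_congr rfl fun j hj => ?_
      rw [psi, if_pos ⟨hx.1, hx.2, hj⟩, one_mul, hk_comm]
    · intro j _ hj
      rw [psi, if_neg (fun h => hj h.2.2), zero_mul]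
  · rw [chi, if_neg hx, zero_mul]
    refine Finset.sum_eq_zero fun j _ => ?_
    rw [psi, if_neg (fun h => hx ⟨h.1, h.2.1⟩), zero_mul]

theorem it_psi (R : ℝ) (hn : 4 ≤ n) (h : 0 < R ^ 2 / (2 * (n : ℝ) ^ 2)) (hA : MeasurableSet A)
    (hβ : Measurable β)
    (hG : MeasurableSet {q : EuclideanSpace ℝ (Fin n) × EuclideanSpace ℝ (Fin n) | q.2 ∈ G q.1})
    (hGs : ∀ x, G x ⊆ shell n R x (β x)) (z : EuclideanSpace ℝ (Fin n)) (j : ℕ)
    (F : EuclideanSpace ℝ (Fin n) → ℝ≥0∞) (hF : Measurable F) :
    (TT n R h).it j (fun x => psi n A β G z j x * F x) z =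
      ∫⁻ x, psi n A β G z j x * hk n R j (z - x) * F x := by
  cases j with
  | zero =>
    have h0 : ∀ x, psi n A β G z 0 x = 0 := by
      intro x
      unfold psi
      rw [if_neg]
      rintro ⟨_, h2, h3⟩
      have := pos_of_mem_win2 n (β x) 0 (by omega) (shell_pos (hGs x h2)) h3
      omega
    simp [SymMarkov.it_zero, h0]
  | succ j =>
    have hm : Measurable (fun x => psi n A β G z (j + 1) x * F x) :=
      ((measurable_psi n A β G hA hβ hG (j + 1)).comp measurable_prodMk_left).mul hF
    rw [TT_it n R h j _ hm]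
    refine lintegral_congr fun x => ?_
    ring

theorem moment_eq (R : ℝ) (hn : 4 ≤ n) (h : 0 < R ^ 2 / (2 * (n : ℝ) ^ 2)) (hA : MeasurableSet A)
    (hβ : Measurable β) (hβn : ∀ x ∈ A, β x ≤ n)
    (hG : MeasurableSet {q : EuclideanSpace ℝ (Fin n) × EuclideanSpace ℝ (Fin n) | q.2 ∈ G q.1})
    (hGs : ∀ x, G x ⊆ shell n R x (β x))
    (f : EuclideanSpace ℝ (Fin n) → ℝ≥0∞) (hf : Measurable f)
    (F : EuclideanSpace ℝ (Fin n) → EuclideanSpace ℝ (Fin n) → ℝ≥0∞)
    (hF : Measurable (fun q : EuclideanSpace ℝ (Fin n) × EuclideanSpace ℝ (Fin n) => F q.1 q.2)) :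
    ∫⁻ z, f z * ∑ j ∈ Finset.range (3 * n),
      (TT n R h).it j (fun x => psi n A β G z j x * F z x) z =
    ∫⁻ x in A, ∫⁻ z in G x, wk n R (β x) (x - z) * (f z * F z x) := by
  rw [setint_chi n A G hA hG]
  have hm1 : ∀ j, Measurable (fun q : EuclideanSpace ℝ (Fin n) × EuclideanSpace ℝ (Fin n) =>
      psi n A β G q.1 j q.2 * hk n R j (q.1 - q.2) * F q.1 q.2) := fun j =>
    ((measurable_psi n A β G hA hβ hG j).mul (measurable_hk n R j)).mul hF
  have e1 : ∀ z, f z * ∑ j ∈ Finset.range (3 * n),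
      (TT n R h).it j (fun x => psi n A β G z j x * F z x) z =
      ∫⁻ x, chi n A G z x * (wk n R (β x) (x - z) * (f z * F z x)) := by
    intro z
    have hFz : Measurable (F z) := hF.comp measurable_prodMk_left
    calc _ = f z * ∑ j ∈ Finset.range (3 * n),
          ∫⁻ x, psi n A β G z j x * hk n R j (z - x) * F z x := by
          congr 1
          exact Finset.sum_congr rfl fun j _ => it_psi n A β G R hn h hA hβ hG hGs z j (F z) hFz
      _ = f z * ∫⁻ x, ∑ j ∈ Finset.range (3 * n),
          psi n A β G z j x * hk n R j (z - x) * F z x := by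
          rw [lintegral_finsetSum]
          exact fun j _ => (hm1 j).comp measurable_prodMk_left
      _ = ∫⁻ x, f z * ∑ j ∈ Finset.range (3 * n),
          psi n A β G z j x * hk n R j (z - x) * F z x := by
          rw [lintegral_const_mul]
          exact Finset.measurable_sum _ fun j _ => (hm1 j).comp measurable_prodMk_left
      _ = _ := by
          refine lintegral_congr fun x => ?_
          rw [← Finset.sum_mul, sum_psi n A β G R hn hβn z x]
          ring
  simp only [e1]
  rw [lintegral_lintegral_swap]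
  have hm2 : Measurable (fun q : EuclideanSpace ℝ (Fin n) × EuclideanSpace ℝ (Fin n) =>
      f q.1 * F q.1 q.2 * ∑ j ∈ Finset.range (3 * n),
        psi n A β G q.1 j q.2 * hk n R j (q.1 - q.2)) :=
    ((hf.comp _root_.measurable_fst).mul hF).mul (Finset.measurable_sum _ fun j _ =>
      (measurable_psi n A β G hA hβ hG j).mul (measurable_hk n R j))
  apply hm2.aemeasurable.congr
  refine Filter.Eventually.of_forall fun q => ?_
  simp only [Function.uncurry]
  rw [sum_psi n A β G R hn hβn]
  ring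

theorem moments (R : ℝ) (hR : 0 < R) (hn : 4 ≤ n) (hA : MeasurableSet A)
    (hβ : Measurable β) (hβn : ∀ x ∈ A, β x ≤ n)
    (hG : MeasurableSet {q : EuclideanSpace ℝ (Fin n) × EuclideanSpace ℝ (Fin n) | q.2 ∈ G q.1})
    (hGs : ∀ x, G x ⊆ shell n R x (β x))
    (f : EuclideanSpace ℝ (Fin n) → ℝ≥0∞) (hf : Measurable f) (hfi : ∫⁻ x, f x ≠ ∞) :
    (∫⁻ x in A, (vb n R (β x))⁻¹ * ∫⁻ z in G x, f z) ^ 2 ≤
      7000000 * (∫⁻ z, f z) * ∫⁻ x in A, (vb n R (β x))⁻¹ * ((∫⁻ z in G x, f z) +
        2 * ∑ l ∈ Finset.range (3 * n), ∫⁻ y in A, hk n R (l + 1) (x - y) *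
          ∫⁻ z in G x ∩ G y, f z) := by
  have h := step_pos n (by omega) R hR
  set T := TT n R h with hT
  set Z : EuclideanSpace ℝ (Fin n) → ℝ≥0∞ := fun z =>
    ∑ j ∈ Finset.range (3 * n), T.it j (fun x => psi n A β G z j x * 1) z with hZ
  have hψ : ∀ z j, Measurable (psi n A β G z j) := fun z j =>
    (measurable_psi n A β G hA hβ hG j).comp measurable_prodMk_left
  have hχ : ∀ z, Measurable (chi n A G z) := fun z =>
    (measurable_chi n A G hA hG).comp measurable_prodMk_left
  have hvt : ∀ b, vb n R b ≠ ∞ := fun b => vb_ne_top n R b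
  have hv0 : ∀ b, vb n R b ≠ 0 := fun b => vb_ne_zero n R hR b
  -- first moment
  have hM1 : ∫⁻ z, f z * Z z = ∫⁻ x in A, ∫⁻ z in G x, wk n R (β x) (x - z) * (f z * 1) :=
    moment_eq n A β G R hn h hA hβ hβn hG hGs f hf (fun _ _ => 1) measurable_const
  have hlow : ∫⁻ x in A, (vb n R (β x))⁻¹ * ∫⁻ z in G x, f z ≤ 1000 * ∫⁻ z, f z * Z z := by
    rw [hM1, ← lintegral_const_mul' _ _ (by norm_num)]
    refine lintegral_mono fun x => ?_
    simp only
    rw [← lintegral_const_mul' _ _ (ENNReal.inv_ne_top.2 (hv0 _)),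
      ← lintegral_const_mul' (1000 : ℝ≥0∞) _ (by norm_num)]
    refine setLIntegral_mono' (section_meas n G hG x) fun z hz => ?_
    have h1 := wk_lower n hn R hR (hGs x hz)
    calc (vb n R (β x))⁻¹ * f z ≤ (vb n R (β x))⁻¹ * ((wk n R (β x) (x - z) *
          (1000 * vb n R (β x))) * f z) := by
          gcongr
          exact le_mul_of_one_le_left zero_le h1
      _ = ((vb n R (β x))⁻¹ * vb n R (β x)) * (1000 * (wk n R (β x) (x - z) * (f z * 1))) := by
          ring
      _ = _ := by rw [ENNReal.inv_mul_cancel (hv0 _) (hvt _), one_mul]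
  -- second moment
  set F : EuclideanSpace ℝ (Fin n) → EuclideanSpace ℝ (Fin n) → ℝ≥0∞ := fun z y =>
    1 + 2 * ∑ l ∈ Finset.range (3 * n), T.it (l + 1) (chi n A G z) y with hFdef
  have hFl : ∀ l, Measurable (fun q : EuclideanSpace ℝ (Fin n) × EuclideanSpace ℝ (Fin n) =>
      T.it (l + 1) (chi n A G q.1) q.2) := by
    intro l
    have : (fun q : EuclideanSpace ℝ (Fin n) × EuclideanSpace ℝ (Fin n) =>
      T.it (l + 1) (chi n A G q.1) q.2) = fun q => ∫⁻ y, hk n R (l + 1) (q.2 - y) *
        chi n A G q.1 y := by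
      funext q
      exact TT_it n R h l _ (hχ q.1) q.2
    rw [this]
    apply Measurable.lintegral_prod_right'
      (f := fun q : (EuclideanSpace ℝ (Fin n) × EuclideanSpace ℝ (Fin n)) ×
        EuclideanSpace ℝ (Fin n) => hk n R (l + 1) (q.1.2 - q.2) * chi n A G q.1.1 q.2)
    exact ((measurable_hk n R (l + 1)).comp
      ((measurable_snd.comp _root_.measurable_fst).prodMk measurable_snd)).mul
      ((measurable_chi n A G hA hG).comp
      ((_root_.measurable_fst.comp _root_.measurable_fst).prodMk measurable_snd))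
  have hF : Measurable (fun q : EuclideanSpace ℝ (Fin n) × EuclideanSpace ℝ (Fin n) =>
      F q.1 q.2) :=
    ((Finset.measurable_sum _ fun l _ => hFl l).const_mul 2).const_add 1
  have hM2 := moment_eq n A β G R hn h hA hβ hβn hG hGs f hf F hF
  have hZsq : ∀ z, Z z ^ 2 ≤ ∑ j ∈ Finset.range (3 * n),
      T.it j (fun x => psi n A β G z j x * F z x) z := by
    intro z
    have h1 := Y_sq_le T (3 * n) (3 * n) le_rfl (chi n A G z) (hχ z) (psi n A β G z) (hψ z)
      (psi_le_one n A β G z) (psi_le_chi n A β G z) z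
    rw [Y_eq T _ _ (hψ z)] at h1
    have h2 : Z z = ∑ j ∈ Finset.range (3 * n), T.it j (psi n A β G z j) z := by
      simp only [hZ, mul_one]
    rw [h2]
    exact h1
  have hZm : Measurable Z := by
    have : Z = fun z => ∫⁻ x, chi n A G z x * (wk n R (β x) (x - z)) := by
      funext z
      simp only [hZ]
      calc _ = ∑ j ∈ Finset.range (3 * n),
            ∫⁻ x, psi n A β G z j x * hk n R j (z - x) * 1 :=
            Finset.sum_congr rfl fun j _ => it_psi n A β G R hn h hA hβ hG hGs z j (fun _ => 1)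
              measurable_const
        _ = ∫⁻ x, ∑ j ∈ Finset.range (3 * n), psi n A β G z j x * hk n R j (z - x) * 1 := by
            rw [lintegral_finsetSum]
            exact fun j _ => ((hψ z j).mul ((measurable_hk n R j).comp measurable_prodMk_left)).mul
              measurable_const
        _ = _ := by
            refine lintegral_congr fun x => ?_
            simp only [mul_one]
            rw [sum_psi n A β G R hn hβn z x]
    rw [this]
    have hm2 : Measurable (fun q : EuclideanSpace ℝ (Fin n) × EuclideanSpace ℝ (Fin n) =>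
        ∑ j ∈ Finset.range (3 * n), psi n A β G q.1 j q.2 * hk n R j (q.1 - q.2)) :=
      (Finset.measurable_sum _ fun j _ =>
        (measurable_psi n A β G hA hβ hG j).mul (measurable_hk n R j))
    simp only [sum_psi n A β G R hn hβn] at hm2
    exact hm2.lintegral_prod_right'
  have hup : ∫⁻ z, f z * Z z ^ 2 ≤ 7 * ∫⁻ x in A, (vb n R (β x))⁻¹ * ((∫⁻ z in G x, f z) +
        2 * ∑ l ∈ Finset.range (3 * n), ∫⁻ y in A, hk n R (l + 1) (x - y) *
          ∫⁻ z in G x ∩ G y, f z) := by
    calc ∫⁻ z, f z * Z z ^ 2 ≤ ∫⁻ z, f z * ∑ j ∈ Finset.range (3 * n),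
          T.it j (fun x => psi n A β G z j x * F z x) z := by
          refine lintegral_mono fun z => ?_
          simp only
          gcongr
          exact hZsq z
      _ = ∫⁻ x in A, ∫⁻ z in G x, wk n R (β x) (x - z) * (f z * F z x) := hM2
      _ ≤ ∫⁻ x in A, 7 * ((vb n R (β x))⁻¹ * ∫⁻ z in G x, f z * F z x) := by
          refine lintegral_mono fun x => ?_
          simp only
          rw [← mul_assoc, ← lintegral_const_mul' _ _ (ENNReal.mul_ne_top (by norm_num)
            (ENNReal.inv_ne_top.2 (hv0 _)))]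
          refine setLIntegral_mono' (section_meas n G hG x) fun z hz => ?_
          have h1 := wk_upper n hn R hR (hGs x hz)
          gcongr
          rw [← div_eq_mul_inv, ENNReal.le_div_iff_mul_le (Or.inl (hv0 _)) (Or.inl (hvt _))]
          exact h1
      _ = 7 * ∫⁻ x in A, (vb n R (β x))⁻¹ * ∫⁻ z in G x, f z * F z x :=
          lintegral_const_mul' _ _ (by norm_num)
      _ = _ := by
          congr 1
          refine lintegral_congr fun x => ?_
          congr 1
          simp only [hFdef, mul_add, mul_one]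
          rw [lintegral_add_left hf]
          congr 1
          have e2 : ∀ z, f z * (2 * ∑ l ∈ Finset.range (3 * n), T.it (l + 1) (chi n A G z) x) =
              2 * ∑ l ∈ Finset.range (3 * n), f z * T.it (l + 1) (chi n A G z) x := by
            intro z
            rw [mul_left_comm, Finset.mul_sum]
          simp only [e2]
          rw [lintegral_const_mul' _ _ (by norm_num), lintegral_finsetSum]
          · congr 1
            refine Finset.sum_congr rfl fun l _ => ?_
            have e3 : ∀ z, f z * T.it (l + 1) (chi n A G z) x =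
                ∫⁻ y, f z * (hk n R (l + 1) (x - y) * chi n A G z y) := by
              intro z
              rw [hT, TT_it n R h l _ (hχ z), lintegral_const_mul]
              exact ((measurable_hk n R (l + 1)).comp measurable_prodMk_left).mul (hχ z)
            simp only [e3]
            rw [lintegral_lintegral_swap, ← lintegral_indicator hA]
            · refine lintegral_congr fun y => ?_
              by_cases hy : y ∈ A
              · rw [Set.indicator_of_mem hy, Set.inter_comm,
                  ← Measure.restrict_restrict (section_meas n G hG y), ← lintegral_indicator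
                  (section_meas n G hG y), ← lintegral_const_mul]
                · refine lintegral_congr fun z => ?_
                  by_cases hz : z ∈ G y
                  · rw [Set.indicator_of_mem hz, chi, if_pos ⟨hy, hz⟩]
                    ring
                  · rw [Set.indicator_of_notMem hz, chi, if_neg (fun h => hz h.2)]
                    ring
                · exact hf.indicator (section_meas n G hG y)
              · rw [Set.indicator_of_notMem hy]
                have : ∀ z, f z * (hk n R (l + 1) (x - y) * chi n A G z y) = 0 := by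
                  intro z
                  rw [chi, if_neg (fun h => hy h.1)]
                  ring
                simp only [this, lintegral_zero]
            · apply Measurable.aemeasurable
              exact (hf.comp _root_.measurable_fst).mul
                (((measurable_hk n R (l + 1)).comp (measurable_const.prodMk measurable_snd)).mul
                (measurable_chi n A G hA hG))
          · intro l _
            exact hf.mul ((hFl l).comp (measurable_id.prodMk measurable_const))
  -- Cauchy-Schwarz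
  have hCS := lint_cs n f hf Z hZm
  calc _ ≤ (1000 * ∫⁻ z, f z * Z z) ^ 2 := by gcongr
    _ = 1000000 * (∫⁻ z, f z * Z z) ^ 2 := by rw [mul_pow]; norm_num
    _ ≤ 1000000 * ((∫⁻ z, f z) * (7 * ∫⁻ x in A, (vb n R (β x))⁻¹ * ((∫⁻ z in G x, f z) +
        2 * ∑ l ∈ Finset.range (3 * n), ∫⁻ y in A, hk n R (l + 1) (x - y) *
          ∫⁻ z in G x ∩ G y, f z))) := by
        gcongr
        exact hCS.trans (by gcongr)
    _ = _ := by ring

end

end Pool.MaxFn
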