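import Pool.Agent.MaxFn.Markov

/-!
Pair sums with shifts for symmetric Markov operators (module P4 of MP_a6dc0c_an).
-/

set_option autoImplicit false

open MeasureTheory
open scoped ENNReal

namespace Pool.MaxFn

variable {X : Type*} [MeasurableSpace X] {m : Measure X}

open SymMarkov

omit [MeasurableSpace X] in
private theorem shift_hblock (ψ : ℕ → X → ℝ≥0∞)
    (h1 : ∀ N x, ∑ i ∈ Finset.range N, ψ i x ≤ 1) (L b : ℕ) (x : X) :
    ∑ i ∈ Finset.range L, ψ (b + i) x ≤ 1 := by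
  refine le_trans ?_ (h1 (b + L) x)
  rw [Finset.sum_range_add]
  exact le_add_self

private theorem shift_hblockfin (ψ : ℕ → X → ℝ≥0∞) (hψ : ∀ i, Measurable (ψ i))
    (hfin : ∀ i, ∫⁻ x, ψ i x ∂m ≠ ∞) (L b : ℕ) :
    ∫⁻ x, ∑ i ∈ Finset.range L, ψ (b + i) x ∂m ≠ ∞ := by
  rw [lintegral_finsetSum _ (fun i _ => hψ (b + i))]
  exact ENNReal.sum_ne_top.2 fun i _ => hfin (b + i)

/-- The forward block sum. -/
private theorem shift_VR (S : SymMarkov m) (ψ : ℕ → X → ℝ≥0∞) (hψ : ∀ i, Measurable (ψ i))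
    (h1 : ∀ N x, ∑ i ∈ Finset.range N, ψ i x ≤ 1) (hfin : ∀ i, ∫⁻ x, ψ i x ∂m ≠ ∞) (L a : ℕ) :
    ∫⁻ x, (∑ i ∈ Finset.range L, S.sqr.it i (ψ (a + i)) x) ^ 2 ∂m ≤
      4 * ∑ i ∈ Finset.range L, ∫⁻ x, ψ (a + i) x ∂m := by
  have := lint_V_sq S L (fun i => ψ (a + i)) (fun i => hψ _) (shift_hblock ψ h1 L a)
    (shift_hblockfin ψ hψ hfin L a)
  rw [lintegral_finsetSum _ (fun i _ => hψ (a + i))] at this
  refine le_trans (le_of_eq ?_) this
  congr 1
  funext x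
  simp only [sqr_it]

/-- The backward block sum. -/
private theorem shift_VL (S : SymMarkov m) (ψ : ℕ → X → ℝ≥0∞) (hψ : ∀ i, Measurable (ψ i))
    (h1 : ∀ N x, ∑ i ∈ Finset.range N, ψ i x ≤ 1) (hfin : ∀ i, ∫⁻ x, ψ i x ∂m ≠ ∞) (L a : ℕ) :
    ∫⁻ x, (∑ j ∈ Finset.range L, S.sqr.it (L - j) (ψ (a + j)) x) ^ 2 ∂m ≤
      4 * ∑ i ∈ Finset.range L, ∫⁻ x, ψ (a + i) x ∂m := by
  set VL : X → ℝ≥0∞ := fun x => ∑ j ∈ Finset.range L, S.sqr.it (L - j) (ψ (a + j)) x with hVL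
  show ∫⁻ x, VL x ^ 2 ∂m ≤ _
  set W : X → ℝ≥0∞ := fun x => ∑ k ∈ Finset.range L, S.sqr.it k (ψ (a + (L - 1 - k))) x with hW
  have hWm : Measurable W := Finset.measurable_sum _ fun i _ => S.sqr.it_meas _ (hψ _)
  have e : VL = S.sqr.op W := by
    rw [hW, S.sqr.op_sum _ _ (fun k => S.sqr.it_meas k (hψ _))]
    funext x
    simp only [hVL]
    rw [← Finset.sum_range_reflect]
    apply Finset.sum_congr rfl
    intro k hk
    have hk' := Finset.mem_range.1 hk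
    rw [← it_succ']
    congr 2
    omega
  have e2 : ∫⁻ x, VL x ^ 2 ∂m ≤ ∫⁻ x, W x ^ 2 ∂m := by
    rw [e]
    calc ∫⁻ x, (S.sqr.op W x) ^ 2 ∂m ≤ ∫⁻ x, S.sqr.op (fun y => W y ^ 2) x ∂m :=
          lintegral_mono (S.sqr.sq _ hWm)
      _ = _ := S.sqr.lint_op (hWm.pow_const 2)
  have hrefl : ∀ x, ∑ i ∈ Finset.range L, ψ (a + (L - 1 - i)) x =
      ∑ i ∈ Finset.range L, ψ (a + i) x := fun x =>
    Finset.sum_range_reflect (fun i => ψ (a + i) x) L
  have := lint_V_sq S L (fun k => ψ (a + (L - 1 - k))) (fun i => hψ _)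
    (fun x => by rw [hrefl x]; exact shift_hblock ψ h1 L a x)
    (by simp only [hrefl]; exact shift_hblockfin ψ hψ hfin L a)
  simp only [hrefl] at this
  rw [lintegral_finsetSum _ (fun i _ => hψ (a + i))] at this
  refine e2.trans (le_trans (le_of_eq ?_) this)
  congr 1
  funext x
  simp only [hW, sqr_it]

/-- The cross term of two blocks of the same length `B`, with an extra shift `e`. -/
theorem block_cross (S : SymMarkov m) (ψ : ℕ → X → ℝ≥0∞) (hψ : ∀ i, Measurable (ψ i))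
    (h1 : ∀ N x, ∑ i ∈ Finset.range N, ψ i x ≤ 1) (hfin : ∀ i, ∫⁻ x, ψ i x ∂m ≠ ∞)
    (B p q e : ℕ) :
    ∑ a ∈ Finset.range B, ∑ b ∈ Finset.range B,
      ∫⁻ x, ψ (p + a) x * S.sqr.it ((B - a) + b + e) (ψ (q + b)) x ∂m ≤
    2 * ∑ a ∈ Finset.range B, ∫⁻ x, ψ (p + a) x ∂m +
      2 * ∑ b ∈ Finset.range B, ∫⁻ x, ψ (q + b) x ∂m := by
  set VR : X → ℝ≥0∞ := fun x => ∑ i ∈ Finset.range B, S.sqr.it i (ψ (q + i)) x with hVR
  set VL : X → ℝ≥0∞ := fun x => ∑ j ∈ Finset.range B, S.sqr.it (B - j) (ψ (p + j)) x with hVL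
  set VE : X → ℝ≥0∞ := fun x => ∑ i ∈ Finset.range B, S.sqr.it (i + e) (ψ (q + i)) x with hVE
  have hVRm : Measurable VR := Finset.measurable_sum _ fun i _ => S.sqr.it_meas _ (hψ _)
  have hVLm : Measurable VL := Finset.measurable_sum _ fun i _ => S.sqr.it_meas _ (hψ _)
  have hVEm : Measurable VE := Finset.measurable_sum _ fun i _ => S.sqr.it_meas _ (hψ _)
  have hR : ∫⁻ x, VR x ^ 2 ∂m ≤ 4 * ∑ i ∈ Finset.range B, ∫⁻ x, ψ (q + i) x ∂m :=
    shift_VR S ψ hψ h1 hfin B q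
  have hL : ∫⁻ x, VL x ^ 2 ∂m ≤ 4 * ∑ i ∈ Finset.range B, ∫⁻ x, ψ (p + i) x ∂m :=
    shift_VL S ψ hψ h1 hfin B p
  have hVE' : VE = S.sqr.it e VR := by
    rw [hVR, S.sqr.it_sum e _ _ (fun k => S.sqr.it_meas k (hψ _))]
    funext x
    simp only [hVE]
    apply Finset.sum_congr rfl
    intro k _
    rw [← it_add, add_comm]
  have hE : ∫⁻ x, VE x ^ 2 ∂m ≤ 4 * ∑ i ∈ Finset.range B, ∫⁻ x, ψ (q + i) x ∂m := by
    rw [hVE']
    exact (lint_it_sq S.sqr e hVRm).trans hR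
  have hcross : ∑ a ∈ Finset.range B, ∑ b ∈ Finset.range B,
      ∫⁻ x, ψ (p + a) x * S.sqr.it ((B - a) + b + e) (ψ (q + b)) x ∂m =
      ∫⁻ x, VL x * VE x ∂m := by
    have e1 : ∀ x, VL x * VE x = ∑ a ∈ Finset.range B, ∑ b ∈ Finset.range B,
        S.sqr.it (B - a) (ψ (p + a)) x * S.sqr.it (b + e) (ψ (q + b)) x := by
      intro x
      simp only [hVL, hVE]
      rw [Finset.sum_mul_sum]
    simp only [e1]
    rw [lintegral_finsetSum _ (f := fun a x => ∑ b ∈ Finset.range B,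
        S.sqr.it (B - a) (ψ (p + a)) x * S.sqr.it (b + e) (ψ (q + b)) x)
      (fun i _ => Finset.measurable_sum _ fun j _ =>
      (S.sqr.it_meas _ (hψ _)).mul (S.sqr.it_meas _ (hψ _)))]
    apply Finset.sum_congr rfl
    intro a _
    rw [lintegral_finsetSum _ (f := fun b x =>
        S.sqr.it (B - a) (ψ (p + a)) x * S.sqr.it (b + e) (ψ (q + b)) x) (fun j _ =>
      (S.sqr.it_meas _ (hψ _)).mul (S.sqr.it_meas _ (hψ _)))]
    apply Finset.sum_congr rfl
    intro b _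
    rw [← S.sqr.it_symm (B - a) (hψ (p + a)) (S.sqr.it_meas (b + e) (hψ (q + b))), ← it_add,
      add_assoc]
  rw [hcross]
  calc ∫⁻ x, VL x * VE x ∂m ≤ ∫⁻ x, (2⁻¹ * VL x ^ 2 + 2⁻¹ * VE x ^ 2) ∂m := by
        apply lintegral_mono
        intro x
        have := mul_le_half (VL x) (VE x)
        rwa [ENNReal.div_eq_inv_mul, ENNReal.div_eq_inv_mul] at this
    _ = 2⁻¹ * ∫⁻ x, VL x ^ 2 ∂m + 2⁻¹ * ∫⁻ x, VE x ^ 2 ∂m := by
        rw [lintegral_add_left ((hVLm.pow_const 2).const_mul _),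
          lintegral_const_mul _ (hVLm.pow_const 2), lintegral_const_mul _ (hVEm.pow_const 2)]
    _ ≤ 2⁻¹ * (4 * ∑ i ∈ Finset.range B, ∫⁻ x, ψ (p + i) x ∂m) +
        2⁻¹ * (4 * ∑ i ∈ Finset.range B, ∫⁻ x, ψ (q + i) x ∂m) := by gcongr
    _ = _ := by
        have : (2⁻¹ : ℝ≥0∞) * 4 = 2 := by
          rw [show (4 : ℝ≥0∞) = 2 * 2 by norm_num, ← mul_assoc,
            ENNReal.inv_mul_cancel (by norm_num) (by norm_num), one_mul]
        rw [← mul_assoc, ← mul_assoc, this]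

private theorem shift_sum_blocks (g : ℕ → ℝ≥0∞) (B M : ℕ) :
    ∑ i ∈ Finset.range M, ∑ a ∈ Finset.range B, g (i * B + a) =
      ∑ a ∈ Finset.range (M * B), g a := by
  induction M with
  | zero => simp
  | succ M ih =>
    rw [Finset.sum_range_succ, ih, add_mul, one_mul, Finset.sum_range_add]

private theorem shift_sum_le (g : ℕ → ℝ≥0∞) (N M : ℕ) (hg : ∀ a, N ≤ a → g a = 0) :
    ∑ a ∈ Finset.range M, g a ≤ ∑ a ∈ Finset.range N, g a := by
  rcases le_total M N with h | h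
  · exact Finset.sum_le_sum_of_subset (Finset.range_mono h)
  · rw [← Finset.sum_subset (Finset.range_mono h)]
    intro a _ ha
    exact hg a (by simpa using ha)

open Classical in
theorem shift_sum (S : SymMarkov m) (ψ : ℕ → X → ℝ≥0∞) (hψ : ∀ i, Measurable (ψ i))
    (h1 : ∀ N x, ∑ i ∈ Finset.range N, ψ i x ≤ 1) (hfin : ∀ i, ∫⁻ x, ψ i x ∂m ≠ ∞)
    (N B V : ℕ) (hB : 1 ≤ B) (hV : V ≤ B) :
    ∑ l ∈ Finset.Ico (8 * B) (16 * B), ∑ a ∈ Finset.range N, ∑ b ∈ Finset.range N,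
      (if |(b : ℤ) - a - l| ≤ V then ∫⁻ x, ψ a x * S.sqr.it l (ψ b) x ∂m else 0) ≤
    52 * (2 * V + 1) * ∑ a ∈ Finset.range N, ∫⁻ x, ψ a x ∂m := by
  -- restrict to indices below N
  set χ : ℕ → X → ℝ≥0∞ := fun i => if i < N then ψ i else fun _ => 0 with hχ
  have hχlt : ∀ i, i < N → χ i = ψ i := fun i hi => if_pos hi
  have hχge : ∀ i, N ≤ i → χ i = fun _ => 0 := fun i hi => if_neg (not_lt.2 hi)
  have hχm : ∀ i, Measurable (χ i) := by
    intro i
    rcases lt_or_ge i N with h | h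
    · rw [hχlt i h]; exact hψ i
    · rw [hχge i h]; exact measurable_const
  have hχle : ∀ i x, χ i x ≤ ψ i x := by
    intro i x
    rcases lt_or_ge i N with h | h
    · rw [hχlt i h]
    · rw [hχge i h]; exact zero_le
  have hχ1 : ∀ N x, ∑ i ∈ Finset.range N, χ i x ≤ 1 := fun N x =>
    (Finset.sum_le_sum fun i _ => hχle i x).trans (h1 N x)
  have hχfin : ∀ i, ∫⁻ x, χ i x ∂m ≠ ∞ := fun i =>
    ne_top_of_le_ne_top (hfin i) (lintegral_mono (hχle i))
  set g : ℕ → ℝ≥0∞ := fun a => ∫⁻ x, χ a x ∂m with hg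
  have hg0 : ∀ a, N ≤ a → g a = 0 := by
    intro a ha
    simp only [hg]
    rw [hχge a ha]
    simp
  have hgN : ∑ a ∈ Finset.range N, g a = ∑ a ∈ Finset.range N, ∫⁻ x, ψ a x ∂m := by
    apply Finset.sum_congr rfl
    intro a ha
    simp only [hg]
    rw [hχlt a (Finset.mem_range.1 ha)]
  -- the summand
  let F : ℕ × ℕ × ℕ × ℕ × ℕ → ℝ≥0∞ := fun u =>
    ∫⁻ x, χ (u.2.2.1 * B + u.2.2.2.1) x *
      S.sqr.it ((B - u.2.2.2.1) + u.2.2.2.2 + ((u.2.1 - 1) * B + u.1 - V))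
        (χ ((u.2.2.1 + u.2.1) * B + u.2.2.2.2)) x ∂m
  let P : Finset (ℕ × ℕ × ℕ) := (Finset.Ico (8 * B) (16 * B) ×ˢ Finset.range N ×ˢ Finset.range N)
    |>.filter (fun t => |(t.2.2 : ℤ) - t.2.1 - t.1| ≤ V)
  let φ : ℕ × ℕ × ℕ → ℕ × ℕ × ℕ × ℕ × ℕ := fun t =>
    (t.1 + V + t.2.1 - t.2.2, t.2.2 / B - t.2.1 / B, t.2.1 / B, t.2.1 % B, t.2.2 % B)
  let U : Finset (ℕ × ℕ × ℕ × ℕ × ℕ) :=
    Finset.range (2 * V + 1) ×ˢ Finset.Ico 6 19 ×ˢ Finset.range N ×ˢ Finset.range B ×ˢ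
      Finset.range B
  have hkey : ∀ t ∈ P, t.1 + V + t.2.1 - t.2.2 < 2 * V + 1 ∧
      t.1 + V + t.2.1 - t.2.2 + t.2.2 = t.1 + V + t.2.1 ∧
      6 ≤ t.2.2 / B - t.2.1 / B ∧ t.2.2 / B - t.2.1 / B < 19 ∧ t.2.1 < N ∧ t.2.2 < N := by
    rintro ⟨l, a, b⟩ ht
    simp only [P, Finset.mem_filter, Finset.mem_product, Finset.mem_Ico, Finset.mem_range] at ht
    obtain ⟨⟨⟨hl1, hl2⟩, ha, hb⟩, habs⟩ := ht
    rw [abs_le] at habs
    have hB0 : 0 < B := hB
    have ha1 : B * (a / B) + a % B = a := Nat.div_add_mod a B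
    have hb1 : B * (b / B) + b % B = b := Nat.div_add_mod b B
    have ha2 : a % B < B := Nat.mod_lt _ hB0
    have hb2 : b % B < B := Nat.mod_lt _ hB0
    have hlow : B * (a / B + 6) ≤ B * (b / B) := by
      rw [mul_add]
      omega
    have hup : B * (b / B) < B * (a / B + 19) := by
      rw [mul_add]
      omega
    have h6 := Nat.le_of_mul_le_mul_left hlow hB0
    have h19 := Nat.lt_of_mul_lt_mul_left hup
    simp only
    refine ⟨?_, ?_, ?_, ?_, ha, hb⟩ <;> omega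
  have hinj : Set.InjOn φ (P : Set (ℕ × ℕ × ℕ)) := by
    rintro ⟨l, a, b⟩ ht ⟨l', a', b'⟩ ht' h
    have h2 := hkey _ ht
    have h3 := hkey _ ht'
    simp only [φ, Prod.mk.injEq] at h h2 h3
    obtain ⟨e1, e2, e3, e4, e5⟩ := h
    have ha1 : B * (a / B) + a % B = a := Nat.div_add_mod a B
    have hb1 : B * (b / B) + b % B = b := Nat.div_add_mod b B
    have ha1' : B * (a' / B) + a' % B = a' := Nat.div_add_mod a' B
    have hb1' : B * (b' / B) + b' % B = b' := Nat.div_add_mod b' B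
    have haa : a = a' := by rw [← ha1, ← ha1', e3, e4]
    have hbd : b / B = b' / B := by omega
    have hbb : b = b' := by rw [← hb1, ← hb1', hbd, e5]
    subst haa
    subst hbb
    have : l = l' := by omega
    rw [this]
  have hterm : ∀ t ∈ P, ∫⁻ x, ψ t.2.1 x * S.sqr.it t.1 (ψ t.2.2) x ∂m = F (φ t) := by
    intro t ht
    have h2 := hkey t ht
    obtain ⟨l, a, b⟩ := t
    simp only at h2
    obtain ⟨c1, c2, c3, c4, c5, c6⟩ := h2
    have hB0 : 0 < B := hB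
    have ha1 : B * (a / B) + a % B = a := Nat.div_add_mod a B
    have hb1 : B * (b / B) + b % B = b := Nat.div_add_mod b B
    have ha2 : a % B < B := Nat.mod_lt _ hB0
    have hb2 : b % B < B := Nat.mod_lt _ hB0
    have e1 : a / B * B + a % B = a := by rw [mul_comm]; exact ha1
    have e2 : (a / B + (b / B - a / B)) * B + b % B = b := by
      have : a / B + (b / B - a / B) = b / B := by omega
      rw [this, mul_comm]; exact hb1
    have e3 : (B - a % B) + b % B + ((b / B - a / B - 1) * B + (l + V + a - b) - V) = l := by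
      obtain ⟨j, hj⟩ : ∃ j, b / B = a / B + (j + 6) := ⟨b / B - a / B - 6, by omega⟩
      rw [hj] at hb1 ⊢
      have e4 : a / B + (j + 6) - a / B - 1 = j + 5 := by omega
      rw [e4]
      have e5 : B * (a / B + (j + 6)) = B * (a / B) + B * j + 6 * B := by ring
      have e6 : (j + 5) * B = B * j + 5 * B := by ring
      rw [e5] at hb1
      rw [e6]
      omega
    simp only [F, φ]
    rw [e1, e2, e3, hχlt a c5, hχlt b c6]
  have hsub : P.image φ ⊆ U := by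
    intro u hu
    rw [Finset.mem_image] at hu
    obtain ⟨t, ht, rfl⟩ := hu
    have h2 := hkey t ht
    have hB0 : 0 < B := hB
    simp only [U, φ, Finset.mem_product, Finset.mem_range, Finset.mem_Ico]
    refine ⟨h2.1, ⟨h2.2.2.1, h2.2.2.2.1⟩, ?_, Nat.mod_lt _ hB0, Nat.mod_lt _ hB0⟩
    exact lt_of_le_of_lt (Nat.div_le_self _ _) h2.2.2.2.2.1
  have hL : ∑ l ∈ Finset.Ico (8 * B) (16 * B), ∑ a ∈ Finset.range N, ∑ b ∈ Finset.range N,
      (if |(b : ℤ) - a - l| ≤ V then ∫⁻ x, ψ a x * S.sqr.it l (ψ b) x ∂m else 0) =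
      ∑ t ∈ P, ∫⁻ x, ψ t.2.1 x * S.sqr.it t.1 (ψ t.2.2) x ∂m := by
    rw [Finset.sum_filter, Finset.sum_product]
    apply Finset.sum_congr rfl
    intro l _
    rw [Finset.sum_product]
  rw [hL, Finset.sum_congr rfl hterm, ← Finset.sum_image hinj]
  refine (Finset.sum_le_sum_of_subset hsub).trans ?_
  rw [← hgN]
  have hUsum : ∑ u ∈ U, F u = ∑ d ∈ Finset.range (2 * V + 1), ∑ j ∈ Finset.Ico 6 19,
      ∑ i ∈ Finset.range N, ∑ a ∈ Finset.range B, ∑ b ∈ Finset.range B, F (d, j, i, a, b) := by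
    simp only [U]
    rw [Finset.sum_product]
    apply Finset.sum_congr rfl
    intro d _
    rw [Finset.sum_product]
    apply Finset.sum_congr rfl
    intro j _
    rw [Finset.sum_product]
    apply Finset.sum_congr rfl
    intro i _
    rw [Finset.sum_product]
  rw [hUsum]
  have hin : ∀ d j, ∑ i ∈ Finset.range N, ∑ a ∈ Finset.range B, ∑ b ∈ Finset.range B,
      F (d, j, i, a, b) ≤ 4 * ∑ a ∈ Finset.range N, g a := by
    intro d j
    calc ∑ i ∈ Finset.range N, ∑ a ∈ Finset.range B, ∑ b ∈ Finset.range B, F (d, j, i, a, b)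
        ≤ ∑ i ∈ Finset.range N, (2 * ∑ a ∈ Finset.range B, g (i * B + a) +
          2 * ∑ b ∈ Finset.range B, g ((i + j) * B + b)) := by
          apply Finset.sum_le_sum
          intro i _
          exact block_cross S χ hχm hχ1 hχfin B (i * B) ((i + j) * B) ((j - 1) * B + d - V)
      _ = 2 * ∑ i ∈ Finset.range N, ∑ a ∈ Finset.range B, g (i * B + a) +
          2 * ∑ i ∈ Finset.range N, ∑ b ∈ Finset.range B, g ((i + j) * B + b) := by
          rw [Finset.sum_add_distrib, Finset.mul_sum, Finset.mul_sum]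
      _ ≤ 2 * ∑ a ∈ Finset.range N, g a + 2 * ∑ a ∈ Finset.range N, g a := by
          gcongr 2 * ?_ + 2 * ?_
          · rw [shift_sum_blocks]
            exact shift_sum_le g N _ hg0
          · have h2 : ∑ i ∈ Finset.range N, ∑ b ∈ Finset.range B, g ((i + j) * B + b) ≤
                ∑ i ∈ Finset.range (j + N), ∑ b ∈ Finset.range B, g (i * B + b) := by
              rw [Finset.sum_range_add]
              refine le_trans (le_of_eq ?_) le_add_self
              apply Finset.sum_congr rfl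
              intro i _
              rw [add_comm j i]
            refine h2.trans ?_
            rw [shift_sum_blocks]
            exact shift_sum_le g N _ hg0
      _ = _ := by ring
  calc ∑ d ∈ Finset.range (2 * V + 1), ∑ j ∈ Finset.Ico 6 19,
      ∑ i ∈ Finset.range N, ∑ a ∈ Finset.range B, ∑ b ∈ Finset.range B, F (d, j, i, a, b)
      ≤ ∑ d ∈ Finset.range (2 * V + 1), ∑ j ∈ Finset.Ico 6 19,
        4 * ∑ a ∈ Finset.range N, g a :=
        Finset.sum_le_sum fun d _ => Finset.sum_le_sum fun j _ => hin d j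
    _ = _ := by
        simp only [Finset.sum_const, Finset.card_range, Nat.card_Ico, nsmul_eq_mul]
        push_cast
        ring

end Pool.MaxFn
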