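import Pool.Agent.MaxFn.Markov
import Pool.Agent.MaxFn.Heat
import Pool.Agent.MaxFn.Local

set_option autoImplicit false

open MeasureTheory
open scoped ENNReal

namespace Pool.MaxFn

theorem heat_it (n : ℕ) (δ : ℝ) (hδ : 0 < δ) (j : ℕ)
    (g : EuclideanSpace ℝ (Fin n) → ℝ≥0∞) (hg : Measurable g) :
    (heatOp n (δ / 2) (by positivity)).sqr.it (j + 1) g = heatP n ((j + 1) * δ) g := by
  induction j with
  | zero =>
    show heatP n (δ / 2) (heatP n (δ / 2) g) = _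
    rw [heatP_heatP n _ _ (by positivity) (by positivity) g hg]
    congr 1
    push_cast
    ring
  | succ j ih =>
    rw [SymMarkov.it_succ', ih]
    show heatP n (δ / 2) (heatP n (δ / 2) _) = _
    have hm : Measurable (heatP n (((j : ℝ) + 1) * δ) g) :=
      (heatOp n _ (by positivity)).meas g hg
    rw [heatP_heatP n _ _ (by positivity) (by positivity) _ hm,
      heatP_heatP n _ _ (by positivity) (by positivity) g hg]
    congr 1
    push_cast
    ring

theorem log_bound (n : ℕ) (hn : 1 ≤ n) :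
    4 * (1 + 4 * ((6 + 3 * Nat.log 2 n : ℕ) : ℝ)) ≤ 100 * (1 + Real.log n) := by
  have h1 : (Nat.log 2 n : ℝ) ≤ Real.log n / Real.log 2 := by
    have := Real.natLog_le_logb n 2
    simpa [Real.logb] using this
  have h2 : (0.6931471803 : ℝ) < Real.log 2 := Real.log_two_gt_d9
  have h3 : 0 ≤ Real.log n := Real.log_natCast_nonneg n
  have h4 : Real.log n / Real.log 2 ≤ 1.5 * Real.log n := by
    rw [div_le_iff₀ (by linarith)]
    nlinarith
  push_cast
  nlinarith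

theorem local_bound (n : ℕ) (hn : 1 ≤ n) (R : ℝ) (hR : 0 < R)
    (f : EuclideanSpace ℝ (Fin n) → ℝ≥0∞) (hf : Measurable f) (hfi : ∫⁻ x, f x ≠ ∞)
    (s : ℝ≥0∞) (hs : s ≠ 0) (hs' : s ≠ ∞) :
    volume (bigSet n f (Set.Icc R ((n + 1) * R)) s) ≤
      ENNReal.ofReal (100 * Real.sqrt n) * (4 * (1 + 4 * ((6 + 3 * Nat.log 2 n : ℕ) : ℝ≥0∞))) / s *
        ∫⁻ x, f x := by
  set K := ENNReal.ofReal (100 * Real.sqrt n) with hK
  have hn0 : (0 : ℝ) < n := by exact_mod_cast hn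
  have hK0 : K ≠ 0 := by
    rw [hK]
    simp only [ne_eq, ENNReal.ofReal_eq_zero, not_le]
    positivity
  have hKt : K ≠ ∞ := ENNReal.ofReal_ne_top
  set δ : ℝ := R ^ 2 / (2 * n ^ 2) with hδ
  have hδ0 : 0 < δ := by positivity
  set p := 6 + 3 * Nat.log 2 n with hp
  have hsK : s / K ≠ 0 := ENNReal.div_ne_zero.2 ⟨hs, hKt⟩
  have hsK' : s / K ≠ ∞ := ENNReal.div_ne_top hs' hK0
  have hw := weak_type (heatOp n (δ / 2) (by positivity)) f hf hfi (s / K) hsK hsK' p
  have hsub : bigSet n f (Set.Icc R ((n + 1) * R)) s ⊆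
      {x | ∃ j < 2 ^ p, s / K < (heatOp n (δ / 2) (by positivity)).sqr.it j f x} := by
    rintro x ⟨r, ⟨hr1, hr2⟩, hx⟩
    have hr0 : 0 < r := hR.trans_le hr1
    set t0 := r ^ 2 / (2 * n) with ht0
    have ht00 : 0 < t0 := by positivity
    have hc : 0 < ⌈t0 / δ⌉₊ := Nat.ceil_pos.2 (by positivity)
    obtain ⟨j, hj⟩ : ∃ j, ⌈t0 / δ⌉₊ = j + 1 := ⟨⌈t0 / δ⌉₊ - 1, by omega⟩
    have hlo : t0 ≤ (j + 1) * δ := by
      have := Nat.le_ceil (t0 / δ)
      rw [hj] at this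
      rw [div_le_iff₀ hδ0] at this
      push_cast at this
      exact this
    have hj' : ((j : ℝ) + 1) < t0 / δ + 1 := by
      have := Nat.ceil_lt_add_one (a := t0 / δ) (by positivity)
      rw [hj] at this
      push_cast at this
      exact this
    have hdt : δ ≤ t0 * (1 / n) := by
      rw [hδ, ht0, div_mul_div_comm, mul_one]
      apply div_le_div₀ (by positivity) _ (by positivity) (le_of_eq (by ring))
      exact pow_le_pow_left₀ hR.le hr1 2
    have hhi : ((j : ℝ) + 1) * δ ≤ t0 * (1 + 1 / n) := by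
      have h1 : ((j : ℝ) + 1) * δ ≤ (t0 / δ + 1) * δ := by gcongr
      have h2 : (t0 / δ + 1) * δ = t0 + δ := by field_simp
      nlinarith
    have hquot : t0 / δ = n * (r / R) ^ 2 := by
      rw [ht0, hδ]
      field_simp
    have hj2 : j + 1 < 2 ^ p := by
      have h1 : (r / R) ≤ n + 1 := by rw [div_le_iff₀ hR]; exact hr2
      have h2 : ((j : ℝ) + 1) < n * (n + 1) ^ 2 + 1 := by
        calc ((j : ℝ) + 1) < t0 / δ + 1 := hj'
          _ = n * (r / R) ^ 2 + 1 := by rw [hquot]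
          _ ≤ _ := by gcongr
      have h3 : j + 1 < n * (n + 1) ^ 2 + 1 := by exact_mod_cast h2
      have h4 : n < 2 ^ (Nat.log 2 n + 1) := Nat.lt_pow_succ_log_self (by norm_num) n
      set q := 2 ^ Nat.log 2 n with hq
      have h5 : 2 ^ p = 64 * q ^ 3 := by
        rw [hp, pow_add, hq, ← pow_mul]
        norm_num
        ring
      rw [pow_succ, ← hq] at h4
      have hq1 : 1 ≤ q := Nat.one_le_two_pow
      rw [h5]
      have h6 : n + 1 ≤ 2 * q := by omega
      have h7 : n * (n + 1) ^ 2 ≤ (2 * q) * (2 * q) ^ 2 := by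
        apply Nat.mul_le_mul (by omega)
        exact Nat.pow_le_pow_left h6 2
      have h8 : (2 * q) * (2 * q) ^ 2 = 8 * q ^ 3 := by ring
      have h9 : 1 ≤ q ^ 3 := Nat.one_le_pow _ _ hq1
      omega
    refine ⟨j + 1, hj2, ?_⟩
    rw [heat_it n δ hδ0 j f hf]
    have h1 := ball_le_heat n hn r ((j + 1) * δ) hr0 hlo hhi f hf x
    have hv0 : volume (Metric.ball x r) ≠ 0 := (Metric.measure_ball_pos _ _ hr0).ne'
    have hvt : volume (Metric.ball x r) ≠ ∞ := measure_ball_lt_top.ne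
    have h2 : s * volume (Metric.ball x r) < K * heatP n ((j + 1) * δ) f x *
        volume (Metric.ball x r) := by
      calc _ < _ := hx
        _ ≤ _ := h1
        _ = _ := by ring
    have h3 : s < K * heatP n ((j + 1) * δ) f x := by
      by_contra hcon
      push Not at hcon
      exact absurd h2 (not_lt.2 (by gcongr))
    rw [ENNReal.div_lt_iff (Or.inl hK0) (Or.inl hKt), mul_comm]
    exact h3
  refine (measure_mono hsub).trans (hw.trans (le_of_eq ?_))
  rw [ENNReal.div_eq_inv_mul, ENNReal.div_eq_inv_mul, ENNReal.div_eq_inv_mul,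
    ENNReal.mul_inv (Or.inl (ENNReal.inv_ne_zero.2 hKt)) (Or.inl (ENNReal.inv_ne_top.2 hK0)),
    inv_inv]
  ring

theorem global_bound (n : ℕ) (hn : 1 ≤ n)
    (f : EuclideanSpace ℝ (Fin n) → ℝ≥0∞) (hf : Measurable f) (hfi : ∫⁻ x, f x ≠ ∞)
    (s : ℝ) (hs : 0 < s) :
    volume (bigSet n f (Set.Ioi 0) (ENNReal.ofReal s)) ≤
      ENNReal.ofReal (50000 * (Real.sqrt n * (1 + Real.log n)) / s) * ∫⁻ x, f x := by
  have h := localize n hn _ (fun R hR f hf hfi s hs hs' => local_bound n hn R hR f hf hfi s hs hs')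
    f hf hfi (ENNReal.ofReal s) (by simpa using hs) ENNReal.ofReal_ne_top
  refine h.trans ?_
  gcongr
  have h1 := log_bound n hn
  have hn1 : (1 : ℝ) ≤ n := by exact_mod_cast hn
  have h3 : 0 ≤ Real.log n := Real.log_natCast_nonneg n
  have hsq : 1 ≤ Real.sqrt n := by
    rw [show (1 : ℝ) = Real.sqrt 1 by simp]
    exact Real.sqrt_le_sqrt hn1
  have e1 : (4 * (1 + 4 * ((6 + 3 * Nat.log 2 n : ℕ) : ℝ≥0∞))) =
      ENNReal.ofReal (4 * (1 + 4 * ((6 + 3 * Nat.log 2 n : ℕ) : ℝ))) := by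
    rw [ENNReal.ofReal_mul (by norm_num), ENNReal.ofReal_add (by norm_num) (by positivity),
      ENNReal.ofReal_mul (by norm_num), ENNReal.ofReal_natCast]
    simp
  rw [e1, ← ENNReal.ofReal_mul (by positivity), show (3 : ℝ≥0∞) = ENNReal.ofReal 3 by simp,
    ← ENNReal.ofReal_add (by norm_num) (by positivity),
    show (4 : ℝ≥0∞) = ENNReal.ofReal 4 by simp, ← ENNReal.ofReal_mul (by norm_num),
    ← ENNReal.ofReal_div_of_pos hs]
  apply ENNReal.ofReal_le_ofReal
  apply div_le_div_of_nonneg_right _ hs.le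
  have h4 : 100 * Real.sqrt n * (4 * (1 + 4 * ((6 + 3 * Nat.log 2 n : ℕ) : ℝ))) ≤
      100 * Real.sqrt n * (100 * (1 + Real.log n)) := by gcongr
  have h5 : 1 ≤ Real.sqrt n * (1 + Real.log n) := by nlinarith
  nlinarith

theorem final : ∃ C : ℝ, 0 < C ∧ ∀ n : ℕ, 1 ≤ n →
    ∀ f : EuclideanSpace ℝ (Fin n) → ℝ, Integrable f →
      ∀ s : ℝ, 0 < s →
        volume {x : EuclideanSpace ℝ (Fin n) |
            ENNReal.ofReal s <
              ⨆ r : ℝ, ⨆ (_ : 0 < r),
                (volume (Metric.ball x r))⁻¹ * ∫⁻ y in Metric.ball x r, ‖f y‖ₑ}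
          ≤ ENNReal.ofReal (C * (Real.sqrt n * (1 + Real.log n)) / s) * ∫⁻ y, ‖f y‖ₑ := by
  refine ⟨50000, by norm_num, fun n hn f hf s hs => ?_⟩
  set g : EuclideanSpace ℝ (Fin n) → ℝ := hf.1.mk f with hg
  have hfg : f =ᵐ[volume] g := hf.1.ae_eq_mk
  have hgm : Measurable (fun x => ‖g x‖ₑ) := hf.1.stronglyMeasurable_mk.measurable.enorm
  have hfg' : (fun x => ‖f x‖ₑ) =ᵐ[volume] fun x => ‖g x‖ₑ := hfg.mono fun x hx => by simp [hx]
  have hI : ∫⁻ x, ‖f x‖ₑ = ∫⁻ x, ‖g x‖ₑ := lintegral_congr_ae hfg'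
  have hIt : ∫⁻ x, ‖g x‖ₑ ≠ ∞ := by
    rw [← hI]
    exact hf.2.ne
  have h := global_bound n hn _ hgm hIt s hs
  rw [hI]
  refine (measure_mono ?_).trans h
  intro x hx
  simp only [Set.mem_ofPred_eq] at hx
  obtain ⟨r, hr⟩ := lt_iSup_iff.1 hx
  obtain ⟨hr0, hr1⟩ := lt_iSup_iff.1 hr
  refine ⟨r, hr0, ?_⟩
  have hv0 : volume (Metric.ball x r) ≠ 0 := (Metric.measure_ball_pos _ _ hr0).ne'
  have hvt : volume (Metric.ball x r) ≠ ∞ := measure_ball_lt_top.ne
  have e : ∫⁻ y in Metric.ball x r, ‖f y‖ₑ = ∫⁻ y in Metric.ball x r, ‖g y‖ₑ :=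
    lintegral_congr_ae (ae_restrict_of_ae hfg')
  rw [e] at hr1
  by_contra hcon
  push Not at hcon
  apply absurd hr1
  rw [not_lt, mul_comm, ← ENNReal.div_eq_inv_mul.trans (mul_comm _ _)]
  exact ENNReal.div_le_of_le_mul hcon

end Pool.MaxFn
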