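import Pool.Agent.MaxFn.Inner
import Pool.Agent.MaxFn.Shift

/-!
Summation over the time differences (polylogarithmic bound, MP_a6dc0c_an).
-/

set_option autoImplicit false

open MeasureTheory Metric
open scoped ENNReal RealInnerProductSpace

namespace Pool.MaxFn

/-- width of the admissible range of index differences -/
noncomputable def Vf (p l : ℕ) : ℕ := ⌈10 * Real.sqrt (l * p)⌉₊ + 50 * p

theorem Vf_mono (p : ℕ) {l m : ℕ} (h : l ≤ m) : Vf p l ≤ Vf p m := by
  unfold Vf
  gcongr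

theorem le_Vf (p l : ℕ) : 10 * Real.sqrt (l * p) + 50 * p ≤ Vf p l := by
  unfold Vf
  push_cast
  have := Nat.le_ceil (10 * Real.sqrt ((l : ℝ) * p))
  linarith

theorem Vf_le (p l : ℕ) : (Vf p l : ℝ) ≤ 10 * Real.sqrt (l * p) + 50 * p + 1 := by
  unfold Vf
  push_cast
  have := Nat.ceil_lt_add_one (a := 10 * Real.sqrt ((l : ℝ) * p)) (by positivity)
  linarith

theorem Vf_block (p B : ℕ) (hp : 1 ≤ p) (hB : 4096 * p ≤ B) :
    (Vf p (16 * B) : ℝ) ≤ 40 * (Real.sqrt B * Real.sqrt p) + 50 * p + 1 ∧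
    64 * Real.sqrt p ≤ Real.sqrt B ∧ 1 ≤ Real.sqrt p := by
  have hp1 : (1 : ℝ) ≤ p := by exact_mod_cast hp
  have hB1 : (4096 : ℝ) * p ≤ B := by exact_mod_cast hB
  refine ⟨?_, ?_, ?_⟩
  · have h := Vf_le p (16 * B)
    have e : Real.sqrt (((16 * B : ℕ) : ℝ) * p) = 4 * (Real.sqrt B * Real.sqrt p) := by
      push_cast
      rw [show (16 : ℝ) * B * p = 4 ^ 2 * (B * p) by ring, Real.sqrt_mul (by norm_num),
        Real.sqrt_sq (by norm_num), Real.sqrt_mul (by positivity)]
    rw [e] at h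
    linarith
  · have e : Real.sqrt (4096 * (p : ℝ)) = 64 * Real.sqrt p := by
      rw [show (4096 : ℝ) * p = 64 ^ 2 * p by ring, Real.sqrt_mul (by norm_num),
        Real.sqrt_sq (by norm_num)]
    rw [← e]
    exact Real.sqrt_le_sqrt hB1
  · rw [Real.one_le_sqrt]
    exact hp1

theorem Vf_le_block (p B : ℕ) (hp : 1 ≤ p) (hB : 4096 * p ≤ B) : Vf p (16 * B) ≤ B := by
  obtain ⟨h1, h2, h3⟩ := Vf_block p B hp hB
  have hp0 : (0 : ℝ) ≤ p := by positivity
  have hB0 : (0 : ℝ) ≤ B := by positivity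
  have e1 := Real.sq_sqrt hp0
  have e2 := Real.sq_sqrt hB0
  have : (Vf p (16 * B) : ℝ) ≤ B := by
    generalize Real.sqrt (p : ℝ) = w at *
    generalize Real.sqrt (B : ℝ) = u at *
    have hu : 0 ≤ u := by linarith
    have h4 : 64 * (u * w) ≤ u ^ 2 := by nlinarith
    have h5 : 64 * w ^ 2 ≤ u * w := by nlinarith
    have h6 : 1 ≤ w ^ 2 := by nlinarith
    nlinarith
  exact_mod_cast this

theorem block_const (p B : ℕ) (hp : 1 ≤ p) (hB : 4096 * p ≤ B) :
    12 / Real.sqrt ((8 * B : ℕ) : ℝ) * (52 * (2 * (Vf p (16 * B) : ℝ) + 1)) ≤ 20000 * p := by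
  obtain ⟨h1, h2, h3⟩ := Vf_block p B hp hB
  have hp0 : (0 : ℝ) ≤ p := by positivity
  have hB0 : (0 : ℝ) ≤ B := by positivity
  have e1 := Real.sq_sqrt hp0
  have e2 := Real.sq_sqrt hB0
  have e3 : Real.sqrt ((8 * B : ℕ) : ℝ) = Real.sqrt 8 * Real.sqrt B := by
    push_cast
    rw [Real.sqrt_mul (by norm_num)]
  have h8 : (2.82 : ℝ) ≤ Real.sqrt 8 := by
    apply Real.le_sqrt_of_sq_le
    norm_num
  rw [e3]
  have hub : 0 < Real.sqrt B := by linarith
  rw [div_mul_eq_mul_div, div_le_iff₀ (by positivity)]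
  generalize (Vf p (16 * B) : ℝ) = V at *
  have e4 : (p : ℝ) = Real.sqrt p ^ 2 := e1.symm
  generalize Real.sqrt (p : ℝ) = w at *
  rw [e4] at h1 ⊢
  generalize Real.sqrt (B : ℝ) = u at *
  have h5 : 64 * w ^ 2 ≤ u * w := by nlinarith
  have h6 : 1 ≤ w ^ 2 := by nlinarith
  have h7 : u * w ≤ u * w ^ 2 := by nlinarith
  have h9 : 20000 * w ^ 2 * (2.82 * u) ≤ 20000 * w ^ 2 * (Real.sqrt 8 * u) := by gcongr
  nlinarith

section

variable (n : ℕ) (R : ℝ) (A : Set (EuclideanSpace ℝ (Fin n)))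
  (β : EuclideanSpace ℝ (Fin n) → ℕ)

/-- pair interaction at time difference `l` -/
noncomputable def DD (p l : ℕ) : ℝ≥0∞ :=
  ∫⁻ x in A, ∫⁻ y in A ∩ {y | |(β y : ℤ) - (β x : ℕ) - l| ≤ Vf p l}, hk n R l (x - y)

/-- the pieces of `A` -/
def Ap (a : ℕ) : Set (EuclideanSpace ℝ (Fin n)) := A ∩ {x | β x = a}

theorem measurableSet_Ap (hA : MeasurableSet A) (hβ : Measurable β) (a : ℕ) :
    MeasurableSet (Ap n A β a) :=
  hA.inter (hβ (MeasurableSet.of_discrete (s := {a})))

/-- indicators of the pieces of `A` -/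
noncomputable def pc (a : ℕ) : EuclideanSpace ℝ (Fin n) → ℝ≥0∞ := (Ap n A β a).indicator 1

theorem measurable_pc (hA : MeasurableSet A) (hβ : Measurable β) (a : ℕ) :
    Measurable (pc n A β a) :=
  measurable_one.indicator (measurableSet_Ap n A β hA hβ a)

theorem pc_eq (x : EuclideanSpace ℝ (Fin n)) (a : ℕ) :
    pc n A β a x = if a = β x then A.indicator 1 x else 0 := by
  classical
  unfold pc
  by_cases hx : x ∈ A
  · by_cases ha : a = β x
    · have hm : x ∈ Ap n A β a := ⟨hx, ha.symm⟩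
      rw [if_pos ha, Set.indicator_of_mem hx, Set.indicator_of_mem hm]
    · rw [if_neg ha, Set.indicator_of_notMem (fun h => ha h.2.symm)]
  · rw [Set.indicator_of_notMem hx, Set.indicator_of_notMem (fun h => hx h.1)]
    split_ifs <;> rfl

theorem sum_pc_le (N : ℕ) (x : EuclideanSpace ℝ (Fin n)) :
    ∑ a ∈ Finset.range N, pc n A β a x ≤ 1 := by
  simp only [pc_eq]
  rw [Finset.sum_ite_eq' (Finset.range N) (β x) (fun _ => A.indicator 1 x)]
  split_ifs
  · by_cases hx : x ∈ A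
    · rw [Set.indicator_of_mem hx]
      exact le_rfl
    · rw [Set.indicator_of_notMem hx]
      exact zero_le
  · exact zero_le

theorem sum_vol_Ap (hA : MeasurableSet A) (hβ : Measurable β) (N : ℕ) :
    ∑ a ∈ Finset.range N, volume (Ap n A β a) ≤ volume A := by
  rw [← measure_biUnion_finset]
  · exact measure_mono (Set.iUnion₂_subset fun a _ => Set.inter_subset_left)
  · intro a _ b _ hab
    refine Set.disjoint_left.2 fun x hx hx' => hab ?_
    exact hx.2.symm.trans hx'.2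
  · exact fun a _ => measurableSet_Ap n A β hA hβ a

theorem lint_pc (hA : MeasurableSet A) (hβ : Measurable β) (a : ℕ) :
    ∫⁻ x, pc n A β a x = volume (Ap n A β a) := by
  unfold pc
  rw [lintegral_indicator_one (measurableSet_Ap n A β hA hβ a)]

theorem setint_Ap (B : Set (EuclideanSpace ℝ (Fin n))) (hBA : B ⊆ A) (hβn : ∀ x ∈ A, β x ≤ n)
    (g : EuclideanSpace ℝ (Fin n) → ℝ≥0∞) :
    ∫⁻ x in B, g x ≤ ∑ a ∈ Finset.range (n + 1), ∫⁻ x in Ap n A β a ∩ B, g x := by
  have h1 : B ⊆ ⋃ a : ℕ, (Ap n A β a ∩ B) := by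
    intro x hx
    exact Set.mem_iUnion.2 ⟨β x, ⟨hBA hx, rfl⟩, hx⟩
  refine (lintegral_mono_set h1).trans ((lintegral_iUnion_le _ _).trans ?_)
  rw [tsum_eq_sum (s := Finset.range (n + 1))]
  intro a ha
  have : Ap n A β a ∩ B = ∅ := by
    rw [Set.eq_empty_iff_forall_notMem]
    rintro x ⟨⟨hx1, hx2⟩, _⟩
    apply ha
    have := hβn x hx1
    rw [hx2] at this
    simp only [Finset.mem_range]
    omega
  rw [this]
  simp

theorem D_le (hA : MeasurableSet A) (hn : 4 ≤ n) (hR : 0 < R) (p l : ℕ) (hl : 1 ≤ l) :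
    DD n R A β p l ≤ volume A := by
  unfold DD
  calc _ ≤ ∫⁻ x in A, 1 := by
        refine lintegral_mono fun x => ?_
        refine (setLIntegral_le_lintegral _ _).trans ?_
        have h := step_pos n (by omega) R hR
        have hl0 : (0 : ℝ) < l := by exact_mod_cast hl
        exact (lintegral_heatK n (t := l * (R ^ 2 / (2 * n ^ 2))) (by positivity) x).le
    _ = volume A := by simp

theorem pair_eq (hA : MeasurableSet A) (hβ : Measurable β) (h : 0 < R ^ 2 / (2 * (n : ℝ) ^ 2))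
    (l a b : ℕ) (hl : 1 ≤ l) :
    ∫⁻ x in Ap n A β a, ∫⁻ y in Ap n A β b, hk n R l (x - y) =
      ∫⁻ x, pc n A β a x * (TT n R h).it l (pc n A β b) x := by
  obtain ⟨k, rfl⟩ : ∃ k, l = k + 1 := ⟨l - 1, by omega⟩
  rw [← lintegral_indicator (measurableSet_Ap n A β hA hβ a)]
  refine lintegral_congr fun x => ?_
  rw [TT_it n R h k _ (measurable_pc n A β hA hβ b)]
  by_cases hx : x ∈ Ap n A β a
  · rw [Set.indicator_of_mem hx, pc, Set.indicator_of_mem hx, Pi.one_apply, one_mul,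
      ← lintegral_indicator (measurableSet_Ap n A β hA hβ b)]
    refine lintegral_congr fun y => ?_
    by_cases hy : y ∈ Ap n A β b
    · rw [Set.indicator_of_mem hy, pc, Set.indicator_of_mem hy, Pi.one_apply, mul_one]
    · rw [Set.indicator_of_notMem hy, pc, Set.indicator_of_notMem hy, mul_zero]
  · rw [Set.indicator_of_notMem hx, pc, Set.indicator_of_notMem hx, zero_mul]

open Classical in
theorem DD_le_sum (hA : MeasurableSet A) (hβ : Measurable β) (hβn : ∀ x ∈ A, β x ≤ n)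
    (h : 0 < R ^ 2 / (2 * (n : ℝ) ^ 2)) (p l V : ℕ) (hl : 1 ≤ l) (hV : Vf p l ≤ V) :
    DD n R A β p l ≤ ∑ a ∈ Finset.range (n + 1), ∑ b ∈ Finset.range (n + 1),
      (if |(b : ℤ) - a - l| ≤ V then ∫⁻ x, pc n A β a x * (TT n R h).it l (pc n A β b) x
        else 0) := by
  unfold DD
  refine (setint_Ap n A β A le_rfl hβn _).trans (Finset.sum_le_sum fun a _ => ?_)
  have hAa : Ap n A β a ∩ A = Ap n A β a := Set.inter_eq_left.2 Set.inter_subset_left
  rw [hAa]
  have hmb : ∀ b, Measurable fun x => ∫⁻ y in Ap n A β b, hk n R l (x - y) := fun b =>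
    (measurable_hk n R l).lintegral_prod_right'
  calc _ ≤ ∫⁻ x in Ap n A β a, ∑ b ∈ Finset.range (n + 1),
        (if |(b : ℤ) - a - l| ≤ V then ∫⁻ y in Ap n A β b, hk n R l (x - y) else 0) := by
        refine setLIntegral_mono' (measurableSet_Ap n A β hA hβ a) fun x hx => ?_
        refine (setint_Ap n A β _ Set.inter_subset_left hβn _).trans
          (Finset.sum_le_sum fun b _ => ?_)
        rw [hx.2]
        split_ifs with hc
        · exact lintegral_mono_set Set.inter_subset_left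
        · have : Ap n A β b ∩ (A ∩ {y | |(β y : ℤ) - (a : ℕ) - l| ≤ Vf p l}) = ∅ := by
            rw [Set.eq_empty_iff_forall_notMem]
            rintro y ⟨⟨_, hy2⟩, ⟨_, hy4⟩⟩
            apply hc
            simp only [Set.mem_ofPred_eq] at hy2 hy4
            rw [hy2] at hy4
            refine hy4.trans ?_
            exact_mod_cast hV
          rw [this]
          simp
    _ = ∑ b ∈ Finset.range (n + 1), ∫⁻ x in Ap n A β a,
        (if |(b : ℤ) - a - l| ≤ V then ∫⁻ y in Ap n A β b, hk n R l (x - y) else 0) := by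
        rw [lintegral_finsetSum]
        intro b _
        split_ifs
        · exact hmb b
        · exact measurable_const
    _ = _ := by
        refine Finset.sum_congr rfl fun b _ => ?_
        split_ifs
        · exact pair_eq n R A β hA hβ h l a b hl
        · simp

theorem DD_block (hA : MeasurableSet A) (hAt : volume A ≠ ∞) (hβ : Measurable β)
    (hβn : ∀ x ∈ A, β x ≤ n) (hn : 4 ≤ n) (hR : 0 < R) (p B : ℕ) (hp : 1 ≤ p)
    (hB : 4096 * p ≤ B) :
    ∑ l ∈ Finset.Ico (8 * B) (16 * B), DD n R A β p l ≤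
      52 * (2 * (Vf p (16 * B) : ℝ≥0∞) + 1) * volume A := by
  classical
  have h := step_pos n (by omega) R hR
  have h1 := shift_sum (heatOp n (R ^ 2 / (2 * (n : ℝ) ^ 2) / 2) (by linarith)) (pc n A β)
    (measurable_pc n A β hA hβ) (sum_pc_le n A β)
    (fun a => by
      rw [lint_pc n A β hA hβ]
      exact ne_top_of_le_ne_top hAt (measure_mono Set.inter_subset_left))
    (n + 1) B (Vf p (16 * B)) (by omega) (Vf_le_block p B hp hB)
  calc _ ≤ _ := Finset.sum_le_sum fun l hl => by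
        rw [Finset.mem_Ico] at hl
        exact DD_le_sum n R A β hA hβ hβn h p l (Vf p (16 * B)) (by omega)
          (Vf_mono p hl.2.le)
    _ ≤ _ := h1
    _ ≤ _ := by
        gcongr
        simp only [lint_pc n A β hA hβ]
        exact sum_vol_Ap n A β hA hβ (n + 1)

end

theorem sum_dyadic (F : ℕ → ℝ≥0∞) (B0 m : ℕ) (hB0 : 1 ≤ B0) :
    ∑ l ∈ Finset.Ico 1 (8 * (B0 * 2 ^ m)), F l ≤ ∑ l ∈ Finset.Ico 1 (8 * B0), F l +
      ∑ i ∈ Finset.range m, ∑ l ∈ Finset.Ico (8 * (B0 * 2 ^ i)) (16 * (B0 * 2 ^ i)), F l := by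
  induction m with
  | zero => simp
  | succ m ih =>
    rw [Finset.sum_range_succ, ← add_assoc]
    have e : 8 * (B0 * 2 ^ (m + 1)) = 16 * (B0 * 2 ^ m) := by rw [pow_succ]; ring
    have h2 : 1 ≤ 2 ^ m := Nat.one_le_two_pow
    have h3 : 1 ≤ B0 * 2 ^ m := Nat.mul_pos hB0 h2
    rw [e, ← Finset.sum_Ico_consecutive F (m := 1) (n := 8 * (B0 * 2 ^ m)) (by omega) (by omega)]
    gcongr

theorem sum_near (n : ℕ) (R : ℝ) (A : Set (EuclideanSpace ℝ (Fin n)))
    (β : EuclideanSpace ℝ (Fin n) → ℕ) (hA : MeasurableSet A) (hAt : volume A ≠ ∞)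
    (hβ : Measurable β) (hβn : ∀ x ∈ A, β x ≤ n) (hn : 4 ≤ n) (hR : 0 < R) (p : ℕ) (hp : 1 ≤ p)
    (hpn : 3 * n + 1 ≤ 2 ^ p) :
    ∑ l ∈ Finset.range (3 * n), ENNReal.ofReal (12 / Real.sqrt ((l + 1 : ℕ) : ℝ)) *
      DD n R A β p (l + 1) ≤ 420000 * (p : ℝ≥0∞) ^ 2 * volume A := by
  set F : ℕ → ℝ≥0∞ := fun l => ENNReal.ofReal (12 / Real.sqrt ((l : ℕ) : ℝ)) *
      DD n R A β p l with hF
  have h1 : ∑ l ∈ Finset.range (3 * n), F (l + 1) ≤
      ∑ l ∈ Finset.Ico 1 (8 * ((4096 * p) * 2 ^ p)), F l := by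
    rw [Finset.sum_Ico_eq_sum_range]
    have e : ∀ l, F (l + 1) = F (1 + l) := fun l => by rw [add_comm]
    simp only [e]
    apply Finset.sum_le_sum_of_subset
    apply Finset.range_subset_range.2
    have : 2 ^ p ≤ p * 2 ^ p := Nat.le_mul_of_pos_left _ hp
    have : 8 * ((4096 * p) * 2 ^ p) = 32768 * (p * 2 ^ p) := by ring
    omega
  have h2 : ∑ l ∈ Finset.Ico 1 (8 * (4096 * p)), F l ≤ 393216 * p * volume A := by
    calc _ ≤ ∑ l ∈ Finset.Ico 1 (8 * (4096 * p)), 12 * volume A := by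
          refine Finset.sum_le_sum fun l hl => ?_
          rw [Finset.mem_Ico] at hl
          simp only [hF]
          gcongr
          · rw [show (12 : ℝ≥0∞) = ENNReal.ofReal 12 by simp]
            apply ENNReal.ofReal_le_ofReal
            have : 1 ≤ Real.sqrt ((l : ℕ) : ℝ) := by
              rw [Real.one_le_sqrt]
              exact_mod_cast hl.1
            exact div_le_self (by norm_num) this
          · exact D_le n R A β hA hn hR p l hl.1
      _ ≤ _ := by
          rw [Finset.sum_const, Nat.card_Ico, nsmul_eq_mul]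
          calc ((8 * (4096 * p) - 1 : ℕ) : ℝ≥0∞) * (12 * volume A) ≤
                ((8 * (4096 * p) : ℕ) : ℝ≥0∞) * (12 * volume A) := by
                gcongr
                omega
            _ = _ := by push_cast; ring
  have h3 : ∀ i, ∑ l ∈ Finset.Ico (8 * ((4096 * p) * 2 ^ i)) (16 * ((4096 * p) * 2 ^ i)), F l ≤
      20000 * p * volume A := by
    intro i
    set B := (4096 * p) * 2 ^ i with hB
    have hB1 : 4096 * p ≤ B := Nat.le_mul_of_pos_right _ (by positivity)
    have hB0 : 1 ≤ B := by omega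
    calc _ ≤ ∑ l ∈ Finset.Ico (8 * B) (16 * B),
          ENNReal.ofReal (12 / Real.sqrt ((8 * B : ℕ) : ℝ)) * DD n R A β p l := by
          refine Finset.sum_le_sum fun l hl => ?_
          rw [Finset.mem_Ico] at hl
          simp only [hF]
          have h8 : (0 : ℝ) < ((8 * B : ℕ) : ℝ) := by exact_mod_cast (by omega : 0 < 8 * B)
          have h9 : Real.sqrt ((8 * B : ℕ) : ℝ) ≤ Real.sqrt ((l : ℕ) : ℝ) :=
            Real.sqrt_le_sqrt (by exact_mod_cast hl.1)
          have h10 : 0 < Real.sqrt ((8 * B : ℕ) : ℝ) := Real.sqrt_pos.2 h8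
          exact mul_le_mul_left (ENNReal.ofReal_le_ofReal
            (div_le_div_of_nonneg_left (by norm_num) h10 h9)) _
      _ = ENNReal.ofReal (12 / Real.sqrt ((8 * B : ℕ) : ℝ)) *
          ∑ l ∈ Finset.Ico (8 * B) (16 * B), DD n R A β p l := by rw [Finset.mul_sum]
      _ ≤ ENNReal.ofReal (12 / Real.sqrt ((8 * B : ℕ) : ℝ)) *
          (52 * (2 * (Vf p (16 * B) : ℝ≥0∞) + 1) * volume A) := by
          gcongr
          exact DD_block n R A β hA hAt hβ hβn hn hR p B hp hB1
      _ = ENNReal.ofReal (12 / Real.sqrt ((8 * B : ℕ) : ℝ) *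
          (52 * (2 * (Vf p (16 * B) : ℝ) + 1))) * volume A := by
          rw [ENNReal.ofReal_mul (by positivity), ← mul_assoc]
          congr 2
          rw [ENNReal.ofReal_mul (by norm_num), ENNReal.ofReal_add (by positivity) (by norm_num),
            ENNReal.ofReal_mul (by norm_num), ENNReal.ofReal_natCast]
          simp
      _ ≤ ENNReal.ofReal (20000 * p) * volume A :=
          mul_le_mul_left (ENNReal.ofReal_le_ofReal (block_const p B hp hB1)) _
      _ = _ := by
          rw [ENNReal.ofReal_mul (by norm_num), ENNReal.ofReal_natCast]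
          simp
  have hp' : (p : ℝ≥0∞) ≤ (p : ℝ≥0∞) ^ 2 := by
    have : p ≤ p ^ 2 := Nat.le_self_pow (by norm_num) p
    exact_mod_cast this
  calc _ ≤ _ := h1
    _ ≤ _ := sum_dyadic F (4096 * p) p (by omega)
    _ ≤ 393216 * p * volume A + ∑ i ∈ Finset.range p, 20000 * p * volume A := by
        gcongr with i _
        exact h3 i
    _ = 393216 * p * volume A + 20000 * (p : ℝ≥0∞) ^ 2 * volume A := by
        rw [Finset.sum_const, Finset.card_range, nsmul_eq_mul]
        ring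
    _ ≤ 393216 * (p : ℝ≥0∞) ^ 2 * volume A + 20000 * (p : ℝ≥0∞) ^ 2 * volume A := by gcongr
    _ = 413216 * (p : ℝ≥0∞) ^ 2 * volume A := by ring
    _ ≤ _ := by
        gcongr
        norm_num

end Pool.MaxFn
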